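import Pool.Agent.UA.Defs

/-!
Theorem U (MP_31fd3b_gt), block F (topology): statements. Proofs: PAPER_F.md in this folder.
-/

namespace Pool.Agent.UA

open Pool.Agent.LibH11.Sliced Pool.Agent.TwoBr Pool.Agent.Mont

/-! ### 1. The three symmetries of a diagram -/

/-- FSY: `hD` (rotation about the vertical axis), `pD` (rotation in the plane), `flipD` (rotation
about the horizontal axis). -/
def FSY_Stmt : Prop :=
  (∀ (u v : Diag) (a b : ℕ), cnt a u = some b →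
    hD a (u ++ v) = hD a u ++ hD b v ∧ pD a (u ++ v) = pD b v ++ pD a u) ∧
  (∀ (t : Diag) (a b : ℕ), cnt a t = some b →
    hD a (hD a t) = t ∧ pD b (pD a t) = t ∧ flipD (flipD t) = t ∧ pD a (hD a t) = flipD t ∧
      hD b (flipD t) = pD a t ∧ hD b (pD a t) = flipD t ∧ pD b (flipD t) = hD a t ∧
      flipD (hD a t) = pD a t ∧ flipD (pD a t) = hD a t) ∧
  (∀ t : Diag, cnt 2 t = some 2 →
    hD 2 (rotD t) = (.cup, 2) :: (sh 1 (hD 2 t) ++ [(.cap, 0)]) ∧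
      flipD (rotD t) = (.cup, 2) :: (sh 1 (flipD t) ++ [(.cap, 0)]) ∧
      flipD (cl t) = cl (flipD t)) ∧
  ∀ e : ℤ, hD 2 (ht e) = ht e ∧ flipD (ht e) = ht e

/-- FEQ: the symmetries preserve the equivalence of diagrams. -/
def FEQ_Stmt : Prop :=
  ∀ (a b : ℕ) (x y : Diag), EqD a x y → cnt a x = some b →
    EqD a (hD a x) (hD a y) ∧ EqD b (pD a x) (pD a y) ∧ EqD b (flipD x) (flipD y)

/-- FCG: congruences and numbers of strands. -/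
def FCG_Stmt : Prop :=
  (∀ s t : Diag, EqD 2 s t → cnt 2 s = some 2 →
    EqD 2 (rotD s) (rotD t) ∧ EqD 1 (cl s) (cl t)) ∧
  (∀ s s' t t' : Diag, EqD 2 s s' → EqD 2 t t' → cnt 2 s = some 2 → cnt 2 t = some 2 →
    EqD 2 (s ++ t) (s' ++ t')) ∧
  (∀ s s' t t' : Diag, EqD 1 s s' → EqD 1 t t' → cnt 1 s = some 1 → cnt 1 t = some 1 →
    EqD 1 (s ++ t) (s' ++ t')) ∧
  (∀ t : Diag, cnt 2 t = some 2 → cnt 2 (rotD t) = some 2 ∧ cnt 1 (cl t) = some 1) ∧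
  (∀ T : Tr, cnt 2 T.dg = some 2) ∧ (∀ Ts : List Tr, cnt 1 (cls Ts) = some 1) ∧
  ∀ t : Diag, Arb t → cnt 2 t = some 2

/-! ### 2. Rotations, flypes -/

/-- FRO: rotations in the plane. -/
def FRO_Stmt : Prop :=
  ∀ t : Diag, cnt 2 t = some 2 →
    EqD 2 (rotD (rotD t)) (pD 2 t) ∧
      EqD 2 ((.cup, 2) :: (sh 1 t ++ [(.cap, 0)])) (rotD (pD 2 t))

/-- FFL: flypes; rotation of a long diagram about its axis. -/
def FFL_Stmt : Prop :=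
  (∀ (t : Diag) (e : Bool), cnt 2 t = some 2 →
    EqD 2 (t ++ [(.crs e, 0)]) ((.crs e, 0) :: hD 2 t)) ∧
  (∀ (t : Diag) (e : ℤ), cnt 2 t = some 2 →
    EqD 2 (t ++ ht e) (ht e ++ (if Even e then t else hD 2 t))) ∧
  ∀ w : Diag, cnt 1 w = some 1 → EqD 1 w (hD 1 w) ∧ EqD 1 (pD 1 w) (flipD w)

/-- FIT: small tangles. -/
def FIT_Stmt : Prop :=
  (∀ e : Bool, EqD 2 (rotD [(.crs e, 0)]) [(.crs (!e), 0)] ∧
    EqD 2 (rotD [] ++ [(.crs e, 0)]) (rotD []) ∧ EqD 2 ((.crs e, 0) :: rotD []) (rotD []) ∧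
    EqD 1 (cl [(.crs e, 0)]) []) ∧
  (∀ e : ℤ, EqD 2 (rotD [] ++ ht e) (rotD [])) ∧
  (∀ e : ℤ, |e| = 1 → EqD 2 (rotD (ht e)) (ht (-e)) ∧ EqD 1 (cl (ht e)) []) ∧
  EqD 2 (rotD []) [(.cap, 0), (.cup, 0)] ∧ EqD 2 (rotD (rotD [])) [] ∧ EqD 1 (cl (rotD [])) []

/-- FR3: the relation of order three. -/
def FR3_Stmt : Prop :=
  ∀ (t : Diag) (e : Bool), cnt 2 t = some 2 →
    EqD 2 (rotD (rotD t ++ [(.crs e, 0)])) ((.crs (!e), 0) :: rotD ((.crs (!e), 0) :: t))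

/-- FC0: the closures. -/
def FC0_Stmt : Prop :=
  ∀ s t : Diag, cnt 2 s = some 2 → cnt 2 t = some 2 →
    EqD 1 (cl (s ++ rotD t)) (cl (rotD (hD 2 s) ++ flipD t))

/-! ### 3. Trees -/

/-- FTA: the algebra of trees. -/
def FTA_Stmt : Prop :=
  (∀ T : Tr, ∃ T' : Tr, T'.size ≤ T.size ∧ EqD 2 (hD 2 T.dg) T'.dg) ∧
  (∀ T : Tr, ∃ T' : Tr, T'.size ≤ T.size ∧ EqD 2 (flipD T.dg) T'.dg) ∧
  (∀ T : Tr, ∃ T' : Tr, T'.size ≤ T.size ∧ EqD 2 (pD 2 T.dg) T'.dg) ∧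
  (∀ S T : Tr, ∃ T' : Tr, T'.size ≤ S.size + T.size ∧ EqD 2 (S.dg ++ T.dg) T'.dg) ∧
  (∀ (T : Tr) (c : ℤ), (T.shift c).size ≤ T.size + c.natAbs ∧
    EqD 2 (T.dg ++ ht c) (T.shift c).dg ∧
    ∃ T' : Tr, T'.size ≤ T.size + c.natAbs ∧ EqD 2 (ht c ++ T.dg) T'.dg) ∧
  ∀ t : Diag, Arb t → ∃ T : Tr, EqD 2 t T.dg

/-- VRU: local reductions of trees. -/
def VRU_Stmt : Prop :=
  (∀ (e : ℤ) (b : Tr), |e| = 1 → ∃ T' : Tr, T'.size < (Tr.cons (.pw e) b).size ∧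
    EqD 2 (Tr.cons (.pw e) b).dg T'.dg) ∧
  (∀ x b : Tr, ∃ T' : Tr, T'.size < (Tr.cons (.cons x (.pw 0)) b).size ∧
    EqD 2 (Tr.cons (.cons x (.pw 0)) b).dg T'.dg) ∧
  (∀ (e : ℤ) (x b : Tr), |e| = 1 → ∃ T' : Tr, T'.size < (Tr.cons (.cons x (.pw e)) b).size ∧
    EqD 2 (Tr.cons (.cons x (.pw e)) b).dg T'.dg) ∧
  ∀ e : ℤ, EqD 2 (Tr.cons (.pw 0) (.pw e)).dg (Tr.cons (.pw 0) (.pw 0)).dg

/-- RRT: reductions of closures. -/
def RRT_Stmt : Prop :=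
  (∀ a : Tr, ∃ a' : Tr, a'.size ≤ a.size ∧
    EqD 1 (cl (Tr.cons a (.pw 0)).dg) (cl (Tr.cons (.pw 0) a').dg)) ∧
  (∀ (a : Tr) (e : ℤ), |e| = 1 → ∃ T' : Tr, T'.size < (Tr.cons a (.pw e)).size ∧
    EqD 1 (cl (Tr.cons a (.pw e)).dg) (cl T'.dg)) ∧
  ∀ (a b : Tr) (e : ℤ), |e| ≤ 1 → ∃ T' : Tr, T'.size < (Tr.cons a (.cons b (.pw e))).size ∧
    EqD 1 (cl (Tr.cons a (.cons b (.pw e))).dg) (cl T'.dg)

/-! ### 4. Beads -/

/-- the position of the strand number `j` after the slice `(k, i)` -/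
def bpos : Kind → ℕ → ℕ → ℕ
  | .cup, i, j => if j < i then j else j + 2
  | .cap, i, j => if j < i then j else j - 2
  | .crs _, i, j => if j = i then i + 1 else if j = i + 1 then i else j

/-- BPS: a bead `f` passes a slice. -/
def BPS_Stmt : Prop :=
  ∀ f : Diag, cnt 1 f = some 1 →
    (∀ (k : Kind) (i j n : ℕ), i + k.ins ≤ n → j < n → (k = .cap → j ≠ i ∧ j ≠ i + 1) →
      EqD n (sh j f ++ [(k, i)]) ((k, i) :: sh (bpos k i j) f)) ∧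
    (∀ i n : ℕ, i + 2 ≤ n → EqD n (sh i f ++ [(.cap, i)]) (sh (i + 1) (pD 1 f) ++ [(.cap, i)]) ∧
      EqD n (sh (i + 1) f ++ [(.cap, i)]) (sh i (pD 1 f) ++ [(.cap, i)])) ∧
    ∀ i n : ℕ, i ≤ n → EqD n ((.cup, i) :: sh i f) ((.cup, i) :: sh (i + 1) (pD 1 f)) ∧
      EqD n ((.cup, i) :: sh (i + 1) f) ((.cup, i) :: sh i (pD 1 f))

/-- LKB: connectedness with and without the bead. -/
def LKB_Stmt : Prop :=
  ∀ (u v f : Diag) (j n : ℕ), cnt 1 f = some 1 → cnt 1 u = some n → j < n →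
    IsLongKnot (u ++ sh j f ++ v) → IsLongKnot (u ++ v) ∧ IsLongKnot f

/-- BOUT: a bead slides to one of the ends of the long strand. -/
def BOUT_Stmt : Prop :=
  ∀ (u v f : Diag) (j n : ℕ), cnt 1 f = some 1 → cnt 1 u = some n → j < n →
    IsLongKnot (u ++ v) → ∃ f' : Diag, (f' = f ∨ f' = pD 1 f) ∧
      (EqD 1 (u ++ sh j f ++ v) (f' ++ (u ++ v)) ∨ EqD 1 (u ++ sh j f ++ v) ((u ++ v) ++ f'))

/-- SPG: a tangle next to a minimum or a maximum becomes a bead. -/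
def SPG_Stmt : Prop :=
  (∀ t : Diag, cnt 2 t = some 2 →
    EqD 0 ((.cup, 0) :: t) ((.cup, 0) :: (.cup, 0) :: (t ++ [(.cap, 1)])) ∧
    EqD 1 ((.cup, 0) :: (t ++ [(.cap, 1)])) (cl (rotD [] ++ t)) ∧
    EqD 2 (t ++ [(.cap, 0)]) ((.cup, 1) :: (t ++ [(.cap, 0)]) ++ [(.cap, 0)]) ∧
    EqD 1 ((.cup, 1) :: (t ++ [(.cap, 0)])) (cl (t ++ rotD []))) ∧
  (∀ a : Tr, ∃ X : Tr, X.size ≤ a.size ∧ EqD 1 (cl (rotD [] ++ rotD a.dg)) (cl X.dg)) ∧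
  ∀ a : Tr, ∃ X : Tr, X.size ≤ a.size ∧ EqD 1 (cl (rotD a.dg ++ rotD [])) (cl X.dg)

/-- The diagram of the tree is the one of a smaller tree with a bead, the closure of another
smaller tree. -/
def Split (T : Tr) : Prop :=
  ∃ (u v : Diag) (j n : ℕ) (X T' : Tr), X.size < T.size ∧ T'.size < T.size ∧
    cnt 2 u = some n ∧ j < n ∧ EqD 2 T.dg (u ++ sh j (cl X.dg) ++ v) ∧ EqD 2 (u ++ v) T'.dg

/-- SPC: splittings. -/
def SPC_Stmt : Prop :=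
  (∀ c d : Tr, Split (.cons (.pw 0) (.cons c d))) ∧
  (∀ a : Tr, Split (.cons a (.cons (.pw 0) (.pw 0)))) ∧
  (∀ a b : Tr, Split a → Split (.cons a b)) ∧ ∀ a b : Tr, Split b → Split (.cons a b)

/-- LOC: every tree is reduced, or it is the tangle infinity, or it can be replaced by a smaller
one, or it splits. -/
def LOC_Stmt : Prop :=
  ∀ T : Tr, T.RC ∨ T = .cons (.pw 0) (.pw 0) ∨
    (∃ T' : Tr, T'.size < T.size ∧ EqD 2 T.dg T'.dg) ∨ Split T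

/-- SPK: the closure of a tree which splits is a connected sum. -/
def SPK_Stmt : Prop :=
  ∀ T : Tr, Split T → IsLongKnot (cl T.dg) → ∃ X Y : Tr, X.size < T.size ∧ Y.size < T.size ∧
    IsLongKnot (cl X.dg) ∧ IsLongKnot (cl Y.dg) ∧ EqD 1 (cl T.dg) (cl X.dg ++ cl Y.dg)

/-- FTOP: every closure of a tree is a connected sum of closures of closed reduced trees. -/
def FTOP_Stmt : Prop :=
  ∀ T : Tr, IsLongKnot (cl T.dg) → ∃ Ts : List Tr,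
    (∀ T' ∈ Ts, T'.CR ∧ IsLongKnot (cl T'.dg)) ∧ EqD 1 (cl T.dg) (cls Ts)

end Pool.Agent.UA
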