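import Pool.Agent.UA.StE
import Pool.Agent.TB.Ftm
import Pool.Agent.TB.Inv
import Pool.Agent.TB.Fti

/-!
JONE: if all finite type invariants of a long knot agree with those of the unknot then its Jones
polynomial is trivial over every ring.
-/

open scoped BigOperators

namespace Pool.Agent.UA

open Pool.Agent.LibH11.Sliced Pool.Agent.MTR Pool.Agent.UB
open Pool.Agent.TB hiding vec

namespace JONE

/-- `1 + X` as a unit -/
theorem exists_unit : ∃ b : (PowerSeries ℂ)ˣ, (b : PowerSeries ℂ) = 1 + PowerSeries.X := by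
  have h : IsUnit (1 + PowerSeries.X : PowerSeries ℂ) := by
    rw [PowerSeries.isUnit_iff_constantCoeff]
    simp
  exact ⟨h.unit, h.unit_spec⟩

/-- the variable of the Laurent polynomials as a unit -/
noncomputable def tu : (LaurentPolynomial ℤ)ˣ where
  val := LaurentPolynomial.T 1
  inv := LaurentPolynomial.T (-1)
  val_inv := by rw [← LaurentPolynomial.T_add]; simp
  inv_val := by rw [← LaurentPolynomial.T_add]; simp

/-- the homomorphism from the Laurent polynomials with `T 1 ↦ a` -/
noncomputable def ev (A : Type) [CommRing A] (a : Aˣ) : LaurentPolynomial ℤ →+* A :=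
  LaurentPolynomial.eval₂ (Int.castRingHom A) a

theorem ev_T (A : Type) [CommRing A] (a : Aˣ) (n : ℤ) :
    ev A a (LaurentPolynomial.T n) = ((a ^ n : Aˣ) : A) := by
  rw [ev, LaurentPolynomial.eval₂_T]

theorem map_tu (A : Type) [CommRing A] (a : Aˣ) :
    Units.map (ev A a : LaurentPolynomial ℤ →* A) tu = a := by
  apply Units.ext
  show ev A a (LaurentPolynomial.T 1) = a
  rw [ev_T, zpow_one]

theorem ev_toLaurent (A : Type) [CommRing A] (a : Aˣ) (p : Polynomial ℤ) :
    ev A a (Polynomial.toLaurent p) = p.eval₂ (Int.castRingHom A) (a : A) := by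
  rw [ev, LaurentPolynomial.eval₂_toLaurent]

theorem eval_inj (p : Polynomial ℤ)
    (h : p.eval₂ (Int.castRingHom (PowerSeries ℂ)) (1 + PowerSeries.X) = 0) : p = 0 := by
  set q : Polynomial ℂ := p.map (Int.castRingHom ℂ) with hq
  have h1 : (Polynomial.coeToPowerSeries.ringHom (R := ℂ)) (q.comp (1 + Polynomial.X)) = 0 := by
    rw [Polynomial.comp, Polynomial.hom_eval₂, hq, Polynomial.eval₂_map]
    rw [← h]
    congr 1
    · exact RingHom.ext_int _ _
    · simp
  have h2 : q.comp (1 + Polynomial.X) = 0 := by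
    apply Polynomial.coe_injective ℂ
    rw [Polynomial.coe_zero]
    exact h1
  have h3 : q = 0 := by
    have h4 : (q.comp (1 + Polynomial.X)).comp (Polynomial.X - 1) = q := by
      rw [Polynomial.comp_assoc]
      simp
    rw [← h4, h2, Polynomial.zero_comp]
  rw [hq] at h3
  exact (Polynomial.map_eq_zero_iff (Int.cast_injective (α := ℂ))).mp h3

theorem inj (b : (PowerSeries ℂ)ˣ) (hb : (b : PowerSeries ℂ) = 1 + PowerSeries.X) :
    Function.Injective (ev (PowerSeries ℂ) b) := by
  rw [injective_iff_map_eq_zero]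
  intro p hp
  obtain ⟨n, q, hq⟩ := LaurentPolynomial.exists_T_pow p
  have h1 : ev (PowerSeries ℂ) b (Polynomial.toLaurent q) = 0 := by
    rw [hq, map_mul, hp, zero_mul]
  rw [ev_toLaurent, hb] at h1
  have h2 := eval_inj q h1
  rw [h2, map_zero] at hq
  have h3 : p * LaurentPolynomial.T n * LaurentPolynomial.T (-n) = 0 := by
    rw [← hq, zero_mul]
  rw [mul_assoc, ← LaurentPolynomial.T_add] at h3
  simpa using h3

end JONE

open JONE in
/-- JONE. -/
theorem t_JONE (h1 : KBG_Stmt) (h2 : JNAT_Stmt) : JONE_Stmt := by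
  intro w h h0 hft A _ a
  obtain ⟨b, hb⟩ := exists_unit
  have hc : PowerSeries.constantCoeff (b : PowerSeries ℂ) = 1 := by
    rw [hb]
    simp
  have e1 : (jdata b).J (false, true) w = 1 := by
    have h3 := Pool.Agent.TB.ftm Pool.Agent.TB.inv Pool.Agent.TB.fti (Bool × Bool) (jdata b)
      (false, true) (h1.1 _ b) (h1.2 b hc) w [] h h0 hft
    rw [h3]
    simp [TData.J, TData.st]
  have e2 : (jdata tu).J (false, true) w = 1 := by
    apply inj b hb
    rw [map_one, ← h2.1 _ _ _ (JONE.ev (PowerSeries ℂ) b) (jdata tu), ← h2.2 _ _ _ tu, map_tu, e1]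
  rw [← map_tu A a, h2.2 _ _ (JONE.ev A a) tu, h2.1, e2, map_one]

end Pool.Agent.UA
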