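import Pool.Agent.UA.StJ

/-!
Theorem U (MP_31fd3b_gt), block E: module JDV (first order).
-/

open scoped BigOperators

namespace Pool.Agent.UA

open Pool.Agent.LibH11.Sliced Pool.Agent.TwoBr Pool.Agent.Mont Pool.Agent.MTR

namespace Jdv

theorem cf_add (k : ℕ) (f g : JR) : cf k (f + g) = cf k f + cf k g := by
  unfold cf
  rw [map_add]

theorem cf_sub (k : ℕ) (f g : JR) : cf k (f - g) = cf k f - cf k g := by
  unfold cf
  rw [map_sub]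

theorem cf_neg (k : ℕ) (f : JR) : cf k (-f) = -cf k f := by
  unfold cf
  rw [map_neg]

theorem cf0_mul (f g : JR) : cf 0 (f * g) = cf 0 f * cf 0 g := by
  unfold cf
  rw [PowerSeries.coeff_mul]
  simp

theorem cf1_mul (f g : JR) : cf 1 (f * g) = cf 0 f * cf 1 g + cf 1 f * cf 0 g := by
  unfold cf
  rw [PowerSeries.coeff_mul]
  rw [Finset.Nat.antidiagonal_succ]
  simp

theorem cf2_mul (f g : JR) :
    cf 2 (f * g) = cf 0 f * cf 2 g + cf 1 f * cf 1 g + cf 2 f * cf 0 g := by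
  unfold cf
  rw [PowerSeries.coeff_mul, Finset.Nat.sum_antidiagonal_eq_sum_range_succ_mk,
    Finset.sum_range_succ, Finset.sum_range_succ, Finset.sum_range_succ, Finset.sum_range_zero,
    zero_add]

theorem cf_C (k : ℕ) (c : ℂ) : cf k (PowerSeries.C c) = if k = 0 then c else 0 := by
  unfold cf
  rw [PowerSeries.coeff_C]

theorem cf_one (k : ℕ) : cf k (1 : JR) = if k = 0 then 1 else 0 := by
  unfold cf
  rw [PowerSeries.coeff_one]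

/-- coefficients of `exp X` -/
theorem cf_sx : cf 0 ((sx : JRˣ) : JR) = 1 ∧ cf 1 ((sx : JRˣ) : JR) = 1 ∧
    cf 2 ((sx : JRˣ) : JR) = 1 / 2 := by
  have h : ((sx : JRˣ) : JR) = PowerSeries.exp ℂ := rfl
  rw [h]
  unfold cf
  simp [PowerSeries.coeff_exp]

/-- coefficients of `exp (-X)` -/
theorem cf_sxi : cf 0 ((sx⁻¹ : JRˣ) : JR) = 1 ∧ cf 1 ((sx⁻¹ : JRˣ) : JR) = -1 ∧
    cf 2 ((sx⁻¹ : JRˣ) : JR) = 1 / 2 := by
  obtain ⟨h0, h1, h2⟩ := cf_sx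
  have h : ((sx : JRˣ) : JR) * ((sx⁻¹ : JRˣ) : JR) = 1 := by
    rw [← Units.val_mul, mul_inv_cancel, Units.val_one]
  have e0 := cf0_mul ((sx : JRˣ) : JR) ((sx⁻¹ : JRˣ) : JR)
  have e1 := cf1_mul ((sx : JRˣ) : JR) ((sx⁻¹ : JRˣ) : JR)
  have e2 := cf2_mul ((sx : JRˣ) : JR) ((sx⁻¹ : JRˣ) : JR)
  rw [h, cf_one, h0] at e0
  rw [h, cf_one, h0, h1] at e1
  rw [h, cf_one, h0, h1, h2] at e2
  simp only [if_true, one_mul] at e0
  simp only [one_ne_zero, if_false, one_mul] at e1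
  simp only [OfNat.ofNat_ne_zero, if_false, one_mul] at e2
  rw [← e0] at e1 e2 ⊢
  refine ⟨rfl, by linear_combination -e1, ?_⟩
  have h3 : cf 1 ((sx⁻¹ : JRˣ) : JR) = -1 := by linear_combination -e1
  rw [h3] at e2
  linear_combination -e2

/-- coefficients of `s^m` -/
theorem cf_zpow (m : ℤ) : cf 0 ((sx ^ m : JRˣ) : JR) = 1 ∧ cf 1 ((sx ^ m : JRˣ) : JR) = m ∧
    cf 2 ((sx ^ m : JRˣ) : JR) = (m : ℂ) ^ 2 / 2 := by
  obtain ⟨a0, a1, a2⟩ := cf_sx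
  obtain ⟨b0, b1, b2⟩ := cf_sxi
  induction m using Int.induction_on with
  | zero =>
    rw [zpow_zero, Units.val_one, cf_one, cf_one, cf_one]
    simp
  | succ m ih =>
    obtain ⟨i0, i1, i2⟩ := ih
    rw [zpow_add, zpow_one, Units.val_mul, cf0_mul, cf1_mul, cf2_mul, i0, i1, i2, a0, a1, a2]
    push_cast
    refine ⟨by ring, by ring, by ring⟩
  | pred m ih =>
    obtain ⟨i0, i1, i2⟩ := ih
    rw [zpow_sub, zpow_one, Units.val_mul, cf0_mul, cf1_mul, cf2_mul, i0, i1, i2, b0, b1, b2]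
    push_cast
    refine ⟨by ring, by ring, by ring⟩

/-- coefficients of `β` -/
theorem cf_be : cf 0 (be sx) = 0 ∧ cf 1 (be sx) = 4 ∧ cf 2 (be sx) = 0 := by
  have h1 : ((sx ^ 2 : JRˣ) : JR) = ((sx ^ (2 : ℤ) : JRˣ) : JR) := rfl
  have h2 : ((sx⁻¹ ^ 2 : JRˣ) : JR) = ((sx ^ (-2 : ℤ) : JRˣ) : JR) := by
    congr 1
  obtain ⟨a0, a1, a2⟩ := cf_zpow 2
  obtain ⟨b0, b1, b2⟩ := cf_zpow (-2)
  unfold be
  rw [h1, h2, cf_sub, cf_sub, cf_sub, a0, a1, a2, b0, b1, b2]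
  refine ⟨?_, ?_, ?_⟩ <;> push_cast <;> ring

theorem mul1 (v w : JR × JR) :
    cf 0 (mulv sx v w).1 = cf 0 v.2 * cf 0 w.1 + cf 0 v.1 * cf 0 w.2 ∧
    cf 0 (mulv sx v w).2 = cf 0 v.2 * cf 0 w.2 ∧
    cf 1 (mulv sx v w).1 = cf 0 v.2 * cf 1 w.1 + cf 1 v.2 * cf 0 w.1 + cf 0 v.1 * cf 1 w.2 +
      cf 1 v.1 * cf 0 w.2 + 4 * cf 0 v.1 * cf 0 w.1 ∧
    cf 1 (mulv sx v w).2 = cf 0 v.2 * cf 1 w.2 + cf 1 v.2 * cf 0 w.2 := by
  obtain ⟨b0, b1, -⟩ := cf_be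
  unfold mulv
  simp only [cf_add, cf0_mul, cf1_mul, b0, b1]
  refine ⟨by ring, trivial, by ring, trivial⟩

theorem ev_mul (v w : JR × JR) : ev (mulv sx v w) = (cf 0 w.2) ^ 2 * ev v +
    (cf 0 v.2) ^ 2 * ev w - 2 * ((cf 0 v.2) ^ 2 - 1) * ((cf 0 w.2) ^ 2 - 1) := by
  obtain ⟨h1, h2, h3, h4⟩ := mul1 v w
  unfold ev dv
  rw [h1, h2, h3, h4]
  ring

theorem ev_rot (v : JR × JR) : ev (rotv v) = ev v := by
  unfold ev dv rotv
  simp only [cf_neg]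
  ring

theorem pv_cf (h1 : JPV_Stmt) (e : ℤ) : cf 0 (pv sx e).1 = -(e : ℂ) ∧ cf 0 (pv sx e).2 = 1 ∧
    ev (pv sx e) = 0 := by
  obtain ⟨-, -, h, -, -⟩ := h1 JR sx
  obtain ⟨h2, h3⟩ := h e
  obtain ⟨x0, x1, x2⟩ := cf_zpow (4 * e)
  obtain ⟨b0, b1, b2⟩ := cf_be
  rw [← h2] at x0 x1 x2
  have e1 := congrArg (cf 1) h3
  have e2 := congrArg (cf 2) h3
  rw [cf_add, cf1_mul, b0, b1, x1, cf_one, if_neg one_ne_zero] at e1
  rw [cf_add, cf2_mul, b0, b1, b2, x2, cf_one, if_neg two_ne_zero] at e2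
  push_cast at e1 e2 x1 x2
  have y0 : cf 0 (pv sx e).1 = -(e : ℂ) := by linear_combination (1 / 4 : ℂ) * e1
  have y1 : cf 1 (pv sx e).1 = -2 * (e : ℂ) ^ 2 := by linear_combination (1 / 4 : ℂ) * e2
  refine ⟨y0, x0, ?_⟩
  unfold ev dv
  rw [y0, y1, x0, x1]
  ring

theorem tree (h1 : JPV_Stmt) : ∀ T : Tr, cf 0 (bv sx T).1 = ((vec T).1 : ℂ) ∧
    cf 0 (bv sx T).2 = ((vec T).2 : ℂ) ∧ ev (bv sx T) = (eT T : ℂ) := by
  intro T
  induction T with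
  | pw e =>
    obtain ⟨a, b, c⟩ := pv_cf h1 e
    unfold bv vec eT
    rw [a, b, c]
    push_cast
    exact ⟨rfl, rfl, rfl⟩
  | cons a b iha ihb =>
    obtain ⟨a1, a2, a3⟩ := iha
    obtain ⟨b1, b2, b3⟩ := ihb
    obtain ⟨m1, m2, -, -⟩ := mul1 (rotv (bv sx a)) (bv sx b)
    have m3 := ev_mul (rotv (bv sx a)) (bv sx b)
    rw [ev_rot, a3, b3, b2] at m3
    have r1 : cf 0 (rotv (bv sx a)).1 = -((vec a).2 : ℂ) := by
      unfold rotv
      rw [cf_neg, a2]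
    have r2 : cf 0 (rotv (bv sx a)).2 = ((vec a).1 : ℂ) := by
      unfold rotv
      exact a1
    rw [r1, r2, b1, b2] at m1
    rw [r2, b2] at m2
    rw [r2] at m3
    unfold bv vec eT
    rw [m1, m2, m3]
    unfold addv rv
    push_cast
    refine ⟨by ring, by ring, by ring⟩

end Jdv

open Jdv in
theorem t_JDV (h1 : JPV_Stmt) : JDV_Stmt := by
  refine ⟨ev_mul, ev_rot, tree h1, ?_, ?_⟩
  · intro v w
    obtain ⟨m1, m2, -, -⟩ := mul1 v w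
    refine ⟨m1, m2, ?_⟩
    unfold clv
    rw [cf_sub, cf0_mul, cf_be.1, zero_mul, sub_zero]
  · intro f g
    refine ⟨?_, ?_, ?_⟩
    · intro hf hg
      unfold w2
      rw [cf0_mul, cf1_mul, cf2_mul]
      field_simp
      ring
    · unfold w2
      rw [cf_neg, cf_neg, cf_neg, mul_neg, neg_div_neg_eq, neg_div_neg_eq]
    · rintro ⟨c, m, hc, rfl⟩
      obtain ⟨x0, x1, x2⟩ := cf_zpow m
      have c0 : cf 0 (PowerSeries.C c * ((sx ^ m : JRˣ) : JR)) = c := by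
        rw [cf0_mul, cf_C, if_pos rfl, x0, mul_one]
      have c1 : cf 1 (PowerSeries.C c * ((sx ^ m : JRˣ) : JR)) = c * m := by
        rw [cf1_mul, cf_C, cf_C, if_pos rfl, if_neg one_ne_zero, x1, zero_mul, add_zero]
      have c2 : cf 2 (PowerSeries.C c * ((sx ^ m : JRˣ) : JR)) = c * ((m : ℂ) ^ 2 / 2) := by
        rw [cf2_mul, cf_C, cf_C, cf_C, if_pos rfl, if_neg one_ne_zero, if_neg two_ne_zero, x2,
          zero_mul, zero_mul, add_zero, add_zero]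
      refine ⟨?_, by rw [c0]; exact hc⟩
      unfold w2
      rw [c0, c1, c2]
      field_simp
      ring

end Pool.Agent.UA
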