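import Pool.Agent.UA.StE
import Pool.Agent.UB.Jls

/-!
JDIV: the Jones polynomial of a connected sum is divisible by the polynomials of the trees.
-/

open scoped BigOperators

namespace Pool.Agent.UA

open Pool.Agent.LibH11.Sliced Pool.Agent.MTR Pool.Agent.UB
open Pool.Agent.TB hiding vec

namespace Jdiv

/-- the weight of a sign -/
def wb (b : Bool) : ℤ := if b then 1 else -1

/-- the weight of a label -/
def W (x : Bool × Bool) : ℤ × ℤ := (wb x.1, wb x.2)

theorem wb_inj : ∀ x y : Bool, wb x = wb y → x = y := by decide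

theorem W_inj (x y : Bool × Bool) (h : W x = W y) : x = y :=
  Prod.ext (wb_inj _ _ (congrArg Prod.fst h)) (wb_inj _ _ (congrArg Prod.snd h))

theorem W_add {x y a b : Bool × Bool} (h1 : wb x.1 + wb y.1 = wb a.1 + wb b.1)
    (h2 : wb x.2 + wb y.2 = wb a.2 + wb b.2) : W x + W y = W a + W b :=
  Prod.ext h1 h2

theorem W_zero {x y : Bool × Bool} (h1 : wb x.1 + wb y.1 = 0) (h2 : wb x.2 + wb y.2 = 0) :
    W x + W y = 0 := Prod.ext h1 h2

variable {A : Type} [CommRing A]

theorem kcup_ne {a : Aˣ} {x y : Bool} (h : kcup a x y ≠ 0) : wb x + wb y = 0 := by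
  cases x <;> cases y
  · exact absurd (by simp [kcup]) h
  · rfl
  · rfl
  · exact absurd (by simp [kcup]) h

theorem kcap_ne {a : Aˣ} {x y : Bool} (h : kcap a x y ≠ 0) : wb x + wb y = 0 := by
  cases x <;> cases y
  · exact absurd (by simp [kcap]) h
  · rfl
  · rfl
  · exact absurd (by simp [kcap]) h

theorem kb_R_ne {a : Aˣ} {e x y u v : Bool} (h : (kb a).R e x y u v ≠ 0) :
    wb x + wb y = wb u + wb v := by
  by_cases h1 : x = u ∧ y = v
  · rw [h1.1, h1.2]
  · have h2 : kcup a x y ≠ 0 := by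
      intro h3
      apply h
      show _ * (if x = u ∧ y = v then (1 : A) else 0) - _ * (kcup a x y * kcap a u v) = 0
      rw [if_neg h1, h3]
      ring
    have h3 : kcap a u v ≠ 0 := by
      intro h3
      apply h
      show _ * (if x = u ∧ y = v then (1 : A) else 0) - _ * (kcup a x y * kcap a u v) = 0
      rw [if_neg h1, h3]
      ring
    rw [kcup_ne h2, kcap_ne h3]

theorem od_R_ne {t : Aˣ} {e x y u v : Bool} (h : (od t).R e x y u v ≠ 0) :
    wb x + wb y = wb u + wb v := by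
  by_cases h1 : x = v ∧ y = u
  · rw [h1.1, h1.2, add_comm]
  · exact absurd (if_neg h1) h

theorem ne_wb : ∀ {x y : Bool}, x ≠ y → wb x + wb y = 0 := by decide

theorem od_cup_ne {t : Aˣ} {x y : Bool} (h : (od t).cup x y ≠ 0) : wb x + wb y = 0 := by
  by_cases h1 : x ≠ y
  · exact ne_wb h1
  · exact absurd (if_neg h1) h

theorem od_cap_ne {t : Aˣ} {x y : Bool} (h : (od t).cap x y ≠ 0) : wb x + wb y = 0 := by
  by_cases h1 : x ≠ y
  · exact ne_wb h1
  · exact absurd (if_neg h1) h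

theorem J_mul (h3 : MULG_Stmt) (a : Aˣ) (u v : Diag) (hu : cnt 1 u = some 1) :
    (jdata a).J (false, true) (u ++ v) =
      (jdata a).J (false, true) u * (jdata a).J (false, true) v := by
  refine h3 A (Bool × Bool) (ℤ × ℤ) (jdata a) W (false, true) (fun x hx => W_inj _ _ hx) ?_ ?_ ?_
    u v hu
  · intro e x y p q h
    have h' : (kb a).R e x.1 y.1 p.1 q.1 * (od (a⁻¹ ^ 6)).R e x.2 y.2 p.2 q.2 ≠ 0 := h
    exact W_add (kb_R_ne (left_ne_zero_of_mul h')) (od_R_ne (right_ne_zero_of_mul h'))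
  · intro x y h
    have h' : kcup a x.1 y.1 * (od (a⁻¹ ^ 6)).cup x.2 y.2 ≠ 0 := h
    exact W_zero (kcup_ne (left_ne_zero_of_mul h')) (od_cup_ne (right_ne_zero_of_mul h'))
  · intro x y h
    have h' : kcap a x.1 y.1 * (od (a⁻¹ ^ 6)).cap x.2 y.2 ≠ 0 := h
    exact W_zero (kcap_ne (left_ne_zero_of_mul h')) (od_cap_ne (right_ne_zero_of_mul h'))

end Jdiv

open Jdiv in
theorem t_JDIV (h1 : ACT_Stmt) (h2 : PRD_Stmt) (h3 : MULG_Stmt) (h4 : KBM_Stmt) : JDIV_Stmt := by
  intro A _ κ s hκ Ts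
  have htree : ∀ t : Tr, ∃ q : A,
      (jdata (κ * s)).J (false, true) (cl t.dg) = clv s (bv s t) * q := by
    intro t
    have e1 := h2.1 A Bool Bool (kb (κ * s)) (od ((κ * s)⁻¹ ^ 6)) false true t
    have e2 : (jdata (κ * s)).J (false, true) (cl t.dg) =
        clo (kb (κ * s)) (mt (kb (κ * s)) t) false *
          clo (od ((κ * s)⁻¹ ^ 6)) (mt (od ((κ * s)⁻¹ ^ 6)) t) true :=
      (h1 A (Bool × Bool) (jdata (κ * s)) (false, true) t).trans e1
    rw [(h4 A κ s hκ t).2 false] at e2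
    refine ⟨((κ ^ (2 * nc t + 2) : Aˣ) : A) *
      clo (od ((κ * s)⁻¹ ^ 6)) (mt (od ((κ * s)⁻¹ ^ 6)) t) true, ?_⟩
    rw [e2]
    ring
  induction Ts with
  | nil =>
    intro t ht
    exact absurd ht List.not_mem_nil
  | cons t' Ts ih =>
    intro t ht
    have e1 : (jdata (κ * s)).J (false, true) (cls (t' :: Ts)) =
        (jdata (κ * s)).J (false, true) (cl t'.dg) *
          (jdata (κ * s)).J (false, true) (cls Ts) :=
      J_mul h3 (κ * s) (cl t'.dg) (cls Ts) (UB.Jls.cnt_cl (UB.Jls.cnt_dg t'))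
    rcases List.mem_cons.1 ht with h | h
    · obtain ⟨q, hq⟩ := htree t'
      subst h
      exact ⟨q * (jdata (κ * s)).J (false, true) (cls Ts), by rw [e1, hq, mul_assoc]⟩
    · obtain ⟨q, hq⟩ := ih t h
      exact ⟨(jdata (κ * s)).J (false, true) (cl t'.dg) * q, by rw [e1, hq]; ring⟩

end Pool.Agent.UA
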