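import Pool.Agent.UA.StJ

set_option autoImplicit false

open scoped BigOperators

/-!
Theorem U (MP_31fd3b_gt), block E: elementary properties of the vectors over a ring with a unit.
-/

namespace Pool.Agent.UA

namespace Jpv

variable {R : Type} [CommRing R] (s : Rˣ)

theorem mulv_comm (u v : R × R) : mulv s u v = mulv s v u := by
  ext
  · simp only [mulv]; ring
  · simp only [mulv]; ring

theorem mulv_assoc (u v w : R × R) : mulv s (mulv s u v) w = mulv s u (mulv s v w) := by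
  ext
  · simp only [mulv]; ring
  · simp only [mulv]; ring

theorem one_mulv (v : R × R) : mulv s (0, 1) v = v := by
  ext
  · simp only [mulv]; ring
  · simp only [mulv]; ring

theorem mulv_phi (u v : R × R) : (mulv s u v).2 + be s * (mulv s u v).1 =
    (u.2 + be s * u.1) * (v.2 + be s * v.1) := by
  simp only [mulv]; ring

/-- `s^2 β = s^4 - 1` -/
theorem sq_be : (s : R) ^ 2 * be s = (s : R) ^ 4 - 1 := by
  have h : (s : R) * ((s⁻¹ : Rˣ) : R) = 1 := Units.mul_inv s
  simp only [be, Units.val_pow_eq_pow_val]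
  linear_combination (-1 - (s : R) * ((s⁻¹ : Rˣ) : R)) * h

theorem pv_zero : pv s 0 = (0, 1) := by
  change pv s (Int.ofNat 0) = _
  ext
  · simp [pv]
  · simp [pv]

theorem pv_one : pv s 1 = (-(s : R) ^ 2, (s : R) ^ 4) := by
  change pv s (Int.ofNat 1) = _
  ext
  · simp [pv]
  · simp [pv]

theorem mulv_pv_one (v : R × R) :
    mulv s (pv s 1) v = (v.1 - (s : R) ^ 2 * v.2, (s : R) ^ 4 * v.2) := by
  have h := sq_be s
  rw [pv_one]
  ext
  · simp only [mulv]
    linear_combination (-v.1) * h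
  · simp only [mulv]

theorem pv_succ (a : ℤ) : mulv s (pv s 1) (pv s a) = pv s (a + 1) := by
  rw [mulv_pv_one]
  have h : (s : R) * ((s⁻¹ : Rˣ) : R) = 1 := Units.mul_inv s
  have h2 : (s : R) ^ 2 * ((s⁻¹ : Rˣ) : R) ^ 2 = 1 := by rw [← mul_pow, h, one_pow]
  have h4 : (s : R) ^ 4 * ((s⁻¹ : Rˣ) : R) ^ 4 = 1 := by rw [← mul_pow, h, one_pow]
  rcases a with e | e
  · have e1 : Int.ofNat e + 1 = Int.ofNat (e + 1) := rfl
    rw [e1]
    ext
    · simp only [pv, Finset.sum_range_succ, Units.val_pow_eq_pow_val]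
      ring
    · simp only [pv, Units.val_pow_eq_pow_val]
      ring
  · rcases e with _ | e
    · have e1 : Int.negSucc 0 + 1 = 0 := rfl
      rw [e1, pv_zero]
      ext
      · simp only [pv, Finset.sum_range_succ, Finset.sum_range_zero, Units.val_pow_eq_pow_val]
        linear_combination (-((s⁻¹ : Rˣ) : R) ^ 2) * h2
      · simp only [pv, Units.val_pow_eq_pow_val]
        linear_combination h4
    · have e1 : Int.negSucc (e + 1) + 1 = Int.negSucc e := rfl
      rw [e1]
      ext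
      · simp only [pv, Units.val_pow_eq_pow_val]
        rw [Finset.sum_range_succ _ (e + 1)]
        have e2 : ((s⁻¹ : Rˣ) : R) ^ (4 * (e + 1 + 1)) =
            ((s⁻¹ : Rˣ) : R) ^ (4 * (e + 1)) * (((s⁻¹ : Rˣ) : R) ^ 2 * ((s⁻¹ : Rˣ) : R) ^ 2) := by
          ring
        rw [e2]
        linear_combination (-((s⁻¹ : Rˣ) : R) ^ 2 * ((s⁻¹ : Rˣ) : R) ^ (4 * (e + 1))) * h2
      · simp only [pv, Units.val_pow_eq_pow_val]
        have e2 : ((s⁻¹ : Rˣ) : R) ^ (4 * (e + 1 + 1)) =
            ((s⁻¹ : Rˣ) : R) ^ (4 * (e + 1)) * ((s⁻¹ : Rˣ) : R) ^ 4 := by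
          ring
        rw [e2]
        linear_combination (((s⁻¹ : Rˣ) : R) ^ (4 * (e + 1))) * h4

theorem pv_neg_one_mul (v : R × R) : mulv s (pv s (-1)) (mulv s (pv s 1) v) = v := by
  rw [← mulv_assoc, mulv_comm s (pv s (-1)) (pv s 1), pv_succ]
  have : (-1 : ℤ) + 1 = 0 := rfl
  rw [this, pv_zero, one_mulv]

theorem mulv_pv_cancel {v w : R × R} (h : mulv s (pv s 1) v = mulv s (pv s 1) w) : v = w := by
  rw [← pv_neg_one_mul s v, h, pv_neg_one_mul]

theorem pv_add (a b : ℤ) : mulv s (pv s a) (pv s b) = pv s (a + b) := by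
  induction a with
  | zero => rw [pv_zero, one_mulv, zero_add]
  | succ i ih => rw [← pv_succ, mulv_assoc, ih, pv_succ]; congr 1; ring
  | pred i ih =>
    apply mulv_pv_cancel s
    rw [← mulv_assoc, pv_succ, pv_succ]
    have e1 : -(i : ℤ) - 1 + 1 = -(i : ℤ) := by ring
    rw [e1, ih]
    congr 1; ring

theorem pv_snd (a : ℤ) : (pv s a).2 = ((s ^ (4 * a) : Rˣ) : R) := by
  rcases a with e | e
  · have e1 : (4 : ℤ) * Int.ofNat e = ((4 * e : ℕ) : ℤ) := by simp
    rw [e1, zpow_natCast]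
    rfl
  · have e1 : (4 : ℤ) * Int.negSucc e = -((4 * (e + 1) : ℕ) : ℤ) := by
      rw [Int.negSucc_eq]; push_cast; ring
    rw [e1, zpow_neg, zpow_natCast, ← inv_pow]
    rfl

theorem pv_phi (a : ℤ) : (pv s a).2 + be s * (pv s a).1 = 1 := by
  have h1 : (pv s 1).2 + be s * (pv s 1).1 = 1 := by
    rw [pv_one]
    linear_combination (-1 : R) * sq_be s
  induction a with
  | zero => rw [pv_zero]; simp
  | succ i ih => rw [← pv_succ, mulv_phi, ih, h1, one_mul]
  | pred i ih =>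
    have h2 := mulv_phi s (pv s 1) (pv s (-(i : ℤ) - 1))
    rw [pv_succ, h1, one_mul] at h2
    have e1 : -(i : ℤ) - 1 + 1 = -(i : ℤ) := by ring
    rw [e1, ih] at h2
    exact h2.symm

theorem bv_shift (T : Tr) (c : ℤ) : bv s (T.shift c) = mulv s (pv s c) (bv s T) := by
  induction T with
  | pw e =>
    change pv s (e + c) = mulv s (pv s c) (pv s e)
    rw [pv_add, add_comm]
  | cons a b _ ih =>
    change mulv s (rotv (bv s a)) (bv s (b.shift c)) =
      mulv s (pv s c) (mulv s (rotv (bv s a)) (bv s b))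
    rw [ih, ← mulv_assoc, ← mulv_assoc, mulv_comm s (rotv (bv s a))]

theorem cube (v : R × R) :
    mulv s (pv s 1) (rotv (mulv s (pv s 1) (rotv (mulv s (pv s 1) (rotv v))))) =
      (((s ^ 6 : Rˣ) : R) * v.1, ((s ^ 6 : Rˣ) : R) * v.2) := by
  rw [mulv_pv_one, mulv_pv_one, mulv_pv_one]
  ext
  · simp only [rotv, Units.val_pow_eq_pow_val]; ring
  · simp only [rotv, Units.val_pow_eq_pow_val]; ring

end Jpv

theorem t_JPV : JPV_Stmt := by
  intro R _ s
  refine ⟨fun u v w => ⟨Jpv.mulv_comm s u v, Jpv.mulv_assoc s u v w, Jpv.one_mulv s v, ?_,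
    Jpv.mulv_phi s u v, ?_⟩, Jpv.pv_add s, fun a => ⟨Jpv.pv_snd s a, Jpv.pv_phi s a⟩,
    Jpv.bv_shift s, Jpv.cube s⟩
  · simp only [clv, mulv, rotv]; ring
  · simp only [clv, rotv]; ring

end Pool.Agent.UA
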