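import Pool.Agent.UA.StJ

/-!
Module WAD of Theorem U (MP_31fd3b_gt): additivity of the second logarithmic derivative.
-/

open scoped BigOperators

namespace Pool.Agent.UA

open Pool.Agent.LibH11.Sliced Pool.Agent.TwoBr Pool.Agent.Mont Pool.Agent.MTR

namespace Wadx

theorem cf_add (k : ℕ) (f g : JR) : cf k (f + g) = cf k f + cf k g := map_add _ _ _

theorem cf_sub (k : ℕ) (f g : JR) : cf k (f - g) = cf k f - cf k g := map_sub _ _ _

theorem cf0_mul (f g : JR) : cf 0 (f * g) = cf 0 f * cf 0 g := by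
  unfold cf
  rw [PowerSeries.coeff_mul, Finset.Nat.sum_antidiagonal_eq_sum_range_succ
    (fun i j => PowerSeries.coeff i f * PowerSeries.coeff j g)]
  simp [Finset.sum_range_succ]

theorem cf1_mul (f g : JR) : cf 1 (f * g) = cf 0 f * cf 1 g + cf 1 f * cf 0 g := by
  unfold cf
  rw [PowerSeries.coeff_mul, Finset.Nat.sum_antidiagonal_eq_sum_range_succ
    (fun i j => PowerSeries.coeff i f * PowerSeries.coeff j g)]
  simp [Finset.sum_range_succ]

theorem cf2_mul (f g : JR) :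
    cf 2 (f * g) = cf 0 f * cf 2 g + cf 1 f * cf 1 g + cf 2 f * cf 0 g := by
  unfold cf
  rw [PowerSeries.coeff_mul, Finset.Nat.sum_antidiagonal_eq_sum_range_succ
    (fun i j => PowerSeries.coeff i f * PowerSeries.coeff j g)]
  simp [Finset.sum_range_succ]

theorem cf_exp (k : ℕ) : cf k (PowerSeries.exp ℂ) = 1 / (k.factorial : ℂ) := by
  unfold cf
  rw [PowerSeries.coeff_exp]
  simp

theorem cf_neg_exp (k : ℕ) :
    cf k (PowerSeries.evalNegHom (PowerSeries.exp ℂ)) = (-1) ^ k / (k.factorial : ℂ) := by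
  unfold cf PowerSeries.evalNegHom
  rw [PowerSeries.coeff_rescale, PowerSeries.coeff_exp]
  simp [div_eq_mul_inv]

theorem sx_val : ((sx : JRˣ) : JR) = PowerSeries.exp ℂ := rfl

theorem sx_inv_val : ((sx⁻¹ : JRˣ) : JR) = PowerSeries.evalNegHom (PowerSeries.exp ℂ) := rfl

theorem be_eq : be sx = PowerSeries.exp ℂ * PowerSeries.exp ℂ -
    PowerSeries.evalNegHom (PowerSeries.exp ℂ) * PowerSeries.evalNegHom (PowerSeries.exp ℂ) := by
  unfold be
  rw [Units.val_pow_eq_pow_val, Units.val_pow_eq_pow_val, sx_val, sx_inv_val, pow_two, pow_two]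

theorem be0 : cf 0 (be sx) = 0 := by
  rw [be_eq, cf_sub, cf0_mul, cf0_mul, cf_exp, cf_neg_exp]
  simp

theorem be1 : cf 1 (be sx) = 4 := by
  rw [be_eq, cf_sub, cf1_mul, cf1_mul, cf_exp, cf_neg_exp, cf_exp, cf_neg_exp]
  norm_num

theorem be2 : cf 2 (be sx) = 0 := by
  rw [be_eq, cf_sub, cf2_mul, cf2_mul, cf_exp, cf_neg_exp, cf_exp, cf_neg_exp, cf_exp, cf_neg_exp]
  norm_num [Nat.factorial]

/-- the value of the closure of a product -/
theorem clm (v w : JR × JR) : clv sx (mulv sx v w) =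
    v.2 * w.1 + v.1 * w.2 + be sx * (v.1 * w.1) - be sx * (v.2 * w.2) := by
  unfold clv mulv
  ring

theorem clm0 (v w : JR × JR) : cf 0 (clv sx (mulv sx v w)) =
    cf 0 v.2 * cf 0 w.1 + cf 0 v.1 * cf 0 w.2 := by
  rw [clm]
  simp only [cf_sub, cf_add, cf0_mul, be0]
  ring

theorem clm1 (v w : JR × JR) : cf 1 (clv sx (mulv sx v w)) =
    cf 0 v.2 * cf 1 w.1 + cf 1 v.2 * cf 0 w.1 + (cf 0 v.1 * cf 1 w.2 + cf 1 v.1 * cf 0 w.2) +
      4 * (cf 0 v.1 * cf 0 w.1 - cf 0 v.2 * cf 0 w.2) := by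
  rw [clm]
  simp only [cf_sub, cf_add, cf0_mul, cf1_mul, be0, be1]
  ring

theorem clm2 (v w : JR × JR) : cf 2 (clv sx (mulv sx v w)) =
    (cf 0 v.2 * cf 2 w.1 + cf 1 v.2 * cf 1 w.1 + cf 2 v.2 * cf 0 w.1) +
      (cf 0 v.1 * cf 2 w.2 + cf 1 v.1 * cf 1 w.2 + cf 2 v.1 * cf 0 w.2) +
      4 * (cf 0 v.1 * cf 1 w.1 + cf 1 v.1 * cf 0 w.1 -
        cf 0 v.2 * cf 1 w.2 - cf 1 v.2 * cf 0 w.2) := by
  rw [clm]
  simp only [cf_sub, cf_add, cf0_mul, cf1_mul, cf2_mul, be0, be1, be2]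
  ring

/-- the second logarithmic derivative if the constant coefficient is a sign -/
theorem w2_of {f : JR} (h : cf 0 f = 1 ∨ cf 0 f = -1) :
    w2 f = 2 * cf 2 f * cf 0 f - cf 1 f ^ 2 := by
  unfold w2
  rcases h with h | h
  · rw [h]
    ring
  · rw [h]
    ring

theorem sgn_mul {a b c : ℂ} (ha : a = 1 ∨ a = -1) (hb : b = 1 ∨ b = -1) (h : c = a * b) :
    c = 1 ∨ c = -1 := by
  rcases ha with rfl | rfl <;> rcases hb with rfl | rfl <;> subst h <;> simp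

end Wadx

/-- Module WAD. -/
theorem t_WAD (_h1 : JPV_Stmt) (_h3 : JDV_Stmt) : WAD_Stmt := by
  intro l v S R a b ha hb hS1 hS2 hR1 hR2 hS hR hp
  have hp' : cf 0 (clv sx (mulv sx S v)) = 1 ∨ cf 0 (clv sx (mulv sx S v)) = -1 := by
    refine Wadx.sgn_mul ha hp ?_
    rw [Wadx.clm0, Wadx.clm0, hS1, hS2]
    ring
  have hq' : cf 0 (clv sx (mulv sx l R)) = 1 ∨ cf 0 (clv sx (mulv sx l R)) = -1 := by
    refine Wadx.sgn_mul hb hp ?_
    rw [Wadx.clm0, Wadx.clm0, hR1, hR2]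
    ring
  have hq : cf 0 (clv sx (mulv sx S R)) = 1 ∨ cf 0 (clv sx (mulv sx S R)) = -1 := by
    refine Wadx.sgn_mul ha hq' ?_
    rw [Wadx.clm0, Wadx.clm0, hS1, hS2]
    ring
  have he : 2 * ev l * ev v = 2 * (ev l - ev S) * (ev v - ev R) := by
    rw [hS, hR, sub_zero, sub_zero]
  rw [Wadx.w2_of hp, Wadx.w2_of hq, Wadx.w2_of hp', Wadx.w2_of hq', he]
  unfold ev dv
  simp only [Wadx.clm0, Wadx.clm1, Wadx.clm2, hS1, hS2, hR1, hR2]
  rcases ha with rfl | rfl <;> rcases hb with rfl | rfl <;> ring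

end Pool.Agent.UA
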