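import Pool.Agent.UA.StJ

/-!
Module WLE of Theorem U (MP_31fd3b_gt): the recursion and the general inequality for the second
logarithmic derivative.
-/

open scoped BigOperators

namespace Pool.Agent.UA

open Pool.Agent.LibH11.Sliced Pool.Agent.TwoBr Pool.Agent.Mont Pool.Agent.MTR

namespace Wlex

theorem rv_neg (v : ℤ × ℤ) : rv (-v) = -rv v := by
  ext <;> simp [rv]

theorem addv_neg_left (u v : ℤ × ℤ) : addv (-u) v = -addv u v := by
  ext <;> simp [addv] <;> ring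

theorem ok_neg (T : Tr) : ∀ L : ℤ × ℤ, OK L T → OK (-L) T := by
  induction T with
  | pw e => intro L _; trivial
  | cons a b iha ihb =>
    intro L h
    obtain ⟨h1, h2, h3⟩ := h
    refine ⟨?_, ?_, ?_⟩
    · simpa using h1
    · rw [addv_neg_left, rv_neg]; exact iha _ h2
    · rw [addv_neg_left]; exact ihb _ h3

theorem rat_eT (T : Tr) : T.Rat → eT T = 0 := by
  induction T with
  | pw e => intro _; rfl
  | cons a b iha _ =>
    intro h
    obtain ⟨h1, h2⟩ := h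
    cases b with
    | pw e => simp [eT, iha h1, vec]
    | cons c d => simp [Tr.kids] at h2

/-- a rational tree with a given vector, up to sign -/
theorem exists_ref (h5 : RATJ_Stmt) (v : ℤ × ℤ) (h : IsCoprime v.1 v.2) :
    ∃ (T : Tr) (σ : ℤ), T.Rat ∧ (σ = 1 ∨ σ = -1) ∧ vec T = (σ * v.1, σ * v.2) := by
  obtain ⟨T, hT, hv⟩ := h5.1 v.1 v.2 h
  rcases hv with hv | hv
  · exact ⟨T, 1, hT, Or.inl rfl, by rw [hv]; simp⟩
  · exact ⟨T, -1, hT, Or.inr rfl, by rw [hv]; simp⟩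

theorem pm_of (v w : ℤ × ℤ) (σ : ℤ) (hσ : σ = 1 ∨ σ = -1) (h : w = (σ * v.1, σ * v.2)) :
    w = v ∨ w = -v := by
  rcases hσ with rfl | rfl
  · left; rw [h]; simp
  · right; rw [h]; ext <;> simp

theorem pm_cast {σ : ℤ} (hσ : σ = 1 ∨ σ = -1) : (σ : ℂ) = 1 ∨ (σ : ℂ) = -1 := by
  rcases hσ with rfl | rfl
  · left; simp
  · right; simp

theorem pm_abs {σ : ℤ} (hσ : σ = 1 ∨ σ = -1) : |σ| = 1 := by
  rcases hσ with rfl | rfl <;> simp

theorem pm_sq {σ : ℤ} (hσ : σ = 1 ∨ σ = -1) : σ ^ 2 = 1 := by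
  rcases hσ with rfl | rfl <;> simp

theorem pm_of_abs {d : ℤ} (h : |d| = 1) : (d : ℂ) = 1 ∨ (d : ℂ) = -1 :=
  pm_cast (by
    rcases abs_choice d with h' | h'
    · left; omega
    · right; omega)

theorem bv_rot (h1 : JPV_Stmt) (R : Tr) : bv sx (.cons R (.pw 0)) = rotv (bv sx R) := by
  have h0 : pv sx 0 = ((0 : JR), (1 : JR)) := by
    show pv sx (Int.ofNat 0) = _
    simp [pv]
  show mulv sx (rotv (bv sx R)) (pv sx 0) = _
  rw [h0, ((h1 JR sx).1 (rotv (bv sx R)) ((0 : JR), (1 : JR)) (0, 1)).1]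
  exact ((h1 JR sx).1 (0, 1) (rotv (bv sx R)) (0, 1)).2.2.1

theorem rotv_rotv (v : JR × JR) : rotv (rotv v) = -v := by
  ext1 <;> simp [rotv]

theorem mulv_neg (u v : JR × JR) : mulv sx u (-v) = -mulv sx u v := by
  ext1 <;> simp [mulv] <;> ring

theorem clv_neg (v : JR × JR) : clv sx (-v) = -clv sx v := by
  simp [clv]; ring

theorem sq_le_of_coprime (x y : ℤ) (h : IsCoprime x y) : 0 ≤ (x ^ 2 - 1) * (y ^ 2 - 1) := by
  by_cases hx : x = 0
  · subst hx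
    have hy : IsUnit y := isCoprime_zero_left.mp h
    rcases Int.isUnit_iff.mp hy with rfl | rfl <;> simp
  by_cases hy : y = 0
  · subst hy
    have hx' : IsUnit x := isCoprime_zero_right.mp h
    rcases Int.isUnit_iff.mp hx' with rfl | rfl <;> simp
  have hx1 : 0 < x ^ 2 := by positivity
  have hy1 : 0 < y ^ 2 := by positivity
  exact mul_nonneg (by omega) (by omega)

/-- the recursion -/
theorem recur (h1 : JPV_Stmt) (h3 : JDV_Stmt) (h4 : SGN_Stmt) (h5 : RATJ_Stmt) (h6 : WAD_Stmt)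
    (S a b : Tr) (hS : S.Rat) (hd : |dt (vec S) (vec (.cons a b))| = 1)
    (hok : OK (vec S) (.cons a b)) :
    ∃ S1 S2 : Tr, S1.Rat ∧ S2.Rat ∧
      (vec S1 = rv (addv (vec S) (vec b)) ∨ vec S1 = -rv (addv (vec S) (vec b))) ∧
      (vec S2 = addv (vec S) (rv (vec a)) ∨ vec S2 = -addv (vec S) (rv (vec a))) ∧
      W S (.cons a b) = W S1 a + W S2 b -
        2 * (((vec S).2 ^ 2 * eT b - 2 * ((vec S).2 ^ 2 - 1) * ((vec b).2 ^ 2 - 1) : ℤ) : ℂ) * eT a -
        2 * ((-2 * ((vec S).2 ^ 2 - 1) * ((vec a).1 ^ 2 - 1) : ℤ) : ℂ) * eT b := by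
  obtain ⟨hda, hdb, hab, hSa, hSb⟩ := h4.2.1 (vec S) a b hd
  obtain ⟨hca, hLa, _, _, _⟩ := h4.1 _ a hda
  obtain ⟨hcb, hLb, _, _, _⟩ := h4.1 _ b hdb
  obtain ⟨S1, σ1, hS1, hσ1, hv1⟩ := exists_ref h5 _ hLa
  obtain ⟨S2, σ2, hS2, hσ2, hv2⟩ := exists_ref h5 _ hLb
  have hcr : IsCoprime (rv (vec a)).1 (rv (vec a)).2 := by
    show IsCoprime (-(vec a).2) (vec a).1
    exact (IsCoprime.neg_left hca.symm)
  obtain ⟨R, ρ, hR, hρ, hvR⟩ := exists_ref h5 _ hcr
  obtain ⟨Q, τ, hQ, hτ, hvQ⟩ := exists_ref h5 _ hcb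
  refine ⟨S1, S2, hS1, hS2, pm_of _ _ σ1 hσ1 hv1, pm_of _ _ σ2 hσ2 hv2, ?_⟩
  obtain ⟨hevm, hevr, hbv, hcf, hw⟩ := h3
  have hJ := (h1 JR sx).1
  -- constant coefficients
  have hS1c := hbv S1
  have hS2c := hbv S2
  have hRc := hbv R
  have hQc := hbv Q
  have hSc := hbv S
  have hac := hbv a
  have hbc := hbv b
  rw [rat_eT S1 hS1, Int.cast_zero] at hS1c
  rw [rat_eT S2 hS2, Int.cast_zero] at hS2c
  rw [rat_eT R hR, Int.cast_zero] at hRc
  rw [rat_eT Q hQ, Int.cast_zero] at hQc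
  rw [rat_eT S hS, Int.cast_zero] at hSc
  -- the determinant
  have hdS : dt (vec S) (vec (.cons a b)) =
      (vec S).1 * ((rv (vec a)).2 * (vec b).2) +
      ((rv (vec a)).1 * (vec b).2 + (vec b).1 * (rv (vec a)).2) * (vec S).2 := rfl
  have hdet := pm_of_abs hd
  rw [hdS] at hdet
  -- first application
  have rot0 : ∀ v : JR × JR, cf 0 (rotv v).1 = -cf 0 v.2 ∧ cf 0 (rotv v).2 = cf 0 v.1 := by
    intro v
    exact ⟨map_neg _ _, rfl⟩
  have W1 := h6 (mulv sx (bv sx S) (bv sx b)) (rotv (bv sx a)) (rotv (bv sx S1)) (bv sx R)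
    (-σ1 : ℤ) (ρ : ℤ)
    (by
      rcases hσ1 with rfl | rfl
      · right; simp
      · left; simp)
    (pm_cast hρ)
    (by
      rw [(rot0 _).1, hS1c.2.1, (hcf _ _).1, hSc.1, hSc.2.1, hbc.1, hbc.2.1, hv1]
      simp only [rv, addv]
      push_cast
      ring)
    (by
      rw [(rot0 _).2, hS1c.1, (hcf _ _).2.1, hSc.2.1, hbc.2.1, hv1]
      simp only [rv, addv]
      push_cast
      ring)
    (by
      rw [(rot0 _).1, hRc.1, hac.2.1, hvR]
      simp only [rv]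
      push_cast
      ring)
    (by
      rw [(rot0 _).2, hRc.2.1, hac.1, hvR]
      simp only [rv]
      push_cast
      ring)
    (by rw [hevr]; exact hS1c.2.2)
    hRc.2.2
    (by
      rw [(hcf _ (0, 0)).2.2, (hcf _ _).1, (hcf _ _).2.1, (hcf _ _).1, (rot0 _).1, (rot0 _).2,
        hSc.1, hSc.2.1, hbc.1, hbc.2.1, hac.1, hac.2.1]
      simp only [rv] at hdet
      push_cast at hdet
      convert hdet using 2 <;> ring)
  -- second application
  have W2 := h6 (mulv sx (bv sx S) (bv sx R)) (bv sx b) (bv sx S2) (bv sx Q)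
    ((σ2 * ρ : ℤ)) (τ : ℤ)
    (by
      rcases hσ2 with rfl | rfl <;> rcases hρ with rfl | rfl <;> simp)
    (pm_cast hτ)
    (by
      have hρ2 : (ρ : ℂ) ^ 2 = 1 := by exact_mod_cast pm_sq hρ
      rw [hS2c.1, (hcf _ _).1, hSc.1, hSc.2.1, hRc.1, hRc.2.1, hv2, hvR]
      simp only [rv, addv]
      push_cast
      linear_combination (-(σ2 : ℂ) * ((vec S).1 * (vec a).1 + -(vec a).2 * (vec S).2)) * hρ2)
    (by
      have hρ2 : (ρ : ℂ) ^ 2 = 1 := by exact_mod_cast pm_sq hρ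
      rw [hS2c.2.1, (hcf _ _).2.1, hSc.2.1, hRc.2.1, hv2, hvR]
      simp only [rv, addv]
      push_cast
      linear_combination (-(σ2 : ℂ) * ((vec S).2 * (vec a).1)) * hρ2)
    (by rw [hQc.1, hbc.1, hvQ]; push_cast; ring)
    (by rw [hQc.2.1, hbc.2.1, hvQ]; push_cast; ring)
    hS2c.2.2
    hQc.2.2
    (by
      rw [(hcf _ (0, 0)).2.2, (hcf _ _).1, (hcf _ _).2.1, (hcf _ _).1,
        hSc.1, hSc.2.1, hbc.1, hbc.2.1, hRc.1, hRc.2.1, hvR]
      simp only [rv] at hdet ⊢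
      push_cast at hdet ⊢
      rcases hρ with rfl | rfl
      · convert hdet using 2 <;> push_cast <;> ring
      · rcases hdet with h | h
        · right
          push_cast
          linear_combination -h
        · left
          push_cast
          linear_combination -h)
  -- the rational values
  have hR' : (Tr.cons R (.pw 0)).Rat := ⟨hR, rfl⟩
  have M1 : w2 (clv sx (mulv sx (rotv (bv sx S1)) (bv sx R))) = 0 := by
    rw [(hJ (bv sx S1) (bv sx R) (0, 1)).2.2.2.1, ← bv_rot h1 R]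
    refine ((hw _ 0).2.2 (h5.2.1 S1 (.cons R (.pw 0)) hS1 hR' ?_)).1
    have e : dt (vec S1) (vec (.cons R (.pw 0))) =
        (-σ1 * ρ) * dt (rv (addv (vec S) (vec b))) (vec a) := by
      simp only [dt, vec, hv1, hvR, rv, addv]
      ring
    rw [e, abs_mul, abs_mul, abs_neg, pm_abs hσ1, pm_abs hρ, hda]
    simp
  have M2 : w2 (clv sx (mulv sx (bv sx S2) (bv sx Q))) = 0 := by
    refine ((hw _ 0).2.2 (h5.2.1 S2 Q hS2 hQ ?_)).1
    have e : dt (vec S2) (vec Q) = (σ2 * τ) * dt (addv (vec S) (rv (vec a))) (vec b) := by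
      simp only [dt, hv2, hvQ, rv, addv]
      ring
    rw [e, abs_mul, abs_mul, pm_abs hσ2, pm_abs hτ, hdb]
    simp
  have M3 : w2 (clv sx (mulv sx (mulv sx (bv sx S) (bv sx R)) (bv sx Q))) = 0 := by
    rw [(hJ (bv sx S) (bv sx R) (bv sx Q)).2.1]
    refine ((hw _ 0).2.2 (h5.2.2 S R Q hS hR hQ ?_ ?_)).1
    · have e : dt (vec S) (addv (vec R) (vec Q)) = (ρ * τ) * dt (vec S) (vec (.cons a b)) := by
        simp only [dt, vec, hvR, hvQ, rv, addv]
        ring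
      rw [e, abs_mul, abs_mul, pm_abs hρ, pm_abs hτ, hd]
      simp
    · rw [hvR, hvQ]
      rcases hok.1 with h | h | h
      · exact Or.inl h
      · right; left
        show |ρ * (vec a).1| = 1
        rw [abs_mul, pm_abs hρ, h]; simp
      · right; right
        show |τ * (vec b).2| = 1
        rw [abs_mul, pm_abs hτ, h]; simp
  -- the values
  have V1 : w2 (clv sx (mulv sx (mulv sx (bv sx S) (bv sx b)) (rotv (bv sx a)))) =
      W S (.cons a b) := by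
    rw [(hJ (bv sx S) (bv sx b) (rotv (bv sx a))).2.1,
      (hJ (bv sx b) (rotv (bv sx a)) (0, 1)).1]
    rfl
  have V2 : w2 (clv sx (mulv sx (rotv (bv sx S1)) (rotv (bv sx a)))) = W S1 a := by
    rw [(hJ (bv sx S1) (rotv (bv sx a)) (0, 1)).2.2.2.1, rotv_rotv, mulv_neg, clv_neg,
      (hw _ 0).2.1]
    rfl
  have V3 : clv sx (mulv sx (mulv sx (bv sx S) (bv sx b)) (bv sx R)) =
      clv sx (mulv sx (mulv sx (bv sx S) (bv sx R)) (bv sx b)) := by
    rw [(hJ (bv sx S) (bv sx b) (bv sx R)).2.1, (hJ (bv sx b) (bv sx R) (0, 1)).1,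
      ← (hJ (bv sx S) (bv sx R) (bv sx b)).2.1]
  have V4 : w2 (clv sx (mulv sx (bv sx S2) (bv sx b))) = W S2 b := rfl
  -- the deviations
  have E1 : ev (mulv sx (bv sx S) (bv sx b)) =
      (((vec S).2 ^ 2 * eT b - 2 * ((vec S).2 ^ 2 - 1) * ((vec b).2 ^ 2 - 1) : ℤ) : ℂ) := by
    rw [hevm, hSc.2.2, hbc.2.2, hSc.2.1, hbc.2.1]
    push_cast
    ring
  have E2 : ev (mulv sx (bv sx S) (bv sx R)) =
      ((-2 * ((vec S).2 ^ 2 - 1) * ((vec a).1 ^ 2 - 1) : ℤ) : ℂ) := by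
    have hρ2 : (ρ : ℂ) ^ 2 = 1 := by exact_mod_cast pm_sq hρ
    rw [hevm, hSc.2.2, hRc.2.2, hSc.2.1, hRc.2.1, hvR]
    simp only [rv]
    push_cast
    linear_combination (-2 * (((vec S).2 : ℂ) ^ 2 - 1) * ((vec a).1 : ℂ) ^ 2) * hρ2
  rw [V1, M1, V2, V3, hevr, hac.2.2, E1] at W1
  rw [M2, V4, M3, hbc.2.2, E2] at W2
  linear_combination W1 + W2

theorem ineq (h1 : JPV_Stmt) (h3 : JDV_Stmt) (h4 : SGN_Stmt) (h5 : RATJ_Stmt) (h6 : WAD_Stmt) :
    ∀ T S : Tr, S.Rat → |dt (vec S) (vec T)| = 1 → OK (vec S) T → (W S T).re ≤ 0 := by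
  intro T
  induction T with
  | pw e =>
    intro S hS hd _
    have h := ((h3.2.2.2.2 _ 0).2.2 (h5.2.1 S (.pw e) hS trivial hd)).1
    have h' : W S (.pw e) = 0 := h
    rw [h']
    simp
  | cons a b iha ihb =>
    intro S hS hd hok
    obtain ⟨S1, S2, hS1, hS2, hv1, hv2, e⟩ := recur h1 h3 h4 h5 h6 S a b hS hd hok
    obtain ⟨hda, hdb, hab, hSa, hSb⟩ := h4.2.1 (vec S) a b hd
    have hea := (h4.1 _ a hda).2.2.2.1
    have heb := (h4.1 _ b hdb).2.2.2.1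
    have i1 : (W S1 a).re ≤ 0 := by
      rcases hv1 with h | h
      · exact iha S1 hS1 (by rw [h]; exact hda) (by rw [h]; exact hok.2.1)
      · refine iha S1 hS1 ?_ (by rw [h]; exact ok_neg _ _ hok.2.1)
        rw [h]
        show |(addv _ _).1| = 1
        rw [addv_neg_left]
        simpa [dt] using hda
    have i2 : (W S2 b).re ≤ 0 := by
      rcases hv2 with h | h
      · exact ihb S2 hS2 (by rw [h]; exact hdb) (by rw [h]; exact hok.2.2)
      · refine ihb S2 hS2 ?_ (by rw [h]; exact ok_neg _ _ hok.2.2)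
        rw [h]
        show |(addv _ _).1| = 1
        rw [addv_neg_left]
        simpa [dt] using hdb
    have c1 : 0 ≤ ((vec S).2 ^ 2 * eT b - 2 * ((vec S).2 ^ 2 - 1) * ((vec b).2 ^ 2 - 1)) * eT a := by
      have := sq_le_of_coprime _ _ hSb
      have h2 : (vec S).2 ^ 2 * eT b ≤ 0 := mul_nonpos_of_nonneg_of_nonpos (sq_nonneg _) heb
      exact mul_nonneg_of_nonpos_of_nonpos (by nlinarith) hea
    have c2 : 0 ≤ (-2 * ((vec S).2 ^ 2 - 1) * ((vec a).1 ^ 2 - 1)) * eT b := by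
      have := sq_le_of_coprime _ _ hSa
      exact mul_nonneg_of_nonpos_of_nonpos (by nlinarith) heb
    have e' : W S (.cons a b) = W S1 a + W S2 b -
        ((2 * ((((vec S).2 ^ 2 * eT b - 2 * ((vec S).2 ^ 2 - 1) * ((vec b).2 ^ 2 - 1)) * eT a +
        (-2 * ((vec S).2 ^ 2 - 1) * ((vec a).1 ^ 2 - 1)) * eT b) : ℤ) : ℝ) : ℂ) := by
      rw [e]
      push_cast
      ring
    rw [e', Complex.sub_re, Complex.add_re, Complex.ofReal_re]
    have c3 : (0 : ℝ) ≤ ((((vec S).2 ^ 2 * eT b - 2 * ((vec S).2 ^ 2 - 1) * ((vec b).2 ^ 2 - 1)) *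
        eT a + (-2 * ((vec S).2 ^ 2 - 1) * ((vec a).1 ^ 2 - 1)) * eT b : ℤ) : ℝ) := by
      exact_mod_cast add_nonneg c1 c2
    linarith

end Wlex

theorem t_WLE (h1 : JPV_Stmt) (h3 : JDV_Stmt) (h4 : SGN_Stmt) (h5 : RATJ_Stmt) (h6 : WAD_Stmt) :
    WLE_Stmt :=
  ⟨fun S a b hS hd hok => Wlex.recur h1 h3 h4 h5 h6 S a b hS hd hok,
    fun S T hS hd hok => Wlex.ineq h1 h3 h4 h5 h6 T S hS hd hok⟩

end Pool.Agent.UA
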