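import Pool.Agent.UA.StJ

/-!
Theorem U, block E, module RATJ: rational vectors.
-/

set_option autoImplicit false

open scoped BigOperators

namespace Pool.Agent.UA

open Pool.Agent.LibH11.Sliced Pool.Agent.TwoBr Pool.Agent.Mont Pool.Agent.MTR

namespace Ratj

/-! ### Integral vectors -/

theorem vec_shift (T : Tr) (c : ℤ) : vec (T.shift c) = addv (-c, 1) (vec T) := by
  induction T with
  | pw e =>
    have h1 : vec ((Tr.pw e).shift c) = (-(e + c), 1) := rfl
    have h2 : vec (Tr.pw e) = (-e, 1) := rfl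
    rw [h1, h2]
    simp only [addv, Prod.mk.injEq]
    constructor <;> ring
  | cons a b _ ih =>
    have h1 : vec ((Tr.cons a b).shift c) = addv (rv (vec a)) (vec (b.shift c)) := rfl
    have h2 : vec (Tr.cons a b) = addv (rv (vec a)) (vec b) := rfl
    rw [h1, h2, ih]
    simp only [addv, Prod.mk.injEq]
    constructor <;> ring

theorem kids_shift (T : Tr) (c : ℤ) : (T.shift c).kids = T.kids := by
  induction T with
  | pw e => rfl
  | cons a b _ ih =>
    have h1 : ((Tr.cons a b).shift c).kids = (b.shift c).kids + 1 := rfl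
    rw [h1, ih]
    rfl

theorem rat_shift (T : Tr) (c : ℤ) (h : T.Rat) : (T.shift c).Rat := by
  cases T with
  | pw e => trivial
  | cons a b =>
    obtain ⟨h1, h2⟩ := h
    exact ⟨h1, by rw [kids_shift]; exact h2⟩

theorem vec_cons_pw (a : Tr) (e : ℤ) :
    vec (.cons a (.pw e)) = (-(vec a).2 - e * (vec a).1, (vec a).1) := by
  have h1 : vec (Tr.cons a (.pw e)) = addv (rv (vec a)) (-e, 1) := rfl
  rw [h1]
  simp only [addv, rv, Prod.mk.injEq]
  constructor <;> ring

theorem exists_rat : ∀ (n : ℕ) (A p : ℤ), p.natAbs < n → IsCoprime A p →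
    ∃ R : Tr, R.Rat ∧ (vec R = (A, p) ∨ vec R = (-A, -p)) := by
  intro n
  induction n with
  | zero => intro A p h; omega
  | succ n ih =>
    intro A p hn hc
    by_cases hp : p = 0
    · subst hp
      have h1 : IsUnit A := isCoprime_zero_right.1 hc
      refine ⟨.cons (.pw 0) (.pw 0), ⟨trivial, rfl⟩, ?_⟩
      have h2 : vec (.cons (.pw 0) (.pw 0)) = (-1, 0) := rfl
      rw [h2]
      rcases Int.isUnit_iff.1 h1 with rfl | rfl
      · exact Or.inr rfl
      · exact Or.inl rfl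
    · have h0 := Int.emod_nonneg A hp
      have h0' := Int.emod_lt_abs A hp
      have h1 : (-(A % p)).natAbs < n := by
        have h5 : |p| = (p.natAbs : ℤ) := Int.abs_eq_natAbs p
        omega
      have h3 := Int.emod_add_mul_ediv A p
      have h2 : IsCoprime p (-(A % p)) := by
        obtain ⟨u, v, h⟩ := hc
        exact ⟨v + u * (A / p), -u, by linear_combination h + u * h3⟩
      obtain ⟨a, ha, hv⟩ := ih p (-(A % p)) h1 h2
      refine ⟨.cons a (.pw (-(A / p))), ⟨ha, rfl⟩, ?_⟩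
      rw [vec_cons_pw]
      rcases hv with hv | hv
      · left
        rw [hv]
        simp only [Prod.mk.injEq, and_true]
        linear_combination h3
      · right
        rw [hv]
        simp only [Prod.mk.injEq, and_true]
        linear_combination -h3

/-! ### Monomials and scaling -/

theorem mon_mul {f g : JR} (hf : Mon f) (hg : Mon g) : Mon (f * g) := by
  obtain ⟨c, m, hc, rfl⟩ := hf
  obtain ⟨d, n, hd, rfl⟩ := hg
  refine ⟨c * d, m + n, mul_ne_zero hc hd, ?_⟩
  rw [zpow_add, Units.val_mul, map_mul]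
  ring

theorem mon_c (c : ℂ) (hc : c ≠ 0) : Mon (PowerSeries.C c) :=
  ⟨c, 0, hc, by rw [zpow_zero, Units.val_one, mul_one]⟩

theorem mon_one : Mon 1 := by
  have h := mon_c 1 one_ne_zero
  rw [map_one] at h
  exact h

theorem mon_neg_one : Mon (-1) := by
  have h := mon_c (-1) (by norm_num)
  rw [map_neg, map_one] at h
  exact h

theorem mon_s (m : ℤ) : Mon ((sx ^ m : JRˣ) : JR) :=
  ⟨1, m, one_ne_zero, by rw [map_one, one_mul]⟩

theorem mon_inv {f : JR} (hf : Mon f) : ∃ g, Mon g ∧ g * f = 1 := by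
  obtain ⟨c, m, hc, rfl⟩ := hf
  refine ⟨PowerSeries.C c⁻¹ * ((sx ^ (-m) : JRˣ) : JR), ⟨c⁻¹, -m, inv_ne_zero hc, rfl⟩, ?_⟩
  have h1 : (PowerSeries.C c⁻¹ : JR) * PowerSeries.C c = 1 := by
    rw [← map_mul, inv_mul_cancel₀ hc, map_one]
  have h2 : ((sx ^ (-m) : JRˣ) : JR) * ((sx ^ m : JRˣ) : JR) = 1 := by
    rw [← Units.val_mul, ← zpow_add, neg_add_cancel, zpow_zero, Units.val_one]
  linear_combination ((sx ^ (-m) : JRˣ) : JR) * ((sx ^ m : JRˣ) : JR) * h1 + h2

/-- scaling -/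
noncomputable def scl (f : JR) (v : JR × JR) : JR × JR := (f * v.1, f * v.2)

theorem scl_scl (f g : JR) (v : JR × JR) : scl f (scl g v) = scl (f * g) v := by
  simp only [scl, mul_assoc]

theorem scl_one (v : JR × JR) : scl 1 v = v := by
  simp only [scl, one_mul]

theorem mulv_scl (f : JR) (u v : JR × JR) : mulv sx u (scl f v) = scl f (mulv sx u v) := by
  simp only [mulv, scl, Prod.mk.injEq]
  constructor <;> ring

theorem scl_mulv (f : JR) (u v : JR × JR) : mulv sx (scl f u) v = scl f (mulv sx u v) := by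
  simp only [mulv, scl, Prod.mk.injEq]
  constructor <;> ring

theorem rotv_scl (f : JR) (v : JR × JR) : rotv (scl f v) = scl f (rotv v) := by
  simp only [rotv, scl, mul_neg]

theorem clv_scl (f : JR) (v : JR × JR) : clv sx (scl f v) = f * clv sx v := by
  simp only [clv, scl]
  ring

/-- vectors up to monomials -/
def st : Setoid (JR × JR) where
  r v w := ∃ f, Mon f ∧ v = scl f w
  iseqv :=
    { refl := fun v => ⟨1, mon_one, (scl_one v).symm⟩
      symm := by
        rintro v w ⟨f, hf, rfl⟩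
        obtain ⟨g, hg, h⟩ := mon_inv hf
        exact ⟨g, hg, by rw [scl_scl, h, scl_one]⟩
      trans := by
        rintro u v w ⟨f, hf, rfl⟩ ⟨g, hg, rfl⟩
        exact ⟨f * g, mon_mul hf hg, scl_scl f g w⟩ }

/-- vectors up to monomials -/
def XQ : Type := Quotient st

/-- product with a vector -/
noncomputable def cq (u : JR × JR) : XQ → XQ :=
  Quotient.map (mulv sx u) (by
    rintro v w ⟨f, hf, rfl⟩
    exact ⟨f, hf, mulv_scl f u w⟩)

/-- rotation -/
noncomputable def rq : XQ → XQ :=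
  Quotient.map rotv (by
    rintro v w ⟨f, hf, rfl⟩
    exact ⟨f, hf, rotv_scl f w⟩)

/-- the class of a vector -/
def mk (v : JR × JR) : XQ := Quotient.mk st v

theorem cq_mk (u v : JR × JR) : cq u (mk v) = mk (mulv sx u v) := rfl

theorem rq_mk (v : JR × JR) : rq (mk v) = mk (rotv v) := rfl

theorem mk_scl {f : JR} (hf : Mon f) (v : JR × JR) : mk (scl f v) = mk v :=
  Quotient.sound ⟨f, hf, rfl⟩

theorem mk_ind (P : XQ → Prop) (h : ∀ v, P (mk v)) (x : XQ) : P x := Quotient.ind h x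

/-! ### Rational vectors -/

theorem pv_zero : pv sx 0 = (0, 1) := by
  have h : pv sx 0 = (-((sx ^ 2 : JRˣ) : JR) * ∑ k ∈ Finset.range 0, ((sx ^ (4 * k) : JRˣ) : JR),
      ((sx ^ (4 * 0) : JRˣ) : JR)) := rfl
  rw [h, Finset.range_zero, Finset.sum_empty, mul_zero, mul_zero, pow_zero, Units.val_one]

section

variable (h1 : JPV_Stmt)

include h1

theorem mulv_comm (u v : JR × JR) : mulv sx u v = mulv sx v u :=
  ((h1 JR sx).1 u v v).1

theorem mulv_assoc (u v w : JR × JR) : mulv sx (mulv sx u v) w = mulv sx u (mulv sx v w) :=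
  ((h1 JR sx).1 u v w).2.1

theorem one_mulv (v : JR × JR) : mulv sx (0, 1) v = v := ((h1 JR sx).1 v v v).2.2.1

theorem mulv_one (v : JR × JR) : mulv sx v (0, 1) = v := by
  rw [mulv_comm h1, one_mulv h1]

theorem clv_rot (u v : JR × JR) : clv sx (mulv sx (rotv u) v) = clv sx (mulv sx u (rotv v)) :=
  ((h1 JR sx).1 u v v).2.2.2.1

theorem clv_rotv (v : JR × JR) : clv sx (rotv v) = -(v.2 + be sx * v.1) :=
  ((h1 JR sx).1 v v v).2.2.2.2.2

theorem pv_mul (a b : ℤ) : mulv sx (pv sx a) (pv sx b) = pv sx (a + b) := (h1 JR sx).2.1 a b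

theorem pv_val (a : ℤ) : (pv sx a).2 + be sx * (pv sx a).1 = 1 := ((h1 JR sx).2.2.1 a).2

theorem bv_shift (T : Tr) (c : ℤ) : bv sx (T.shift c) = mulv sx (pv sx c) (bv sx T) :=
  (h1 JR sx).2.2.2.1 T c

theorem bv_cons0 (a : Tr) : bv sx (.cons a (.pw 0)) = rotv (bv sx a) := by
  have h : bv sx (.cons a (.pw 0)) = mulv sx (rotv (bv sx a)) (pv sx 0) := rfl
  rw [h, pv_zero, mulv_one h1]

/-- The vector of a rational tree is determined by the integral vector. -/
theorem key (h2 : RATG_Stmt) (T T' : Tr) (hT : T.Rat) (hT' : T'.Rat)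
    (h : vec T = vec T' ∨ vec T = -vec T') : ∃ f, Mon f ∧ bv sx T = scl f (bv sx T') := by
  have hq : mk (bv sx T) = mk (bv sx T') := by
    refine h2 XQ (cq (pv sx 1)) (cq (pv sx (-1))) rq (mk (bv sx (.pw 0)))
      (fun T => mk (bv sx T)) ?_ ?_ ?_ ?_ ?_ rfl ?_ ?_ T T' hT hT' h
    · refine mk_ind _ fun v => ?_
      rw [cq_mk, cq_mk, ← mulv_assoc h1, pv_mul h1]
      have e : (1 : ℤ) + -1 = 0 := by norm_num
      rw [e, pv_zero, one_mulv h1]
    · refine mk_ind _ fun v => ?_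
      rw [cq_mk, cq_mk, ← mulv_assoc h1, pv_mul h1]
      have e : (-1 : ℤ) + 1 = 0 := by norm_num
      rw [e, pv_zero, one_mulv h1]
    · refine mk_ind _ fun v => ?_
      rw [rq_mk, rq_mk]
      have e : rotv (rotv v) = scl (-1) v := by
        simp only [rotv, scl, Prod.mk.injEq]
        constructor <;> ring
      rw [e, mk_scl mon_neg_one]
    · refine mk_ind _ fun v => ?_
      rw [rq_mk, cq_mk, rq_mk, cq_mk, rq_mk, cq_mk]
      have e := (h1 JR sx).2.2.2.2 v
      have e2 : (((sx ^ 6 : JRˣ) : JR) * v.1, ((sx ^ 6 : JRˣ) : JR) * v.2) =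
          scl ((sx ^ (6 : ℤ) : JRˣ) : JR) v := rfl
      rw [e, e2, mk_scl (mon_s 6)]
    · have e0 : bv sx (.pw 0) = (0, 1) := pv_zero
      rw [rq_mk, cq_mk, rq_mk, e0]
      have e1 : rotv (mulv sx (pv sx 1) (rotv ((0 : JR), (1 : JR)))) = scl (-1) (0, 1) := by
        have h5 := pv_val h1 1
        simp only [rotv, mulv, scl, Prod.mk.injEq]
        constructor
        · ring
        · linear_combination -h5
      rw [e1, mk_scl mon_neg_one]
    · intro T _
      rw [bv_shift h1, cq_mk]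
    · intro a _
      change mk (bv sx (.cons a (.pw 0))) = _
      rw [bv_cons0 h1, rq_mk]
  exact Quotient.exact hq

/-- The first factor is moved to the second one. -/
theorem move_over : ∀ (S R : Tr), S.Rat → R.Rat → ∃ Q : Tr, Q.Rat ∧
    clv sx (mulv sx (bv sx S) (bv sx R)) = clv sx (bv sx Q) ∧
      (vec Q).1 = dt (vec S) (vec R) := by
  intro S
  induction S with
  | pw e =>
    intro R _ hR
    refine ⟨R.shift e, rat_shift R e hR, ?_, ?_⟩
    · rw [bv_shift h1]
      rfl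
    · rw [vec_shift]
      rfl
  | cons a b iha _ =>
    intro R hS hR
    obtain ⟨ha, hb⟩ := hS
    cases b with
    | cons c d => exact absurd hb (Nat.succ_ne_zero _)
    | pw e =>
      obtain ⟨Q, hQ, hc, hv⟩ := iha (.cons (R.shift e) (.pw 0)) ha ⟨rat_shift R e hR, rfl⟩
      refine ⟨Q, hQ, ?_, ?_⟩
      · rw [← hc, bv_cons0 h1, bv_shift h1, ← clv_rot h1, ← mulv_assoc h1]
        rfl
      · rw [hv, vec_cons_pw, vec_cons_pw, vec_shift]
        simp only [dt, addv]
        ring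

theorem mon_of_one (h2 : RATG_Stmt) (Q : Tr) (hQ : Q.Rat) (h : |(vec Q).1| = 1) :
    Mon (clv sx (bv sx Q)) := by
  obtain ⟨k, hk⟩ : ∃ k : ℤ, vec Q = vec (.cons (.pw k) (.pw 0)) ∨
      vec Q = -vec (.cons (.pw k) (.pw 0)) := by
    have e : ∀ k : ℤ, vec (.cons (.pw k) (.pw 0)) = (-1, -k) := by
      intro k
      rw [vec_cons_pw]
      have h5 : vec (.pw k) = (-k, 1) := rfl
      rw [h5]
      simp
    rcases (abs_eq (by norm_num : (0 : ℤ) ≤ 1)).1 h with h5 | h5
    · refine ⟨(vec Q).2, Or.inr ?_⟩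
      rw [e]
      exact Prod.ext h5 (neg_neg _).symm
    · refine ⟨-(vec Q).2, Or.inl ?_⟩
      rw [e]
      exact Prod.ext h5 (neg_neg _).symm
  obtain ⟨f, hf, h3⟩ := key h1 h2 Q (.cons (.pw k) (.pw 0)) hQ ⟨trivial, rfl⟩ hk
  rw [h3, clv_scl, bv_cons0 h1, clv_rotv h1]
  have h4 : (bv sx (.pw k)).2 + be sx * (bv sx (.pw k)).1 = 1 := pv_val h1 k
  rw [h4]
  exact mon_mul hf mon_neg_one

theorem part2 (h2 : RATG_Stmt) (S R : Tr) (hS : S.Rat) (hR : R.Rat)
    (h : |dt (vec S) (vec R)| = 1) : Mon (clv sx (mulv sx (bv sx S) (bv sx R))) := by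
  obtain ⟨Q, hQ, h3, h4⟩ := move_over h1 S R hS hR
  rw [h3]
  exact mon_of_one h1 h2 Q hQ (by rw [h4]; exact h)

theorem part3 (h2 : RATG_Stmt) (S R Q : Tr) (hS : S.Rat) (hR : R.Rat) (hQ : Q.Rat)
    (h : |dt (vec S) (addv (vec R) (vec Q))| = 1) (hp : |(vec R).2| = 1) :
    Mon (clv sx (mulv sx (bv sx S) (mulv sx (bv sx R) (bv sx Q)))) := by
  obtain ⟨e, he⟩ : ∃ e : ℤ, vec R = vec (.pw e) ∨ vec R = -vec (.pw e) := by
    have e : ∀ k : ℤ, vec (.pw k) = (-k, 1) := fun _ => rfl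
    rcases (abs_eq (by norm_num : (0 : ℤ) ≤ 1)).1 hp with h5 | h5
    · refine ⟨-(vec R).1, Or.inl ?_⟩
      rw [e]
      exact Prod.ext (neg_neg _).symm h5
    · refine ⟨(vec R).1, Or.inr ?_⟩
      rw [e]
      exact Prod.ext (neg_neg _).symm h5
  obtain ⟨f, hf, h3⟩ := key h1 h2 R (.pw e) hR trivial he
  have h4 : mulv sx (bv sx R) (bv sx Q) = scl f (bv sx (Q.shift e)) := by
    rw [h3, scl_mulv, bv_shift h1]
    rfl
  rw [h4, mulv_scl, clv_scl]
  refine mon_mul hf (part2 h1 h2 S (Q.shift e) hS (rat_shift Q e hQ) ?_)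
  rw [vec_shift]
  have h5 : vec (.pw e) = (-e, 1) := rfl
  rw [h5] at he
  rcases he with he | he
  · rw [he] at h
    exact h
  · rw [he] at h
    have h6 : dt (vec S) (addv (-(-e, 1)) (vec Q)) = -dt (vec S) (addv (-e, 1) (vec Q)) := by
      simp only [dt, addv, Prod.fst_neg, Prod.snd_neg]
      ring
    rw [h6, abs_neg] at h
    exact h

end

end Ratj

theorem t_RATJ (h1 : JPV_Stmt) (h2 : RATG_Stmt) (_h3 : JDV_Stmt) : RATJ_Stmt := by
  refine ⟨?_, ?_, ?_⟩
  · intro A p hc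
    exact Ratj.exists_rat (p.natAbs + 1) A p (Nat.lt_succ_self _) hc
  · intro S R hS hR h
    exact Ratj.part2 h1 h2 S R hS hR h
  · intro S R Q hS hR hQ h hp
    rcases hp with hp | hp | hp
    · have e1 : mulv sx (bv sx S) (mulv sx (bv sx R) (bv sx Q)) =
          mulv sx (bv sx R) (mulv sx (bv sx S) (bv sx Q)) := by
        rw [← Ratj.mulv_assoc h1, Ratj.mulv_comm h1 (bv sx S) (bv sx R), Ratj.mulv_assoc h1]
      have e2 : dt (vec S) (addv (vec R) (vec Q)) = dt (vec R) (addv (vec S) (vec Q)) := by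
        simp only [dt, addv]
        ring
      rw [e1]
      rw [e2] at h
      exact Ratj.part3 h1 h2 R S Q hR hS hQ h hp
    · exact Ratj.part3 h1 h2 S R Q hS hR hQ h hp
    · have e1 : mulv sx (bv sx R) (bv sx Q) = mulv sx (bv sx Q) (bv sx R) :=
        Ratj.mulv_comm h1 _ _
      have e2 : dt (vec S) (addv (vec R) (vec Q)) = dt (vec S) (addv (vec Q) (vec R)) := by
        simp only [dt, addv]
        ring
      rw [e1]
      rw [e2] at h
      exact Ratj.part3 h1 h2 S Q R hS hQ hR h hp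

end Pool.Agent.UA
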