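import Pool.Agent.UA.StF
import Pool.Agent.Mont.NFT

/-!
Theorem U (MP_31fd3b_gt), block F (topology): FCG, congruences and numbers of strands.
-/

namespace Pool.Agent.UA

open Pool.Agent.LibH11 Pool.Agent.LibH11.Sliced Pool.Agent.TB Pool.Agent.TwoBr Pool.Agent.Mont

namespace Fcg

theorem cnt_w {t : Diag} (h : cnt 2 t = some 2) : cnt 3 t = some 3 := cnt_widen 1 _ _ _ h

theorem cnt_ws {t : Diag} (h : cnt 2 t = some 2) : cnt 4 (sh 1 t) = some 4 := by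
  rw [show (4 : ℕ) = 3 + 1 from rfl, cnt_sh, cnt_w h]
  rfl

theorem rotD_eq (t : Diag) : rotD t = [(.cup, 0)] ++ sh 1 t ++ [(.cap, 2)] := rfl

theorem cl_eq (t : Diag) : cl t = [(.cup, 1)] ++ t ++ [(.cap, 1)] := rfl

theorem cnt_rotD {t : Diag} (h : cnt 2 t = some 2) : cnt 2 (rotD t) = some 2 := by
  have h1 : cnt 2 [((.cup : Kind), 0)] = some 4 := rfl
  rw [rotD_eq, List.append_assoc, cnt_app h1, cnt_app (cnt_ws h)]
  rfl

theorem cnt_cl {t : Diag} (h : cnt 2 t = some 2) : cnt 1 (cl t) = some 1 := by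
  have h1 : cnt 1 [((.cup : Kind), 1)] = some 3 := rfl
  rw [cl_eq, List.append_assoc, cnt_app h1, cnt_app (cnt_w h)]
  rfl

theorem eqd_rotD {s t : Diag} (h : EqD 2 s t) (hs : cnt 2 s = some 2) :
    EqD 2 (rotD s) (rotD t) := by
  have h1 : cnt 2 [((.cup : Kind), 0)] = some 4 := rfl
  rw [rotD_eq, rotD_eq]
  refine ((h.widen 1).sh 1).ctx [(.cup, 0)] [(.cap, 2)] h1 ?_
  rw [← rotD_eq, cnt_rotD hs]
  exact Option.some_ne_none _

theorem eqd_cl {s t : Diag} (h : EqD 2 s t) (hs : cnt 2 s = some 2) :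
    EqD 1 (cl s) (cl t) := by
  have h1 : cnt 1 [((.cup : Kind), 1)] = some 3 := rfl
  rw [cl_eq, cl_eq]
  refine (h.widen 1).ctx [(.cup, 1)] [(.cap, 1)] h1 ?_
  rw [← cl_eq, cnt_cl hs]
  exact Option.some_ne_none _

theorem eqd_app {n : ℕ} {s s' t t' : Diag} (h : EqD n s s') (h' : EqD n t t')
    (hs : cnt n s = some n) (ht : cnt n t = some n) : EqD n (s ++ t) (s' ++ t') := by
  have hs' : cnt n s' = some n := by rw [← h.cnt_eq]; exact hs
  refine (h.right t ?_).trans (h'.left s' hs')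
  rw [cnt_app hs, ht]
  exact Option.some_ne_none _

theorem cnt_dg (T : Tr) : cnt 2 T.dg = some 2 := by
  induction T with
  | pw e => exact cnt_ht e
  | cons a b iha ihb =>
    show cnt 2 (rotD a.dg ++ b.dg) = some 2
    rw [cnt_app (cnt_rotD iha), ihb]

theorem cnt_cls (Ts : List Tr) : cnt 1 (cls Ts) = some 1 := by
  induction Ts with
  | nil => rfl
  | cons T Ts ih =>
    show cnt 1 (cl T.dg ++ cls Ts) = some 1
    rw [cnt_app (cnt_cl (cnt_dg T)), ih]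

theorem cnt_arb {t : Diag} (h : Arb t) : cnt 2 t = some 2 := by
  induction h with
  | one => rfl
  | crs e => rfl
  | comp _ _ ih1 ih2 => rw [cnt_app ih1, ih2]
  | rot _ ih => exact cnt_rotD ih

end Fcg

theorem t_FCG : FCG_Stmt :=
  ⟨fun _ _ h hs => ⟨Fcg.eqd_rotD h hs, Fcg.eqd_cl h hs⟩,
    fun _ _ _ _ h h' hs ht => Fcg.eqd_app h h' hs ht,
    fun _ _ _ _ h h' hs ht => Fcg.eqd_app h h' hs ht,
    fun _ h => ⟨Fcg.cnt_rotD h, Fcg.cnt_cl h⟩, Fcg.cnt_dg, Fcg.cnt_cls, fun _ h => Fcg.cnt_arb h⟩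

end Pool.Agent.UA
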