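import Pool.Agent.UA.StF
import Pool.Agent.Mont.NFT

/-!
FTA: the algebra of trees.
-/

namespace Pool.Agent.UA

open Pool.Agent.LibH11.Sliced Pool.Agent.TwoBr Pool.Agent.Mont

namespace Fta

theorem cnt_dg (h3 : FCG_Stmt) (T : Tr) : cnt 2 T.dg = some 2 := h3.2.2.2.2.1 T

theorem cnt_rot (h3 : FCG_Stmt) {x : Diag} (hx : cnt 2 x = some 2) : cnt 2 (rotD x) = some 2 :=
  (h3.2.2.2.1 x hx).1

theorem shift_size (c : ℤ) : ∀ T : Tr, (T.shift c).size ≤ T.size + c.natAbs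
  | .pw e => Int.natAbs_add_le e c
  | .cons a b => by
    have := shift_size c b
    show a.size + 2 + (b.shift c).size ≤ a.size + 2 + b.size + c.natAbs
    omega

theorem shift_eqd (h3 : FCG_Stmt) (c : ℤ) : ∀ T : Tr, EqD 2 (T.dg ++ ht c) (T.shift c).dg
  | .pw e => ht_add e c
  | .cons a b => by
    show EqD 2 ((rotD a.dg ++ b.dg) ++ ht c) (rotD a.dg ++ (b.shift c).dg)
    rw [List.append_assoc]
    exact (shift_eqd h3 c b).left (rotD a.dg) (cnt_rot h3 (cnt_dg h3 a))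

theorem hD_rot (h1 : FSY_Stmt) (h4 : FRO_Stmt) (x : Diag) (hx : cnt 2 x = some 2) :
    EqD 2 (hD 2 (rotD x)) (rotD (flipD x)) := by
  rw [(h1.2.2.1 x hx).1]
  have e := (h4 (hD 2 x) (cnt_hD x hx)).2
  rwa [(h1.2.1 x 2 2 hx).2.2.2.1] at e

theorem flip_rot (h1 : FSY_Stmt) (h4 : FRO_Stmt) (x : Diag) (hx : cnt 2 x = some 2) :
    EqD 2 (flipD (rotD x)) (rotD (hD 2 x)) := by
  rw [(h1.2.2.1 x hx).2.1]
  have e := (h4 (flipD x) (cnt_flip x hx)).2
  rwa [(h1.2.1 x 2 2 hx).2.2.2.2.2.2.1] at e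

/-- The tree of the tangle, rotated about the vertical axis. -/
def HP (T : Tr) : Prop := ∃ T' : Tr, T'.size ≤ T.size ∧ EqD 2 (hD 2 T.dg) T'.dg

/-- The tree of the tangle, rotated about the horizontal axis. -/
def FP (T : Tr) : Prop := ∃ T' : Tr, T'.size ≤ T.size ∧ EqD 2 (flipD T.dg) T'.dg

/-- The tree of the product. -/
def PP (S T : Tr) : Prop := ∃ T' : Tr, T'.size ≤ S.size + T.size ∧ EqD 2 (S.dg ++ T.dg) T'.dg

theorem main (h1 : FSY_Stmt) (h3 : FCG_Stmt) (h4 : FRO_Stmt) (h5 : FFL_Stmt) : ∀ n : ℕ,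
    (∀ T : Tr, T.size ≤ n → HP T) ∧ (∀ T : Tr, T.size ≤ n → FP T) ∧
      ∀ S T : Tr, S.size + T.size ≤ n → PP S T := by
  intro n
  induction n using Nat.strong_induction_on with
  | _ n ih =>
  have hH : ∀ T : Tr, T.size ≤ n → HP T := by
    intro T hT
    cases T with
    | pw e => exact ⟨.pw e, le_refl _, EqD.of_eq (h1.2.2.2 e).1⟩
    | cons a b =>
      have hs : (Tr.cons a b).size = a.size + 2 + b.size := rfl
      rw [hs] at hT
      obtain ⟨a', ha', ea⟩ := (ih a.size (by omega)).2.1 a (le_refl _)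
      obtain ⟨b', hb', eb⟩ := (ih b.size (by omega)).1 b (le_refl _)
      refine ⟨.cons a' b', by
        show a'.size + 2 + b'.size ≤ a.size + 2 + b.size
        omega, ?_⟩
      show EqD 2 (hD 2 (rotD a.dg ++ b.dg)) (rotD a'.dg ++ b'.dg)
      have ca := cnt_dg h3 a
      have cb := cnt_dg h3 b
      rw [(h1.1 (rotD a.dg) b.dg 2 2 (cnt_rot h3 ca)).1]
      exact h3.2.1 _ _ _ _ ((hD_rot h1 h4 _ ca).trans ((h3.1 _ _ ea (cnt_flip _ ca)).1)) eb
        (cnt_hD _ (cnt_rot h3 ca)) (cnt_hD _ cb)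
  have hP : ∀ S T : Tr, S.size + T.size ≤ n → PP S T := by
    intro S T hST
    cases S with
    | pw e =>
      obtain ⟨T1, hT1, e1⟩ : ∃ T1 : Tr, T1.size ≤ T.size ∧
          EqD 2 (ht e ++ T.dg) (T1.dg ++ ht e) := by
        by_cases he : Even e
        · refine ⟨T, le_refl _, ?_⟩
          have h := h5.2.1 T.dg e (cnt_dg h3 T)
          rw [if_pos he] at h
          exact h.symm
        · obtain ⟨T1, hT1, e1⟩ := hH T (by omega)
          refine ⟨T1, hT1, ?_⟩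
          have h := h5.2.1 (hD 2 T.dg) e (cnt_hD _ (cnt_dg h3 T))
          rw [if_neg he, (h1.2.1 T.dg 2 2 (cnt_dg h3 T)).1] at h
          exact h.symm.trans (e1.right (ht e) (by
            rw [cnt_app (cnt_hD _ (cnt_dg h3 T)), cnt_ht]
            simp))
      refine ⟨T1.shift e, ?_, e1.trans (shift_eqd h3 e T1)⟩
      have := shift_size e T1
      show (T1.shift e).size ≤ e.natAbs + T.size
      omega
    | cons a c =>
      have hs : (Tr.cons a c).size = a.size + 2 + c.size := rfl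
      rw [hs] at hST
      obtain ⟨T1, hT1, e1⟩ := (ih (c.size + T.size) (by omega)).2.2 c T (le_refl _)
      refine ⟨.cons a T1, by
        show a.size + 2 + T1.size ≤ a.size + 2 + c.size + T.size
        omega, ?_⟩
      show EqD 2 ((rotD a.dg ++ c.dg) ++ T.dg) (rotD a.dg ++ T1.dg)
      rw [List.append_assoc]
      exact e1.left _ (cnt_rot h3 (cnt_dg h3 a))
  have hF : ∀ T : Tr, T.size ≤ n → FP T := by
    intro T hT
    cases T with
    | pw e => exact ⟨.pw e, le_refl _, EqD.of_eq (h1.2.2.2 e).2⟩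
    | cons a b =>
      have hs : (Tr.cons a b).size = a.size + 2 + b.size := rfl
      rw [hs] at hT
      obtain ⟨a', ha', ea⟩ := (ih a.size (by omega)).1 a (le_refl _)
      obtain ⟨b', hb', eb⟩ := (ih b.size (by omega)).2.1 b (le_refl _)
      have ca := cnt_dg h3 a
      have cb := cnt_dg h3 b
      obtain ⟨T1, hT1, e1⟩ := hP b' (.cons a' (.pw 0)) (by
        show b'.size + (a'.size + 2 + 0) ≤ n
        omega)
      refine ⟨T1, ?_, ?_⟩
      · have h6 : T1.size ≤ b'.size + (a'.size + 2 + 0) := hT1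
        rw [hs]
        omega
      · show EqD 2 (flipD (rotD a.dg ++ b.dg)) T1.dg
        rw [flipD_append]
        refine EqD.trans ?_ e1
        show EqD 2 (flipD b.dg ++ flipD (rotD a.dg)) (b'.dg ++ (rotD a'.dg ++ ht 0))
        rw [ht_zero, List.append_nil]
        exact h3.2.1 _ _ _ _ eb ((flip_rot h1 h4 _ ca).trans (h3.1 _ _ ea (cnt_hD _ ca)).1)
          (cnt_flip _ cb) (cnt_flip _ (cnt_rot h3 ca))
  exact ⟨hH, hF, hP⟩

end Fta

open Fta in
theorem t_FTA (h1 : FSY_Stmt) (h2 : FEQ_Stmt) (h3 : FCG_Stmt) (h4 : FRO_Stmt) (h5 : FFL_Stmt) :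
    FTA_Stmt := by
  have hH : ∀ T : Tr, ∃ T' : Tr, T'.size ≤ T.size ∧ EqD 2 (hD 2 T.dg) T'.dg := fun T =>
    (main h1 h3 h4 h5 T.size).1 T (le_refl _)
  have hF : ∀ T : Tr, ∃ T' : Tr, T'.size ≤ T.size ∧ EqD 2 (flipD T.dg) T'.dg := fun T =>
    (main h1 h3 h4 h5 T.size).2.1 T (le_refl _)
  have hP : ∀ S T : Tr, ∃ T' : Tr, T'.size ≤ S.size + T.size ∧ EqD 2 (S.dg ++ T.dg) T'.dg :=
    fun S T => (main h1 h3 h4 h5 (S.size + T.size)).2.2 S T (le_refl _)
  refine ⟨hH, hF, ?_, hP, ?_, ?_⟩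
  · intro T
    obtain ⟨T1, hT1, e1⟩ := hF T
    obtain ⟨T2, hT2, e2⟩ := hH T1
    refine ⟨T2, hT2.trans hT1, ?_⟩
    have c := cnt_dg h3 T
    rw [← (h1.2.1 T.dg 2 2 c).2.2.2.2.1]
    exact (h2 2 2 _ _ e1 (cnt_flip _ c)).1.trans e2
  · intro T c
    refine ⟨shift_size c T, shift_eqd h3 c T, ?_⟩
    obtain ⟨T1, hT1, e1⟩ := hP (.pw c) T
    have h6 : T1.size ≤ c.natAbs + T.size := hT1
    exact ⟨T1, by omega, e1⟩
  · intro t hArb
    induction hArb with
    | one => exact ⟨.pw 0, EqD.refl _⟩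
    | crs e =>
      cases e with
      | true => exact ⟨.pw 1, EqD.refl _⟩
      | false => exact ⟨.pw (-1), EqD.refl _⟩
    | comp h6 h7 ihs iht =>
      obtain ⟨S, eS⟩ := ihs
      obtain ⟨T, eT⟩ := iht
      obtain ⟨T1, _, e1⟩ := hP S T
      exact ⟨T1, (h3.2.1 _ _ _ _ eS eT (h3.2.2.2.2.2.2 _ h6) (h3.2.2.2.2.2.2 _ h7)).trans e1⟩
    | rot h6 iht =>
      obtain ⟨T, eT⟩ := iht
      refine ⟨.cons T (.pw 0), ?_⟩
      show EqD 2 (rotD _) (rotD T.dg ++ ht 0)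
      rw [ht_zero, List.append_nil]
      exact (h3.1 _ _ eT (h3.2.2.2.2.2.2 _ h6)).1

end Pool.Agent.UA
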