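import Pool.Agent.UA.StE

/-!
Theorem U (MP_31fd3b_gt), block E: BVN. Naturality of the vectors of trees, and values at `s = 1`.
-/

open scoped BigOperators

namespace Pool.Agent.UA

open Pool.Agent.LibH11.Sliced Pool.Agent.MTR Pool.Agent.UB
open Pool.Agent.TB hiding vec

namespace BVN

variable {R R' : Type} [CommRing R] [CommRing R'] (f : R →+* R') (s : Rˣ)

/-- componentwise image of a pair -/
def pm (v : R × R) : R' × R' := (f v.1, f v.2)

/-- the image of the unit -/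
abbrev um : R'ˣ := Units.map (f : R →* R') s

theorem um_val : ((um f s : R'ˣ) : R') = f (s : R) := rfl

theorem um_inv : (((um f s)⁻¹ : R'ˣ) : R') = f ((s⁻¹ : Rˣ) : R) := rfl

theorem be_map : be (um f s) = f (be s) := by
  unfold be
  rw [map_sub, Units.val_pow_eq_pow_val, Units.val_pow_eq_pow_val, um_val, um_inv,
    Units.val_pow_eq_pow_val, Units.val_pow_eq_pow_val, map_pow, map_pow]

theorem mulv_map (v w : R × R) : mulv (um f s) (pm f v) (pm f w) = pm f (mulv s v w) := by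
  unfold mulv pm
  rw [be_map]
  simp only [map_add, map_mul]

theorem rotv_map (v : R × R) : rotv (pm f v) = pm f (rotv v) := by
  unfold rotv pm
  simp only [map_neg]

theorem pv_map (e : ℤ) : pv (um f s) e = pm f (pv s e) := by
  cases e with
  | ofNat e =>
    change (-(((um f s) ^ 2 : R'ˣ) : R') * ∑ k ∈ Finset.range e, (((um f s) ^ (4 * k) : R'ˣ) : R'),
      (((um f s) ^ (4 * e) : R'ˣ) : R')) = (f (-((s ^ 2 : Rˣ) : R) *
        ∑ k ∈ Finset.range e, ((s ^ (4 * k) : Rˣ) : R)), f ((s ^ (4 * e) : Rˣ) : R))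
    simp only [Units.val_pow_eq_pow_val, um_val, map_mul, map_neg, map_pow, map_sum]
  | negSucc e =>
    change ((((um f s)⁻¹ ^ 2 : R'ˣ) : R') *
        ∑ k ∈ Finset.range (e + 1), (((um f s)⁻¹ ^ (4 * k) : R'ˣ) : R'),
      (((um f s)⁻¹ ^ (4 * (e + 1)) : R'ˣ) : R')) = (f (((s⁻¹ ^ 2 : Rˣ) : R) *
        ∑ k ∈ Finset.range (e + 1), ((s⁻¹ ^ (4 * k) : Rˣ) : R)), f ((s⁻¹ ^ (4 * (e + 1)) : Rˣ) : R))
    simp only [Units.val_pow_eq_pow_val, um_inv, map_mul, map_pow, map_sum]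

theorem bv_map : ∀ T : Tr, bv (um f s) T = pm f (bv s T)
  | .pw e => pv_map f s e
  | .cons a b => by
    change mulv (um f s) (rotv (bv (um f s) a)) (bv (um f s) b) = pm f (mulv s (rotv (bv s a)) (bv s b))
    rw [bv_map a, bv_map b, rotv_map, mulv_map]

theorem clv_map (v : R × R) : clv (um f s) (pm f v) = f (clv s v) := by
  unfold clv pm
  rw [be_map, map_sub, map_mul]

theorem be_one : be (1 : Rˣ) = 0 := by
  unfold be
  rw [inv_one, sub_self]

theorem pv_one (e : ℤ) : pv (1 : Rˣ) e = (((-e : ℤ) : R), 1) := by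
  cases e with
  | ofNat e =>
    change (-(((1 : Rˣ) ^ 2 : Rˣ) : R) * ∑ k ∈ Finset.range e, (((1 : Rˣ) ^ (4 * k) : Rˣ) : R),
      (((1 : Rˣ) ^ (4 * e) : Rˣ) : R)) = _
    simp
  | negSucc e =>
    change ((((1 : Rˣ)⁻¹ ^ 2 : Rˣ) : R) *
        ∑ k ∈ Finset.range (e + 1), (((1 : Rˣ)⁻¹ ^ (4 * k) : Rˣ) : R),
      (((1 : Rˣ)⁻¹ ^ (4 * (e + 1)) : Rˣ) : R)) = _
    simp [Int.negSucc_eq]

theorem bv_one : ∀ T : Tr, bv (1 : Rˣ) T = (((vec T).1 : R), ((vec T).2 : R))
  | .pw e => by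
    change pv (1 : Rˣ) e = (((-e : ℤ) : R), ((1 : ℤ) : R))
    rw [pv_one, Int.cast_one]
  | .cons a b => by
    change mulv (1 : Rˣ) (rotv (bv (1 : Rˣ) a)) (bv (1 : Rˣ) b) =
      (((addv (rv (vec a)) (vec b)).1 : R), ((addv (rv (vec a)) (vec b)).2 : R))
    rw [bv_one a, bv_one b]
    unfold mulv rotv addv rv
    rw [be_one]
    simp only [Prod.mk.injEq]
    constructor
    · push_cast
      ring
    · push_cast
      ring

end BVN

theorem t_BVN : BVN_Stmt := by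
  refine ⟨fun R R' _ _ f s T => ?_, fun R _ T => ?_⟩
  · change clv (BVN.um f s) (bv (BVN.um f s) T) = f (clv s (bv s T))
    rw [BVN.bv_map, BVN.clv_map]
  · rw [BVN.bv_one]
    unfold clv
    rw [BVN.be_one, zero_mul, sub_zero]

end Pool.Agent.UA
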