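import Pool.Agent.UA.StE

/-!
# JNAT: base change of state sums
-/

set_option linter.unusedSectionVars false

open scoped BigOperators

namespace Pool.Agent.UA

open Pool.Agent.LibH11.Sliced Pool.Agent.MTR Pool.Agent.UB
open Pool.Agent.TB hiding vec

namespace JNAT

section Nat

variable {A B S : Type} [CommRing A] [CommRing B] [Fintype S] [DecidableEq S] (f : A →+* B)
  (T : TData A S)

theorem ap0_map (k : Kind) (ψ : List S → A) (l : List S) :
    (tmap f T).ap0 k (fun l => f (ψ l)) l = f (T.ap0 k ψ l) := by
  rcases k with _ | _ | e <;> rcases l with _ | ⟨x, _ | ⟨y, l⟩⟩ <;>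
    simp only [TData.ap0, tmap, map_zero, map_mul, map_sum]

theorem ap_map (k : Kind) : ∀ (i : ℕ) (ψ : List S → A) (l : List S),
    (tmap f T).ap k i (fun l => f (ψ l)) l = f (T.ap k i ψ l)
  | 0, ψ, l => ap0_map f T k ψ l
  | _ + 1, _, [] => (map_zero f).symm
  | i + 1, ψ, a :: l => ap_map k i (fun l' => ψ (a :: l')) l

theorem st_map : ∀ (w : Diag) (ψ : List S → A),
    (tmap f T).st w (fun l => f (ψ l)) = fun l => f (T.st w ψ l)
  | [], _ => rfl
  | (k, i) :: w, ψ => by
    have h1 : (tmap f T).ap k i (fun l => f (ψ l)) = fun l => f (T.ap k i ψ l) := by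
      funext l
      exact ap_map f T k i ψ l
    change (tmap f T).st w ((tmap f T).ap k i (fun l => f (ψ l))) = _
    rw [h1]
    exact st_map w (T.ap k i ψ)

theorem J_map (s0 : S) (w : Diag) : (tmap f T).J s0 w = f (T.J s0 w) := by
  have h1 : (fun l : List S => if l = [s0] then (1 : B) else 0) =
      fun l => f (if l = [s0] then 1 else 0) := by
    funext l
    split_ifs
    · exact (map_one f).symm
    · exact (map_zero f).symm
  change (tmap f T).st w (fun l => if l = [s0] then 1 else 0) [s0] = _
  rw [h1, st_map]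
  rfl

end Nat

section Data

variable {A B : Type} [CommRing A] [CommRing B] (f : A →+* B) (a : Aˣ)

theorem kcup_map (x y : Bool) :
    kcup (Units.map (f : A →* B) a) x y = f (kcup a x y) := by
  unfold kcup
  split_ifs
  · exact (map_one f).symm
  · rw [map_neg, ← map_pow]
    rfl
  · exact (map_zero f).symm

theorem kcap_map (x y : Bool) :
    kcap (Units.map (f : A →* B) a) x y = f (kcap a x y) := by
  unfold kcap
  split_ifs
  · exact (map_one f).symm
  · rw [map_neg, ← map_inv, ← map_pow]
    rfl
  · exact (map_zero f).symm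

theorem kb_map : kb (Units.map (f : A →* B) a) = tmap f (kb a) := by
  unfold kb tmap
  simp only [TData.mk.injEq]
  refine ⟨?_, ?_, ?_⟩
  · funext e x y u v
    rw [map_sub, map_mul, map_neg, map_mul, map_mul, ← kcup_map, ← kcap_map]
    cases e
    · simp
    · simp
  · funext x y
    exact kcup_map f a x y
  · funext x y
    exact kcap_map f a x y

theorem od_map (t : Aˣ) : od (Units.map (f : A →* B) t) = tmap f (od t) := by
  unfold od tmap
  simp only [TData.mk.injEq]
  refine ⟨?_, ?_, ?_⟩
  · funext e x y u v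
    cases e <;> split_ifs <;> simp
  · funext x y
    split_ifs <;> simp
  · funext x y
    split_ifs <;> simp

theorem jdata_map : jdata (Units.map (f : A →* B) a) = tmap f (jdata a) := by
  unfold jdata
  rw [kb_map, ← map_inv, ← map_pow, od_map]
  unfold UB.tprod tmap
  simp only [map_mul]

end Data

end JNAT

/-- JNAT -/
theorem t_JNAT : JNAT_Stmt :=
  ⟨fun _ _ _ _ _ _ _ f T s0 w => JNAT.J_map f T s0 w, fun _ _ _ _ f a => JNAT.jdata_map f a⟩

end Pool.Agent.UA
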