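import Pool.Agent.UA.StE

/-!
Theorem U (MP_31fd3b_gt), block E: JON. If all finite type invariants agree with those of the unknot
then the polynomials of all the trees are monomials.
-/

open scoped BigOperators

namespace Pool.Agent.UA

open Pool.Agent.LibH11.Sliced Pool.Agent.MTR Pool.Agent.UB
open Pool.Agent.TB hiding vec

namespace JON

open LaurentPolynomial in
/-- The units of the ring of Laurent polynomials over a field are the monomials. -/
theorem unit_mono {k : Type} [Field k] (u v : LaurentPolynomial k) (h : u * v = 1) :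
    ∃ (c : k) (m : ℤ), c ≠ 0 ∧ u = LaurentPolynomial.C c * LaurentPolynomial.T m := by
  obtain ⟨i, p, hp⟩ := LaurentPolynomial.exists_T_pow u
  obtain ⟨j, q, hq⟩ := LaurentPolynomial.exists_T_pow v
  have h1 : p * q = Polynomial.X ^ (i + j) := by
    apply Polynomial.toLaurent_injective
    rw [map_mul, hp, hq, Polynomial.toLaurent_X_pow]
    have h2 : u * T (i : ℤ) * (v * T (j : ℤ)) = (u * v) * (T (i : ℤ) * T (j : ℤ)) := by ring
    rw [h2, h, one_mul, ← T_add]
    push_cast
    rfl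
  have h2 : p ∣ Polynomial.X ^ (i + j) := Dvd.intro q h1
  rw [dvd_prime_pow Polynomial.prime_X] at h2
  obtain ⟨l, -, hl⟩ := h2
  obtain ⟨w, hw⟩ := hl
  obtain ⟨c, hc, hc'⟩ := Polynomial.isUnit_iff.1 (w⁻¹).isUnit
  have hw' : p = Polynomial.X ^ l * ((w⁻¹ : (Polynomial k)ˣ) : Polynomial k) := by
    rw [← hw, mul_assoc, ← Units.val_mul, mul_inv_cancel, Units.val_one, mul_one]
  refine ⟨c, (l : ℤ) - i, hc.ne_zero, ?_⟩
  have h3 : u = Polynomial.toLaurent p * T (-(i : ℤ)) := by
    rw [hp, mul_assoc, ← T_add, add_neg_cancel, T_zero, mul_one]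
  rw [h3, hw', ← hc', map_mul, Polynomial.toLaurent_X_pow, Polynomial.toLaurent_C, sub_eq_add_neg,
    T_add]
  ring

/-- `T` as a unit -/
noncomputable def uT (k : Type) [CommRing k] : (LaurentPolynomial k)ˣ where
  val := LaurentPolynomial.T 1
  inv := LaurentPolynomial.T (-1)
  val_inv := by rw [← LaurentPolynomial.T_add]; simp
  inv_val := by rw [← LaurentPolynomial.T_add]; simp

end JON

theorem t_JON (h1 : JONE_Stmt) (h2 : JDIV_Stmt) (h3 : BVN_Stmt) : JON_Stmt := by
  intro Ts h h0 hv T hT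
  constructor
  · by_contra hne
    have hne' : (vec T).1.natAbs ≠ 1 := by
      intro h4
      apply hne
      rw [Int.abs_eq_natAbs, h4]
      rfl
    obtain ⟨p, hp, hd⟩ := Nat.exists_prime_and_dvd hne'
    haveI : Fact p.Prime := ⟨hp⟩
    obtain ⟨z, hz⟩ := IsAlgClosed.exists_pow_nat_eq (-1 : AlgebraicClosure (ZMod p))
      (n := 4) (by norm_num)
    have hz0 : z ≠ 0 := by
      rintro rfl
      rw [zero_pow (by norm_num)] at hz
      exact one_ne_zero (neg_eq_zero.1 hz.symm)
    obtain ⟨q, hq⟩ := h2 (AlgebraicClosure (ZMod p)) (Units.mk0 z hz0) 1 hz Ts T hT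
    rw [h1 (cls Ts) h h0 hv, h3.2] at hq
    have h5 : (((vec T).1 : ℤ) : AlgebraicClosure (ZMod p)) = 0 := by
      haveI : CharP (AlgebraicClosure (ZMod p)) p :=
        charP_of_injective_algebraMap (algebraMap (ZMod p) (AlgebraicClosure (ZMod p))).injective p
      rw [CharP.intCast_eq_zero_iff (AlgebraicClosure (ZMod p)) p]
      exact Int.natCast_dvd.2 hd
    rw [h5, zero_mul] at hq
    exact one_ne_zero hq
  · obtain ⟨z, hz⟩ := IsAlgClosed.exists_pow_nat_eq (-1 : ℂ) (n := 4) (by norm_num)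
    have hz0 : z ≠ 0 := by
      rintro rfl
      rw [zero_pow (by norm_num)] at hz
      exact one_ne_zero (neg_eq_zero.1 hz.symm)
    set κ : (LaurentPolynomial ℂ)ˣ := Units.map
      ((LaurentPolynomial.C : ℂ →+* LaurentPolynomial ℂ) : ℂ →* LaurentPolynomial ℂ)
      (Units.mk0 z hz0) with hκ
    have hκ4 : ((κ : (LaurentPolynomial ℂ)ˣ) : LaurentPolynomial ℂ) ^ 4 = -1 := by
      change (LaurentPolynomial.C z) ^ 4 = -1
      rw [← map_pow, hz, map_neg, map_one]
    obtain ⟨q, hq⟩ := h2 (LaurentPolynomial ℂ) κ (JON.uT ℂ) hκ4 Ts T hT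
    rw [h1 (cls Ts) h h0 hv] at hq
    obtain ⟨c, m, hc, hcm⟩ := JON.unit_mono _ q hq.symm
    refine ⟨c, m, hc, ?_⟩
    have h4 := h3.1 (LaurentPolynomial ℂ) JR
      (LaurentPolynomial.eval₂ (PowerSeries.C : ℂ →+* JR) sx) (JON.uT ℂ) T
    have h5 : Units.map ((LaurentPolynomial.eval₂ (PowerSeries.C : ℂ →+* JR) sx :
        LaurentPolynomial ℂ →+* JR) : LaurentPolynomial ℂ →* JR) (JON.uT ℂ) = sx := by
      apply Units.ext
      change LaurentPolynomial.eval₂ (PowerSeries.C : ℂ →+* JR) sx (LaurentPolynomial.T 1) = _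
      rw [LaurentPolynomial.eval₂_T, zpow_one]
    rw [h5, hcm, LaurentPolynomial.eval₂_C_mul_T] at h4
    exact h4

end Pool.Agent.UA
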