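import Pool.Agent.UA.StE

/-!
Finite type invariants detect the unknot among the arborescent knots (MP_31fd3b_gt, Theorem U):
block E, KBG: the relations of the Kauffman bracket with orientations.
-/

set_option autoImplicit false
set_option linter.unusedSimpArgs false

open scoped BigOperators

namespace Pool.Agent.UA

open Pool.Agent.LibH11.Sliced Pool.Agent.MTR Pool.Agent.UB
open Pool.Agent.TB hiding vec

namespace KBG

/-- the factor of a parallel crossing -/
def th {A : Type} [CommRing A] (t : Aˣ) (e : Bool) : A :=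
  if e then (t : A) else ((t⁻¹ : Aˣ) : A)

theorem th_mul {A : Type} [CommRing A] (t : Aˣ) (e : Bool) : th t e * th t (!e) = 1 := by
  cases e <;> simp [th]

theorem th_mul' {A : Type} [CommRing A] (t : Aˣ) (e : Bool) : th t (!e) * th t e = 1 := by
  cases e <;> simp [th]

/-- The relations of a model with framing factors at the slides. -/
structure KG {A S : Type} [CommRing A] [Fintype S] [DecidableEq S] (T : TData A S) (t : Aˣ) :
    Prop where
  zigzag : ∀ x b, ∑ y, T.cup x y * T.cap y b = if x = b then 1 else 0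
  zagzig : ∀ y b, ∑ x, T.cap b x * T.cup x y = if y = b then 1 else 0
  slideCap : ∀ e d a b c,
    th t e * ∑ x, T.R e x d b c * T.cap a x = ∑ x, T.R (!e) d x a b * T.cap x c
  slideCup : ∀ e x p z a,
    th t e * ∑ y, T.cup x y * T.R e p z y a = ∑ y, T.R (!e) x p a y * T.cup y z
  r1Cap : ∀ e a b, ∑ x, ∑ y, T.cap x y * T.R e x y a b = T.cap a b
  r1Cup : ∀ e a b, ∑ x, ∑ y, T.R e a b x y * T.cup x y = T.cup a b
  r2 : ∀ e a b c d,
    ∑ x, ∑ y, T.R (!e) a b x y * T.R e x y c d = if a = c ∧ b = d then 1 else 0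
  r3 : ∀ a b c a' b' c',
    ∑ x, ∑ y, ∑ z, T.R true a b x y * T.R true y c z c' * T.R true x z a' b' =
      ∑ x, ∑ y, ∑ z, T.R true b c y z * T.R true a y a' x * T.R true x z b' c'

section Nrm

variable {A S : Type} [CommRing A] [Fintype S] [DecidableEq S]

/-- the factor of a crossing with orientations `o`, `o'` -/
def kf (t : Aˣ) (e o o' : Bool) : A := if o = o' then th t e else 1

theorem kf_same (t : Aˣ) (e o : Bool) : kf t e o o = th t e := by simp [kf]

theorem kf_tf (t : Aˣ) (e : Bool) : kf t e true false = 1 := by simp [kf]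

theorem kf_ft (t : Aˣ) (e : Bool) : kf t e false true = 1 := by simp [kf]

/-- the orientations -/
theorem od_R (t : Aˣ) (e x y a b : Bool) :
    (od t).R e x y a b = if x = b ∧ y = a then kf t e a b else 0 := rfl

theorem od_cup (t : Aˣ) (x y : Bool) : (od t).cup x y = if x ≠ y then 1 else 0 := rfl

theorem od_cap (t : Aˣ) (x y : Bool) : (od t).cap x y = if x ≠ y then 1 else 0 := rfl

/-- The product with the orientations satisfies the relations without factors. -/
theorem KG.good {T : TData A S} {t : Aˣ} (h : KG T t) : (tprod T (od t)).Good where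
  zigzag := by
    rintro ⟨x, o⟩ ⟨b, o'⟩
    have h1 := h.zigzag x b
    simp only [Fintype.sum_prod_type, Fintype.sum_bool, UB.tprod, od_cup, od_cap, Prod.mk.injEq]
    cases o <;> cases o' <;> simp [h1]
  zagzig := by
    rintro ⟨x, o⟩ ⟨b, o'⟩
    have h1 := h.zagzig x b
    simp only [Fintype.sum_prod_type, Fintype.sum_bool, UB.tprod, od_cup, od_cap, Prod.mk.injEq]
    cases o <;> cases o' <;> simp [h1]
  slideCap := by
    rintro e ⟨d, o1⟩ ⟨a, o2⟩ ⟨b, o3⟩ ⟨c, o4⟩
    have h1 := h.slideCap e d a b c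
    have h2 : ∑ x, T.R e x d b c * T.cap a x =
        th t (!e) * ∑ x, T.R (!e) d x a b * T.cap x c := by
      rw [← h1, ← mul_assoc, th_mul', one_mul]
    have h3 : ∀ (k : A), ∑ x, T.R e x d b c * k * T.cap a x =
        k * ∑ x, T.R e x d b c * T.cap a x := by
      intro k
      rw [Finset.mul_sum]
      exact Finset.sum_congr rfl fun x _ => by ring
    have h4 : ∀ (k : A), ∑ x, T.R (!e) d x a b * k * T.cap x c =
        k * ∑ x, T.R (!e) d x a b * T.cap x c := by
      intro k
      rw [Finset.mul_sum]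
      exact Finset.sum_congr rfl fun x _ => by ring
    simp only [Fintype.sum_prod_type, Fintype.sum_bool, UB.tprod, od_R, od_cap]
    cases o1 <;> cases o2 <;> cases o3 <;> cases o4 <;> simp [h3, h4, kf_same, kf_tf, kf_ft]
    all_goals first | exact h1 | exact h2
  slideCup := by
    rintro e ⟨x, o1⟩ ⟨p, o2⟩ ⟨z, o3⟩ ⟨a, o4⟩
    have h1 := h.slideCup e x p z a
    have h2 : ∑ y, T.cup x y * T.R e p z y a =
        th t (!e) * ∑ y, T.R (!e) x p a y * T.cup y z := by
      rw [← h1, ← mul_assoc, th_mul', one_mul]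
    have h3 : ∀ (k : A), ∑ y, T.cup x y * (T.R e p z y a * k) =
        k * ∑ y, T.cup x y * T.R e p z y a := by
      intro k
      rw [Finset.mul_sum]
      exact Finset.sum_congr rfl fun x _ => by ring
    have h4 : ∀ (k : A), ∑ y, T.R (!e) x p a y * k * T.cup y z =
        k * ∑ y, T.R (!e) x p a y * T.cup y z := by
      intro k
      rw [Finset.mul_sum]
      exact Finset.sum_congr rfl fun x _ => by ring
    simp only [Fintype.sum_prod_type, Fintype.sum_bool, UB.tprod, od_R, od_cup]
    cases o1 <;> cases o2 <;> cases o3 <;> cases o4 <;> simp [h3, h4, kf_same, kf_tf, kf_ft]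
    all_goals first | exact h1 | exact h2
  r1Cap := by
    rintro e ⟨a, o1⟩ ⟨b, o2⟩
    have h1 := h.r1Cap e a b
    simp only [Fintype.sum_prod_type, Fintype.sum_bool, UB.tprod, od_R, od_cap]
    cases o1 <;> cases o2 <;> simp [h1, kf_same, kf_tf, kf_ft]
  r1Cup := by
    rintro e ⟨a, o1⟩ ⟨b, o2⟩
    have h1 := h.r1Cup e a b
    simp only [Fintype.sum_prod_type, Fintype.sum_bool, UB.tprod, od_R, od_cup]
    cases o1 <;> cases o2 <;> simp [h1, kf_same, kf_tf, kf_ft]
  r2 := by
    rintro e ⟨a, o1⟩ ⟨b, o2⟩ ⟨c, o3⟩ ⟨d, o4⟩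
    have h1 := h.r2 e a b c d
    have h2 := th_mul' t e
    have h3 : (∑ x, ∑ y, T.R (!e) a b x y * th t (!e) * (T.R e x y c d * th t e)) =
        ∑ x, ∑ y, T.R (!e) a b x y * T.R e x y c d := by
      refine Finset.sum_congr rfl fun x _ => Finset.sum_congr rfl fun y _ => ?_
      linear_combination (T.R (!e) a b x y * T.R e x y c d) * h2
    simp only [Fintype.sum_prod_type, Fintype.sum_bool, UB.tprod, od_R, Prod.mk.injEq]
    cases o1 <;> cases o2 <;> cases o3 <;> cases o4 <;>
      simp [h3, h1, kf_same, kf_tf, kf_ft]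
  r3 := by
    rintro ⟨a, o1⟩ ⟨b, o2⟩ ⟨c, o3⟩ ⟨a', o4⟩ ⟨b', o5⟩ ⟨c', o6⟩
    have h1 := h.r3 a b c a' b' c'
    have h3 : ∀ k1 k2 k3 : A, (∑ x, ∑ y, ∑ z, T.R true a b x y * k1 *
        (T.R true y c z c' * k2) * (T.R true x z a' b' * k3)) = k1 * k2 * k3 *
        ∑ x, ∑ y, ∑ z, T.R true a b x y * T.R true y c z c' * T.R true x z a' b' := by
      intro k1 k2 k3
      simp only [Finset.mul_sum]
      exact Finset.sum_congr rfl fun x _ => Finset.sum_congr rfl fun y _ =>
        Finset.sum_congr rfl fun z _ => by ring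
    have h4 : ∀ k1 k2 k3 : A, (∑ x, ∑ y, ∑ z, T.R true b c y z * k1 *
        (T.R true a y a' x * k2) * (T.R true x z b' c' * k3)) = k1 * k2 * k3 *
        ∑ x, ∑ y, ∑ z, T.R true b c y z * T.R true a y a' x * T.R true x z b' c' := by
      intro k1 k2 k3
      simp only [Finset.mul_sum]
      exact Finset.sum_congr rfl fun x _ => Finset.sum_congr rfl fun y _ =>
        Finset.sum_congr rfl fun z _ => by ring
    simp only [Fintype.sum_prod_type, Fintype.sum_bool, UB.tprod, od_R]
    cases o1 <;> cases o2 <;> cases o3 <;> cases o4 <;> cases o5 <;> cases o6 <;>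
      simp [h3, h4, h1] <;> simp only [kf_same, kf_tf, kf_ft, one_mul, mul_one]

end Nrm

/-! ### The bracket -/

section Br

variable {A : Type} [CommRing A] (a : Aˣ)

/-- the entries of a crossing of type `true` -/
def RT (c : A) : Bool → Bool → Bool → Bool → A
  | false, false, false, false => -c ^ 2
  | true, true, true, true => -c ^ 2
  | false, true, false, true => 1 - c ^ 2
  | false, true, true, false => -c
  | true, false, false, true => -c
  | _, _, _, _ => 0

theorem RT_r3 (c : A) (x y z x' y' z' : Bool) :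
    ∑ s, ∑ t, ∑ u, RT c x y s t * RT c t z u z' * RT c s u x' y' =
      ∑ s, ∑ t, ∑ u, RT c y z t u * RT c x t x' s * RT c s u y' z' := by
  simp only [Fintype.sum_bool]
  cases x <;> cases y <;> cases z <;> cases x' <;> cases y' <;> cases z' <;>
    simp only [RT] <;> ring

theorem kb_rel : KG (kb a) (a⁻¹ ^ 6) := by
  obtain ⟨u, hu⟩ : ∃ u : A, u = (a : A) := ⟨_, rfl⟩
  obtain ⟨v, hv⟩ : ∃ v : A, v = ((a⁻¹ : Aˣ) : A) := ⟨_, rfl⟩
  have huv : u * v = 1 := by rw [hu, hv, Units.mul_inv]
  have hcd : u ^ 2 * v ^ 2 = 1 := by rw [← mul_pow, huv, one_pow]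
  have e2 : ((a ^ 2 : Aˣ) : A) = u ^ 2 := by rw [hu]; push_cast; rfl
  have e4 : ((a ^ 4 : Aˣ) : A) = u ^ 4 := by rw [hu]; push_cast; rfl
  have f2 : ((a⁻¹ ^ 2 : Aˣ) : A) = v ^ 2 := by rw [hv, Units.val_pow_eq_pow_val]
  have f4 : ((a⁻¹ ^ 4 : Aˣ) : A) = v ^ 4 := by rw [hv, Units.val_pow_eq_pow_val]
  have t1 : th (a⁻¹ ^ 6) true = v ^ 6 := by
    rw [hv]
    simp only [th, if_true, Units.val_pow_eq_pow_val]
  have t0 : th (a⁻¹ ^ 6) false = u ^ 6 := by
    rw [hu]
    simp [th, ← inv_pow]
  have R1 : ∀ x y z t : Bool, (kb a).R true x y z t = -u ^ 4 * (if x = z ∧ y = t then 1 else 0) -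
      u ^ 2 * (kcup a x y * kcap a z t) := by
    intro x y z t
    simp only [kb, if_true, e2, e4]
  have R0 : ∀ x y z t : Bool, (kb a).R false x y z t = -v ^ 4 * (if x = z ∧ y = t then 1 else 0) -
      v ^ 2 * (kcup a x y * kcap a z t) := by
    intro x y z t
    simp only [kb, Bool.false_eq_true, if_false, f2, f4]
  have C1 : ∀ x y, (kb a).cup x y =
      if x = false ∧ y = true then 1 else if x = true ∧ y = false then -u ^ 2 else 0 := by
    intro x y
    simp only [kb, kcup, e2]
  have C2 : ∀ x y, (kb a).cap x y =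
      if x = true ∧ y = false then 1 else if x = false ∧ y = true then -v ^ 2 else 0 := by
    intro x y
    simp only [kb, kcap, f2]
  have C1' : ∀ x y, kcup a x y =
      if x = false ∧ y = true then 1 else if x = true ∧ y = false then -u ^ 2 else 0 := by
    intro x y
    simp only [kcup, e2]
  have C2' : ∀ x y, kcap a x y =
      if x = true ∧ y = false then 1 else if x = false ∧ y = true then -v ^ 2 else 0 := by
    intro x y
    simp only [kcap, f2]
  constructor
  · intro x b
    simp only [Fintype.sum_bool, C1, C2]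
    cases x <;> cases b <;> simp [hcd]
  · intro x b
    simp only [Fintype.sum_bool, C1, C2]
    cases x <;> cases b <;> simp [hcd, mul_comm (v ^ 2)]
  · intro e d x y z
    cases e <;> simp only [Fintype.sum_bool, R1, R0, C2, C1', C2', t1, t0, Bool.not_true,
      Bool.not_false] <;> cases d <;> cases x <;> cases y <;> cases z <;> simp <;> grind
  · intro e d x y z
    cases e <;> simp only [Fintype.sum_bool, R1, R0, C1, C1', C2', t1, t0, Bool.not_true,
      Bool.not_false] <;> cases d <;> cases x <;> cases y <;> cases z <;> simp <;> grind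
  · intro e x y
    cases e <;> simp only [Fintype.sum_bool, R1, R0, C2, C1', C2'] <;> cases x <;>
      cases y <;> simp <;> grind
  · intro e x y
    cases e <;> simp only [Fintype.sum_bool, R1, R0, C1, C1', C2'] <;> cases x <;>
      cases y <;> simp <;> grind
  · intro e x y z t
    cases e <;> simp only [Fintype.sum_bool, R1, R0, C1', C2', Bool.not_true,
      Bool.not_false] <;> cases x <;> cases y <;> cases z <;> cases t <;> simp <;> grind
  · have h : ∀ x y z t : Bool, (kb a).R true x y z t = RT (u ^ 2) x y z t := by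
      intro x y z t
      rw [R1, C1', C2']
      cases x <;> cases y <;> cases z <;> cases t <;> simp [RT] <;> grind
    intro x y z x' y' z'
    simp only [h]
    exact RT_r3 _ x y z x' y' z'

end Br

end KBG

open KBG in
/-- KBG -/
theorem t_KBG : KBG_Stmt := by
  refine ⟨fun A _ a => (kb_rel a).good, ?_⟩
  intro a ha x y u v
  obtain ⟨f, hf⟩ : ∃ f : PowerSeries ℂ →+* ℂ, f = PowerSeries.constantCoeff := ⟨_, rfl⟩
  rw [← hf] at ha ⊢
  have hinv : f ((a⁻¹ : (PowerSeries ℂ)ˣ) : PowerSeries ℂ) = 1 := by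
    have h1 : f ((a : PowerSeries ℂ) * ((a⁻¹ : (PowerSeries ℂ)ˣ) : PowerSeries ℂ)) = 1 := by
      rw [Units.mul_inv, map_one]
    rwa [map_mul, ha, one_mul] at h1
  have e1 : ∀ n : ℕ, f ((a ^ n : (PowerSeries ℂ)ˣ) : PowerSeries ℂ) = 1 := by
    intro n
    rw [Units.val_pow_eq_pow_val, map_pow, ha, one_pow]
  have e2 : ∀ n : ℕ, f ((a⁻¹ ^ n : (PowerSeries ℂ)ˣ) : PowerSeries ℂ) = 1 := by
    intro n
    rw [Units.val_pow_eq_pow_val, map_pow, hinv, one_pow]
  have e3 : f (((a⁻¹ ^ 6)⁻¹ : (PowerSeries ℂ)ˣ) : PowerSeries ℂ) = 1 := by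
    rw [← inv_pow, inv_inv]
    exact e1 6
  have hk : ∀ e x y u v, f ((kb a).R e x y u v) =
      -(f (if x = u ∧ y = v then 1 else 0)) - f (kcup a x y * kcap a u v) := by
    intro e x y u v
    cases e
    · simp only [kb, map_mul, map_sub, map_neg, Bool.false_eq_true, if_false, e2]
      ring
    · simp only [kb, map_mul, map_sub, map_neg, if_true, e1]
      ring
  have ho : ∀ e x y u v, f ((od (a⁻¹ ^ 6)).R e x y u v) = if x = v ∧ y = u then 1 else 0 := by
    intro e x y u v
    unfold od
    dsimp only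
    split_ifs
    · exact e2 6
    · exact e3
    · exact map_one f
    · exact map_zero f
  simp only [jdata, UB.tprod, map_mul, hk, ho]

end Pool.Agent.UA
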