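import Pool.Agent.UA.StE

/-!
KBM: the bracket of a tree.
-/

open scoped BigOperators

namespace Pool.Agent.UA

open Pool.Agent.LibH11.Sliced Pool.Agent.MTR Pool.Agent.UB
open Pool.Agent.TB hiding vec

namespace KBM

variable {A : Type} [CommRing A]

section Basic

variable (a : Aˣ)

theorem kcup_val (x y : Bool) : kcup a x y =
    match x, y with
    | false, true => 1
    | true, false => -((a : A) ^ 2)
    | _, _ => 0 := by
  cases x <;> cases y <;> simp [kcup]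

theorem kcap_val (x y : Bool) : kcap a x y =
    match x, y with
    | true, false => 1
    | false, true => -(((a⁻¹ : Aˣ) : A) ^ 2)
    | _, _ => 0 := by
  cases x <;> cases y <;> simp [kcap]

theorem aa : (a : A) * ((a⁻¹ : Aˣ) : A) = 1 := Units.mul_inv a

theorem aa2 : (a : A) ^ 2 * ((a⁻¹ : Aˣ) : A) ^ 2 = 1 := by
  rw [← mul_pow, aa, one_pow]

/-- the first zigzag -/
theorem zz (x z : Bool) : ∑ y, kcup a x y * kcap a y z = if x = z then 1 else 0 := by
  have h := aa2 a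
  cases x <;> cases z <;>
    simp only [Fintype.sum_bool, kcup_val, kcap_val, mul_zero, zero_mul, add_zero, zero_add,
      mul_one, if_true, if_false, reduceCtorEq]
  linear_combination h

/-- the second zigzag -/
theorem zz' (x z : Bool) : ∑ y, kcap a x y * kcup a y z = if x = z then 1 else 0 := by
  have h := aa2 a
  cases x <;> cases z <;>
    simp only [Fintype.sum_bool, kcup_val, kcap_val, mul_zero, zero_mul, add_zero, zero_add,
      mul_one, if_true, if_false, reduceCtorEq]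
  linear_combination h

/-- the value of a circle -/
theorem circ : ∑ x, ∑ y, kcap a x y * kcup a x y = -((a : A) ^ 2) - ((a⁻¹ : Aˣ) : A) ^ 2 := by
  simp only [Fintype.sum_bool, kcup_val, kcap_val, mul_zero, add_zero, zero_add,
      mul_one, one_mul]
  ring

end Basic

section Main

variable (κ s : Aˣ)

/-- the matrix of a vector -/
def m (v : A × A) : Matrix (Bool × Bool) (Bool × Bool) A :=
  v.2 • (1 : Matrix (Bool × Bool) (Bool × Bool) A) + v.1 • kbE κ (κ * s)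

variable {κ s}

theorem kk (h4 : (κ : A) ^ 4 = -1) : ((κ⁻¹ : Aˣ) : A) ^ 2 = -(κ : A) ^ 2 := by
  have h := aa2 κ
  linear_combination ((κ⁻¹ : Aˣ) : A) ^ 2 * h4 - (κ : A) ^ 2 * h

theorem val2 : ((κ * s : Aˣ) : A) ^ 2 = (κ : A) ^ 2 * (s : A) ^ 2 := by
  rw [Units.val_mul, mul_pow]

theorem val2' : (((κ * s)⁻¹ : Aˣ) : A) ^ 2 = ((κ⁻¹ : Aˣ) : A) ^ 2 * ((s⁻¹ : Aˣ) : A) ^ 2 := by
  rw [mul_inv, Units.val_mul, mul_pow]

theorem be_val : be s = (s : A) ^ 2 - ((s⁻¹ : Aˣ) : A) ^ 2 := by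
  simp only [be, Units.val_pow_eq_pow_val]

/-- the value of a circle -/
theorem circ' (h4 : (κ : A) ^ 4 = -1) :
    -(((κ * s : Aˣ) : A) ^ 2) - (((κ * s)⁻¹ : Aˣ) : A) ^ 2 = -((κ : A) ^ 2 * be s) := by
  rw [val2, val2', kk h4, be_val]
  ring

theorem kbE_mul (h4 : (κ : A) ^ 4 = -1) : kbE κ (κ * s) * kbE κ (κ * s) =
    be s • kbE κ (κ * s) := by
  ext p c
  rw [Matrix.mul_apply, Matrix.smul_apply, smul_eq_mul]
  simp only [kbE, Fintype.sum_prod_type, Units.val_pow_eq_pow_val]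
  have h1 : ∀ x y : Bool, (κ : A) ^ 2 * (kcup (κ * s) p.1 p.2 * kcap (κ * s) x y) *
      ((κ : A) ^ 2 * (kcup (κ * s) x y * kcap (κ * s) c.1 c.2)) =
      ((κ : A) ^ 4 * kcup (κ * s) p.1 p.2 * kcap (κ * s) c.1 c.2) *
        (kcap (κ * s) x y * kcup (κ * s) x y) := by
    intro x y
    ring
  simp only [h1, ← Finset.mul_sum]
  rw [circ, circ' h4, h4]
  ring

theorem m_mul (h4 : (κ : A) ^ 4 = -1) (v w : A × A) :
    m κ s v * m κ s w = m κ s (mulv s v w) := by
  simp only [m, mulv, add_mul, mul_add, Matrix.smul_mul, Matrix.mul_smul, one_mul, mul_one,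
    kbE_mul h4, smul_smul, add_smul]
  rw [mul_comm w.2 v.2]
  have e2 : w.1 * (v.1 * be s) = be s * v.1 * w.1 := by ring
  simp only [e2]
  rw [mul_comm w.2 v.1, mul_comm w.1 v.2]
  abel

theorem rot_lin (T : TData A Bool) (c d : A) (M N : Matrix (Bool × Bool) (Bool × Bool) A) :
    rot T (c • M + d • N) = c • rot T M + d • rot T N := by
  ext p q
  simp only [rot, Matrix.add_apply, Matrix.smul_apply, smul_eq_mul, Finset.mul_sum]
  simp only [← Finset.sum_add_distrib]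
  refine Finset.sum_congr rfl fun a _ => Finset.sum_congr rfl fun x _ => ?_
  ring

theorem rot_one (h4 : (κ : A) ^ 4 = -1) : rot (kb (κ * s)) 1 = -(κ : A) ^ 2 • kbE κ (κ * s) := by
  ext p c
  simp only [rot, kb, kbE, Matrix.smul_apply, smul_eq_mul, Matrix.one_apply,
    Units.val_pow_eq_pow_val]
  have h1 : ∀ a x : Bool, kcap (κ * s) a c.2 * (if (p.2, a) = (x, c.1) then (1 : A) else 0) *
      kcup (κ * s) p.1 x =
      if a = c.1 then (if p.2 = x then kcap (κ * s) a c.2 * kcup (κ * s) p.1 x else 0) else 0 := by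
    intro a x
    by_cases h2 : a = c.1
    · by_cases h3 : p.2 = x
      · rw [if_pos (by rw [h2, h3]), if_pos h2, if_pos h3]
        ring
      · rw [if_neg (fun h => h3 (Prod.mk.injEq _ _ _ _ ▸ h).1), if_pos h2, if_neg h3]
        ring
    · rw [if_neg (fun h => h2 (Prod.mk.injEq _ _ _ _ ▸ h).2), if_neg h2]
      ring
  simp only [h1]
  rw [Finset.sum_eq_single c.1 (fun b _ hb => by simp [hb])
    (fun h => absurd (Finset.mem_univ _) h)]
  simp only [if_true]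
  rw [Finset.sum_ite_eq Finset.univ p.2, if_pos (Finset.mem_univ _)]
  linear_combination (kcap (κ * s) c.1 c.2 * kcup (κ * s) p.1 p.2) * h4

theorem rot_kbE : rot (kb (κ * s)) (kbE κ (κ * s)) = (κ : A) ^ 2 • 1 := by
  ext p c
  simp only [rot, kb, kbE, Matrix.smul_apply, smul_eq_mul, Matrix.one_apply,
    Units.val_pow_eq_pow_val]
  have h1 : ∀ a x : Bool, kcap (κ * s) a c.2 * ((κ : A) ^ 2 * (kcup (κ * s) p.2 a *
      kcap (κ * s) x c.1)) * kcup (κ * s) p.1 x = (κ : A) ^ 2 * (kcup (κ * s) p.2 a *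
      kcap (κ * s) a c.2) * (kcup (κ * s) p.1 x * kcap (κ * s) x c.1) := by
    intro a x
    ring
  simp only [h1, ← Finset.mul_sum, ← Finset.sum_mul, zz]
  obtain ⟨p1, p2⟩ := p
  obtain ⟨c1, c2⟩ := c
  by_cases h2 : p1 = c1 <;> by_cases h3 : p2 = c2 <;> simp [h2, h3]

theorem rot_m (h4 : (κ : A) ^ 4 = -1) (v : A × A) :
    rot (kb (κ * s)) (m κ s v) = (κ : A) ^ 2 • m κ s (rotv v) := by
  rw [m, rot_lin, rot_one h4, rot_kbE, m, rotv]
  simp only [smul_add, smul_smul]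
  rw [add_comm, mul_comm v.1]
  congr 2
  ring

theorem rot_smul (T : TData A Bool) (c : A) (M : Matrix (Bool × Bool) (Bool × Bool) A) :
    rot T (c • M) = c • rot T M := by
  have h := rot_lin T c 0 M M
  simpa using h

theorem pv_one : pv s 1 = (-(s : A) ^ 2, (s : A) ^ 4) := by
  show (-((s ^ 2 : Aˣ) : A) * ∑ k ∈ Finset.range 1, ((s ^ (4 * k) : Aˣ) : A),
      ((s ^ (4 * 1) : Aˣ) : A)) = _
  simp

theorem pv_neg : pv s (-1) = (((s⁻¹ : Aˣ) : A) ^ 2, ((s⁻¹ : Aˣ) : A) ^ 4) := by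
  show (((s⁻¹ ^ 2 : Aˣ) : A) * ∑ k ∈ Finset.range (0 + 1), ((s⁻¹ ^ (4 * k) : Aˣ) : A),
      ((s⁻¹ ^ (4 * (0 + 1)) : Aˣ) : A)) = _
  simp

theorem pv_zero : pv s 0 = ((0 : A), 1) := by
  show (-((s ^ 2 : Aˣ) : A) * ∑ k ∈ Finset.range 0, ((s ^ (4 * k) : Aˣ) : A),
      ((s ^ (4 * 0) : Aˣ) : A)) = _
  simp

theorem m_one : m κ s (0, 1) = 1 := by
  simp [m]

theorem sg_true (h4 : (κ : A) ^ 4 = -1) : sg (kb (κ * s)) true = m κ s (pv s 1) := by
  rw [pv_one]
  ext p c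
  have e4 : ((κ * s : Aˣ) : A) ^ 4 = -(s : A) ^ 4 := by
    rw [Units.val_mul, mul_pow, h4]
    ring
  simp only [sg, kb, m, kbE, Matrix.add_apply, Matrix.smul_apply, smul_eq_mul, Matrix.one_apply,
    Units.val_pow_eq_pow_val, if_true, Prod.ext_iff, e4, val2]
  ring

theorem sg_false (h4 : (κ : A) ^ 4 = -1) : sg (kb (κ * s)) false = m κ s (pv s (-1)) := by
  rw [pv_neg]
  ext p c
  have e4 : (((κ * s)⁻¹ : Aˣ) : A) ^ 4 = -((s⁻¹ : Aˣ) : A) ^ 4 := by
    have e : (((κ * s)⁻¹ : Aˣ) : A) ^ 4 = ((((κ * s)⁻¹ : Aˣ) : A) ^ 2) ^ 2 := by ring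
    rw [e, val2', kk h4]
    linear_combination (((s⁻¹ : Aˣ) : A) ^ 4) * h4
  have e2 := val2' (κ := κ) (s := s)
  rw [kk h4] at e2
  simp only [sg, kb, m, kbE, Matrix.add_apply, Matrix.smul_apply, smul_eq_mul, Matrix.one_apply,
    Units.val_pow_eq_pow_val, if_false, Prod.ext_iff, e4, e2, Bool.false_eq_true]
  ring

theorem pow_true (h1 : JPV_Stmt) (h4 : (κ : A) ^ 4 = -1) (n : ℕ) :
    m κ s (pv s 1) ^ n = m κ s (pv s n) := by
  induction n with
  | zero => rw [pow_zero, Nat.cast_zero, pv_zero, m_one]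
  | succ n ih =>
    rw [pow_succ, ih, m_mul h4, (h1 A s).2.1, Nat.cast_succ]

theorem pow_false (h1 : JPV_Stmt) (h4 : (κ : A) ^ 4 = -1) (n : ℕ) :
    m κ s (pv s (-1)) ^ n = m κ s (pv s (-n)) := by
  induction n with
  | zero => rw [pow_zero, Nat.cast_zero, neg_zero, pv_zero, m_one]
  | succ n ih =>
    rw [pow_succ, ih, m_mul h4, (h1 A s).2.1, Nat.cast_succ, neg_add]

theorem mt_pw (h1 : JPV_Stmt) (h4 : (κ : A) ^ 4 = -1) (e : ℤ) :
    mt (kb (κ * s)) (.pw e) = m κ s (pv s e) := by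
  rw [UB.mt]
  by_cases h : 0 < e
  · rw [decide_eq_true h, sg_true h4, pow_true h1 h4, Int.natCast_natAbs, abs_of_pos h]
  · rw [decide_eq_false h, sg_false h4, pow_false h1 h4, Int.natCast_natAbs,
      abs_of_nonpos (not_lt.1 h), neg_neg]

theorem mt_eq (h1 : JPV_Stmt) (h4 : (κ : A) ^ 4 = -1) (t : Tr) :
    mt (kb (κ * s)) t = (κ : A) ^ (2 * nc t) • m κ s (bv s t) := by
  induction t with
  | pw e =>
    rw [mt_pw h1 h4, nc, Nat.mul_zero, pow_zero, one_smul, bv]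
  | cons a b iha ihb =>
    rw [UB.mt, iha, ihb, rot_smul, rot_m h4, Matrix.smul_mul, Matrix.mul_smul, Matrix.mul_smul,
      m_mul h4, smul_smul, smul_smul, nc, bv, ((h1 A s).1 (bv s b) (rotv (bv s a)) (0, 0)).1]
    congr 1
    ring

theorem clo_lin (T : TData A Bool) (c d : A) (M N : Matrix (Bool × Bool) (Bool × Bool) A)
    (s0 : Bool) : clo T (c • M + d • N) s0 = c * clo T M s0 + d * clo T N s0 := by
  simp only [clo, Matrix.add_apply, Matrix.smul_apply, smul_eq_mul, Finset.mul_sum]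
  simp only [← Finset.sum_add_distrib]
  refine Finset.sum_congr rfl fun a _ => Finset.sum_congr rfl fun b _ =>
    Finset.sum_congr rfl fun x _ => ?_
  ring

theorem clo_one (h4 : (κ : A) ^ 4 = -1) (s0 : Bool) :
    clo (kb (κ * s)) 1 s0 = -((κ : A) ^ 2 * be s) := by
  rw [← circ' h4, ← circ]
  simp only [clo, kb, Matrix.one_apply, Prod.mk.injEq, true_and]
  refine Finset.sum_congr rfl fun a _ => Finset.sum_congr rfl fun b _ => ?_
  have h1 : ∀ x : Bool, kcap (κ * s) a b * (if a = x then (1 : A) else 0) * kcup (κ * s) x b =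
      if a = x then kcap (κ * s) a b * kcup (κ * s) x b else 0 := by
    intro x
    by_cases h : a = x <;> simp [h]
  simp only [h1]
  rw [Finset.sum_ite_eq Finset.univ a, if_pos (Finset.mem_univ _)]

theorem clo_kbE (s0 : Bool) : clo (kb (κ * s)) (kbE κ (κ * s)) s0 = (κ : A) ^ 2 := by
  simp only [clo, kb, kbE, Units.val_pow_eq_pow_val]
  have h1 : ∀ a b x : Bool, kcap (κ * s) a b * ((κ : A) ^ 2 * (kcup (κ * s) s0 a *
      kcap (κ * s) s0 x)) * kcup (κ * s) x b = (κ : A) ^ 2 * (kcup (κ * s) s0 a *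
      kcap (κ * s) a b) * (kcap (κ * s) s0 x * kcup (κ * s) x b) := by
    intro a b x
    ring
  simp only [h1, ← Finset.mul_sum, zz']
  rw [Finset.sum_comm]
  simp only [← Finset.mul_sum, ← Finset.sum_mul, zz]
  cases s0 <;> simp

theorem clo_m (h4 : (κ : A) ^ 4 = -1) (v : A × A) (s0 : Bool) :
    clo (kb (κ * s)) (m κ s v) s0 = (κ : A) ^ 2 * clv s v := by
  rw [m, clo_lin, clo_one h4, clo_kbE, clv]
  ring

theorem clo_smul (T : TData A Bool) (c : A) (M : Matrix (Bool × Bool) (Bool × Bool) A)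
    (s0 : Bool) : clo T (c • M) s0 = c * clo T M s0 := by
  have h := clo_lin T c 0 M M s0
  simpa using h

end Main

end KBM

/-- The bracket of a tree. -/
theorem t_KBM (h1 : JPV_Stmt) : KBM_Stmt := by
  intro A _ κ s h4 t
  refine ⟨?_, fun s0 => ?_⟩
  · rw [KBM.mt_eq h1 h4, Units.val_pow_eq_pow_val]
    rfl
  · rw [KBM.mt_eq h1 h4, KBM.clo_smul, KBM.clo_m h4, Units.val_pow_eq_pow_val]
    ring

end Pool.Agent.UA
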