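import Pool.Agent.UA.StE
import Pool.Agent.TS.Mul

/-!
Theorem U, block E, module MULG: connected sums, for general data with a weight.
-/

set_option autoImplicit false

open scoped BigOperators

namespace Pool.Agent.UA

open Pool.Agent.LibH11.Sliced Pool.Agent.MTR Pool.Agent.UB
open Pool.Agent.TB hiding vec

namespace Mulg

section

variable {A S M : Type} [CommRing A] [Fintype S] [DecidableEq S] [AddCommGroup M]
  {T : TData A S} {W : S → M}

/-- a vector supported on lists of length `n` and weight `w` -/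
def Sup (W : S → M) (n : ℕ) (w : M) (ψ : List S → A) : Prop :=
  ∀ l, ψ l ≠ 0 → l.length = n ∧ (l.map W).sum = w

theorem ap0_sup (hR : ∀ e x y a b, T.R e x y a b ≠ 0 → W x + W y = W a + W b)
    (hcup : ∀ x y, T.cup x y ≠ 0 → W x + W y = 0) (hcap : ∀ x y, T.cap x y ≠ 0 → W x + W y = 0)
    (k : Kind) {n : ℕ} {w : M} {ψ : List S → A} (h : Sup W n w ψ) (hn : k.ins ≤ n) :
    Sup W (n - k.ins + k.outs) w (T.ap0 k ψ) := by
  intro l hl
  cases k with
  | cup =>
    match l, hl with
    | [], hl => exact absurd rfl hl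
    | [x], hl => exact absurd rfl hl
    | x :: y :: l, hl =>
      have hl' : T.cup x y * ψ l ≠ 0 := hl
      obtain ⟨h1, h2⟩ := h l (right_ne_zero_of_mul hl')
      refine ⟨?_, ?_⟩
      · simp only [List.length_cons, h1, Kind.ins, Kind.outs]
        omega
      · rw [List.map_cons, List.map_cons, List.sum_cons, List.sum_cons, ← add_assoc,
          hcup x y (left_ne_zero_of_mul hl'), zero_add, h2]
  | cap =>
    have hl' : ∑ a, ∑ b, T.cap a b * ψ (a :: b :: l) ≠ 0 := hl
    obtain ⟨a, -, ha⟩ := Finset.exists_ne_zero_of_sum_ne_zero hl'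
    obtain ⟨b, -, hb⟩ := Finset.exists_ne_zero_of_sum_ne_zero ha
    obtain ⟨h1, h2⟩ := h _ (right_ne_zero_of_mul hb)
    refine ⟨?_, ?_⟩
    · simp only [List.length_cons] at h1
      simp only [Kind.ins, Kind.outs]
      omega
    · rw [List.map_cons, List.map_cons, List.sum_cons, List.sum_cons, ← add_assoc,
        hcap a b (left_ne_zero_of_mul hb), zero_add] at h2
      exact h2
  | crs e =>
    match l, hl with
    | [], hl => exact absurd rfl hl
    | [x], hl => exact absurd rfl hl
    | x :: y :: l, hl =>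
      have hl' : ∑ a, ∑ b, T.R e x y a b * ψ (a :: b :: l) ≠ 0 := hl
      obtain ⟨a, -, ha⟩ := Finset.exists_ne_zero_of_sum_ne_zero hl'
      obtain ⟨b, -, hb⟩ := Finset.exists_ne_zero_of_sum_ne_zero ha
      obtain ⟨h1, h2⟩ := h _ (right_ne_zero_of_mul hb)
      refine ⟨?_, ?_⟩
      · simp only [List.length_cons] at h1 ⊢
        simp only [Kind.ins, Kind.outs]
        omega
      · rw [List.map_cons, List.map_cons, List.sum_cons, List.sum_cons, ← add_assoc,
          hR e x y a b (left_ne_zero_of_mul hb), add_assoc, ← List.sum_cons, ← List.sum_cons,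
          ← List.map_cons, ← List.map_cons, h2]

theorem ap_sup (hR : ∀ e x y a b, T.R e x y a b ≠ 0 → W x + W y = W a + W b)
    (hcup : ∀ x y, T.cup x y ≠ 0 → W x + W y = 0) (hcap : ∀ x y, T.cap x y ≠ 0 → W x + W y = 0)
    (k : Kind) : ∀ (i n : ℕ) (w : M) (ψ : List S → A),
    Sup W n w ψ → i + k.ins ≤ n → Sup W (n - k.ins + k.outs) w (T.ap k i ψ)
  | 0, n, w, ψ, h, hn => ap0_sup hR hcup hcap k h (by omega)
  | i + 1, n, w, ψ, h, hn => by
    intro l hl
    match l, hl with
    | [], hl => exact absurd rfl hl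
    | a :: l, hl =>
      have h' : Sup W (n - 1) (w - W a) (fun l' => ψ (a :: l')) := by
        intro l' hl'
        obtain ⟨h1, h2⟩ := h _ hl'
        refine ⟨?_, ?_⟩
        · rw [List.length_cons] at h1
          omega
        · rw [List.map_cons, List.sum_cons] at h2
          rw [← h2, add_sub_cancel_left]
      obtain ⟨h1, h2⟩ := ap_sup hR hcup hcap k i (n - 1) (w - W a) _ h' (by omega) l hl
      refine ⟨?_, ?_⟩
      · rw [List.length_cons, h1]
        omega
      · rw [List.map_cons, List.sum_cons, h2, add_sub_cancel]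

theorem st_sup (hR : ∀ e x y a b, T.R e x y a b ≠ 0 → W x + W y = W a + W b)
    (hcup : ∀ x y, T.cup x y ≠ 0 → W x + W y = 0) (hcap : ∀ x y, T.cap x y ≠ 0 → W x + W y = 0) :
    ∀ (u : Diag) (n m : ℕ) (w : M) (ψ : List S → A),
    Sup W n w ψ → cnt n u = some m → Sup W m w (T.st u ψ)
  | [], n, m, w, ψ, h, hu => by
    have : n = m := by
      simpa [cnt] using hu
    subst this
    exact h
  | (k, i) :: u, n, m, w, ψ, h, hu => by
    have hi : i + k.ins ≤ n := by
      by_contra hi
      simp [cnt, hi] at hu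
    have hu' : cnt (n - k.ins + k.outs) u = some m := by
      simpa [cnt, hi] using hu
    exact st_sup hR hcup hcap u _ m w _ (ap_sup hR hcup hcap k i n w ψ h hi) hu'

end

end Mulg

theorem t_MULG : MULG_Stmt := by
  intro A S M _ _ _ _ T W s0 hW hR hcup hcap u v hu
  set δ : List S → A := fun l => if l = [s0] then 1 else 0 with hδ
  have hsup : Mulg.Sup W 1 (W s0) δ := by
    intro l hl
    have hl' : l = [s0] := by
      by_contra h
      exact hl (if_neg h)
    subst hl'
    exact ⟨rfl, by simp⟩
  have h1 := Mulg.st_sup hR hcup hcap u 1 1 (W s0) δ hsup hu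
  have h2 : T.st u δ = fun l => T.J s0 u * δ l := by
    funext l
    by_cases hl : l = [s0]
    · subst hl
      show T.st u δ [s0] = T.st u δ [s0] * δ [s0]
      rw [show δ [s0] = 1 from if_pos rfl, mul_one]
    · have hz : T.st u δ l = 0 := by
        by_contra hne
        obtain ⟨ha, hb⟩ := h1 l hne
        match l, ha, hb, hl with
        | [x], _, hb, hl =>
          rw [List.map_singleton, List.sum_singleton] at hb
          exact hl (by rw [hW x hb])
      rw [hz, show δ l = 0 from if_neg hl, mul_zero]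
  show T.st (u ++ v) δ [s0] = _
  rw [TS.MUL.st_append, h2, TS.MUL.st_smul]
  rfl

end Pool.Agent.UA
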