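import Pool.Agent.UA.StJ

/-!
Theorem U, block E, module RATG: the tangle of a rational tree is determined by its vector.
Proof: `F` is defined on the vectors by the Euclidean algorithm; it intertwines the action of
`c`, `r` on the vectors with the one on `X`.
-/

set_option autoImplicit false

open scoped BigOperators

namespace Pool.Agent.UA

open Pool.Agent.LibH11.Sliced Pool.Agent.TwoBr Pool.Agent.Mont Pool.Agent.MTR

namespace Ratg

variable {X : Type}

/-- the Euclidean algorithm on nonnegative vectors -/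
def G (c c' r : X → X) (x0 : X) (A p : ℕ) : X :=
  if p = 0 then r x0
  else if A = 0 then x0
  else if p ≤ A then c' (G c c' r x0 (A - p) p)
  else r (c (r (G c c' r x0 A (p - A))))
termination_by A + p

/-- the element of a vector -/
def F (c c' r : X → X) (x0 : X) (A p : ℤ) : X :=
  if 0 ≤ A * p then G c c' r x0 A.natAbs p.natAbs else r (G c c' r x0 p.natAbs A.natAbs)

variable (c c' r : X → X) (x0 : X)

theorem G_zero_right (A : ℕ) : G c c' r x0 A 0 = r x0 := by
  rw [G, if_pos rfl]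

theorem G_zero_left {p : ℕ} (hp : p ≠ 0) : G c c' r x0 0 p = x0 := by
  rw [G, if_neg hp, if_pos rfl]

theorem G_ge {A p : ℕ} (hp : p ≠ 0) (h : p ≤ A) :
    G c c' r x0 A p = c' (G c c' r x0 (A - p) p) := by
  rw [G, if_neg hp, if_neg (by omega), if_pos h]

theorem G_lt {A p : ℕ} (hA : A ≠ 0) (h : A < p) :
    G c c' r x0 A p = r (c (r (G c c' r x0 A (p - A)))) := by
  rw [G, if_neg (by omega), if_neg hA, if_neg (by omega)]

theorem F_neg (A p : ℤ) : F c c' r x0 (-A) (-p) = F c c' r x0 A p := by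
  unfold F
  rw [neg_mul_neg, Int.natAbs_neg, Int.natAbs_neg]

theorem F_pos {A p : ℤ} (h : 0 ≤ A * p) : F c c' r x0 A p = G c c' r x0 A.natAbs p.natAbs := by
  unfold F
  rw [if_pos h]

theorem F_lt {A p : ℤ} (h : A * p < 0) : F c c' r x0 A p = r (G c c' r x0 p.natAbs A.natAbs) := by
  unfold F
  rw [if_neg (not_le.2 h)]

variable {c c' r x0}

theorem F_rot (hr : ∀ x, r (r x) = x) {A p : ℤ} (h : A ≠ 0 ∨ p ≠ 0) :
    F c c' r x0 (-p) A = r (F c c' r x0 A p) := by
  rcases lt_trichotomy (A * p) 0 with h1 | h1 | h1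
  · rw [F_lt _ _ _ _ h1, hr, F_pos _ _ _ _ (by nlinarith), Int.natAbs_neg]
  · rcases mul_eq_zero.1 h1 with h2 | h2
    · subst h2
      have h3 : p ≠ 0 := by simpa using h
      rw [F_pos _ _ _ _ (by simp), F_pos _ _ _ _ (by simp), Int.natAbs_zero, G_zero_right,
        G_zero_left _ _ _ _ (Int.natAbs_ne_zero.2 h3)]
    · subst h2
      have h3 : A ≠ 0 := by simpa using h
      rw [F_pos _ _ _ _ (by simp), F_pos _ _ _ _ (by simp), Int.natAbs_zero, G_zero_right,
        neg_zero, Int.natAbs_zero, G_zero_left _ _ _ _ (Int.natAbs_ne_zero.2 h3), hr]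
  · rw [F_pos _ _ _ _ h1.le, F_lt _ _ _ _ (by nlinarith), Int.natAbs_neg]

theorem F_shift_pos (h1 : ∀ x, c (c' x) = x) (h2 : ∀ x, c' (c x) = x) (hr : ∀ x, r (r x) = x)
    (h3 : ∀ x, c (r (c (r (c (r x))))) = x) (h0 : r (c (r x0)) = x0) {A p : ℤ} (hp : 0 < p) :
    F c c' r x0 (A - p) p = c (F c c' r x0 A p) := by
  have hp0 : p.natAbs ≠ 0 := by omega
  rcases lt_trichotomy A 0 with hA | hA | hA
  · rw [F_lt _ _ _ _ (by nlinarith), F_lt _ _ _ _ (by nlinarith),
      G_lt _ _ _ _ hp0 (by omega), hr, show (A - p).natAbs - p.natAbs = A.natAbs by omega]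
  · subst hA
    rw [F_lt _ _ _ _ (by nlinarith), F_pos _ _ _ _ (by simp), Int.natAbs_zero,
      G_zero_left _ _ _ _ hp0, zero_sub, Int.natAbs_neg, G_ge _ _ _ _ hp0 le_rfl,
      Nat.sub_self, G_zero_left _ _ _ _ hp0]
    -- r (c' x0) = c x0
    have h4 : c (r x0) = r x0 := by
      have h5 := congrArg r h0
      rw [hr] at h5
      exact h5
    have h5 := h3 (r (c' x0))
    rw [hr, h1, h4, hr] at h5
    exact h5.symm
  · rcases le_or_gt p A with hpA | hpA
    · rw [F_pos _ _ _ _ (by nlinarith), F_pos _ _ _ _ (by nlinarith),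
        G_ge (A := A.natAbs) _ _ _ _ hp0 (by omega), h1,
        show (A - p).natAbs = A.natAbs - p.natAbs by omega]
    · rw [F_lt _ _ _ _ (by nlinarith), F_pos _ _ _ _ (by nlinarith),
        show (A - p).natAbs = p.natAbs - A.natAbs by omega,
        G_ge (A := p.natAbs) (p := p.natAbs - A.natAbs) _ _ _ _ (by omega) (by omega),
        G_lt (A := A.natAbs) (p := p.natAbs) _ _ _ _ (by omega) (by omega),
        show p.natAbs - (p.natAbs - A.natAbs) = A.natAbs by omega]
      set y := G c c' r x0 A.natAbs (p.natAbs - A.natAbs)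
      -- r (c' y) = c (r (c (r y)))
      have h5 := h3 (r (c' y))
      rw [hr, h1] at h5
      exact h5.symm

theorem F_shift (h1 : ∀ x, c (c' x) = x) (h2 : ∀ x, c' (c x) = x) (hr : ∀ x, r (r x) = x)
    (h3 : ∀ x, c (r (c (r (c (r x))))) = x) (h0 : r (c (r x0)) = x0) {A p : ℤ}
    (h : A ≠ 0 ∨ p ≠ 0) : F c c' r x0 (A - p) p = c (F c c' r x0 A p) := by
  rcases lt_trichotomy p 0 with hp | hp | hp
  · have h4 := F_shift_pos (x0 := x0) h1 h2 hr h3 h0 (A := -A) (p := -p) (by omega)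
    rw [F_neg, show -A - -p = -(A - p) by ring, F_neg] at h4
    exact h4
  · subst hp
    rw [sub_zero, F_pos _ _ _ _ (by simp), Int.natAbs_zero, G_zero_right]
    have h5 := congrArg r h0
    rw [hr] at h5
    exact h5.symm
  · exact F_shift_pos h1 h2 hr h3 h0 hp

theorem vec_shift_one (T : Tr) : vec (T.shift 1) = ((vec T).1 - (vec T).2, (vec T).2) := by
  induction T with
  | pw e =>
    have h1 : vec ((Tr.pw e).shift 1) = (-(e + 1), 1) := rfl
    have h2 : vec (Tr.pw e) = (-e, 1) := rfl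
    rw [h1, h2]
    simp only [Prod.mk.injEq, and_true]
    ring
  | cons a b _ ih =>
    have h1 : vec ((Tr.cons a b).shift 1) = addv (rv (vec a)) (vec (b.shift 1)) := rfl
    have h2 : vec (Tr.cons a b) = addv (rv (vec a)) (vec b) := rfl
    rw [h1, h2, ih]
    simp only [addv, Prod.mk.injEq, and_true]
    ring

theorem vec_cons_zero (a : Tr) : vec (.cons a (.pw 0)) = (-(vec a).2, (vec a).1) := by
  have h1 : vec (Tr.cons a (.pw 0)) = addv (rv (vec a)) (0, 1) := rfl
  rw [h1]
  simp only [addv, rv, Prod.mk.injEq]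
  constructor <;> ring

/-- the property of a tree -/
def Gdv (c c' r : X → X) (x0 : X) (rev : Tr → X) (T : Tr) : Prop :=
  ((vec T).1 ≠ 0 ∨ (vec T).2 ≠ 0) ∧ rev T = F c c' r x0 (vec T).1 (vec T).2

theorem good_shift {rev : Tr → X} (h1 : ∀ x, c (c' x) = x) (h2 : ∀ x, c' (c x) = x)
    (hr : ∀ x, r (r x) = x)
    (h3 : ∀ x, c (r (c (r (c (r x))))) = x) (h0 : r (c (r x0)) = x0)
    (hs : ∀ T : Tr, T.Rat → rev (T.shift 1) = c (rev T)) (T : Tr) (hT : T.Rat) :
    Gdv c c' r x0 rev (T.shift 1) ↔ Gdv c c' r x0 rev T := by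
  unfold Gdv
  rw [vec_shift_one, hs T hT]
  have h4 : ((vec T).1 - (vec T).2 ≠ 0 ∨ (vec T).2 ≠ 0) ↔ ((vec T).1 ≠ 0 ∨ (vec T).2 ≠ 0) := by
    omega
  rw [h4]
  refine and_congr_right fun h5 => ?_
  show c (rev T) = F c c' r x0 ((vec T).1 - (vec T).2) (vec T).2 ↔ _
  rw [F_shift h1 h2 hr h3 h0 h5]
  constructor
  · intro h
    have h6 := congrArg c' h
    rw [h2, h2] at h6
    exact h6
  · intro h
    rw [h]

theorem good_int {Q : ℤ → Prop} (h0 : Q 0) (hs : ∀ e, Q (e + 1) ↔ Q e) (e : ℤ) : Q e := by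
  induction e with
  | zero => exact h0
  | succ i ih => exact (hs _).2 ih
  | pred i ih =>
    have h := hs (-(i : ℤ) - 1)
    rw [sub_add_cancel] at h
    exact h.1 ih

theorem kids_eq {b : Tr} (h : b.kids = 0) : ∃ e, b = .pw e := by
  cases b with
  | pw e => exact ⟨e, rfl⟩
  | cons a b =>
    have h1 : (Tr.cons a b).kids = b.kids + 1 := rfl
    omega

end Ratg

open Ratg in
/-- Module RATG. -/
theorem t_RATG : RATG_Stmt := by
  intro X c c' r x0 rev h1 h2 hr h3 h0 hz hs hrot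
  have key : ∀ T : Tr, T.Rat → Gdv c c' r x0 rev T := by
    intro T
    induction T with
    | pw e =>
      intro _
      refine good_int (Q := fun e => Gdv c c' r x0 rev (.pw e)) ?_ ?_ e
      · have h4 : vec (Tr.pw 0) = (-0, 1) := rfl
        refine ⟨Or.inr (by rw [h4]; exact one_ne_zero), ?_⟩
        rw [hz, h4]
        show x0 = F c c' r x0 (-0) 1
        rw [neg_zero, F_pos _ _ _ _ (by simp), Int.natAbs_zero,
          G_zero_left _ _ _ _ (by simp)]
      · intro e
        exact good_shift h1 h2 hr h3 h0 hs (.pw e) trivial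
    | cons a b iha _ =>
      rintro ⟨ha, hb⟩
      obtain ⟨e, rfl⟩ := kids_eq hb
      refine good_int (Q := fun e => Gdv c c' r x0 rev (.cons a (.pw e))) ?_ ?_ e
      · obtain ⟨h4, h5⟩ := iha ha
        unfold Gdv
        rw [vec_cons_zero, hrot a ha, h5]
        refine ⟨?_, (F_rot hr h4).symm⟩
        show -(vec a).2 ≠ 0 ∨ (vec a).1 ≠ 0
        omega
      · intro e
        exact good_shift h1 h2 hr h3 h0 hs (.cons a (.pw e)) ⟨ha, rfl⟩
  intro T T' hT hT' hv
  rw [(key T hT).2, (key T' hT').2]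
  rcases hv with hv | hv
  · rw [hv]
  · rw [hv]
    exact F_neg _ _ _ _ _ _

end Pool.Agent.UA
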