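import Pool.Agent.UA.StJ

/-!
SGN: signs of the first order deviation.
-/

namespace Pool.Agent.UA

open Pool.Agent.LibH11.Sliced Pool.Agent.TwoBr Pool.Agent.Mont Pool.Agent.MTR

namespace SGN

lemma kids_zero {b : Tr} (h : b.kids = 0) : ∃ e : ℤ, b = .pw e := by
  cases b with
  | pw e => exact ⟨e, rfl⟩
  | cons a c => simp [Tr.kids] at h

lemma vec_cons (a b : Tr) : vec (.cons a b) =
    ((vec a).1 * (vec b).1 - (vec a).2 * (vec b).2, (vec a).1 * (vec b).2) := by
  change addv (rv (vec a)) (vec b) = _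
  unfold addv rv
  apply Prod.ext
  · change -(vec a).2 * (vec b).2 + (vec b).1 * (vec a).1 = _
    simp only
    ring
  · rfl

lemma coprime_of {x y u v : ℤ} (h : |u * x + v * y| = 1) : IsCoprime x y := by
  rcases (abs_eq (by norm_num)).1 h with h | h
  · exact ⟨u, v, h⟩
  · exact ⟨-u, -v, by linarith⟩

lemma dt_eq (L V : ℤ × ℤ) : dt L V = L.2 * V.1 + L.1 * V.2 := by
  simp only [dt, addv]
  try ring

lemma part2 (L : ℤ × ℤ) (a b : Tr) (h : |dt L (vec (.cons a b))| = 1) :
    |dt (rv (addv L (vec b))) (vec a)| = 1 ∧ |dt (addv L (rv (vec a))) (vec b)| = 1 ∧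
      IsCoprime (vec a).1 (vec b).2 ∧ IsCoprime L.2 (vec a).1 ∧ IsCoprime L.2 (vec b).2 := by
  rw [dt_eq, vec_cons] at h
  simp only at h
  refine ⟨?_, ?_, ?_, ?_, ?_⟩
  · rw [dt_eq, ← h]
    simp only [rv, addv]
    congr 1
    ring
  · rw [dt_eq, ← h]
    simp only [rv, addv]
    congr 1
    ring
  · apply coprime_of (u := L.2 * (vec b).1 + L.1 * (vec b).2) (v := -(L.2 * (vec a).2))
    rw [← h]
    congr 1
    ring
  · apply coprime_of (u := (vec a).1 * (vec b).1 - (vec a).2 * (vec b).2)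
      (v := L.1 * (vec b).2)
    rw [← h]
    congr 1
    ring
  · apply coprime_of (u := (vec a).1 * (vec b).1) (v := L.1 * (vec a).1 - L.2 * (vec a).2)
    rw [← h]
    congr 1
    ring

lemma part3 (T : Tr) : T.RC → T.Rat → (T.kids ≤ 1 → 2 ≤ |T.ex|) →
    |(vec T).2| < |(vec T).1| ∧ 1 ≤ |(vec T).2| := by
  induction T with
  | pw e =>
    intro _ _ h
    have h1 : 2 ≤ |e| := h (by simp [Tr.kids])
    simp only [vec, abs_neg, abs_one]
    omega
  | cons a b iha ihb =>
    intro hRC hRat h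
    obtain ⟨r1, r2, _⟩ := hRC
    obtain ⟨r3, r4⟩ := hRat
    obtain ⟨e, rfl⟩ := kids_zero r4
    have h1 : 2 ≤ |e| := h (by simp [Tr.kids])
    obtain ⟨i1, i2⟩ := iha r1 r3 r2
    rw [vec_cons]
    simp only [vec, mul_one]
    refine ⟨?_, by omega⟩
    have h2 : |(vec a).1 * -e - (vec a).2| ≥ |(vec a).1 * -e| - |(vec a).2| :=
      abs_sub_abs_le_abs_sub _ _
    rw [abs_mul, abs_neg] at h2
    have h3 : |(vec a).1| * 2 ≤ |(vec a).1| * |e| :=
      mul_le_mul_of_nonneg_left h1 (abs_nonneg _)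
    omega

/-- the last term is nonnegative -/
lemma prod_nonneg {A q : ℤ} (h : IsCoprime A q) : 0 ≤ (A ^ 2 - 1) * (q ^ 2 - 1) := by
  rcases eq_or_ne A 0 with rfl | hA
  · have h1 : IsUnit q := isCoprime_zero_left.1 h
    have h2 : q ^ 2 = 1 := by
      rcases Int.isUnit_iff.1 h1 with h | h <;> rw [h] <;> norm_num
    rw [h2]
    norm_num
  · rcases eq_or_ne q 0 with rfl | hq
    · have h1 : IsUnit A := isCoprime_zero_right.1 h
      have h2 : A ^ 2 = 1 := by
        rcases Int.isUnit_iff.1 h1 with h | h <;> rw [h] <;> norm_num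
      rw [h2]
      norm_num
    · have h1 : 0 < A ^ 2 := by positivity
      have h2 : 0 < q ^ 2 := by positivity
      exact mul_nonneg (by omega) (by omega)

lemma eT_le (T : Tr) : ∀ L : ℤ × ℤ, |dt L (vec T)| = 1 → eT T ≤ 0 := by
  induction T with
  | pw e => intro L _; simp [eT]
  | cons a b iha ihb =>
    intro L h
    obtain ⟨h1, h2, h3, _, _⟩ := part2 L a b h
    have ea := iha _ h1
    have eb := ihb _ h2
    have h4 := prod_nonneg h3
    have h5 : (vec b).2 ^ 2 * eT a ≤ 0 := mul_nonpos_of_nonneg_of_nonpos (by positivity) ea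
    have h6 : (vec a).1 ^ 2 * eT b ≤ 0 := mul_nonpos_of_nonneg_of_nonpos (by positivity) eb
    simp only [eT]
    linarith

lemma eT_rat (T : Tr) : T.Rat → eT T = 0 := by
  induction T with
  | pw e => intro _; rfl
  | cons a b iha ihb =>
    intro h
    obtain ⟨r3, r4⟩ := h
    obtain ⟨e, rfl⟩ := kids_zero r4
    simp only [eT, vec, iha r3]
    ring

/-- the second entry of a rational tree with reduced children does not vanish -/
lemma snd_ne {b : Tr} (hRC : b.RC) (hRat : b.Rat) :
    (vec b).2 ≠ 0 ∧ (b.kids ≠ 0 → 2 ≤ |(vec b).2|) := by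
  cases b with
  | pw e => exact ⟨by simp [vec], by simp [Tr.kids]⟩
  | cons c d =>
    obtain ⟨r1, r2, _⟩ := hRC
    obtain ⟨r3, r4⟩ := hRat
    obtain ⟨e, rfl⟩ := kids_zero r4
    obtain ⟨i1, i2⟩ := part3 c r1 r3 r2
    have h1 : (vec (.cons c (.pw e))).2 = (vec c).1 := by
      rw [vec_cons]
      simp [vec]
    rw [h1]
    refine ⟨?_, fun _ => by omega⟩
    intro h0
    rw [h0, abs_zero] at i1
    omega

lemma eT_lt (T : Tr) : ∀ L : ℤ × ℤ, |dt L (vec T)| = 1 → T.RC → ¬ T.Rat → eT T < 0 := by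
  induction T with
  | pw e => intro L _ _ h; exact absurd trivial h
  | cons a b iha ihb =>
    intro L h hRC hRat
    obtain ⟨h1, h2, h3, _, _⟩ := part2 L a b h
    obtain ⟨r1, r2, r3⟩ := hRC
    have ea := eT_le a _ h1
    have eb := eT_le b _ h2
    have h4 := prod_nonneg h3
    have h5 : (vec b).2 ^ 2 * eT a ≤ 0 := mul_nonpos_of_nonneg_of_nonpos (by positivity) ea
    have h6 : (vec a).1 ^ 2 * eT b ≤ 0 := mul_nonpos_of_nonneg_of_nonpos (by positivity) eb
    simp only [eT]
    by_cases ha : a.Rat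
    · obtain ⟨i1, i2⟩ := part3 a r1 ha r2
      have hA : (vec a).1 ≠ 0 := by
        intro h0
        rw [h0, abs_zero] at i1
        omega
      by_cases hb : b.Rat
      · have hk : b.kids ≠ 0 := fun hk => hRat ⟨ha, hk⟩
        have hq := (snd_ne r3 hb).2 hk
        have hA2 : 2 ≤ |(vec a).1| := by omega
        have e1 : (4 : ℤ) ≤ (vec a).1 ^ 2 := by
          rw [← sq_abs]
          nlinarith
        have e2 : (4 : ℤ) ≤ (vec b).2 ^ 2 := by
          rw [← sq_abs]
          nlinarith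
        have e3 : 0 < ((vec a).1 ^ 2 - 1) * ((vec b).2 ^ 2 - 1) :=
          mul_pos (by omega) (by omega)
        linarith
      · have hlt := ihb _ h2 r3 hb
        have e1 : (vec a).1 ^ 2 * eT b < 0 := mul_neg_of_pos_of_neg (by positivity) hlt
        linarith
    · have hlt := iha _ h1 r1 ha
      rcases eq_or_ne (vec b).2 0 with hq | hq
      · have hb : ¬ b.Rat := fun hb => (snd_ne r3 hb).1 hq
        have hlt2 := ihb _ h2 r3 hb
        have hA : (vec a).1 ≠ 0 := by
          intro h0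
          rw [h0, hq] at h3
          exact absurd (isCoprime_zero_left.1 h3) (by decide)
        have e1 : (vec a).1 ^ 2 * eT b < 0 := mul_neg_of_pos_of_neg (by positivity) hlt2
        linarith
      · have e1 : (vec b).2 ^ 2 * eT a < 0 := mul_neg_of_pos_of_neg (by positivity) hlt
        linarith

end SGN

open SGN in
theorem t_SGN : SGN_Stmt := by
  refine ⟨?_, ?_, ?_⟩
  · intro L T h
    have h' := h
    rw [dt_eq] at h'
    refine ⟨coprime_of h', ?_, ?_, eT_le T L h, eT_rat T, eT_lt T L h⟩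
    · apply coprime_of (u := (vec T).2) (v := (vec T).1)
      rw [← h']
      congr 1
      ring
    · apply coprime_of (u := (vec T).1) (v := L.1)
      rw [← h']
      congr 1
      ring
  · exact part2
  · exact part3

end Pool.Agent.UA
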