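import Pool.Agent.UA.StJ

/-!
Theorem U (MP_31fd3b_gt), block E: the final statement of the second order part (module WFI).
-/

open scoped BigOperators

namespace Pool.Agent.UA

open Pool.Agent.LibH11.Sliced Pool.Agent.TwoBr Pool.Agent.Mont Pool.Agent.MTR

namespace WFI

theorem addv_neg (L v : ℤ × ℤ) : addv (-L) v = -addv L v := by
  ext <;> (simp [addv]; try ring)

theorem rv_neg (v : ℤ × ℤ) : rv (-v) = -rv v := by
  ext <;> simp [rv]

theorem OK_neg : ∀ (T : Tr) (L : ℤ × ℤ), OK L T → OK (-L) T := by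
  intro T
  induction T with
  | pw e => intro L _; trivial
  | cons a b iha ihb =>
    rintro L ⟨h1, h2, h3⟩
    refine ⟨?_, ?_, ?_⟩
    · rw [Prod.snd_neg, abs_neg]
      exact h1
    · rw [addv_neg, rv_neg]
      exact iha _ h2
    · rw [addv_neg]
      exact ihb _ h3

theorem dt_neg (L V : ℤ × ℤ) : |dt (-L) V| = |dt L V| := by
  unfold dt
  rw [addv_neg, Prod.fst_neg, abs_neg]

theorem kids_cons (a b : Tr) : (Tr.cons a b).kids = b.kids + 1 := rfl
theorem ex_cons (a b : Tr) : (Tr.cons a b).ex = b.ex := rfl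

end WFI

open WFI in
theorem t_WFI (h1 : JPV_Stmt) (h3 : JDV_Stmt) (h4 : SGN_Stmt) (h7 : WLE_Stmt) (h8 : WST_Stmt) :
    WFI_Stmt := by
  intro T hCR hA hOK hMon
  cases T with
  | pw e =>
    refine ⟨e, rfl, ?_⟩
    simpa [vec] using hA
  | cons a b =>
    exfalso
    obtain ⟨hRC, hk⟩ := hCR
    obtain ⟨hRCa, hka, hRCb⟩ := hRC
    rw [kids_cons, ex_cons] at hk
    have hvS : vec (.pw 0) = (0, 1) := by simp [vec]
    have hadd : ∀ v : ℤ × ℤ, addv (0, 1) v = v := by
      intro v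
      ext <;> simp [addv]
    have hdt : |dt (vec (.pw 0)) (vec (.cons a b))| = 1 := by
      unfold dt
      rw [hvS, hadd]
      exact hA
    have hdt' : |dt (0, 1) (vec (.cons a b))| = 1 := by rwa [hvS] at hdt
    have hOK' : OK (vec (.pw 0)) (.cons a b) := by rw [hvS]; exact hOK
    -- `W = 0`
    have hW : W (.pw 0) (.cons a b) = 0 := by
      have e1 : bv sx (.pw 0) = (0, 1) := by
        show pv sx 0 = (0, 1)
        show pv sx (Int.ofNat 0) = (0, 1)
        simp [pv]
      unfold W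
      rw [e1, ((h1 JR sx).1 (bv sx (.cons a b)) (bv sx (.cons a b)) (0, 0)).2.2.1]
      exact ((h3.2.2.2.2 _ 1).2.2 hMon).1
    obtain ⟨S1, S2, hS1, hS2, hv1, hv2, hrec⟩ := h7.1 (.pw 0) a b trivial hdt hOK'
    obtain ⟨hda, hdb, _⟩ := h4.2.1 (0, 1) a b hdt'
    obtain ⟨_, hOKa, hOKb⟩ := hOK
    rw [hvS] at hv1 hv2
    -- the two contexts
    have hda1 : |dt (vec S1) (vec a)| = 1 := by
      rcases hv1 with h | h
      · rw [h]; exact hda
      · rw [h, dt_neg]; exact hda
    have hOKa1 : OK (vec S1) a := by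
      rcases hv1 with h | h
      · rw [h]; exact hOKa
      · rw [h]; exact OK_neg _ _ hOKa
    have hdb1 : |dt (vec S2) (vec b)| = 1 := by
      rcases hv2 with h | h
      · rw [h]; exact hdb
      · rw [h, dt_neg]; exact hdb
    have hOKb1 : OK (vec S2) b := by
      rcases hv2 with h | h
      · rw [h]; exact hOKb
      · rw [h]; exact OK_neg _ _ hOKb
    have hWa : (W S1 a).re ≤ 0 := h7.2 S1 a hS1 hda1 hOKa1
    have hWb : (W S2 b).re ≤ 0 := h7.2 S2 b hS2 hdb1 hOKb1
    obtain ⟨_, _, _, hea, _, hea'⟩ := h4.1 _ a hda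
    obtain ⟨_, _, _, heb, _, heb'⟩ := h4.1 _ b hdb
    -- the recursion
    have hre : (W S1 a).re + (W S2 b).re - 2 * ((eT b : ℤ) : ℝ) * ((eT a : ℤ) : ℝ) = 0 := by
      rw [hW, hvS] at hrec
      have h5 := congrArg Complex.re hrec
      have e1 : (((0, 1) : ℤ × ℤ).2 ^ 2 * eT b - 2 * (((0, 1) : ℤ × ℤ).2 ^ 2 - 1) *
          ((vec b).2 ^ 2 - 1) : ℤ) = eT b := by
        show (1 : ℤ) ^ 2 * eT b - 2 * ((1 : ℤ) ^ 2 - 1) * ((vec b).2 ^ 2 - 1) = eT b
        ring
      have e2 : (-2 * (((0, 1) : ℤ × ℤ).2 ^ 2 - 1) * ((vec a).1 ^ 2 - 1) : ℤ) = 0 := by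
        show (-2 * ((1 : ℤ) ^ 2 - 1) * ((vec a).1 ^ 2 - 1) : ℤ) = 0
        ring
      rw [e1, e2] at h5
      simp at h5
      linarith
    have hprod : (0 : ℝ) ≤ ((eT b : ℤ) : ℝ) * ((eT a : ℤ) : ℝ) := by
      have x1 : ((eT b : ℤ) : ℝ) ≤ 0 := by exact_mod_cast heb
      have x2 : ((eT a : ℤ) : ℝ) ≤ 0 := by exact_mod_cast hea
      nlinarith
    -- the vectors of the contexts
    have hc1 : |(vec S1).2| = |(vec b).1| ∧ |(vec S1).1| = |(vec b).2| := by
      rcases hv1 with h | h <;> rw [h, hadd] <;> simp [rv]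
    have hc2 : |(vec S2).2| = |(vec a).1| ∧ |(vec S2).1| = |(vec a).2| := by
      rcases hv2 with h | h <;> rw [h, hadd] <;> simp [rv]
    by_cases hRa : a.Rat
    · obtain ⟨hp1, hp2⟩ := h4.2.2 a hRCa hRa hka
      cases b with
      | pw e =>
        have he : 2 ≤ |e| := hk (Or.inl rfl)
        have h5 : |-(vec a).2 + (vec a).1 * -e| = 1 := by
          have : (vec (.cons a (.pw e))).1 = -(vec a).2 + (vec a).1 * -e := by
            simp [vec, addv, rv]
            try ring
          rwa [this] at hA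
        have h6 : |(vec a).1 * -e| ≤ |-(vec a).2 + (vec a).1 * -e| + |(vec a).2| := by
          have h7 := abs_add_le (-(vec a).2 + (vec a).1 * -e) ((vec a).2)
          have h8 : -(vec a).2 + (vec a).1 * -e + (vec a).2 = (vec a).1 * -e := by ring
          rwa [h8] at h7
        rw [abs_mul, abs_neg] at h6
        have h9 : |(vec a).1| * 2 ≤ |(vec a).1| * |e| :=
          mul_le_mul_of_nonneg_left he (abs_nonneg _)
        omega
      | cons c d =>
        have h5 := h8 S2 (.cons c d) hS2 hdb1 hOKb1 (by rw [hc2.1]; omega)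
          (by rw [hc2.1, hc2.2]; exact hp1) hRCb (fun h => hk (by
            rw [kids_cons] at h ⊢
            right
            omega))
        linarith
    · by_cases hRb : b.Rat
      · have hkb : b.kids ≤ 1 → 2 ≤ |b.ex| := fun h => hk (by omega)
        obtain ⟨hp1, hp2⟩ := h4.2.2 b hRCb hRb hkb
        have h5 := h8 S1 a hS1 hda1 hOKa1 (by rw [hc1.1]; omega)
          (by rw [hc1.1, hc1.2]; exact hp1) hRCa hka
        linarith
      · have x1 : ((eT b : ℤ) : ℝ) < 0 := by exact_mod_cast heb' hRCb hRb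
        have x2 : ((eT a : ℤ) : ℝ) < 0 := by exact_mod_cast hea' hRCa hRa
        nlinarith

end Pool.Agent.UA
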