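import Pool.Agent.UA.StJ

/-!
Theorem U (MP_31fd3b_gt), block E, module WST: strict inequality of the second logarithmic
derivative in a reduced context (PAPER_E.md, section E3).
-/

set_option autoImplicit false

namespace Pool.Agent.UA

open Pool.Agent.LibH11.Sliced Pool.Agent.TwoBr Pool.Agent.Mont Pool.Agent.MTR

namespace Wst

lemma addv_neg (u v : ℤ × ℤ) : addv (-u) v = -addv u v := by
  unfold addv
  ext <;> simp <;> ring

lemma rv_neg (u : ℤ × ℤ) : rv (-u) = -rv u := by
  unfold rv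
  ext <;> simp

lemma OK_neg (T : Tr) : ∀ L : ℤ × ℤ, OK L T → OK (-L) T := by
  induction T with
  | pw e => intro L _; trivial
  | cons a b iha ihb =>
    intro L h
    obtain ⟨h1, h2, h3⟩ := h
    refine ⟨?_, ?_, ?_⟩
    · rw [Prod.snd_neg, abs_neg]
      exact h1
    · rw [addv_neg, rv_neg]
      exact iha _ h2
    · rw [addv_neg]
      exact ihb _ h3

lemma dt_neg (u v : ℤ × ℤ) : dt (-u) v = -dt u v := by
  unfold dt
  rw [addv_neg]
  rfl

lemma ctx {u v : ℤ × ℤ} {T : Tr} (h : v = u ∨ v = -u) (hd : |dt u (vec T)| = 1) (ho : OK u T) :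
    |dt v (vec T)| = 1 ∧ OK v T := by
  rcases h with rfl | rfl
  · exact ⟨hd, ho⟩
  · rw [dt_neg, abs_neg]
    exact ⟨hd, OK_neg T _ ho⟩

lemma sq_ge {x : ℤ} (h : 2 ≤ |x|) : 4 ≤ x ^ 2 := by
  have h1 : x ^ 2 = |x| ^ 2 := (sq_abs x).symm
  rw [h1]; nlinarith

lemma sq_ge_one {x : ℤ} (h : x ≠ 0) : 1 ≤ x ^ 2 := by
  have := sq_pos_of_ne_zero h
  omega

lemma ne_zero_of {x y : ℤ} (h : IsCoprime x y) (hx : 2 ≤ |x|) : y ≠ 0 := by
  rintro rfl
  rw [isCoprime_zero_right, Int.isUnit_iff] at h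
  rcases h with rfl | rfl <;> norm_num at hx

/-- the vector of a rational tree with one child -/
lemma rat_cons {b : Tr} (hb : b.Rat) (hk : 1 ≤ b.kids) :
    ∃ (c : Tr) (e : ℤ), c.Rat ∧ b = .cons c (.pw e) := by
  cases b with
  | pw e => simp [Tr.kids] at hk
  | cons c d =>
    obtain ⟨h1, h2⟩ := hb
    cases d with
    | pw e => exact ⟨c, e, h1, rfl⟩
    | cons c' d' => simp [Tr.kids] at h2

lemma vec_one (c : Tr) (e : ℤ) : (vec (.cons c (.pw e))).2 = (vec c).1 := by
  simp [vec, addv, rv]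

end Wst

open Wst in
/-- **WST**: the strict inequality. -/
theorem t_WST (h4 : SGN_Stmt) (h7 : WLE_Stmt) : WST_Stmt := by
  obtain ⟨s1, s2, s3⟩ := h4
  obtain ⟨r1, r2⟩ := h7
  intro S T
  induction T generalizing S with
  | pw e =>
    intro _ hd _ hp hA _ hk
    exfalso
    have he : 2 ≤ |e| := hk (by simp [Tr.kids])
    have h1 : dt (vec S) (vec (.pw e)) = (vec S).1 - e * (vec S).2 := by
      simp [dt, vec, addv]; ring
    rw [h1] at hd
    have h2 : |e * (vec S).2| ≤ |(vec S).1| + 1 := by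
      have h3 := abs_sub_abs_le_abs_sub (e * (vec S).2) (vec S).1
      rw [abs_sub_comm] at h3
      omega
    rw [abs_mul] at h2
    nlinarith [abs_nonneg (vec S).2]
  | cons a b iha _ =>
    intro hS hd ho hp hA hRC hk
    obtain ⟨hRa, hka, hRb⟩ := hRC
    obtain ⟨S1, S2, hS1, hS2, e1, e2, hW⟩ := r1 S a b hS hd ho
    obtain ⟨d1, d2, c1, c2, c3⟩ := s2 (vec S) a b hd
    obtain ⟨o1, o2, o3⟩ := ho
    obtain ⟨d1', o2'⟩ := ctx e1 d1 o2
    obtain ⟨d2', o3'⟩ := ctx e2 d2 o3
    have w1 := r2 S1 a hS1 d1' o2'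
    have w2 := r2 S2 b hS2 d2' o3'
    obtain ⟨-, -, -, ea, ea0, ea1⟩ := s1 _ a d1
    obtain ⟨-, -, -, eb, eb0, eb1⟩ := s1 _ b d2
    have hA0 : (vec a).1 ≠ 0 := ne_zero_of c2 hp
    have hb0 : (vec b).2 ≠ 0 := ne_zero_of c3 hp
    have q1 := sq_ge hp
    have q2 := sq_ge_one hA0
    have q3 := sq_ge_one hb0
    set P : ℤ := (vec S).2 ^ 2 with hP
    set A : ℤ := (vec a).1 ^ 2 with hAdef
    set B : ℤ := (vec b).2 ^ 2 with hBdef
    -- the real part
    have hre : (W S (.cons a b)).re = (W S1 a).re + (W S2 b).re -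
        2 * (((P * eT b - 2 * (P - 1) * (B - 1)) * eT a : ℤ) : ℝ) -
        2 * (((-2 * (P - 1) * (A - 1)) * eT b : ℤ) : ℝ) := by
      rw [hW]
      have t1 : (2 * ((P * eT b - 2 * (P - 1) * (B - 1) : ℤ) : ℂ) * (eT a : ℂ)) =
          ((2 * (((P * eT b - 2 * (P - 1) * (B - 1)) * eT a : ℤ) : ℝ) : ℝ) : ℂ) := by
        push_cast; ring
      have t2 : (2 * ((-2 * (P - 1) * (A - 1) : ℤ) : ℂ) * (eT b : ℂ)) =
          ((2 * (((-2 * (P - 1) * (A - 1)) * eT b : ℤ) : ℝ) : ℝ) : ℂ) := by
        push_cast; ring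
      rw [t1, t2, Complex.sub_re, Complex.sub_re, Complex.add_re, Complex.ofReal_re,
        Complex.ofReal_re]
    have hX : P * eT b - 2 * (P - 1) * (B - 1) ≤ 0 := by nlinarith [mul_nonneg (by omega : 0 ≤ P - 1) (by omega : 0 ≤ B - 1)]
    have hY : -2 * (P - 1) * (A - 1) ≤ 0 := by nlinarith [mul_nonneg (by omega : 0 ≤ P - 1) (by omega : 0 ≤ A - 1)]
    have hXa : 0 ≤ (P * eT b - 2 * (P - 1) * (B - 1)) * eT a := mul_nonneg_of_nonpos_of_nonpos hX ea
    have hYb : 0 ≤ (-2 * (P - 1) * (A - 1)) * eT b := mul_nonneg_of_nonpos_of_nonpos hY eb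
    have hXa' : (0 : ℝ) ≤ (((P * eT b - 2 * (P - 1) * (B - 1)) * eT a : ℤ) : ℝ) := by
      exact_mod_cast hXa
    have hYb' : (0 : ℝ) ≤ (((-2 * (P - 1) * (A - 1)) * eT b : ℤ) : ℝ) := by
      exact_mod_cast hYb
    rw [hre]
    -- one of the terms is strict
    rcases Nat.eq_zero_or_pos b.kids with hb | hb
    · -- one child
      obtain ⟨e, rfl⟩ : ∃ e : ℤ, b = .pw e := by
        cases b with
        | pw e => exact ⟨e, rfl⟩
        | cons c d => simp [Tr.kids] at hb
      have he : 2 ≤ |e| := hk (by simp [Tr.kids])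
      have f1 : rv (addv (vec S) (vec (.pw e))) = (-(vec S).2, (vec S).1 - e * (vec S).2) := by
        simp only [rv, addv, vec]
        ext <;> simp <;> ring
      rw [f1] at e1
      have g1 : |(vec S1).1| = |(vec S).2| := by
        rcases e1 with h | h <;> rw [h] <;> simp
      have g2 : |(vec S1).2| = |(vec S).1 - e * (vec S).2| := by
        rcases e1 with h | h <;> rw [h] <;> simp [abs_sub_comm]
      have g3 : |(vec S).2| < |(vec S).1 - e * (vec S).2| := by
        have h3 := abs_sub_abs_le_abs_sub (e * (vec S).2) (vec S).1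
        rw [abs_sub_comm (e * (vec S).2)] at h3
        rw [abs_mul] at h3
        nlinarith [abs_nonneg (vec S).2]
      have := iha S1 hS1 d1' o2' (by omega) (by omega) hRa hka
      linarith
    · by_cases hra : a.Rat
      · -- `a` rational
        obtain ⟨l1, l2⟩ := s3 a hRa hra hka
        have hA2 : 2 ≤ |(vec a).1| := by omega
        have hpb : |(vec b).2| = 1 := by
          rcases o1 with h | h | h
          · omega
          · omega
          · exact h
        have hrb : ¬ b.Rat := by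
          intro hrb
          obtain ⟨c, e, hc, rfl⟩ := rat_cons hrb hb
          rw [vec_one] at hpb
          obtain ⟨m1, m2⟩ := s3 c hRb.1 hc hRb.2.1
          omega
        have hlt := eb1 hRb hrb
        have q4 := sq_ge hA2
        have hs : 0 < (-2 * (P - 1) * (A - 1)) * eT b := by
          apply mul_pos_of_neg_of_neg _ hlt
          nlinarith [mul_pos (by omega : 0 < P - 1) (by omega : 0 < A - 1)]
        have hs' : (0 : ℝ) < (((-2 * (P - 1) * (A - 1)) * eT b : ℤ) : ℝ) := by exact_mod_cast hs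
        linarith
      · -- `a` not rational
        have hlt := ea1 hRa hra
        have hX' : P * eT b - 2 * (P - 1) * (B - 1) < 0 := by
          by_cases hrb : b.Rat
          · obtain ⟨c, e, hc, rfl⟩ := rat_cons hrb hb
            obtain ⟨m1, m2⟩ := s3 c hRb.1 hc hRb.2.1
            have q4 : 4 ≤ B := by
              rw [hBdef, vec_one]
              exact sq_ge (by omega)
            nlinarith [mul_pos (by omega : 0 < P - 1) (by omega : 0 < B - 1)]
          · have hltb := eb1 hRb hrb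
            nlinarith [mul_nonneg (by omega : 0 ≤ P - 1) (by omega : 0 ≤ B - 1)]
        have hs : 0 < (P * eT b - 2 * (P - 1) * (B - 1)) * eT a := mul_pos_of_neg_of_neg hX' hlt
        have hs' : (0 : ℝ) < (((P * eT b - 2 * (P - 1) * (B - 1)) * eT a : ℤ) : ℝ) := by
          exact_mod_cast hs
        linarith

end Pool.Agent.UA
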