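import Pool.Agent.UA.FinF
import Pool.Agent.UA.Jpv
import Pool.Agent.UA.Jdv
import Pool.Agent.UA.Sgn
import Pool.Agent.UA.Ratg
import Pool.Agent.UA.Ratj
import Pool.Agent.UA.Wad
import Pool.Agent.UA.Wle
import Pool.Agent.UA.Wst
import Pool.Agent.UA.Wfi
import Pool.Agent.UA.Kbg
import Pool.Agent.UA.Mulg
import Pool.Agent.UA.Jnat
import Pool.Agent.UA.Bvn
import Pool.Agent.UA.Kbm
import Pool.Agent.UA.Jone
import Pool.Agent.UA.Jdiv
import Pool.Agent.UA.Jon
import Pool.Agent.UA.Jfin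
import Pool.Agent.UB.Fin

/-!
Theorem U (MP_31fd3b_gt): rational finite type invariants detect the unknot among all arborescent
knots. Assembly.
-/

namespace Pool.Agent.UA

open Pool.Agent.LibH11.Sliced Pool.Agent.TwoBr Pool.Agent.Mont

theorem wfi_all : WFI_Stmt := by
  have h1 := t_JPV
  have h3 := t_JDV h1
  have h4 := t_SGN
  have h5 := t_RATJ h1 t_RATG h3
  have h6 := t_WAD h1 h3
  have h7 := t_WLE h1 h3 h4 h5 h6
  have h8 := t_WST h4 h7
  exact t_WFI h1 h3 h4 h7 h8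

theorem jfin_all : JFIN_Stmt :=
  t_JFIN (t_JON (t_JONE t_KBG t_JNAT) (t_JDIV UB.t_ACT UB.t_PRD t_MULG (t_KBM t_JPV)) t_BVN) wfi_all

/-- **Theorem U.** Rational finite type invariants detect the unknot among arborescent knots. -/
theorem detect_all (t : Diag) (ht : Arb t) (h : IsLongKnot (cl t)) (h0 : IsLongKnot [])
    (hv : ∀ v : Knot → ℚ, IsFiniteType v → v (ofDiag (cl t) h) = v (ofDiag [] h0)) :
    ofDiag (cl t) h = ofDiag [] h0 :=
  detect jfin_all UB.hs_all ftop_all fta_all (t_FIT t_FCG) t_FCG t ht h h0 hv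

end Pool.Agent.UA
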