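import Pool.Agent.UA.StJ
import Pool.Agent.UB.Stmts

/-!
Finite type invariants detect the unknot among the arborescent knots (MP_31fd3b_gt, Theorem U):
block E, the Jones polynomial as a functor: statements of the modules with their proofs.

Throughout `a = κ s` with `κ ^ 4 = -1`, `a` the variable of the Kauffman bracket. All formulas were
checked numerically (direct state sums of random trees).
-/

open scoped BigOperators

namespace Pool.Agent.UA

open Pool.Agent.LibH11.Sliced Pool.Agent.MTR Pool.Agent.UB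
open Pool.Agent.TB hiding vec

/-! ## 1. Definitions -/

section Bracket

variable {A : Type} [CommRing A]

/-- minimum: `cup(0,1) = 1`, `cup(1,0) = -a²` (`0 = false`, `1 = true`) -/
def kcup (a : Aˣ) (x y : Bool) : A :=
  if x = false ∧ y = true then 1 else if x = true ∧ y = false then -((a ^ 2 : Aˣ) : A) else 0

/-- maximum: `cap(1,0) = 1`, `cap(0,1) = -a⁻²` -/
def kcap (a : Aˣ) (x y : Bool) : A :=
  if x = true ∧ y = false then 1 else if x = false ∧ y = true then -((a⁻¹ ^ 2 : Aˣ) : A) else 0

/-- The Kauffman bracket, normalised at antiparallel kinks: a crossing is `-b⁴ id - b² cup cap` with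
`b = a` (type `true`) or `b = a⁻¹` (type `false`). -/
def kb (a : Aˣ) : TData A Bool where
  cup := kcup a
  cap := kcap a
  R := fun e x y u v =>
    -(((if e then a else a⁻¹) ^ 4 : Aˣ) : A) * (if x = u ∧ y = v then 1 else 0) -
      (((if e then a else a⁻¹) ^ 2 : Aˣ) : A) * (kcup a x y * kcap a u v)

/-- The Jones polynomial: the bracket with orientations; a crossing of parallel strands gets the
factor `a⁻⁶` (type `true`) or `a⁶` (type `false`). -/
def jdata (a : Aˣ) : TData A (Bool × Bool) := tprod (kb a) (od (a⁻¹ ^ 6))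

/-- the matrix of `E = κ² cup cap` -/
def kbE (κ a : Aˣ) : Matrix (Bool × Bool) (Bool × Bool) A := fun p c =>
  ((κ ^ 2 : Aˣ) : A) * (kcup a p.1 p.2 * kcap a c.1 c.2)

/-- base change -/
def tmap {A B S : Type} [CommRing A] [CommRing B] (f : A →+* B) (T : TData A S) : TData B S where
  cup := fun x y => f (T.cup x y)
  cap := fun x y => f (T.cap x y)
  R := fun e x y u v => f (T.R e x y u v)

end Bracket

/-! ## 2. Statements -/

/-- KBG: the relations for `jdata`, and crossing change at `a = 1`.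

Proof. The model is `TwoBr.Mats.OkFr.nrm` (Pool/Agent/TwoBr/Framing.lean). First show the relations
of `kb a` (labels `Bool`, all sums are over `Bool`: `Fintype.sum_bool`, cases, `simp`, `ring` with
`a a⁻¹ = 1`): `zigzag`, `zagzig`, `r1Cap`, `r1Cup`, `r2`, `r3` hold without factors and the slides with
the factors `θ true = a⁻⁶`, `θ false = a⁶`:
`θ e * ∑ x, R e x d b c * cap a x = ∑ x, R (!e) d x a b * cap x c`
(`e = true`: left without `θ`: `-a⁴ cap(a,b) [d=c] - a² cap(b,c) [a=d]`, right:
`-a⁻⁴ cap(b,c) [a=d] - a⁻² cap(a,b) [d=c]`; by zigzag), the same for `slideCup`. Then add the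
orientations exactly as in `Mats.OkFr.nrm` (`od θ`; a strand which passes the two ends of a maximum is
parallel to one of them and antiparallel to the other). For `r3` of `kb`: by cases (64 cases), or with
`R = x id + y E'`, `E'² = (-a²-a⁻²) E'`, `E'_12 E'_23 E'_12 = E'_12`.
Second part: the constant coefficient of `a^n` is `1`, so both crossings are `- id - E'` and the
factor `a⁻⁶` is `1`. -/
def KBG_Stmt : Prop :=
  (∀ (A : Type) [CommRing A] (a : Aˣ), (jdata a).Good) ∧
  ∀ (a : (PowerSeries ℂ)ˣ), PowerSeries.constantCoeff (a : PowerSeries ℂ) = 1 →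
    ∀ x y u v, PowerSeries.constantCoeff ((jdata a).R true x y u v) =
      PowerSeries.constantCoeff ((jdata a).R false x y u v)

/-- MULG: connected sums, in general.

Proof. Pool/Agent/TS/Mul.lean proves this for `tdata` with a weight `W`; copy the part from `Sup` to
`mul` (the only properties of `tdata` which are used there are these four). -/
def MULG_Stmt : Prop :=
  ∀ (A S M : Type) [CommRing A] [Fintype S] [DecidableEq S] [AddCommGroup M] (T : TData A S)
    (W : S → M) (s0 : S),
    (∀ x, W x = W s0 → x = s0) →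
    (∀ e x y a b, T.R e x y a b ≠ 0 → W x + W y = W a + W b) →
    (∀ x y, T.cup x y ≠ 0 → W x + W y = 0) →
    (∀ x y, T.cap x y ≠ 0 → W x + W y = 0) →
    ∀ u v : Diag, cnt 1 u = some 1 → T.J s0 (u ++ v) = T.J s0 u * T.J s0 v

/-- JNAT: base change.

Proof. `ap0`, `ap`, `st` commute with `f` (sums and products), by induction; `jdata` is given by
formulas in `a`. -/
def JNAT_Stmt : Prop :=
  (∀ (A B S : Type) [CommRing A] [CommRing B] [Fintype S] [DecidableEq S] (f : A →+* B)
    (T : TData A S) (s0 : S) (w : Diag), (tmap f T).J s0 w = f (T.J s0 w)) ∧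
  ∀ (A B : Type) [CommRing A] [CommRing B] (f : A →+* B) (a : Aˣ),
    jdata (Units.map (f : A →* B) a) = tmap f (jdata a)

/-- BVN: naturality of the vectors, and values at `s = 1`.

Proof. Induction on `T`; `pv`, `be` are polynomials in `s`, `s⁻¹`. At `s = 1`: `be = 0`,
`pv e = (-e, 1)`, `mulv = addv`, `rotv = rv`. -/
def BVN_Stmt : Prop :=
  (∀ (R R' : Type) [CommRing R] [CommRing R'] (f : R →+* R') (s : Rˣ) (T : Tr),
    clv (Units.map (f : R →* R') s) (bv (Units.map (f : R →* R') s) T) = f (clv s (bv s T))) ∧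
  ∀ (R : Type) [CommRing R] (T : Tr), clv (1 : Rˣ) (bv (1 : Rˣ) T) = ((vec T).1 : R)

/-- KBM (uses JPV): the bracket of a tree.

Proof. Write `a = κ s`, `E = kbE κ a = κ² E'`, `E' = cup cap`. Facts (entries, sums over `Bool`):
`E * E = be s • E` (`E'² = (-a²-a⁻²) E'`, `κ⁴ = -1`), `sg (kb a) true = s⁴ • 1 - s² • E`,
`sg (kb a) false = s⁻⁴ • 1 + s⁻² • E`, `rot 1 = E' = -κ² • E` (as `κ⁻² = -κ²`), `rot E = κ² • 1`,
`rot` is linear; `clo` is linear, `clo 1 = -a²-a⁻² = -κ² be s`, `clo E = κ²`. So, for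
`m v = v.2 • 1 + v.1 • E`: `m v * m w = m (mulv s v w)`, `rot (m v) = κ² • m (rotv v)`,
`sg (kb a) true = m (pv s 1)`, `sg (kb a) false = m (pv s (-1))`, so `mt (kb a) (.pw e) = m (pv s e)`
(JPV: `mulv (pv a) (pv b) = pv (a + b)`), and induction on `t`. `clo (m v) = κ² * clv s v`. -/
def KBM_Stmt : Prop :=
  ∀ (A : Type) [CommRing A] (κ s : Aˣ), (κ : A) ^ 4 = -1 → ∀ t : Tr,
    mt (kb (κ * s)) t = ((κ ^ (2 * nc t) : Aˣ) : A) •
      ((bv s t).2 • (1 : Matrix (Bool × Bool) (Bool × Bool) A) + (bv s t).1 • kbE κ (κ * s)) ∧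
    ∀ s0 : Bool, clo (kb (κ * s)) (mt (kb (κ * s)) t) s0 =
      ((κ ^ (2 * nc t + 2) : Aˣ) : A) * clv s (bv s t)

/-- JONE (uses KBG, JNAT; FTM of TB is proved: `TB.ftm`, `TB.inv`, `TB.fti`): if all finite type
invariants of the long knot `w` agree with those of the unknot, then `J w = 1` over every ring.

Proof. Over `PowerSeries ℂ` with `a = 1 + X`: FTM with `T = jdata a` and KBG; `J [] = 1`. The
homomorphism `f : LaurentPolynomial ℤ →+* PowerSeries ℂ`, `T 1 ↦ 1 + X` (`LaurentPolynomial.eval₂`), is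
injective: multiply by a power of `T` (`LaurentPolynomial.exists_T_pow`) to get a polynomial `p` with
`p (1 + X) = 0` in `ℂ[[X]]`; `p (1 + X)` is the composition `p.comp (1 + X)` as a polynomial over `ℂ`
(`Polynomial.coe_injective`, `Polynomial.comp_eq_zero_iff` or substitute `X - 1`), `Int.cast_injective`.
By JNAT `f (J w) = 1 = f 1`, so `J w = 1` over `LaurentPolynomial ℤ` for `a = T 1`. For arbitrary `A`, `a`
apply JNAT to `LaurentPolynomial ℤ →+* A`, `T 1 ↦ a`. -/
def JONE_Stmt : Prop :=
  ∀ (w : Diag) (h : IsLongKnot w) (h0 : IsLongKnot []),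
    (∀ v : Knot → ℂ, IsFiniteType v → v (ofDiag w h) = v (ofDiag [] h0)) →
    ∀ (A : Type) [CommRing A] (a : Aˣ), (jdata a).J (false, true) w = 1

/-- JDIV (uses ACT, PRD of UB; MULG, KBM): the Jones polynomial of a connected sum is divisible by
the polynomials of the trees.

Proof. One tree: ACT, PRD (first part, `T = kb a`, `T' = od (a⁻⁶)`) and KBM:
`J (cl t.dg) = κ^(..) * clv s (bv s t) * clo (od ..) .. true`. Lists: induction, MULG with
`M = ℤ × ℤ`, `W (x, o) = (±1, ±1)` (`R ≠ 0` implies `{x, y} = {a, b}` or `x ≠ y ∧ a ≠ b`, so the sums agree;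
cup and cap join different labels and different orientations), `s0 = (false, true)`.
`cnt 1 (cl t.dg) = some 1`: more generally `cnt (n + 2) t.dg = some (n + 2)` and
`cnt (n + 3) (sh 1 t.dg) = some (n + 3)` (`cnt_append`; UB/JLS has this). -/
def JDIV_Stmt : Prop :=
  ∀ (A : Type) [CommRing A] (κ s : Aˣ), (κ : A) ^ 4 = -1 → ∀ (Ts : List Tr), ∀ t ∈ Ts,
    ∃ q : A, (jdata (κ * s)).J (false, true) (cls Ts) = clv s (bv s t) * q

/-- JON (uses JONE, JDIV, BVN): if all finite type invariants agree with those of the unknot, then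
the polynomials of all the trees are monomials.

Proof. By JONE and JDIV `clv s (bv s T)` is a unit for all rings `A` and units `κ`, `s` with `κ⁴ = -1`.
(i) If a prime `p` divides `(vec T).1` take `A = AlgebraicClosure (ZMod p)`, `κ` a root of `X⁴ + 1`
(`IsAlgClosed.exists_pow_nat_eq (-1)`), `s = 1`: `clv s (bv s T) = (vec T).1 = 0` (BVN), a contradiction. So
`|(vec T).1| = 1` (`Int.exists_prime_and_dvd`).
(ii) `A = LaurentPolynomial ℂ`, `κ = C (exp (π i / 4))`, `s = T 1`: `clv s (bv s T)` is a unit of `ℂ[T;T⁻¹]`. A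
unit `u` is `C c * T m` with `c ≠ 0`: `u T^i`, `u⁻¹ T^j` are polynomials (`LaurentPolynomial.exists_T_pow`) with
the product `X^(i+j)`; divisors of `X^k` are associated to powers of `X` (`Polynomial.prime_X`,
`dvd_prime_pow`), the units of `ℂ[X]` are constants (`Polynomial.isUnit_iff`). Now apply
`LaurentPolynomial ℂ →+* PowerSeries ℂ`, `T 1 ↦ sx` (BVN). -/
def JON_Stmt : Prop :=
  ∀ (Ts : List Tr) (h : IsLongKnot (cls Ts)) (h0 : IsLongKnot []),
    (∀ v : Knot → ℂ, IsFiniteType v → v (ofDiag (cls Ts) h) = v (ofDiag [] h0)) →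
    ∀ T ∈ Ts, |(vec T).1| = 1 ∧ Mon (clv sx (bv sx T))

end Pool.Agent.UA
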