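import Pool.Agent.UA.StF
import Pool.Agent.TwoBr.Sim

/-!
LKB: connectedness of a long diagram with and without a bead.
-/

namespace Pool.Agent.UA

open Pool.Agent.LibH11.Sliced Pool.Agent.TwoBr Pool.Agent.Mont

namespace Lkb

/-- The labels of the bead inside the large diagram: `T` is the label of the through strand. -/
def blb (lab : ℕ → ℕ) (c j T y : ℕ) : ℕ := if y = T then lab j else c + y

/-- The labels of the large diagram. -/
def bl (lab : ℕ → ℕ) (c j T m : ℕ) (lf : ℕ → ℕ) (k : ℕ) : ℕ :=
  if k < j then lab k
  else if k < j + m then blb lab c j T (lf (k - j))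
  else lab (k + 1 - m)

theorem bl_lt {lab : ℕ → ℕ} {c j T m : ℕ} {lf : ℕ → ℕ} {k : ℕ} (h : k < j) :
    bl lab c j T m lf k = lab k := if_pos h

theorem bl_mid {lab : ℕ → ℕ} {c j T m : ℕ} {lf : ℕ → ℕ} {k : ℕ} (h : k < m) :
    bl lab c j T m lf (k + j) = blb lab c j T (lf k) := by
  unfold bl
  rw [if_neg (by omega), if_pos (by omega)]
  congr 2
  omega

theorem bl_ge {lab : ℕ → ℕ} {c j T m : ℕ} {lf : ℕ → ℕ} {k : ℕ} (h : m ≤ k) :
    bl lab c j T m lf (k + j) = lab (k + j + 1 - m) := by
  unfold bl
  rw [if_neg (by omega), if_neg (by omega)]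

/-- The state `s` of a diagram with one strand at the bottom, whose through strand has the label
`T`, put in place of the strand number `j` of the state `(n, lab, c)`. -/
def ins (n : ℕ) (lab : ℕ → ℕ) (c j T : ℕ) (s : State) : State :=
  (s.1 + n - 1, bl lab c j T s.1 s.2.1, c + s.2.2)

theorem ins_eq (n : ℕ) (lab : ℕ → ℕ) (c j T m : ℕ) (lf : ℕ → ℕ) (cf : ℕ) :
    ins n lab c j T (m, lf, cf) = (m + n - 1, bl lab c j T m lf, c + cf) := rfl

/-- The number of strands with the label `L`. -/
def num (m : ℕ) (lab : ℕ → ℕ) (L : ℕ) : ℕ := ∑ k ∈ Finset.range m, if lab k = L then 1 else 0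

/-- `T` is the only label that occurs an odd number of times. -/
structure Good (T : ℕ) (s : State) : Prop where
  v : ∀ k < s.1, s.2.1 k < s.2.2
  t : T < s.2.2
  p : ∀ L, num s.1 s.2.1 L % 2 = if L = T then 1 else 0

theorem sum_cup (h : ℕ → ℕ) (x i r : ℕ) :
    ∑ k ∈ Finset.range (i + r + 2), (if k < i then h k else if k < i + 2 then x else h (k - 2)) =
      ∑ k ∈ Finset.range (i + r), h k + 2 * x := by
  have e : i + r + 2 = i + (2 + r) := by ring
  rw [e, Finset.sum_range_add, Finset.sum_range_add, Finset.sum_range_add _ i r]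
  have e1 : ∑ k ∈ Finset.range i, (if k < i then h k else if k < i + 2 then x else h (k - 2)) =
      ∑ k ∈ Finset.range i, h k :=
    Finset.sum_congr rfl fun k hk => if_pos (Finset.mem_range.1 hk)
  have e2 : ∑ k ∈ Finset.range r, (if i + (2 + k) < i then h (i + (2 + k))
      else if i + (2 + k) < i + 2 then x else h (i + (2 + k) - 2)) =
      ∑ k ∈ Finset.range r, h (i + k) := by
    refine Finset.sum_congr rfl fun k _ => ?_
    rw [if_neg (by omega), if_neg (by omega)]
    congr 1
    omega
  rw [e1, e2]
  simp only [Finset.sum_range_succ, Finset.sum_range_zero]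
  simp
  ring

theorem sum_cap (h : ℕ → ℕ) (i r : ℕ) :
    ∑ k ∈ Finset.range (i + r + 2), h k =
      ∑ k ∈ Finset.range (i + r), h (if k < i then k else k + 2) + (h i + h (i + 1)) := by
  have e : i + r + 2 = i + (2 + r) := by ring
  rw [e, Finset.sum_range_add, Finset.sum_range_add, Finset.sum_range_add _ i r]
  have e1 : ∑ k ∈ Finset.range i, h (if k < i then k else k + 2) =
      ∑ k ∈ Finset.range i, h k :=
    Finset.sum_congr rfl fun k hk => by rw [if_pos (Finset.mem_range.1 hk)]
  have e2 : ∑ k ∈ Finset.range r, h (if i + k < i then i + k else i + k + 2) =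
      ∑ k ∈ Finset.range r, h (i + (2 + k)) := by
    refine Finset.sum_congr rfl fun k _ => ?_
    rw [if_neg (by omega)]
    congr 1
    omega
  rw [e1, e2]
  simp only [Finset.sum_range_succ, Finset.sum_range_zero]
  simp
  ring

theorem sum_swap (h : ℕ → ℕ) (i n : ℕ) (hi : i + 2 ≤ n) :
    ∑ k ∈ Finset.range n, h (Equiv.swap i (i + 1) k) = ∑ k ∈ Finset.range n, h k := by
  refine Finset.sum_bij' (fun k _ => Equiv.swap i (i + 1) k) (fun k _ => Equiv.swap i (i + 1) k)
    ?_ ?_ ?_ ?_ ?_
  · intro k hk
    rw [Finset.mem_range] at hk ⊢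
    simp only [Equiv.swap_apply_def]
    split_ifs <;> omega
  · intro k hk
    rw [Finset.mem_range] at hk ⊢
    simp only [Equiv.swap_apply_def]
    split_ifs <;> omega
  · intro k _
    simp
  · intro k _
    simp
  · intro k _
    rfl

theorem good_cup {T i m : ℕ} {lf : ℕ → ℕ} {cf : ℕ} (h : Good T (m, lf, cf)) (hi : i ≤ m) :
    Good T (m + 2, (fun k => if k < i then lf k else if k < i + 2 then cf else lf (k - 2)),
      cf + 1) := by
  obtain ⟨v, t, p⟩ := h
  simp only at v t p
  refine ⟨?_, by simp only; omega, ?_⟩
  · intro k hk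
    simp only at hk ⊢
    have h1 := v k
    have h2 := v (k - 2)
    split_ifs <;> omega
  · intro L
    have h1 := p L
    simp only at h1 ⊢
    obtain ⟨r, rfl⟩ := Nat.exists_eq_add_of_le hi
    have h2 := sum_cup (fun k => if lf k = L then 1 else 0) (if cf = L then 1 else 0) i r
    have h3 : num (i + r + 2) (fun k => if k < i then lf k else if k < i + 2 then cf
        else lf (k - 2)) L = num (i + r) lf L + 2 * (if cf = L then 1 else 0) := by
      unfold num
      rw [← h2]
      refine Finset.sum_congr rfl fun k _ => ?_
      simp only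
      split_ifs <;> rfl
    rw [h3]
    omega

theorem good_crs {T i m : ℕ} {lf : ℕ → ℕ} {cf : ℕ} (h : Good T (m, lf, cf)) (hi : i + 2 ≤ m) :
    Good T (m, (fun k => lf (Equiv.swap i (i + 1) k)), cf) := by
  obtain ⟨v, t, p⟩ := h
  simp only at v t p
  refine ⟨?_, t, ?_⟩
  · intro k hk
    simp only at hk ⊢
    apply v
    simp only [Equiv.swap_apply_def]
    split_ifs <;> omega
  · intro L
    rw [← p L]
    simp only
    unfold num
    rw [sum_swap (fun k => if lf k = L then 1 else 0) i m hi]

theorem good_cap {T i m : ℕ} {lf : ℕ → ℕ} {cf : ℕ} (h : Good T (m, lf, cf)) (hi : i + 2 ≤ m)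
    (hne : lf i ≠ lf (i + 1)) :
    Good (if T = lf (i + 1) then lf i else T) (m - 2, (fun k =>
      if lf (if k < i then k else k + 2) = lf (i + 1) then lf i
      else lf (if k < i then k else k + 2)), cf) := by
  obtain ⟨v, t, p⟩ := h
  simp only at v t p
  refine ⟨?_, ?_, ?_⟩
  · intro k hk
    simp only at hk ⊢
    have h1 := v k
    have h2 := v (k + 2)
    have h3 := v i
    split_ifs <;> omega
  · simp only
    have h3 := v i
    split_ifs <;> omega
  · intro L
    simp only
    obtain ⟨r, hr⟩ := Nat.exists_eq_add_of_le hi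
    obtain rfl : m = i + r + 2 := by omega
    have e0 : i + r + 2 - 2 = i + r := by omega
    rw [e0]
    have key : ∀ M, num (i + r) (fun k => lf (if k < i then k else k + 2)) M +
        ((if lf i = M then 1 else 0) + (if lf (i + 1) = M then 1 else 0)) =
        num (i + r + 2) lf M := fun M =>
      (sum_cap (fun k => if lf k = M then 1 else 0) i r).symm
    set g : ℕ → ℕ := fun k => lf (if k < i then k else k + 2) with hg
    by_cases h1 : L = lf (i + 1)
    · have e1 : num (i + r) (fun k => if g k = lf (i + 1) then lf i else g k) L = 0 := by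
        unfold num
        refine Finset.sum_eq_zero fun k _ => ?_
        rw [if_neg]
        intro h2
        simp only at h2
        split_ifs at h2 with h3
        · exact hne (h2.trans h1)
        · exact h3 (h2.trans h1)
      have e2 : (num (i + r) (fun k => if g k = lf (i + 1) then lf i else g k) L) % 2 =
          if L = (if T = lf (i + 1) then lf i else T) then 1 else 0 := by
        rw [e1, if_neg]
        rw [h1]
        split_ifs with h4
        · exact fun h => hne h.symm
        · exact fun h => h4 h.symm
      exact e2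
    · by_cases h2 : L = lf i
      · have e1 : num (i + r) (fun k => if g k = lf (i + 1) then lf i else g k) L =
            num (i + r) g L + num (i + r) g (lf (i + 1)) := by
          unfold num
          rw [← Finset.sum_add_distrib]
          refine Finset.sum_congr rfl fun k _ => ?_
          have h3 := h1
          grind
        have e2 : (num (i + r) (fun k => if g k = lf (i + 1) then lf i else g k) L) % 2 =
            if L = (if T = lf (i + 1) then lf i else T) then 1 else 0 := by
          rw [e1]
          have k1 := key L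
          have k2 := key (lf (i + 1))
          have p1 := p L
          have p2 := p (lf (i + 1))
          rw [if_pos h2.symm, if_neg (fun h => h1 h.symm)] at k1
          rw [if_neg hne, if_pos rfl] at k2
          rw [← k1] at p1
          rw [← k2] at p2
          by_cases h5 : T = lf (i + 1)
          · rw [if_pos h5, if_pos h2]
            rw [if_pos h5.symm] at p2
            rw [if_neg (fun h => h1 (h.trans h5))] at p1
            omega
          · rw [if_neg h5]
            rw [if_neg (fun h => h5 h.symm)] at p2
            omega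
        exact e2
      · have e1 : num (i + r) (fun k => if g k = lf (i + 1) then lf i else g k) L =
            num (i + r) g L := by
          unfold num
          refine Finset.sum_congr rfl fun k _ => ?_
          grind
        have e2 : (num (i + r) (fun k => if g k = lf (i + 1) then lf i else g k) L) % 2 =
            if L = (if T = lf (i + 1) then lf i else T) then 1 else 0 := by
          rw [e1]
          have k1 := key L
          have p1 := p L
          rw [if_neg (fun h => h2 h.symm), if_neg (fun h => h1 h.symm)] at k1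
          rw [← k1] at p1
          simp only [add_zero] at p1
          rw [p1]
          by_cases h5 : T = lf (i + 1)
          · rw [if_pos h5, if_neg h2, if_neg (fun h => h1 (h.trans h5))]
          · rw [if_neg h5]
        exact e2

/-- The three kinds of strands. -/
theorem cases3 (j m k : ℕ) : k < j ∨ (∃ l, l < m ∧ k = l + j) ∨ ∃ l, m ≤ l ∧ k = l + j := by
  by_cases h : k < j
  · exact Or.inl h
  · by_cases h2 : k - j < m
    · exact Or.inr (Or.inl ⟨k - j, h2, by omega⟩)
    · exact Or.inr (Or.inr ⟨k - j, by omega, by omega⟩)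

theorem bl_valid {n : ℕ} {lab : ℕ → ℕ} {c j T : ℕ} (v : ∀ k, k < n → lab k < c) (hj : j < n)
    {m cf : ℕ} {lf : ℕ → ℕ} (h : Good T (m, lf, cf)) {k : ℕ} (hk : k < m + n - 1) :
    bl lab c j T m lf k < c + cf := by
  obtain ⟨v', t, p⟩ := h
  simp only at v' t
  rcases cases3 j m k with h1 | ⟨l, h1, rfl⟩ | ⟨l, h1, rfl⟩
  · rw [bl_lt h1]
    have := v k (by omega)
    omega
  · rw [bl_mid h1]
    have h2 := v j hj
    have h3 := v' l h1
    unfold blb
    split_ifs <;> omega
  · rw [bl_ge h1]
    have := v (l + j + 1 - m) (by omega)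
    omega

theorem ins_valid {n : ℕ} {lab : ℕ → ℕ} {c j T : ℕ} (v : ∀ k, k < n → lab k < c) (hj : j < n)
    {s : State} (h : Good T s) : ∀ k < (ins n lab c j T s).1,
      (ins n lab c j T s).2.1 k < (ins n lab c j T s).2.2 := by
  obtain ⟨m, lf, cf⟩ := s
  intro k hk
  exact bl_valid v hj h hk

theorem step_cup {n : ℕ} {lab : ℕ → ℕ} {c j T : ℕ} (v : ∀ k, k < n → lab k < c) (hj : j < n)
    {i m : ℕ} {lf : ℕ → ℕ} {cf : ℕ} (h : Good T (m, lf, cf)) (hi : i ≤ m) :
    OSim (step (.cup, i + j) (ins n lab c j T (m, lf, cf)))
      (some (ins n lab c j T (m + 2,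
        (fun k => if k < i then lf k else if k < i + 2 then cf else lf (k - 2)), cf + 1))) := by
  have ht := h.t
  simp only at ht
  rw [ins_eq, ins_eq]
  simp only [step]
  rw [if_pos (by omega)]
  have key : ∀ k, k < m + n - 1 + 2 → (if k < i + j then bl lab c j T m lf k else
      if k < i + j + 2 then c + cf else bl lab c j T m lf (k - 2)) =
      bl lab c j T (m + 2) (fun k => if k < i then lf k else if k < i + 2 then cf
        else lf (k - 2)) k := by
    intro k hk
    rcases cases3 j (m + 2) k with h1 | ⟨l, h1, rfl⟩ | ⟨l, h1, rfl⟩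
    · rw [bl_lt h1, bl_lt h1, if_pos (by omega)]
    · rw [bl_mid h1]
      by_cases h2 : l < i
      · rw [if_pos (by omega), bl_mid (by omega), if_pos h2]
      · rw [if_neg (by omega), if_neg h2]
        by_cases h3 : l < i + 2
        · rw [if_pos (by omega), if_pos h3]
          unfold blb
          rw [if_neg (by omega)]
        · rw [if_neg (by omega), if_neg h3]
          have e : l + j - 2 = l - 2 + j := by omega
          rw [e, bl_mid (by omega)]
    · rw [bl_ge h1]
      rw [if_neg (by omega), if_neg (by omega)]
      have e : l + j - 2 = l - 2 + j := by omega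
      rw [e, bl_ge (by omega)]
      congr 1
      omega
  have hn : m + n - 1 + 2 = m + 2 + n - 1 := by omega
  have hc : c + cf + 1 = c + (cf + 1) := by omega
  rw [← hn, ← hc]
  refine sim_of_eq ?_ key
  intro k hk
  have h1 : k < m + n - 1 → bl lab c j T m lf k < c + cf := bl_valid v hj h
  have h2 : k - 2 < m + n - 1 → bl lab c j T m lf (k - 2) < c + cf := bl_valid v hj h
  split_ifs <;> omega

theorem step_crs {n : ℕ} {lab : ℕ → ℕ} {c j T : ℕ} (v : ∀ k, k < n → lab k < c) (hj : j < n)
    {e : Bool} {i m : ℕ} {lf : ℕ → ℕ} {cf : ℕ} (h : Good T (m, lf, cf)) (hi : i + 2 ≤ m) :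
    OSim (step (.crs e, i + j) (ins n lab c j T (m, lf, cf)))
      (some (ins n lab c j T (m, (fun k => lf (Equiv.swap i (i + 1) k)), cf))) := by
  rw [ins_eq, ins_eq]
  simp only [step]
  rw [if_pos (by omega)]
  refine sim_of_eq ?_ ?_
  · intro k hk
    apply bl_valid v hj h
    simp only [Equiv.swap_apply_def]
    split_ifs <;> omega
  · intro k hk
    rcases cases3 j m k with h1 | ⟨l, h1, rfl⟩ | ⟨l, h1, rfl⟩
    · rw [Equiv.swap_apply_of_ne_of_ne (by omega) (by omega), bl_lt h1, bl_lt h1]
    · rw [bl_mid h1]
      have e : Equiv.swap (i + j) (i + j + 1) (l + j) = Equiv.swap i (i + 1) l + j := by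
        simp only [Equiv.swap_apply_def]
        split_ifs <;> omega
      rw [e, bl_mid]
      simp only [Equiv.swap_apply_def]
      split_ifs <;> omega
    · rw [Equiv.swap_apply_of_ne_of_ne (by omega) (by omega), bl_ge h1, bl_ge h1]

theorem step_cap {n : ℕ} {lab : ℕ → ℕ} {c j T : ℕ} (v : ∀ k, k < n → lab k < c) (hj : j < n)
    {i m : ℕ} {lf : ℕ → ℕ} {cf : ℕ} (h : Good T (m, lf, cf)) (hi : i + 2 ≤ m)
    (hne : lf i ≠ lf (i + 1)) :
    OSim (step (.cap, i + j) (ins n lab c j T (m, lf, cf)))
      (some (ins n lab c j (if T = lf (i + 1) then lf i else T) (m - 2, (fun k =>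
      if lf (if k < i then k else k + 2) = lf (i + 1) then lf i
      else lf (if k < i then k else k + 2)), cf))) := by
  have hg := good_cap h hi hne
  have v' := h.v
  simp only at v'
  rw [ins_eq, ins_eq]
  simp only [step]
  have vj := v j hj
  have f1 : bl lab c j T m lf (i + j) = blb lab c j T (lf i) := bl_mid (by omega)
  have f2 : bl lab c j T m lf (i + j + 1) = blb lab c j T (lf (i + 1)) := by
    have e : i + j + 1 = i + 1 + j := by omega
    rw [e]
    exact bl_mid (by omega)
  have hne2 : blb lab c j T (lf i) ≠ blb lab c j T (lf (i + 1)) := by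
    unfold blb
    split_ifs <;> omega
  rw [f1, f2, if_pos ⟨by omega, hne2⟩]
  set T' := if T = lf (i + 1) then lf i else T with hT'
  have key : ∀ k, k < m + n - 1 - 2 →
      (if bl lab c j T m lf (if k < i + j then k else k + 2) = blb lab c j T (lf (i + 1)) then
        blb lab c j T (lf i) else bl lab c j T m lf (if k < i + j then k else k + 2)) =
      (if T = lf (i + 1) ∧ bl lab c j T' (m - 2) (fun k =>
          if lf (if k < i then k else k + 2) = lf (i + 1) then lf i
          else lf (if k < i then k else k + 2)) k = lab j then c + lf i else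
        bl lab c j T' (m - 2) (fun k =>
          if lf (if k < i then k else k + 2) = lf (i + 1) then lf i
          else lf (if k < i then k else k + 2)) k) ∧
      (T = lf (i + 1) → bl lab c j T' (m - 2) (fun k =>
          if lf (if k < i then k else k + 2) = lf (i + 1) then lf i
          else lf (if k < i then k else k + 2)) k ≠ c + lf i) := by
    intro k hk
    rcases cases3 j (m - 2) k with h1 | ⟨l, h1, rfl⟩ | ⟨l, h1, rfl⟩
    · rw [if_pos (show k < i + j by omega), bl_lt h1, bl_lt h1]
      have vk := v k (by omega)
      unfold blb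
      grind
    · rw [bl_mid h1]
      have e : (if l + j < i + j then l + j else l + j + 2) = (if l < i then l else l + 2) + j := by
        split_ifs <;> omega
      rw [e]
      have e2 : (if l < i then l else l + 2) < m := by split_ifs <;> omega
      rw [bl_mid e2]
      have vl := v' _ e2
      set y := lf (if l < i then l else l + 2) with hy
      unfold blb
      grind
    · rw [if_neg (show ¬ l + j < i + j by omega), bl_ge h1]
      have e : l + j + 2 = l + 2 + j := by omega
      rw [e, bl_ge (by omega)]
      have e3 : l + 2 + j + 1 - m = l + j + 1 - (m - 2) := by omega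
      rw [e3]
      have vk := v (l + j + 1 - (m - 2)) (by omega)
      unfold blb
      grind
  have hn : m + n - 1 - 2 = m - 2 + n - 1 := by omega
  refine ⟨hn, ?_, ?_, ?_⟩
  · intro k hk
    simp only at hk ⊢
    have h1 : k < m + n - 1 → bl lab c j T m lf k < c + cf := bl_valid v hj h
    have h2 : k + 2 < m + n - 1 → bl lab c j T m lf (k + 2) < c + cf := bl_valid v hj h
    have h3 : bl lab c j T m lf (i + j) < c + cf := bl_valid v hj h (by omega)
    rw [f1] at h3
    split_ifs <;> omega
  · intro k hk
    exact bl_valid v hj hg hk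
  · intro k hk l hl
    simp only at hk hl ⊢
    obtain ⟨a1, a2⟩ := key k hk
    obtain ⟨b1, b2⟩ := key l hl
    rw [a1, b1]
    grind

theorem step_ins {n : ℕ} {lab : ℕ → ℕ} {c j : ℕ} (v : ∀ k, k < n → lab k < c) (hj : j < n)
    {T : ℕ} {s : State} (h : Good T s) {κ : Kind} {i : ℕ} (hi : i + κ.ins ≤ s.1) :
    (step (κ, i + j) (ins n lab c j T s) = none) ∨
    ∃ (s' : State) (T' : ℕ), step (κ, i) s = some s' ∧ Good T' s' ∧
      OSim (step (κ, i + j) (ins n lab c j T s)) (some (ins n lab c j T' s')) := by
  obtain ⟨m, lf, cf⟩ := s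
  cases κ with
  | cup =>
    simp only [Kind.ins, add_zero] at hi
    refine Or.inr ⟨_, T, ?_, good_cup h hi, step_cup v hj h hi⟩
    simp only [step]
    rw [if_pos hi]
  | crs e =>
    simp only [Kind.ins] at hi
    refine Or.inr ⟨_, T, ?_, good_crs h hi, step_crs v hj h hi⟩
    simp only [step]
    rw [if_pos hi]
  | cap =>
    simp only [Kind.ins] at hi
    by_cases hne : lf i = lf (i + 1)
    · left
      rw [ins_eq]
      simp only [step]
      rw [if_neg]
      rintro ⟨-, h2⟩
      apply h2
      have e : i + j + 1 = i + 1 + j := by omega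
      rw [e, bl_mid (by omega), bl_mid (by omega), hne]
    · refine Or.inr ⟨_, _, ?_, good_cap h hi hne, step_cap v hj h hi hne⟩
      simp only [step]
      rw [if_pos ⟨hi, hne⟩]

theorem run_ins {n : ℕ} {lab : ℕ → ℕ} {c j : ℕ} (v : ∀ k, k < n → lab k < c) (hj : j < n) :
    ∀ (w : Diag) (T : ℕ) (s : State), Good T s → cnt s.1 w ≠ none →
      (run (sh j w) (ins n lab c j T s) = none) ∨
      ∃ (s' : State) (T' : ℕ), run w s = some s' ∧ Good T' s' ∧
        OSim (run (sh j w) (ins n lab c j T s)) (some (ins n lab c j T' s')) := by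
  intro w
  induction w with
  | nil =>
    intro T s h _
    refine Or.inr ⟨s, T, rfl, h, ?_⟩
    exact ⟨rfl, ins_valid v hj h, ins_valid v hj h, fun _ _ _ _ => Iff.rfl⟩
  | cons p w ih =>
    obtain ⟨κ, i⟩ := p
    intro T s h hc
    obtain ⟨h1, h2⟩ := cnt_cons_ne hc
    simp only [sh_cons, run]
    rcases step_ins v hj h h1 with h3 | ⟨s1, T1, h3, h4, h5⟩
    · left
      rw [h3]
      rfl
    · have h6 := bind_run_osim (sh j w) h5
      simp only [Option.bind_some] at h6
      have h7 := (step_fst (lab := s.2.1) (c := s.2.2) h3).2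
      rw [← h7] at h2
      rw [h3]
      simp only [Option.bind_some]
      rcases ih T1 s1 h4 h2 with h8 | ⟨s2, T2, h8, h9, h10⟩
      · left
        rw [h8] at h6
        cases h11 : (step (κ, i + j) (ins n lab c j T s)).bind (run (sh j w)) with
        | none => rfl
        | some t =>
          rw [h11] at h6
          exact h6.elim
      · exact Or.inr ⟨s2, T2, h8, h9, h6.trans h10⟩

end Lkb

open Lkb in
theorem t_LKB : LKB_Stmt := by
  intro u v f j n hf hu hj h
  obtain ⟨lab0, c0, h⟩ := h
  rw [run_append, run_append] at h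
  cases hr : run u (1, fun _ => 0, 1) with
  | none =>
    rw [hr] at h
    simp at h
  | some s =>
    obtain ⟨n', lab, c⟩ := s
    have h1 := run_cnt _ _ _ hr
    simp only at h1
    rw [hu] at h1
    simp only [Option.some.injEq] at h1
    subst h1
    rw [hr] at h
    simp only [Option.bind_some] at h
    have hs0 : Sim ((1, fun _ => 0, 1) : State) (1, fun _ => 0, 1) := start_sim
    have h2 := run_osim u hs0
    rw [hr] at h2
    have h3 : Sim ((n, lab, c) : State) (n, lab, c) := h2
    have hv : ∀ k, k < n → lab k < c := h3.v1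
    have hg : Good 0 (1, fun _ => 0, 1) := by
      refine ⟨fun _ _ => Nat.zero_lt_one, Nat.zero_lt_one, ?_⟩
      intro L
      unfold num
      simp only [Finset.sum_range_one]
      by_cases hL : L = 0
      · rw [if_pos hL.symm, if_pos hL]
      · rw [if_neg (fun h => hL h.symm), if_neg hL]
    have hsim : ∀ (T : ℕ) (lf : ℕ → ℕ) (cf : ℕ), Good T (1, lf, cf) → lf 0 = T →
        Sim (n, lab, c) (ins n lab c j T (1, lf, cf)) := by
      intro T lf cf hT h0
      rw [ins_eq]
      refine ⟨?_, hv, ?_, ?_⟩
      · simp only
        omega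
      · intro k hk
        exact bl_valid hv hj hT hk
      · have key : ∀ k, k < n → bl lab c j T 1 lf k = lab k := by
          intro k hk
          rcases cases3 j 1 k with h1 | ⟨l, h1, rfl⟩ | ⟨l, h1, rfl⟩
          · rw [bl_lt h1]
          · rw [bl_mid h1]
            obtain rfl : l = 0 := by omega
            unfold blb
            rw [if_pos h0, zero_add]
          · rw [bl_ge h1]
            congr 1
        intro k hk l hl
        simp only at hk hl ⊢
        rw [key k hk, key l hl]
    have h4 := run_osim (sh j f) (hsim 0 _ _ hg rfl)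
    have hf0 : cnt ((1, fun _ => 0, 1) : State).1 f ≠ none := by
      simp only
      rw [hf]
      simp
    rcases run_ins hv hj f 0 (1, fun _ => 0, 1) hg hf0 with h5 | ⟨s', T', h5, h6, h7⟩
    · rw [h5] at h4
      cases h8 : run (sh j f) (n, lab, c) with
      | none =>
        rw [h8] at h
        simp at h
      | some t =>
        rw [h8] at h4
        exact h4.elim
    · obtain ⟨m, lf, cf⟩ := s'
      have h8 := run_cnt _ _ _ h5
      simp only at h8
      rw [hf] at h8
      simp only [Option.some.injEq] at h8
      subst h8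
      have h9 : lf 0 = T' := by
        by_contra hne
        have h10 := h6.p T'
        unfold num at h10
        simp only [Finset.sum_range_one] at h10
        rw [if_neg hne, if_pos trivial] at h10
        omega
      have h11 := bind_run_osim v ((h4.trans h7).trans (osim_some (hsim T' lf cf h6 h9).symm))
      rw [h] at h11
      refine ⟨?_, lf, cf, h5⟩
      simp only [Option.bind_some] at h11
      cases h12 : run v (n, lab, c) with
      | none =>
        rw [h12] at h11
        exact h11.elim
      | some t =>
        rw [h12] at h11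
        obtain ⟨n', l, d⟩ := t
        have h13 : (1 : ℕ) = n' := Sim.n h11
        subst h13
        refine ⟨l, d, ?_⟩
        rw [run_append, hr, Option.bind_some, h12]

end Pool.Agent.UA
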