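import Pool.Agent.UA.StF
import Pool.Agent.TS.Bead
import Pool.Agent.TS.Natx

/-!
Theorem U (MP_31fd3b_gt), block F: module BPS (a bead passes a slice).
-/

namespace Pool.Agent.UA

open Pool.Agent.LibH11.Sliced Pool.Agent.TwoBr Pool.Agent.Mont Pool.Agent.TS

namespace Bps

theorem cnt_bead {f : Diag} (hf : cnt 1 f = some 1) {j n : ℕ} (h : j < n) :
    cnt n (sh j f) = some n := by
  have := BEAD.cnt_f hf j (n - j - 1)
  rwa [show 1 + (n - j - 1) + j = n by omega] at this

theorem flip_sh (k : ℕ) (w : Diag) : flipD (sh k w) = sh k (flipD w) := by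
  induction w with
  | nil => rfl
  | cons p w ih =>
    obtain ⟨q, i⟩ := p
    rw [sh_cons, flipD_cons, ih, flipD_cons, sh_append]
    rfl

/-- shift and widen -/
theorem up {N : ℕ} {x y : Diag} (h : EqD N x y) (i n : ℕ) (hn : N + i ≤ n) :
    EqD n (sh i x) (sh i y) := by
  have h1 := (h.sh i).widen (n - (N + i))
  rwa [show N + i + (n - (N + i)) = n by omega] at h1

/-- the strand of the bead is on the left of the slice -/
theorem left {f : Diag} (hf : cnt 1 f = some 1) (k : Kind) (i j n : ℕ) (hi : i + k.ins ≤ n)
    (hj : j < i) : EqD n (sh j f ++ [(k, i)]) ((k, i) :: sh j f) := by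
  have h1 := far_words (sh j f) [(k, i - (j + 1))] (j + 1) (j + 1) (n - (j + 1))
    (cnt_bead hf (by omega)) (by
      rw [cnt_one (by omega)]
      simp)
  simp only [sh_cons, sh_nil] at h1
  rw [show j + 1 + (n - (j + 1)) = n by omega, show i - (j + 1) + (j + 1) = i by omega] at h1
  exact h1

/-- the strand of the bead is on the right of the slice -/
theorem right {f : Diag} (hf : cnt 1 f = some 1) (k : Kind) (i j n : ℕ) (hi : i + k.ins ≤ j)
    (hj : j < n) : EqD n (sh j f ++ [(k, i)]) ((k, i) :: sh (j - k.ins + k.outs) f) := by
  have h1 := far_left k (i := i) (N := j) hi f (n - j) (by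
    have := cnt_bead hf (j := 0) (n := n - j) (by omega)
    rw [sh_zero] at this
    rw [this]
    simp)
  rw [show j + (n - j) = n by omega] at h1
  exact h1.symm

theorem crs0 {f : Diag} (hf : cnt 1 f = some 1) (e : Bool) :
    EqD 2 (f ++ [(.crs e, 0)]) ([(.crs e, 0)] ++ sh 1 f) := natx e f 1 1 hf

theorem crs1 {f : Diag} (hf : cnt 1 f = some 1) (e : Bool) :
    EqD 2 (sh 1 f ++ [(.crs e, 0)]) ([(.crs e, 0)] ++ f) := BEAD.bead2 hf (crs0 hf) e

theorem cap0 {f : Diag} (hf : cnt 1 f = some 1) :
    EqD 2 (f ++ [(.cap, 0)]) (sh 1 (pD 1 f) ++ [(.cap, 0)]) := np_word f hf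

theorem cup0 (h1 : FSY_Stmt) {f : Diag} (hf : cnt 1 f = some 1) :
    EqD 0 ([(.cup, 0)] ++ f) ([(.cup, 0)] ++ sh 1 (pD 1 f)) := by
  obtain ⟨-, h2, -, -⟩ := h1
  obtain ⟨-, -, s3, -, -, -, s7, s8, -⟩ := h2 f 1 1 hf
  have cg : cnt 1 (flipD f) = some 1 := cnt_flip f hf
  have hc := cap0 cg
  have c2 : cnt 2 (flipD f ++ [(.cap, 0)]) = some 0 := by
    have := cnt_bead cg (j := 0) (n := 2) (by omega)
    rw [sh_zero] at this
    rw [cnt_app this]
    rfl
  have h3 := EqD_flip hc c2
  rw [flipD_append, flipD_append, s3, flip_sh, s7, s8] at h3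
  exact h3

end Bps

open Bps in
theorem t_BPS (h1 : FSY_Stmt) : BPS_Stmt := by
  intro f hf
  obtain ⟨-, s2, -, -, -, -, -, -, -⟩ := h1.2.1 f 1 1 hf
  have cp : cnt 1 (pD 1 f) = some 1 := cnt_pD f hf
  refine ⟨?_, ?_, ?_⟩
  · intro k i j n hi hj hk
    rcases Nat.lt_or_ge j i with hji | hji
    · have hb : bpos k i j = j := by
        cases k with
        | cup => simp only [bpos]; rw [if_pos hji]
        | cap => simp only [bpos]; rw [if_pos hji]
        | crs e => simp only [bpos]; rw [if_neg (by omega), if_neg (by omega)]
      rw [hb]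
      exact left hf k i j n hi hji
    · by_cases hji2 : i + k.ins ≤ j
      · have hb : bpos k i j = j - k.ins + k.outs := by
          cases k with
          | cup =>
            simp only [bpos, Kind.ins, Kind.outs]
            rw [if_neg (by omega)]
            omega
          | cap =>
            simp only [bpos, Kind.ins, Kind.outs] at hji2 ⊢
            rw [if_neg (by omega)]
            omega
          | crs e =>
            simp only [bpos, Kind.ins, Kind.outs] at hji2 ⊢
            rw [if_neg (by omega), if_neg (by omega)]
            omega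
        rw [hb]
        exact right hf k i j n hji2 hj
      · cases k with
        | cup =>
          simp only [Kind.ins] at hji2
          omega
        | cap =>
          simp only [Kind.ins] at hji2
          have := hk rfl
          omega
        | crs e =>
          simp only [Kind.ins] at hji2 hi
          have hj2 : j = i ∨ j = i + 1 := by omega
          rcases hj2 with rfl | rfl
          · have h2 := up (crs0 hf e) j n (by omega)
            rw [sh_append, sh_append, sh_sh, sh_cons, sh_nil] at h2
            simp only [bpos, if_true]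
            rw [show 0 + j = j by omega, show 1 + j = j + 1 by omega] at h2
            exact h2
          · have h2 := up (crs1 hf e) i n (by omega)
            rw [sh_append, sh_append, sh_sh, sh_cons, sh_nil] at h2
            have hb : bpos (Kind.crs e) i (i + 1) = i := by
              show (if i + 1 = i then i + 1 else if i + 1 = i + 1 then i else i + 1) = i
              rw [if_neg (by omega), if_pos rfl]
            rw [hb]
            rw [show 0 + i = i by omega, show 1 + i = i + 1 by omega] at h2
            exact h2
  · intro i n hi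
    constructor
    · have h2 := up (cap0 hf) i n (by omega)
      rw [sh_append, sh_append, sh_sh, sh_cons, sh_nil] at h2
      simp only [show 0 + i = i by omega, show 1 + i = i + 1 by omega] at h2
      exact h2
    · have h2 := up (cap0 cp) i n (by omega)
      rw [s2, sh_append, sh_append, sh_sh, sh_cons, sh_nil] at h2
      simp only [show 0 + i = i by omega, show 1 + i = i + 1 by omega] at h2
      exact h2.symm
  · intro i n hi
    constructor
    · have h2 := up (cup0 h1 hf) i n (by omega)
      rw [sh_append, sh_append, sh_sh, sh_cons, sh_nil] at h2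
      simp only [show 0 + i = i by omega, show 1 + i = i + 1 by omega] at h2
      exact h2
    · have h2 := up (cup0 h1 cp) i n (by omega)
      rw [s2, sh_append, sh_append, sh_sh, sh_cons, sh_nil] at h2
      simp only [show 0 + i = i by omega, show 1 + i = i + 1 by omega] at h2
      exact h2.symm

end Pool.Agent.UA
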