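import Pool.Agent.UA.StF
import Pool.Agent.TwoBr.Cert

/-!
Module FIT of Theorem U (MP_31fd3b_gt): small tangles, by certificates.
-/

namespace Pool.Agent.UA

open Pool.Agent.LibH11.Sliced Pool.Agent.TwoBr Pool.Agent.Mont

namespace Fit

theorem rot_crs (e : Bool) : EqD 2 (rotD [(.crs e, 0)]) [(.crs (!e), 0)] := by
  cases e
  · exact EqD.of_chk [(0, false, .su 0 false), (1, false, .far (.crs true) .cap 0 0),
      (0, false, .zz 1)] rfl
  · exact EqD.of_chk [(0, false, .su 0 true), (1, false, .far (.crs false) .cap 0 0),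
      (0, false, .zz 1)] rfl

theorem rot_nil_crs (e : Bool) : EqD 2 (rotD [] ++ [(.crs e, 0)]) (rotD []) := by
  cases e
  · exact EqD.of_chk [(0, false, .far .cup .cap 0 0), (1, false, .u1 0 false),
      (0, true, .far .cup .cap 0 0)] rfl
  · exact EqD.of_chk [(0, false, .far .cup .cap 0 0), (1, false, .u1 0 true),
      (0, true, .far .cup .cap 0 0)] rfl

theorem crs_rot_nil (e : Bool) : EqD 2 ((.crs e, 0) :: rotD []) (rotD []) := by
  cases e
  · exact EqD.of_chk [(1, false, .far .cup .cap 0 0), (0, false, .a1 0 false),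
      (0, true, .far .cup .cap 0 0)] rfl
  · exact EqD.of_chk [(1, false, .far .cup .cap 0 0), (0, false, .a1 0 true),
      (0, true, .far .cup .cap 0 0)] rfl

theorem cl_crs (e : Bool) : EqD 1 (cl [(.crs e, 0)]) [] := by
  cases e
  · exact EqD.of_chk [(1, true, .sa 0 true), (0, false, .u1 1 true), (0, false, .zg 0)] rfl
  · exact EqD.of_chk [(1, true, .sa 0 false), (0, false, .u1 1 false), (0, false, .zg 0)] rfl

theorem cnt_rep (e : Bool) (n : ℕ) : cnt 2 (List.replicate n (Kind.crs e, 0)) = some 2 := by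
  induction n with
  | zero => rfl
  | succ n ih => exact ih

theorem rot_nil_rep (e : Bool) (n : ℕ) :
    EqD 2 (rotD [] ++ List.replicate n (Kind.crs e, 0)) (rotD []) := by
  induction n with
  | zero => exact EqD.of_eq (List.append_nil _)
  | succ n ih =>
    have h1 : rotD [] ++ List.replicate (n + 1) (Kind.crs e, 0) =
        (rotD [] ++ [(Kind.crs e, 0)]) ++ List.replicate n (Kind.crs e, 0) := by
      rw [List.append_assoc]
      rfl
    rw [h1]
    refine EqD.trans (EqD.right (rot_nil_crs e) _ ?_) ih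
    have h2 : cnt 2 (rotD [] ++ [(Kind.crs e, 0)]) = some 2 := rfl
    rw [cnt_app h2, cnt_rep]
    exact Option.some_ne_none 2

end Fit

/-- Module FIT. -/
theorem t_FIT (_h1 : FCG_Stmt) : FIT_Stmt := by
  refine ⟨fun e => ⟨Fit.rot_crs e, Fit.rot_nil_crs e, Fit.crs_rot_nil e, Fit.cl_crs e⟩,
    fun e => Fit.rot_nil_rep _ _, ?_,
    EqD.of_chk [(0, false, .far .cup .cap 0 0)] rfl,
    EqD.of_chk [(1, false, .far .cup .cap 1 0), (0, false, .zz 0), (0, false, .zz 1)] rfl,
    EqD.of_chk [(1, false, .far .cup .cap 0 0), (0, false, .zg 0), (0, false, .zz 0)] rfl⟩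
  intro e he
  rcases (abs_eq (zero_le_one)).1 he with h | h
  · subst h
    exact ⟨Fit.rot_crs true, Fit.cl_crs true⟩
  · subst h
    exact ⟨Fit.rot_crs false, Fit.cl_crs false⟩

end Pool.Agent.UA
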