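import Pool.Agent.UA.StF

/-!
FRO: rotations of tangles in the plane.
-/

namespace Pool.Agent.UA

open Pool.Agent.LibH11.Sliced Pool.Agent.TwoBr Pool.Agent.Mont

namespace Fro

theorem flipD_sh (k : ℕ) (w : Diag) : flipD (sh k w) = sh k (flipD w) := by
  simp [flipD, sh, List.map_reverse]

theorem rot_rot (t : Diag) :
    rotD (rotD t) = ([(.cup, 0), (.cup, 1)] : List (Kind × ℕ)) ++ (sh 2 t ++ ([(.cap, 3), (.cap, 2)] : List (Kind × ℕ))) := by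
  unfold rotD
  rw [sh_cons, sh_append, sh_sh]
  simp

theorem claim1 {t : Diag} (ht : cnt 2 t = some 2) : EqD 2 (rotD (rotD t)) (pD 2 t) := by
  have hp : cnt 2 (pD 2 t) = some 2 := cnt_pD t ht
  have h1 := (np_word t ht).sh 2
  have e1 : sh 2 (t ++ NC 2) = sh 2 t ++ ([(.cap, 3), (.cap, 2)] : List (Kind × ℕ)) := by
    rw [sh_append]
    rfl
  have e2 : sh 2 (sh 2 (pD 2 t) ++ NC 2) = sh 4 (pD 2 t) ++ ([(.cap, 3), (.cap, 2)] : List (Kind × ℕ)) := by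
    rw [sh_append, sh_sh]
    rfl
  rw [e1, e2] at h1
  have h2 : EqD 2 (([(.cup, 0), (.cup, 1)] : List (Kind × ℕ)) ++ (sh 2 t ++ ([(.cap, 3), (.cap, 2)] : List (Kind × ℕ))))
      (([(.cup, 0), (.cup, 1)] : List (Kind × ℕ)) ++ (sh 4 (pD 2 t) ++ ([(.cap, 3), (.cap, 2)] : List (Kind × ℕ)))) :=
    h1.left _ rfl
  have h3 : EqD 2 (([(.cup, 0), (.cup, 1)] : List (Kind × ℕ)) ++ sh 4 (pD 2 t)) (pD 2 t ++ ([(.cup, 0), (.cup, 1)] : List (Kind × ℕ))) := by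
    have h := far_words ([(.cup, 0), (.cup, 1)] : List (Kind × ℕ)) (pD 2 t) 0 4 2 rfl (by rw [hp]; simp)
    rw [sh_zero] at h
    exact h
  have c1 : cnt 2 (([(.cup, 0), (.cup, 1)] : List (Kind × ℕ)) ++ sh 4 (pD 2 t)) = some 6 := by
    rw [cnt_app (show cnt 2 ([((.cup : Kind), 0), (.cup, 1)] : List (Kind × ℕ)) = some 6 from rfl)]
    have h := cnt_sh 4 (pD 2 t) 2
    rw [hp] at h
    exact h
  have h4 := h3.right ([(.cap, 3), (.cap, 2)] : List (Kind × ℕ)) (by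
    rw [cnt_app c1]
    decide)
  have h5 : EqD 2 (([(.cup, 0), (.cup, 1)] : List (Kind × ℕ)) ++ ([(.cap, 3), (.cap, 2)] : List (Kind × ℕ))) [] :=
    EqD.of_chk [(1, false, .far .cup .cap 1 0), (0, false, .zz 0), (0, false, .zz 1)] rfl
  have h6 := h5.left (pD 2 t) hp
  rw [rot_rot]
  rw [List.append_nil] at h6
  rw [List.append_assoc] at h4
  rw [List.append_assoc] at h4
  exact (h2.trans h4).trans h6

/-- the counterclockwise rotation -/
def ccw (t : Diag) : Diag := (.cup, 2) :: (sh 1 t ++ ([(.cap, 0)] : List (Kind × ℕ)))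

theorem cnt_ccw {t : Diag} (ht : cnt 2 t = some 2) : cnt 2 (ccw t) = some 2 := by
  have c1 : cnt 4 (sh 1 t) = some 4 := by
    have h := cnt_sh 1 t 3
    rw [cnt_widen 1 t 2 2 ht] at h
    exact h
  have e : ccw t = ([(.cup, 2)] : List (Kind × ℕ)) ++ (sh 1 t ++ ([(.cap, 0)] : List (Kind × ℕ))) := rfl
  rw [e, cnt_app (show cnt 2 ([((.cup : Kind), 2)] : List (Kind × ℕ)) = some 4 from rfl), cnt_app c1]
  rfl

theorem rot_ccw {t : Diag} (ht : cnt 2 t = some 2) : EqD 2 (rotD (ccw t)) t := by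
  have e0 : rotD (ccw t) = ([(.cup, 0), (.cup, 3)] : List (Kind × ℕ)) ++ (sh 2 t ++ ([(.cap, 1), (.cap, 2)] : List (Kind × ℕ))) := by
    unfold rotD ccw
    rw [sh_cons, sh_append, sh_sh]
    simp
  have c4 : cnt 4 (sh 2 t) = some 4 := by
    have h := cnt_sh 2 t 2
    rw [ht] at h
    exact h
  have c6 : cnt 6 (sh 2 t) = some 6 := cnt_widen 2 _ _ _ c4
  have h1 : EqD 6 ([(.cap, 1), (.cap, 2)] : List (Kind × ℕ)) ([(.cap, 4), (.cap, 1)] : List (Kind × ℕ)) :=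
    EqD.of_chk [(0, false, .far .cap .cap 1 1)] rfl
  have h2 := h1.left (sh 2 t) c6
  have h3 : EqD 6 (sh 2 t ++ ([(.cap, 4)] : List (Kind × ℕ))) (([(.cap, 4)] : List (Kind × ℕ)) ++ sh 2 t) :=
    far_words (sh 2 t) ([(.cap, 0)] : List (Kind × ℕ)) 4 4 2 c4 (by decide)
  have h4 := h3.right ([(.cap, 1)] : List (Kind × ℕ)) (by
    rw [List.append_assoc, cnt_app c6]
    decide)
  have h5 : EqD 6 (sh 2 t ++ ([(.cap, 1), (.cap, 2)] : List (Kind × ℕ))) (([(.cap, 4)] : List (Kind × ℕ)) ++ (sh 2 t ++ ([(.cap, 1)] : List (Kind × ℕ)))) := by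
    rw [List.append_assoc, List.append_assoc] at h4
    exact h2.trans h4
  have h6 := h5.left ([(.cup, 0), (.cup, 3)] : List (Kind × ℕ)) (show cnt 2 ([((.cup : Kind), 0), (.cup, 3)] : List (Kind × ℕ)) = some 6 from rfl)
  have h7 : EqD 2 (([(.cup, 0), (.cup, 3)] : List (Kind × ℕ)) ++ ([(.cap, 4)] : List (Kind × ℕ))) ([(.cup, 0)] : List (Kind × ℕ)) :=
    EqD.of_chk [(1, false, .zz 3)] rfl
  have h8 := h7.right (sh 2 t ++ ([(.cap, 1)] : List (Kind × ℕ))) (by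
    rw [cnt_app (show cnt 2 (([((.cup : Kind), 0), (.cup, 3)] : List (Kind × ℕ)) ++ ([(.cap, 4)] : List (Kind × ℕ))) = some 4 from rfl),
      cnt_app c4]
    decide)
  have h9 : EqD 2 (([(.cup, 0)] : List (Kind × ℕ)) ++ sh 2 t) (t ++ ([(.cup, 0)] : List (Kind × ℕ))) := by
    have h := far_words ([(.cup, 0)] : List (Kind × ℕ)) t 0 2 2 rfl (by rw [ht]; simp)
    rw [sh_zero] at h
    exact h
  have h10 := h9.right ([(.cap, 1)] : List (Kind × ℕ)) (by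
    rw [List.append_assoc, cnt_app (show cnt 2 ([((.cup : Kind), 0)] : List (Kind × ℕ)) = some 4 from rfl), cnt_app c4]
    decide)
  have h11 : EqD 2 (([(.cup, 0)] : List (Kind × ℕ)) ++ ([(.cap, 1)] : List (Kind × ℕ))) [] := EqD.of_chk [(0, false, .zz 0)] rfl
  have h12 := h11.left t ht
  rw [e0]
  simp only [List.append_assoc, List.append_nil] at h6 h8 h10 h12
  exact ((h6.trans h8).trans h10).trans h12

theorem pD_rotD (h1 : FSY_Stmt) {t : Diag} (ht : cnt 2 t = some 2)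
    (hr : cnt 2 (rotD t) = some 2) : pD 2 (rotD t) = rotD (pD 2 t) := by
  obtain ⟨-, -, -, -, -, -, -, e1, -⟩ := h1.2.1 (rotD t) 2 2 hr
  obtain ⟨-, -, -, -, -, -, -, e2, -⟩ := h1.2.1 t 2 2 ht
  obtain ⟨e3, -, -⟩ := h1.2.2.1 t ht
  rw [← e1, e3, flipD_cons, flipD_append, flipD_sh, e2]
  rfl

end Fro

open Fro in
theorem t_FRO (h1 : FSY_Stmt) (h2 : FEQ_Stmt) (h3 : FCG_Stmt) : FRO_Stmt := by
  intro t ht
  refine ⟨claim1 ht, ?_⟩
  have hr : cnt 2 (rotD t) = some 2 := (h3.2.2.2.1 t ht).1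
  have hc := cnt_ccw ht
  have a1 : EqD 2 (rotD (rotD (ccw t))) (rotD t) :=
    (h3.1 _ _ (rot_ccw ht) ((h3.2.2.2.1 _ hc).1)).1
  have a2 : EqD 2 (pD 2 (ccw t)) (rotD t) := (claim1 hc).symm.trans a1
  have a3 : EqD 2 (pD 2 (pD 2 (ccw t))) (pD 2 (rotD t)) := (h2 2 2 _ _ a2 (cnt_pD _ hc)).2.1
  have e1 : pD 2 (pD 2 (ccw t)) = ccw t := (h1.2.1 (ccw t) 2 2 hc).2.1
  rw [e1, pD_rotD h1 ht hr] at a3
  exact a3

end Pool.Agent.UA
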