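import Pool.Agent.UA.StF
import Pool.Agent.UB.Stmts
import Pool.Agent.TwoBr.Concl

/-!
Theorem U (MP_31fd3b_gt): assembly.
-/

namespace Pool.Agent.UA

open Pool.Agent.LibH11.Sliced Pool.Agent.TwoBr Pool.Agent.Mont

/-- JFIN: the part of Theorem U which comes from the Jones polynomial. -/
def JFIN_Stmt : Prop :=
  ∀ (Ts : List Tr) (h : IsLongKnot (cls Ts)) (h0 : IsLongKnot []),
    (∀ v : Knot → ℂ, IsFiniteType v → v (ofDiag (cls Ts) h) = v (ofDiag [] h0)) →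
    (∀ T ∈ Ts, |(vec T).1| = 1) ∧
      ∀ T ∈ Ts, T.CR → OK (0, 1) T → ∃ e : ℤ, T = .pw e ∧ |e| = 1

/-- **Finite type invariants detect the unknot among the arborescent knots.** -/
theorem detect (hJ : JFIN_Stmt) (hH : Pool.Agent.UB.HS_Stmt) (hF : FTOP_Stmt) (hT : FTA_Stmt)
    (hI : FIT_Stmt) (hC : FCG_Stmt) (t : Diag) (ht : Arb t) (h : IsLongKnot (cl t))
    (h0 : IsLongKnot []) (hv : ∀ v : Knot → ℚ, IsFiniteType v →
      v (ofDiag (cl t) h) = v (ofDiag [] h0)) : ofDiag (cl t) h = ofDiag [] h0 := by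
  obtain ⟨T, hT1⟩ := hT.2.2.2.2.2 t ht
  have h1 : EqD 1 (cl t) (cl T.dg) := (hC.1 t T.dg hT1 (hC.2.2.2.2.2.2 t ht)).2
  have hl1 := h1.isLongKnot h
  obtain ⟨Ts, h2, h3⟩ := hF T hl1
  have h4 : EqD 1 (cl t) (cls Ts) := h1.trans h3
  have hl := h4.isLongKnot h
  have hK : ofDiag (cl t) h = ofDiag (cls Ts) hl := h4.knot h
  have hc : ∀ v : Knot → ℂ, IsFiniteType v → v (ofDiag (cls Ts) hl) = v (ofDiag [] h0) := by
    intro v hv'
    rw [← hK]
    exact complex_of_rat hv v hv'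
  obtain ⟨h5, h6⟩ := hJ Ts hl h0 hc
  have h7 := hH Ts hl h0 h5 hc
  have h8 : ∀ Ts' : List Tr, (∀ T' ∈ Ts', T' ∈ Ts) → EqD 1 (cls Ts') [] := by
    intro Ts'
    induction Ts' with
    | nil => intro _; exact EqD.refl _
    | cons T' Ts' ih =>
      intro hm
      have hm1 : T' ∈ Ts := hm T' (List.mem_cons_self)
      obtain ⟨e, he, he1⟩ := h6 T' hm1 (h2 T' hm1).1 (h7 T' hm1)
      have h9 : EqD 1 (cl T'.dg) [] := by
        rw [he]
        exact (hI.2.2.1 e he1).2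
      have h10 := ih fun x hx => hm x (List.mem_cons_of_mem _ hx)
      have e1 : cls (T' :: Ts') = cl T'.dg ++ cls Ts' := rfl
      rw [e1]
      have h11 := hC.2.2.1 (cl T'.dg) [] (cls Ts') [] h9 h10
        (hC.2.2.2.1 _ (hC.2.2.2.2.1 T')).2 (hC.2.2.2.2.2.1 Ts')
      exact h11
  have h12 := h8 Ts fun _ hx => hx
  rw [hK]
  exact h12.knot hl

end Pool.Agent.UA
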