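import Pool.Agent.UA.StF
import Pool.Agent.TS.Cat

/-!
Module BOUT (Theorem U, block F): a bead slides to one of the ends of the long strand.
-/

namespace Pool.Agent.UA

open Pool.Agent.LibH11.Sliced Pool.Agent.TwoBr Pool.Agent.Mont

namespace Bout

theorem cnt_bead {g : Diag} (hg : cnt 1 g = some 1) {j n : ℕ} (h : j < n) :
    cnt n (sh j g) = some n := by
  obtain ⟨l, rfl⟩ : ∃ l, n = 1 + l + j := ⟨n - 1 - j, by omega⟩
  rw [cnt_sh, cnt_widen l g 1 1 hg]
  rfl

/-- a bead on the strand `j0` below the slice is moved to the strand above the slice -/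
theorem pass (hb : BPS_Stmt) {u g : Diag} {k : Kind} {i n j : ℕ} (hu : cnt 1 u = some n)
    (hg : cnt 1 g = some 1) (hi : i + k.ins ≤ n) (hj : j < n)
    (hc : k = .cap → j ≠ i ∧ j ≠ i + 1) :
    EqD 1 ((u ++ sh j g) ++ [(k, i)]) ((u ++ [(k, i)]) ++ sh (bpos k i j) g) := by
  have h1 := ((hb g hg).1 k i j n hi hj hc).left u hu
  simpa only [List.append_assoc, List.cons_append, List.nil_append] using h1

theorem cnt_ub {u g : Diag} {n j : ℕ} (hu : cnt 1 u = some n) (hg : cnt 1 g = some 1)
    (hj : j < n) : cnt 1 (u ++ sh j g) = some n := by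
  rw [cnt_app hu, cnt_bead hg hj]

theorem cnt_ubp {u g : Diag} {k : Kind} {i n j : ℕ} (hu : cnt 1 u = some n)
    (hg : cnt 1 g = some 1) (hi : i + k.ins ≤ n) (hj : j < n) :
    cnt 1 ((u ++ sh j g) ++ [(k, i)]) ≠ none := by
  rw [cnt_app (cnt_ub hu hg hj), cnt_one hi]
  exact Option.some_ne_none _

theorem pstep (hb : BPS_Stmt) {u g g' : Diag} {k : Kind} {i n j j' : ℕ} (hu : cnt 1 u = some n)
    (hg : cnt 1 g = some 1) (hg' : cnt 1 g' = some 1) (hi : i + k.ins ≤ n) (hj : j < n)
    (hj' : j' < n)
    (hc : k = .cap → j ≠ i ∧ j ≠ i + 1) (hc' : k = .cap → j' ≠ i ∧ j' ≠ i + 1)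
    (h : EqD 1 (u ++ sh j g) (u ++ sh j' g')) :
    EqD 1 ((u ++ [(k, i)]) ++ sh (bpos k i j) g) ((u ++ [(k, i)]) ++ sh (bpos k i j') g') :=
  ((pass hb hu hg hi hj hc).symm.trans (h.right _ (cnt_ubp hu hg hi hj))).trans
    (pass hb hu hg' hi hj' hc')

theorem qstep (hb : BPS_Stmt) {u g : Diag} {k : Kind} {i n j : ℕ} (hu : cnt 1 u = some n)
    (hg : cnt 1 g = some 1) (hi : i + k.ins ≤ n) (hj : j < n)
    (hc : k = .cap → j ≠ i ∧ j ≠ i + 1)
    (h : EqD 1 (u ++ sh j g) (g ++ u)) :
    EqD 1 ((u ++ [(k, i)]) ++ sh (bpos k i j) g) (g ++ (u ++ [(k, i)])) := by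
  refine ((pass hb hu hg hi hj hc).symm.trans (h.right _ (cnt_ubp hu hg hi hj))).trans ?_
  exact EqD.of_eq (by simp)

/-- the partner property and the through property of the lower part of a diagram -/
def Cl (u : Diag) (n : ℕ) (lab : ℕ → ℕ) : Prop :=
  ∀ g : Diag, cnt 1 g = some 1 →
    (∀ j j', j < n → j' < n → j ≠ j' → lab j = lab j' →
      EqD 1 (u ++ sh j g) (u ++ sh j' (pD 1 g))) ∧
    ∀ j, j < n → (∀ j', j' < n → lab j' = lab j → j' = j) → EqD 1 (u ++ sh j g) (g ++ u)

theorem cl_crs (hb : BPS_Stmt) {u : Diag} {n : ℕ} {lab : ℕ → ℕ} (hu : cnt 1 u = some n)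
    (h : Cl u n lab) (e : Bool) (i : ℕ) (hi : i + 2 ≤ n) :
    Cl (u ++ [(.crs e, i)]) n (fun j => lab (Equiv.swap i (i + 1) j)) := by
  intro g hg
  have hg' : cnt 1 (pD 1 g) = some 1 := cnt_pD g hg
  have hs : ∀ j, j < n → Equiv.swap i (i + 1) j < n := by
    intro j hj
    simp only [Equiv.swap_apply_def]
    split_ifs <;> omega
  have hbp : ∀ j, bpos (.crs e) i (Equiv.swap i (i + 1) j) = j := by
    intro j
    simp only [bpos, Equiv.swap_apply_def]
    grind
  obtain ⟨hP, hQ⟩ := h g hg
  constructor
  · intro j j' hj hj' hne hl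
    have h1 := hP _ _ (hs j hj) (hs j' hj') (fun h => hne ((Equiv.swap i (i + 1)).injective h)) hl
    have h2 := pstep hb (k := .crs e) (i := i) hu hg hg' hi (hs j hj) (hs j' hj')
      (fun h => by cases h) (fun h => by cases h) h1
    rwa [hbp, hbp] at h2
  · intro j hj hun
    have h1 := hQ _ (hs j hj) (fun j' hj' hl => by
      have h3 := hun (Equiv.swap i (i + 1) j') (hs j' hj') (by
        simpa only [Equiv.swap_apply_self] using hl)
      rw [← h3, Equiv.swap_apply_self])
    have h2 := qstep hb (k := .crs e) (i := i) hu hg hi (hs j hj) (fun h => by cases h) h1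
    rwa [hbp] at h2

theorem cl_cup (hb : BPS_Stmt) {u : Diag} {n : ℕ} {lab : ℕ → ℕ} {c : ℕ} (hu : cnt 1 u = some n)
    (hv : ∀ j, j < n → lab j < c) (h : Cl u n lab) (i : ℕ) (hi : i ≤ n) :
    Cl (u ++ [(.cup, i)]) (n + 2)
      (fun j => if j < i then lab j else if j < i + 2 then c else lab (j - 2)) := by
  intro g hg
  have hg' : cnt 1 (pD 1 g) = some 1 := cnt_pD g hg
  obtain ⟨hP, hQ⟩ := h g hg
  have hbp : ∀ j, (j < i ∨ i + 2 ≤ j) → bpos .cup i (if j < i then j else j - 2) = j := by
    intro j hj
    simp only [bpos]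
    grind
  have hlt : ∀ j, j < n + 2 → (j < i ∨ i + 2 ≤ j) → (if j < i then j else j - 2) < n := by
    intro j h1 h2
    split_ifs <;> omega
  have hlab : ∀ j, (j < i ∨ i + 2 ≤ j) →
      (if j < i then lab j else if j < i + 2 then c else lab (j - 2)) =
        lab (if j < i then j else j - 2) := by
    intro j hj
    grind
  have hc : ∀ j, ¬ (j < i ∨ i + 2 ≤ j) →
      (if j < i then lab j else if j < i + 2 then c else lab (j - 2)) = c := by
    intro j hj
    grind
  constructor
  · intro j j' hj hj' hne hl
    simp only at hl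
    by_cases ho : j < i ∨ i + 2 ≤ j
    · have hv1 := hv _ (hlt j hj ho)
      by_cases ho' : j' < i ∨ i + 2 ≤ j'
      · rw [hlab j ho, hlab j' ho'] at hl
        have h1 := hP _ _ (hlt j hj ho) (hlt j' hj' ho') (by
          intro h
          apply hne
          rw [← hbp j ho, ← hbp j' ho', h]) hl
        have h2 := pstep hb (k := .cup) (i := i) hu hg hg' hi (hlt j hj ho) (hlt j' hj' ho')
          (fun h => by cases h) (fun h => by cases h) h1
        rwa [hbp j ho, hbp j' ho'] at h2
      · exfalso
        rw [hlab j ho, hc j' ho'] at hl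
        omega
    · by_cases ho' : j' < i ∨ i + 2 ≤ j'
      · exfalso
        have hv1 := hv _ (hlt j' hj' ho')
        rw [hlab j' ho', hc j ho] at hl
        omega
      · have h3 := (hb g hg).2.2 i n hi
        rcases (show j = i ∧ j' = i + 1 ∨ j = i + 1 ∧ j' = i by omega) with ⟨rfl, rfl⟩ | ⟨rfl, rfl⟩
        · have h4 := h3.1.left u hu
          simpa only [List.append_assoc, List.cons_append, List.nil_append] using h4
        · have h4 := h3.2.left u hu
          simpa only [List.append_assoc, List.cons_append, List.nil_append] using h4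
  · intro j hj hun
    simp only at hun
    by_cases ho : j < i ∨ i + 2 ≤ j
    · have h1 := hQ _ (hlt j hj ho) (fun j' hj' hl => by
        have ho' : bpos .cup i j' < i ∨ i + 2 ≤ bpos .cup i j' := by
          simp only [bpos]
          grind
        have e2 : (if bpos .cup i j' < i then bpos .cup i j' else bpos .cup i j' - 2) = j' := by
          simp only [bpos]
          grind
        have h3 := hun (bpos .cup i j') (by simp only [bpos]; split_ifs <;> omega) (by
          rw [hlab _ ho', hlab _ ho, e2, hl])
        rw [← e2, h3])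
      have h2 := qstep hb (k := .cup) (i := i) hu hg hi (hlt j hj ho) (fun h => by cases h) h1
      rwa [hbp j ho] at h2
    · exfalso
      rcases (show j = i ∨ j = i + 1 by omega) with rfl | rfl
      · have := hun (j + 1) (by omega) (by rw [hc _ ho, hc _ (by omega)])
        omega
      · have := hun i (by omega) (by rw [hc _ ho, hc _ (by omega)])
        omega

theorem cl_cap (hb : BPS_Stmt) (hpp : ∀ g : Diag, cnt 1 g = some 1 → pD 1 (pD 1 g) = g)
    {u : Diag} {n : ℕ} {lab : ℕ → ℕ} (hu : cnt 1 u = some n)
    (h : Cl u n lab) (i : ℕ) (hi : i + 2 ≤ n) (hne0 : lab i ≠ lab (i + 1)) :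
    Cl (u ++ [(.cap, i)]) (n - 2)
      (fun j => if lab (if j < i then j else j + 2) = lab (i + 1) then lab i
          else lab (if j < i then j else j + 2)) := by
  intro g hg
  have hg' : cnt 1 (pD 1 g) = some 1 := cnt_pD g hg
  obtain ⟨hP, hQ⟩ := h g hg
  set o : ℕ → ℕ := fun j => if j < i then j else j + 2 with hodef
  have ho : ∀ j, (if j < i then j else j + 2) = o j := fun _ => rfl
  have hbp : ∀ j, bpos .cap i (o j) = j := by
    intro j
    simp only [bpos, hodef]
    grind
  have hlt : ∀ j, j < n - 2 → o j < n := by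
    intro j h1
    simp only [hodef]
    split_ifs <;> omega
  have hoi : ∀ j, o j ≠ i ∧ o j ≠ i + 1 := by
    intro j
    simp only [hodef]
    constructor <;> grind
  have hoj : ∀ j j', j ≠ j' → o j ≠ o j' := by
    intro j j' h1 h2
    exact h1 (by rw [← hbp j, ← hbp j', h2])
  have c1 : ∀ (x : Diag) (l : ℕ), cnt 1 x = some 1 → l < n →
      cnt 1 ((u ++ sh l x) ++ [(.cap, i)]) ≠ none := fun x l hx hl =>
    cnt_ubp (k := .cap) hu hx hi hl
  -- a bead on the strand `a` with the label of one foot is moved to the other foot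
  have hfoot : ∀ a, a < n → a ≠ i → a ≠ i + 1 →
      (lab a = lab i → EqD 1 ((u ++ sh a g) ++ [(.cap, i)]) ((u ++ sh (i + 1) g) ++ [(.cap, i)])) ∧
      (lab a = lab (i + 1) →
        EqD 1 ((u ++ sh a g) ++ [(.cap, i)]) ((u ++ sh i g) ++ [(.cap, i)])) := by
    intro a ha h1 h2
    have h3 := (hb _ hg').2.1 i n hi
    rw [hpp g hg] at h3
    constructor
    · intro hl
      refine ((hP a i ha (by omega) h1 hl).right _ (c1 g a hg ha)).trans ?_
      have h4 := h3.1.left u hu
      simpa only [List.append_assoc, List.cons_append, List.nil_append] using h4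
    · intro hl
      refine ((hP a (i + 1) ha (by omega) h2 hl).right _ (c1 g a hg ha)).trans ?_
      have h4 := h3.2.left u hu
      simpa only [List.append_assoc, List.cons_append, List.nil_append] using h4
  constructor
  · intro j j' hj hj' hne hl
    simp only [ho] at hl
    have hjn := hlt j hj
    have hjn' := hlt j' hj'
    have t1 := pass hb (k := .cap) (i := i) hu hg hi hjn (fun _ => hoi j)
    have t2 := pass hb (k := .cap) (i := i) hu hg' hi hjn' (fun _ => hoi j')
    rw [hbp] at t1 t2
    by_cases hll : lab (o j) = lab (o j')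
    · have h1 := hP _ _ hjn hjn' (hoj j j' hne) hll
      exact (t1.symm.trans (h1.right _ (c1 g _ hg hjn))).trans t2
    · by_cases e1 : lab (o j) = lab (i + 1)
      · have e2 : lab (o j') = lab i := by
          rw [if_pos e1, if_neg (fun h => hll (e1.trans h.symm))] at hl
          exact hl.symm
        have h1 := (hfoot (o j) hjn (hoi j).1 (hoi j).2).2 e1
        have h2 := hP i (o j') (by omega) hjn' (hoi j').1.symm e2.symm
        exact ((t1.symm.trans h1).trans (h2.right _ (c1 g _ hg (by omega)))).trans t2
      · have e2 : lab (o j') = lab (i + 1) := by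
          by_contra h3
          rw [if_neg e1, if_neg h3] at hl
          exact hll hl
        have e3 : lab (o j) = lab i := by
          rw [if_neg e1, if_pos e2] at hl
          exact hl
        have h1 := (hfoot (o j) hjn (hoi j).1 (hoi j).2).1 e3
        have h2 := hP (i + 1) (o j') (by omega) hjn' (hoi j').2.symm e2.symm
        exact ((t1.symm.trans h1).trans (h2.right _ (c1 g _ hg (by omega)))).trans t2
  · intro j hj hun
    simp only [ho] at hun
    have hjn := hlt j hj
    have t1 := pass hb (k := .cap) (i := i) hu hg hi hjn (fun _ => hoi j)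
    rw [hbp] at t1
    -- outer strands
    have hsurj : ∀ a, a < n → a ≠ i → a ≠ i + 1 → ∃ b, b < n - 2 ∧ o b = a := by
      intro a ha h1 h2
      refine ⟨if a < i then a else a - 2, ?_, ?_⟩
      · split_ifs <;> omega
      · simp only [hodef]
        grind
    have hend : ∀ a, a < n → EqD 1 (u ++ sh a g) (g ++ u) →
        EqD 1 ((u ++ sh a g) ++ [(.cap, i)]) (g ++ (u ++ [(.cap, i)])) := by
      intro a ha h1
      refine (h1.right _ (c1 g a hg ha)).trans ?_
      exact EqD.of_eq (by simp)
    by_cases e1 : lab (o j) = lab (i + 1)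
    · -- the other foot is the strand `i`
      have h1 := (hfoot (o j) hjn (hoi j).1 (hoi j).2).2 e1
      refine t1.symm.trans (h1.trans (hend i (by omega) (hQ i (by omega) ?_)))
      intro a ha hl
      by_contra h2
      by_cases h3 : a = i + 1
      · rw [h3] at hl
        exact hne0 hl.symm
      · obtain ⟨b, hb1, hb2⟩ := hsurj a ha h2 h3
        have h4 := hun b hb1 (by
          rw [hb2, if_pos e1, hl, if_neg hne0])
        rw [h4] at hb2
        rw [hb2, hl] at e1
        exact hne0 e1
    · by_cases e2 : lab (o j) = lab i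
      · have h1 := (hfoot (o j) hjn (hoi j).1 (hoi j).2).1 e2
        refine t1.symm.trans (h1.trans (hend (i + 1) (by omega) (hQ (i + 1) (by omega) ?_)))
        intro a ha hl
        by_contra h2
        by_cases h3 : a = i
        · rw [h3] at hl
          exact hne0 hl
        · obtain ⟨b, hb1, hb2⟩ := hsurj a ha h3 h2
          have h4 := hun b hb1 (by
            rw [hb2, if_pos hl, if_neg e1, e2])
          rw [h4] at hb2
          rw [hb2] at e1
          exact e1 hl
      · refine t1.symm.trans (hend (o j) hjn (hQ (o j) hjn ?_))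
        intro a ha hl
        have h3 : a ≠ i := fun h => e2 (by rw [← hl, h])
        have h4 : a ≠ i + 1 := fun h => e1 (by rw [← hl, h])
        obtain ⟨b, hb1, hb2⟩ := hsurj a ha h3 h4
        have h5 := hun b hb1 (by rw [hb2, hl])
        rw [← hb2, h5]

theorem claim1 (hb : BPS_Stmt) (hpp : ∀ g : Diag, cnt 1 g = some 1 → pD 1 (pD 1 g) = g)
    (u : Diag) : ∀ (n : ℕ) (lab : ℕ → ℕ) (c : ℕ), run u start = some (n, lab, c) → Cl u n lab := by
  induction u using List.reverseRecOn with
  | nil =>
    intro n lab c h
    have h1 : (1, (fun _ => 0), 1) = ((n, lab, c) : State) := Option.some.inj h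
    have hn : (1 : ℕ) = n := congrArg Prod.fst h1
    subst hn
    intro g hg
    constructor
    · intro j j' hj hj' hne _
      omega
    · intro j hj _
      have hj0 : j = 0 := by omega
      subst hj0
      rw [sh_zero]
      exact EqD.of_eq (by simp)
  | append_singleton u p ih =>
    intro n lab c h
    rw [run_append] at h
    cases hr : run u start with
    | none => rw [hr] at h; cases h
    | some s =>
      obtain ⟨n0, lab0, c0⟩ := s
      have h0 := ih n0 lab0 c0 hr
      have hu : cnt 1 u = some n0 := run_cnt u start _ hr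
      have hs := run_osim u start_sim
      rw [hr] at hs
      have hsim : Sim ((n0, lab0, c0) : State) (n0, lab0, c0) := hs
      have hv : ∀ j, j < n0 → lab0 j < c0 := hsim.v1
      rw [hr, Option.bind_some] at h
      obtain ⟨k, i⟩ := p
      have h1 : step (k, i) (n0, lab0, c0) = some (n, lab, c) := by
        simp only [run] at h
        cases hst : step (k, i) (n0, lab0, c0) with
        | none => rw [hst] at h; cases h
        | some t => rw [hst] at h; exact h
      cases k with
      | cup =>
        simp only [step] at h1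
        split_ifs at h1 with h2
        have h3 := Option.some.inj h1
        have e1 := congrArg Prod.fst h3
        have e2 := congrArg (fun x : State => x.2.1) h3
        simp only at e1 e2
        rw [← e1, ← e2]
        exact cl_cup hb hu hv h0 i h2
      | cap =>
        simp only [step] at h1
        split_ifs at h1 with h2
        have h3 := Option.some.inj h1
        have e1 := congrArg Prod.fst h3
        have e2 := congrArg (fun x : State => x.2.1) h3
        simp only at e1 e2
        rw [← e1, ← e2]
        exact cl_cap hb hpp hu h0 i h2.1 h2.2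
      | crs e =>
        simp only [step] at h1
        split_ifs at h1 with h2
        have h3 := Option.some.inj h1
        have e1 := congrArg Prod.fst h3
        have e2 := congrArg (fun x : State => x.2.1) h3
        simp only at e1 e2
        rw [← e1, ← e2]
        exact cl_crs hb hu h0 e i h2

/-- the conclusion for the beads `f` and `pD 1 f` -/
def Con (w w' f : Diag) : Prop :=
  ∃ f' : Diag, (f' = f ∨ f' = pD 1 f) ∧ (EqD 1 w (f' ++ w') ∨ EqD 1 w (w' ++ f'))

theorem Con.of_pD {w w' f : Diag} (hf : pD 1 (pD 1 f) = f) (h : Con w w' (pD 1 f)) :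
    Con w w' f := by
  obtain ⟨f', h1, h2⟩ := h
  refine ⟨f', ?_, h2⟩
  rcases h1 with h1 | h1
  · exact Or.inr h1
  · rw [hf] at h1
    exact Or.inl h1

theorem Con.of_eqD {w w1 w' f : Diag} (h : EqD 1 w w1) (h1 : Con w1 w' f) : Con w w' f := by
  obtain ⟨f', h2, h3⟩ := h1
  refine ⟨f', h2, ?_⟩
  rcases h3 with h3 | h3
  · exact Or.inl (h.trans h3)
  · exact Or.inr (h.trans h3)

theorem claim2 (hb : BPS_Stmt) (hpp : ∀ g : Diag, cnt 1 g = some 1 → pD 1 (pD 1 g) = g)
    (v : Diag) : ∀ (u g : Diag) (n : ℕ) (lab : ℕ → ℕ) (c j : ℕ), cnt 1 g = some 1 →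
      run u start = some (n, lab, c) → j < n → (∃ l d, run v (n, lab, c) = some (1, l, d)) →
      Con (u ++ sh j g ++ v) (u ++ v) g := by
  induction v with
  | nil =>
    intro u g n lab c j hg hr hj hv
    obtain ⟨l, d, hv⟩ := hv
    have h1 := congrArg Prod.fst (Option.some.inj hv)
    simp only at h1
    have hj0 : j = 0 := by omega
    subst hj0
    refine ⟨g, Or.inl rfl, Or.inr ?_⟩
    rw [sh_zero]
    exact EqD.of_eq (by simp)
  | cons p v ih =>
    intro u g n lab c j hg hr hj hv
    obtain ⟨l, d, hv⟩ := hv
    have hg' : cnt 1 (pD 1 g) = some 1 := cnt_pD g hg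
    have hu : cnt 1 u = some n := run_cnt u start _ hr
    obtain ⟨k, i⟩ := p
    simp only [run] at hv
    cases hst : step (k, i) (n, lab, c) with
    | none => rw [hst] at hv; cases hv
    | some t =>
      rw [hst, Option.bind_some] at hv
      obtain ⟨n', lab', c'⟩ := t
      have hr' : run (u ++ [(k, i)]) start = some (n', lab', c') := by
        rw [run_append, hr, Option.bind_some]
        simp only [run]
        rw [hst]
        rfl
      have hu' : cnt 1 (u ++ [(k, i)]) = some n' := run_cnt _ start _ hr'
      have hi : i + k.ins ≤ n := by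
        rw [cnt_app hu] at hu'
        exact (cnt_cons_some hu').1
      have hn' : n' = n - k.ins + k.outs := by
        rw [cnt_app hu, cnt_one hi] at hu'
        exact (Option.some.inj hu').symm
      have hcv : cnt n' v ≠ none := by
        have := run_cnt v _ _ hv
        simp only at this
        rw [this]
        exact Option.some_ne_none _
      -- a bead which passes the slice
      have hpass : ∀ (x : Diag) (a : ℕ), cnt 1 x = some 1 → a < n →
          (k = .cap → a ≠ i ∧ a ≠ i + 1) →
          Con (u ++ sh a x ++ ((k, i) :: v)) (u ++ ((k, i) :: v)) x := by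
        intro x a hx ha hc
        have h1 := pass hb hu hx hi ha hc
        have h2 := h1.right v (by
          rw [cnt_app (M := n')]
          · exact hcv
          · rw [cnt_app (cnt_ub hu hx ha), cnt_one hi, hn'])
        have h3 : bpos k i a < n' := by
          rw [hn']
          cases k with
          | cup =>
            simp only [bpos, Kind.ins, Kind.outs]
            split_ifs <;> omega
          | cap =>
            have := hc rfl
            simp only [bpos, Kind.ins, Kind.outs] at hi ⊢
            split_ifs <;> omega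
          | crs e =>
            simp only [bpos, Kind.ins, Kind.outs] at hi ⊢
            split_ifs <;> omega
        have h4 := ih (u ++ [(k, i)]) x n' lab' c' _ hx hr' h3 ⟨l, d, hv⟩
        have e1 : u ++ sh a x ++ ((k, i) :: v) = u ++ sh a x ++ [(k, i)] ++ v := by simp
        have e2 : u ++ ((k, i) :: v) = u ++ [(k, i)] ++ v := by simp
        rw [e1, e2]
        exact Con.of_eqD h2 h4
      by_cases hc : k = .cap → j ≠ i ∧ j ≠ i + 1
      · exact hpass g j hg hj hc
      · have hkc : k = .cap := by
          by_contra h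
          exact hc (fun h' => absurd h' h)
        subst hkc
        have hji : j = i ∨ j = i + 1 := by
          by_contra h
          exact hc (fun _ => by omega)
        have hne0 : lab i ≠ lab (i + 1) := by
          simp only [step] at hst
          split_ifs at hst with h2
          exact h2.2
        have hcl := claim1 hb hpp u n lab c hr g hg
        have hcnt : cnt 1 (u ++ sh j g ++ ((.cap, i) :: v)) ≠ none := by
          rw [cnt_app (cnt_ub hu hg hj)]
          simp only [cnt]
          rw [if_pos hi, ← hn']
          exact hcv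
        by_cases hex : ∃ a, a < n ∧ a ≠ j ∧ lab a = lab j
        · obtain ⟨a, ha, haj, hla⟩ := hex
          have h1 := hcl.1 j a hj ha haj.symm hla.symm
          have h2 := h1.right ((.cap, i) :: v) hcnt
          refine Con.of_eqD h2 (Con.of_pD (hpp g hg) (hpass (pD 1 g) a hg' ha ?_))
          intro _
          rcases hji with rfl | rfl
          · exact ⟨haj, fun h => hne0 (by rw [← hla, h])⟩
          · exact ⟨fun h => hne0 (by rw [← hla, h]), haj⟩
        · have h1 := hcl.2 j hj (fun a ha hla => by
            by_contra h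
            exact hex ⟨a, ha, h, hla⟩)
          have h2 := h1.right ((.cap, i) :: v) hcnt
          refine ⟨g, Or.inl rfl, Or.inl ?_⟩
          rwa [List.append_assoc g u] at h2

end Bout

theorem t_BOUT (h1 : FSY_Stmt) (h2 : BPS_Stmt) : BOUT_Stmt := by
  intro u v f j n hf hu hj hk
  have hpp : ∀ g : Diag, cnt 1 g = some 1 → pD 1 (pD 1 g) = g := fun g hg =>
    (h1.2.1 g 1 1 hg).2.1
  rw [isLongKnot_iff] at hk
  obtain ⟨lab, c, hk⟩ := hk
  rw [run_append] at hk
  cases hr : run u start with
  | none => rw [hr] at hk; cases hk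
  | some s =>
    obtain ⟨n0, lab0, c0⟩ := s
    rw [hr, Option.bind_some] at hk
    have hu0 : cnt 1 u = some n0 := run_cnt u start _ hr
    have hn : n = n0 := Option.some.inj (hu.symm.trans hu0)
    subst hn
    exact Bout.claim2 h2 hpp v u f n lab0 c0 j hf hr hj ⟨lab, c, hk⟩

end Pool.Agent.UA
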