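import Pool.Agent.Mont.Rot
import Pool.Agent.Mont.Cyc
import Pool.Agent.MTR.Defs

/-!
Finite type invariants detect the unknot among the arborescent knots (MP_31fd3b_gt, Theorem U):
definitions. See PAPER.md in this folder.
-/

open Polynomial
open scoped BigOperators

namespace Pool.Agent.UA

open Pool.Agent.LibH11.Sliced Pool.Agent.TwoBr Pool.Agent.Mont Pool.Agent.MTR

/-! ### 1. Diagrams of tangles (two strands to two strands) -/

/-- Rotation of a tangle by a quarter turn (clockwise): the new bottom ends are the old bottom
right end and the old top right end. -/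
def rotD (t : Diag) : Diag := (.cup, 0) :: (sh 1 t ++ [(.cap, 2)])

/-- The long closure of a tangle. -/
def cl (t : Diag) : Diag := (.cup, 1) :: (t ++ [(.cap, 1)])

/-- Conway's algebraic (arborescent) tangles. -/
inductive Arb : Diag → Prop
  | one : Arb []
  | crs (e : Bool) : Arb [(.crs e, 0)]
  | comp {s t : Diag} : Arb s → Arb t → Arb (s ++ t)
  | rot {t : Diag} : Arb t → Arb (rotD t)

/-! ### 2. Trees -/

/-- Trees. `pw e` stands for `e` half twists; `cons a b` for the tangle `a`, rotated, followed by
the tangle `b`. So the children of a vertex are the left sons along the right spine. -/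
inductive Tr : Type
  | pw (e : ℤ) : Tr
  | cons (a b : Tr) : Tr

namespace Tr

/-- the diagram of a tree -/
def dg : Tr → Diag
  | pw e => ht e
  | cons a b => rotD (dg a) ++ dg b

/-- number of children of the top vertex -/
def kids : Tr → ℕ
  | pw _ => 0
  | cons _ b => kids b + 1

/-- exponent of the top vertex -/
def ex : Tr → ℤ
  | pw e => e
  | cons _ b => ex b

/-- the exponent of the top vertex is changed by `c` -/
def shift (c : ℤ) : Tr → Tr
  | pw e => pw (e + c)
  | cons a b => cons a (shift c b)

/-- size -/
def size : Tr → ℕ
  | pw e => e.natAbs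
  | cons a b => size a + 2 + size b

/-- rational: at most one child everywhere -/
def Rat : Tr → Prop
  | pw _ => True
  | cons a b => Rat a ∧ kids b = 0

/-- All children are reduced: a child has at least two children itself or `|exponent| ≥ 2`. -/
def RC : Tr → Prop
  | pw _ => True
  | cons a b => RC a ∧ (kids a ≤ 1 → 2 ≤ |ex a|) ∧ RC b

/-- closed reduced trees -/
def CR (T : Tr) : Prop := RC T ∧ (kids T = 1 ∨ kids T = 2 → 2 ≤ |ex T|)

end Tr

/-! ### 3. Vectors -/

/-- the vector of the rotated tangle -/
def rv (v : ℤ × ℤ) : ℤ × ℤ := (-v.2, v.1)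

/-- the vector `(A, p)` of a tree (the slope is `A / p`, the determinant of the closure is `A`) -/
def vec : Tr → ℤ × ℤ
  | .pw e => (-e, 1)
  | .cons a b => addv (rv (vec a)) (vec b)

/-- `OK L T`: at every vertex of the tree in the context with the vector `L` one of the three
weights is `±1`. -/
def OK : ℤ × ℤ → Tr → Prop
  | _, .pw _ => True
  | L, .cons a b => (|L.2| = 1 ∨ |(vec a).1| = 1 ∨ |(vec b).2| = 1) ∧
      OK (rv (addv L (vec b))) a ∧ OK (addv L (rv (vec a))) b

/-- the long diagram of a list of trees: the connected sum of the closures -/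
def cls (Ts : List Tr) : Diag := (Ts.map fun T => cl T.dg).flatten

end Pool.Agent.UA
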