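import Pool.Agent.UA.StF

/-!
Theorem U (MP_31fd3b_gt), block F: the closures (FC0).
-/

namespace Pool.Agent.UA

open Pool.Agent.LibH11.Sliced Pool.Agent.TwoBr Pool.Agent.Mont

namespace Fc0

theorem pD_sh (c d : ℕ) : ∀ (w : Diag) {a b : ℕ}, cnt a w = some b →
    pD (a + c + d) (sh c w) = sh d (pD a w) := by
  intro w
  induction w with
  | nil => intro a b _; rfl
  | cons p w ih =>
    obtain ⟨k, i⟩ := p
    intro a b h
    obtain ⟨h1, h2⟩ := cnt_cons_some h
    have e := ih h2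
    rw [sh_cons]
    simp only [pD]
    rw [sh_append, sh_cons, sh_nil,
      show a + c + d - k.ins + k.outs = a - k.ins + k.outs + c + d by omega, e]
    congr 3
    simp only []
    omega

/-- The second block is turned and passes to the top. -/
theorem lemA {s t : Diag} (hs : cnt 2 s = some 2) (ht : cnt 2 t = some 2) :
    EqD 1 (cl (s ++ rotD t))
      ([(.cup, 1)] ++ s ++ sh 1 (pD 2 t) ++ [(.cap, 0)]) := by
  have cp : cnt 2 (pD 2 t) = some 2 := cnt_pD t ht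
  have cu : cnt 1 ([((.cup : Kind), 1)] ++ s) = some 3 := by
    rw [cnt_app (show cnt 1 [((.cup : Kind), 1)] = some 3 from rfl), cnt_widen 1 _ _ _ hs]
  have cu5 : cnt 1 ([((.cup : Kind), 1)] ++ s ++ [((.cup : Kind), 0)]) = some 5 := by
    rw [cnt_app cu]
    rfl
  have c3 : cnt 3 (sh 1 (pD 2 t)) = some 3 := by
    rw [show (3 : ℕ) = 2 + 1 from rfl, cnt_sh, cp]
    rfl
  have c5 : cnt 5 (sh 3 (pD 2 t)) = some 5 := by
    rw [show (5 : ℕ) = 2 + 3 from rfl, cnt_sh, cp]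
    rfl
  have s1 := ((np_word t ht).sh 1).left _ cu5
  have s2 := (far_words [((.cup : Kind), 0)] (sh 1 (pD 2 t)) 0 2 3 rfl (by rw [c3]; simp)).ctx
    ([((.cup : Kind), 1)] ++ s) [((.cap : Kind), 2), (.cap, 1)] cu (by
      rw [List.append_assoc, cnt_app cu, List.append_assoc,
        cnt_app (show cnt (0 + 3) [((.cup : Kind), 0)] = some 5 from rfl), sh_sh,
        cnt_app (show cnt 5 (sh (1 + 2) (pD 2 t)) = some 5 from c5)]
      decide)
  have cv : cnt 1 ([((.cup : Kind), 1)] ++ s ++ sh 1 (pD 2 t)) = some 3 := by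
    rw [cnt_app cu, c3]
  have h3 : EqD 3 [((.cup : Kind), 0), (.cap, 2), (.cap, 1)] [(.cap, 0)] :=
    EqD.of_chk [(0, false, .far .cup .cap 0 0), (1, false, .zz 0)] rfl
  have s3 := h3.left _ cv
  have e1 : sh 1 (NC 2) = [((.cap : Kind), 2), (.cap, 1)] := rfl
  rw [sh_append, sh_append, sh_sh, e1] at s1
  rw [sh_sh, sh_zero] at s2
  have e2 : cl (s ++ rotD t) = [((.cup : Kind), 1)] ++ s ++ [((.cup : Kind), 0)] ++
      (sh 1 t ++ [((.cap : Kind), 2), (.cap, 1)]) := by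
    simp [cl, rotD]
  rw [e2]
  simp only [List.append_assoc, List.cons_append, List.nil_append] at s1 s2 s3 ⊢
  exact (s1.trans s2).trans s3

/-- The first block is turned and passes below the minima. -/
theorem lemB (h1 : FSY_Stmt) {s : Diag} (hs : cnt 2 s = some 2) :
    EqD 1 ([(.cup, 0), (.cup, 1)] ++ sh 2 (pD 2 s) ++ [(.cap, 3)])
      ([(.cup, 1)] ++ s) := by
  have cf : cnt 2 (flipD s) = some 2 := cnt_flip s hs
  have cp : cnt 2 (pD 2 s) = some 2 := cnt_pD s hs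
  have hn := np_word (flipD s) cf
  have cn : cnt 4 (flipD s ++ NC 2) = some 0 := by
    rw [cnt_app (cnt_widen 2 _ _ _ cf)]
    rfl
  have hf := EqD_flip hn cn
  rw [flipD_append, flipD_append] at hf
  have e1 : flipD (NC 2) = [((.cup : Kind), 0), (.cup, 1)] := rfl
  obtain ⟨-, hsy, -, -⟩ := h1
  obtain ⟨-, -, ff, -, -, -, -, -, -⟩ := hsy s 2 2 hs
  obtain ⟨-, -, -, -, q, -, -, -, fp⟩ := hsy (flipD s) 2 2 cf
  rw [ff] at q
  have e2 : flipD (sh 2 (pD 2 (flipD s))) = sh 2 (pD 2 s) := by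
    have : ∀ w : Diag, flipD (sh 2 w) = sh 2 (flipD w) := by
      intro w
      simp [flipD, sh, List.map_reverse]
    rw [this, fp]
    obtain ⟨-, -, -, -, q', -, -, -, -⟩ := hsy s 2 2 hs
    rw [q']
  rw [e1, e2, ff] at hf
  have c4 : cnt 5 s = some 5 := cnt_widen 3 _ _ _ hs
  have c4' : cnt 3 s = some 3 := cnt_widen 1 _ _ _ hs
  have s1 := (hf.widen 1).right [((.cap : Kind), 3)] (by
    rw [List.append_assoc, cnt_app (show cnt (0 + 1) [((.cup : Kind), 0), (.cup, 1)] = some 5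
      from rfl), cnt_app c4]
    decide)
  have hfar := far_words s [((.cap : Kind), 1)] 2 2 3 hs (by decide)
  have s2 := hfar.left [((.cup : Kind), 0), (.cup, 1)]
    (show cnt 1 [((.cup : Kind), 0), (.cup, 1)] = some 5 from rfl)
  have h3 : EqD 1 [((.cup : Kind), 0), (.cup, 1), (.cap, 3)] [(.cup, 1)] :=
    EqD.of_chk [(1, false, .far .cup .cap 1 0), (0, false, .zz 0)] rfl
  have s3 := h3.right s (by
    rw [cnt_app (show cnt 1 [((.cup : Kind), 0), (.cup, 1), (.cap, 3)] = some 3 from rfl), c4']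
    simp)
  have e3 : sh 2 [((.cap : Kind), 1)] = [(.cap, 3)] := rfl
  rw [e3] at s2
  simp only [List.append_assoc, List.cons_append, List.nil_append] at s1 s2 s3 ⊢
  exact (s1.symm.trans s2).trans s3

/-- The planar isotopy. -/
theorem planar (h1 : FSY_Stmt) {s t : Diag} (hs : cnt 2 s = some 2) (ht : cnt 2 t = some 2) :
    EqD 1 (cl (s ++ rotD t)) (pD 1 (cl (t ++ rotD s))) := by
  have cp : cnt 2 (pD 2 t) = some 2 := cnt_pD t ht
  have cps : cnt 2 (pD 2 s) = some 2 := cnt_pD s hs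
  have ct3 : cnt 3 t = some 3 := cnt_widen 1 _ _ _ ht
  have cs3 : cnt 3 (sh 1 s) = some 3 := by
    rw [show (3 : ℕ) = 2 + 1 from rfl, cnt_sh, hs]
    rfl
  have cs5 : cnt 5 (sh 1 s) = some 5 := cnt_widen 2 _ _ _ cs3
  have c3 : cnt 3 (sh 1 (pD 2 t)) = some 3 := by
    rw [show (3 : ℕ) = 2 + 1 from rfl, cnt_sh, cp]
    rfl
  have hA := lemA hs ht
  have hB := (lemB h1 hs).right (sh 1 (pD 2 t) ++ [((.cap : Kind), 0)]) (by
    have c5 : cnt 5 (sh 2 (pD 2 s)) = some 5 := by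
      have : cnt (2 + 2) (sh 2 (pD 2 s)) = some 4 := by
        rw [cnt_sh, cps]
        rfl
      exact cnt_widen 1 _ _ _ this
    rw [List.append_assoc, List.append_assoc,
      cnt_app (show cnt 1 [((.cup : Kind), 0), (.cup, 1)] = some 5 from rfl), cnt_app c5,
      cnt_app (show cnt 5 [((.cap : Kind), 3)] = some 3 from rfl), cnt_app c3]
    decide)
  obtain ⟨happ, -, -, -⟩ := h1
  have e1 : pD 1 (cl (t ++ rotD s)) = [((.cup : Kind), 0), (.cup, 1)] ++ sh 2 (pD 2 s) ++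
      [((.cap : Kind), 3)] ++ (sh 1 (pD 2 t) ++ [((.cap : Kind), 0)]) := by
    have e0 : cl (t ++ rotD s) = [((.cup : Kind), 1)] ++ (t ++ ([((.cup : Kind), 0)] ++
        (sh 1 s ++ [((.cap : Kind), 2), (.cap, 1)]))) := by
      simp [cl, rotD]
    have k1 : pD 5 (sh 1 s) = sh 2 (pD 2 s) := pD_sh 1 2 s hs
    have k2 : pD 3 t = sh 1 (pD 2 t) := by
      have := pD_sh 0 1 t ht
      rw [sh_zero] at this
      exact this
    rw [e0, (happ [((.cup : Kind), 1)] _ 1 3 rfl).2, (happ t _ 3 3 ct3).2,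
      (happ [((.cup : Kind), 0)] _ 3 5 rfl).2, (happ (sh 1 s) _ 5 5 cs5).2, k1, k2]
    have k3 : pD 5 [((.cap : Kind), 2), (.cap, 1)] = [(.cup, 0), (.cup, 1)] := rfl
    have k4 : pD 3 [((.cup : Kind), 0)] = [(.cap, 3)] := rfl
    have k5 : pD 1 [((.cup : Kind), 1)] = [(.cap, 0)] := rfl
    rw [k3, k4, k5]
    simp only [List.append_assoc]
  rw [e1]
  refine hA.trans ?_
  simp only [List.append_assoc] at hB ⊢
  exact hB.symm

end Fc0

open Fc0 in
theorem t_FC0 (h1 : FSY_Stmt) (h2 : FEQ_Stmt) (h3 : FCG_Stmt) (h4 : FRO_Stmt) (h5 : FFL_Stmt) :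
    FC0_Stmt := by
  intro s t hs ht
  have _ := h2
  have hp := planar h1 hs ht
  obtain ⟨hc1, hc2, -, hc4, -, -, -⟩ := h3
  obtain ⟨happ, hsy, hrot, -⟩ := h1
  have crs' : cnt 2 (rotD s) = some 2 := (hc4 s hs).1
  have ctr : cnt 2 (t ++ rotD s) = some 2 := by rw [cnt_app ht, crs']
  have ccl : cnt 1 (cl (t ++ rotD s)) = some 1 := (hc4 _ ctr).2
  have hq := (h5.2.2 _ ccl).2
  have hfc := (hrot _ ctr).2.2
  have hfr := (hrot s hs).2.1
  have cf : cnt 2 (flipD s) = some 2 := cnt_flip s hs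
  have cft : cnt 2 (flipD t) = some 2 := cnt_flip t ht
  have hro := (h4 (flipD s) cf).2
  have hpf : pD 2 (flipD s) = hD 2 s := by
    obtain ⟨-, -, -, -, -, -, q, -, -⟩ := hsy s 2 2 hs
    exact q
  rw [hfc, flipD_append, hfr] at hq
  rw [hpf] at hro
  have cfr : cnt 2 ((.cup, 2) :: (sh 1 (flipD s) ++ [((.cap : Kind), 0)])) = some 2 := by
    rw [← hfr]
    exact cnt_flip _ crs'
  have hco := hc2 _ _ _ _ hro (EqD.refl (flipD t)) cfr cft
  have cco : cnt 2 ((.cup, 2) :: (sh 1 (flipD s) ++ [((.cap : Kind), 0)]) ++ flipD t) = some 2 := by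
    rw [cnt_app cfr, cft]
  have hcl := (hc1 _ _ hco cco).2
  exact (hp.trans hq).trans hcl

end Pool.Agent.UA
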