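import Pool.Agent.UA.StF

/-!
Theorem U, block F, module FEQ: the symmetries preserve the equivalence of diagrams.
-/

set_option autoImplicit false

namespace Pool.Agent.UA

open Pool.Agent.LibH11.Sliced Pool.Agent.TwoBr Pool.Agent.Mont

namespace Feq

theorem two_hD (M : ℕ) (k l : Kind) (i j i' j' : ℕ) (h1 : M - k.ins - i = i')
    (h2 : M - k.ins + k.outs - l.ins - j = j') : hD M [(k, i), (l, j)] = [(k, i'), (l, j')] := by
  subst h1 h2
  rfl

theorem one_hD (M : ℕ) (k : Kind) (i i' : ℕ) (h1 : M - k.ins - i = i') :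
    hD M [(k, i)] = [(k, i')] := by
  subst h1
  rfl

/-- the image of a move -/
theorem move_hD {a b : Diag} {M M' : ℕ} (h : Move a b) (ha : cnt M a = some M')
    (hb : cnt M b = some M') : Move (hD M a) (hD M b) ∨ Move (hD M b) (hD M a) := by
  have ci : Kind.cup.ins = 0 := rfl
  have co : Kind.cup.outs = 2 := rfl
  have di : Kind.cap.ins = 2 := rfl
  have d_o : Kind.cap.outs = 0 := rfl
  have xi : ∀ e, (Kind.crs e).ins = 2 := fun _ => rfl
  have xo : ∀ e, (Kind.crs e).outs = 2 := fun _ => rfl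
  cases h with
  | far p q i k =>
    right
    obtain ⟨h1, h2⟩ := cnt_cons_some ha
    obtain ⟨h3, -⟩ := cnt_cons_some h2
    obtain ⟨r, hr⟩ : ∃ r, M = i + p.ins + k + q.ins + r := ⟨M - (i + p.ins + k + q.ins), by omega⟩
    rw [two_hD M p q i (i + p.outs + k) (r + q.ins + k) r (by omega) (by omega),
      two_hD M q p (i + p.ins + k) i r (r + q.outs + k) (by omega) (by omega)]
    exact Move.far q p r k
  | zigzag i =>
    left
    obtain ⟨h1, h2⟩ := cnt_cons_some ha
    obtain ⟨h3, -⟩ := cnt_cons_some h2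
    obtain ⟨r, hr⟩ : ∃ r, M = i + 1 + r := ⟨M - (i + 1), by omega⟩
    rw [two_hD M .cup .cap i (i + 1) (r + 1) r (by omega) (by omega)]
    exact Move.zagzig r
  | zagzig i =>
    left
    obtain ⟨h1, h2⟩ := cnt_cons_some ha
    obtain ⟨h3, -⟩ := cnt_cons_some h2
    obtain ⟨r, hr⟩ : ∃ r, M = i + 1 + r := ⟨M - (i + 1), by omega⟩
    rw [two_hD M .cup .cap (i + 1) i r (r + 1) (by omega) (by omega)]
    exact Move.zigzag r
  | slideCap i e =>
    right
    obtain ⟨h1, h2⟩ := cnt_cons_some ha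
    obtain ⟨h3, -⟩ := cnt_cons_some h2
    have := xi e
    have := xi (!e)
    have := xo e
    have := xo (!e)
    obtain ⟨r, hr⟩ : ∃ r, M = i + 3 + r := ⟨M - (i + 3), by omega⟩
    rw [two_hD M (.crs e) .cap (i + 1) i r (r + 1) (by omega) (by omega),
      two_hD M (.crs (!e)) .cap i (i + 1) (r + 1) r (by omega) (by omega)]
    have h := Move.slideCap r (!e)
    rw [Bool.not_not] at h
    exact h
  | slideCup i e =>
    right
    obtain ⟨h1, h2⟩ := cnt_cons_some ha
    obtain ⟨h3, -⟩ := cnt_cons_some h2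
    have := xi e
    have := xi (!e)
    have := xo e
    have := xo (!e)
    obtain ⟨r, hr⟩ : ∃ r, M = i + 1 + r := ⟨M - (i + 1), by omega⟩
    rw [two_hD M .cup (.crs e) i (i + 1) (r + 1) r (by omega) (by omega),
      two_hD M .cup (.crs (!e)) (i + 1) i r (r + 1) (by omega) (by omega)]
    have h := Move.slideCup r (!e)
    rw [Bool.not_not] at h
    exact h
  | r1Cap i e =>
    left
    obtain ⟨h1, h2⟩ := cnt_cons_some ha
    have := xi e
    have := xo e
    obtain ⟨r, hr⟩ : ∃ r, M = i + 2 + r := ⟨M - (i + 2), by omega⟩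
    rw [two_hD M (.crs e) .cap i i r r (by omega) (by omega), one_hD M .cap i r (by omega)]
    exact Move.r1Cap r e
  | r1Cup i e =>
    left
    obtain ⟨h1, h2⟩ := cnt_cons_some ha
    have := xi e
    have := xo e
    obtain ⟨r, hr⟩ : ∃ r, M = i + r := ⟨M - i, by omega⟩
    rw [two_hD M .cup (.crs e) i i r r (by omega) (by omega), one_hD M .cup i r (by omega)]
    exact Move.r1Cup r e
  | r2 i e =>
    left
    obtain ⟨h1, h2⟩ := cnt_cons_some ha
    have := xi e
    have := xo e
    have := xi (!e)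
    have := xo (!e)
    obtain ⟨r, hr⟩ : ∃ r, M = i + 2 + r := ⟨M - (i + 2), by omega⟩
    rw [two_hD M (.crs e) (.crs (!e)) i i r r (by omega) (by omega)]
    exact Move.r2 r e
  | r3 i =>
    right
    obtain ⟨h1, h2⟩ := cnt_cons_some ha
    obtain ⟨h3, -⟩ := cnt_cons_some h2
    have := xi true
    have := xo true
    obtain ⟨r, hr⟩ : ∃ r, M = i + 3 + r := ⟨M - (i + 3), by omega⟩
    have e1 : hD M [(.crs true, i), (.crs true, i + 1), (.crs true, i)] =
        [(.crs true, r + 1), (.crs true, r), (.crs true, r + 1)] := by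
      have h5 : hD (M - 2 + 2) [(.crs true, i + 1), (.crs true, i)] =
          [(.crs true, r), (.crs true, r + 1)] :=
        two_hD _ _ _ _ _ _ _ (by omega) (by omega)
      have h6 : M - 2 - i = r + 1 := by omega
      change (Kind.crs true, M - 2 - i) :: hD (M - 2 + 2) [(.crs true, i + 1), (.crs true, i)] = _
      rw [h5, h6]
    have e2 : hD M [(.crs true, i + 1), (.crs true, i), (.crs true, i + 1)] =
        [(.crs true, r), (.crs true, r + 1), (.crs true, r)] := by
      have h5 : hD (M - 2 + 2) [(.crs true, i), (.crs true, i + 1)] =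
          [(.crs true, r + 1), (.crs true, r)] :=
        two_hD _ _ _ _ _ _ _ (by omega) (by omega)
      have h6 : M - 2 - (i + 1) = r := by omega
      change (Kind.crs true, M - 2 - (i + 1)) ::
        hD (M - 2 + 2) [(.crs true, i), (.crs true, i + 1)] = _
      rw [h5, h6]
    rw [e1, e2]
    exact Move.r3 r

theorem eqd_hD (hs : ∀ (u v : Diag) (a b : ℕ), cnt a u = some b →
    hD a (u ++ v) = hD a u ++ hD b v) {N : ℕ} {x y : Diag} (h : EqD N x y) :
    EqD N (hD N x) (hD N y) := by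
  induction h with
  | rel x y h =>
    obtain ⟨u, a, b, v, hm, rfl, rfl, hx, hy⟩ := h
    have hx0 := hx
    have hy0 := hy
    rw [List.append_assoc] at hx hy
    obtain ⟨M, hu, hx'⟩ := cnt_prefix hx
    obtain ⟨M1, ha, -⟩ := cnt_prefix hx'
    rw [cnt_app hu] at hy
    obtain ⟨M2, hb, -⟩ := cnt_prefix hy
    have hM := cnt_move hm ha hb
    subst hM
    have e1 : ∀ c : Diag, cnt M c = some M1 →
        hD N (u ++ c ++ v) = hD N u ++ hD M c ++ hD M1 v := by
      intro c hc
      rw [List.append_assoc, hs u _ N M hu, hs c v M M1 hc, List.append_assoc]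
    have e2 : ∀ w : Diag, cnt N w ≠ none → cnt N (hD N w) ≠ none := by
      intro w hw
      obtain ⟨m, h5⟩ := Option.ne_none_iff_exists'.1 hw
      rw [cnt_hD w h5]
      simp
    rcases move_hD hm ha hb with h1 | h1
    · exact Relation.EqvGen.rel _ _ ⟨_, _, _, _, h1, e1 a ha, e1 b hb, e2 _ hx0, e2 _ hy0⟩
    · exact Relation.EqvGen.symm _ _
        (Relation.EqvGen.rel _ _ ⟨_, _, _, _, h1, e1 b hb, e1 a ha, e2 _ hy0, e2 _ hx0⟩)
  | refl x => exact EqD.refl _
  | symm x y _ ih => exact ih.symm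
  | trans x y z _ _ ih1 ih2 => exact ih1.trans ih2

end Feq

theorem t_FEQ (h1 : FSY_Stmt) : FEQ_Stmt := by
  obtain ⟨s1, s2, -, -⟩ := h1
  intro a b x y h hx
  have hy : cnt a y = some b := by rw [← h.cnt_eq]; exact hx
  have e1 := Feq.eqd_hD (fun u v a b hu => (s1 u v a b hu).1) h
  have e2 := EqD_flip e1 (cnt_hD x hx)
  have p : ∀ w : Diag, cnt a w = some b → flipD (hD a w) = pD a w := fun w hw =>
    (s2 w a b hw).2.2.2.2.2.2.2.1
  rw [p x hx, p y hy] at e2
  exact ⟨e1, e2, EqD_flip h hx⟩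

end Pool.Agent.UA
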