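import Pool.Agent.UA.StF

/-!
Theorem U (MP_31fd3b_gt), module FFL (helper68): flypes; rotation of a long diagram about its axis.
-/

namespace Pool.Agent.UA

open Pool.Agent.LibH11.Sliced Pool.Agent.TwoBr Pool.Agent.Mont

namespace Ffl

lemma cnt_rep (s : Bool) (n : ℕ) : cnt 2 (List.replicate n ((Kind.crs s, 0) : Kind × ℕ)) = some 2 := by
  induction n with
  | zero => rfl
  | succ n ih =>
    rw [List.replicate_succ, ← List.singleton_append]
    have h1 : cnt 2 [((Kind.crs s, 0) : Kind × ℕ)] = some 2 := rfl
    rw [cnt_app h1]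
    exact ih

lemma fly (t : Diag) (s : Bool) (h : cnt 2 t = some 2) :
    EqD 2 (t ++ [(.crs s, 0)]) ((.crs s, 0) :: hD 2 t) := nh_word s t h

lemma flyn (h1 : FSY_Stmt) (s : Bool) (n : ℕ) : ∀ t : Diag, cnt 2 t = some 2 →
    EqD 2 (t ++ List.replicate n (Kind.crs s, 0))
      (List.replicate n (Kind.crs s, 0) ++ (if Even n then t else hD 2 t)) := by
  induction n with
  | zero =>
    intro t _
    simp only [List.replicate_zero, List.append_nil, List.nil_append, Even.zero, if_true]
    exact EqD.refl _
  | succ n ih =>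
    intro t h
    have c1 : cnt 2 [((Kind.crs s, 0) : Kind × ℕ)] = some 2 := rfl
    have c2 : cnt 2 (t ++ [((Kind.crs s, 0) : Kind × ℕ)]) = some 2 := by
      rw [cnt_app h]
      exact c1
    have s1 := (fly t s h).right (List.replicate n (Kind.crs s, 0)) (by
      rw [cnt_app c2, cnt_rep]
      simp)
    have s2 := (ih (hD 2 t) (cnt_hD t h)).left [(Kind.crs s, 0)] c1
    have e1 : t ++ List.replicate (n + 1) (Kind.crs s, 0) =
        t ++ [(Kind.crs s, 0)] ++ List.replicate n (Kind.crs s, 0) := by
      rw [List.replicate_succ, List.append_assoc, List.singleton_append]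
    have e2 : List.replicate (n + 1) ((Kind.crs s, 0) : Kind × ℕ) ++
        (if Even (n + 1) then t else hD 2 t) = [(Kind.crs s, 0)] ++
        (List.replicate n (Kind.crs s, 0) ++ (if Even n then hD 2 t else hD 2 (hD 2 t))) := by
      rw [(h1.2.1 t 2 2 h).1, List.replicate_succ]
      by_cases hn : Even n
      · have hn1 : ¬ Even (n + 1) := by
          rw [Nat.even_add_one]
          exact not_not.2 hn
        rw [if_neg hn1, if_pos hn]
        rfl
      · have hn1 : Even (n + 1) := Nat.even_add_one.2 hn
        rw [if_pos hn1, if_neg hn]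
        rfl
    rw [e1, e2]
    exact s1.trans s2

end Ffl

theorem t_FFL (h1 : FSY_Stmt) : FFL_Stmt := by
  refine ⟨fun t e h => Ffl.fly t e h, ?_, ?_⟩
  · intro t e h
    have h2 := Ffl.flyn h1 (decide (0 < e)) e.natAbs t h
    unfold ht
    by_cases he : Even e
    · rw [if_pos he]
      rw [if_pos (Int.natAbs_even.2 he)] at h2
      exact h2
    · rw [if_neg he]
      rw [if_neg (fun h3 => he (Int.natAbs_even.1 h3))] at h2
      exact h2
  · intro w h
    have e1 : Dl true 1 = [] := rfl
    have k1 : ∀ u : Diag, cnt 1 u = some 1 → EqD 1 u (hD 1 u) := by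
      intro u hu
      have := nh_word true u hu
      rw [e1, List.append_nil, List.nil_append] at this
      exact this
    refine ⟨k1 w h, ?_⟩
    have k2 := k1 (pD 1 w) (cnt_pD w h)
    rw [(h1.2.1 w 1 1 h).2.2.2.2.2.1] at k2
    exact k2

end Pool.Agent.UA
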