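import Pool.Agent.UA.StF

/-!
Theorem U (MP_31fd3b_gt), block F, module FR3: the relation of order three.

The strand which leaves the block at the bottom left passes across the block (`natx`); the rest is a
certificate for an explicit diagram (one move of type one).
-/

namespace Pool.Agent.UA

open Pool.Agent.LibH11.Sliced Pool.Agent.TB Pool.Agent.TwoBr Pool.Agent.Mont Pool.Agent.TS

namespace Fr3

/-- the slide at the maximum -/
theorem cA (e : Bool) : EqD 4 [(.crs e, 1), (.cap, 2)] [(.crs (!e), 2), (.cap, 1)] := by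
  cases e
  · exact EqD.of_chk [(0, true, .sa 1 true)] rfl
  · exact EqD.of_chk [(0, true, .sa 1 false)] rfl

/-- the explicit part below the block -/
theorem cD (e : Bool) : EqD 2
    [(.cup, 0), (.cup, 1), (.crs (!e), 4), (.crs (!e), 3), (.crs (!e), 2), (.cap, 1)]
    [(.crs (!e), 0), (.cup, 0), (.crs (!e), 1)] := by
  cases e
  · exact EqD.of_chk [(4, false, .sa 1 true), (3, true, .far (.crs false) (.crs true) 1 0),
      (2, true, .far (.crs false) (.crs true) 1 1), (1, false, .u1 1 false),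
      (1, false, .far .cup (.crs true) 1 1), (2, false, .far .cup (.crs true) 1 0),
      (3, false, .zz 1), (0, false, .far .cup (.crs true) 0 0)] rfl
  · exact EqD.of_chk [(4, false, .sa 1 false), (3, true, .far (.crs true) (.crs false) 1 0),
      (2, true, .far (.crs true) (.crs false) 1 1), (1, false, .u1 1 true),
      (1, false, .far .cup (.crs false) 1 1), (2, false, .far .cup (.crs false) 1 0),
      (3, false, .zz 1), (0, false, .far .cup (.crs false) 0 0)] rfl

end Fr3

/-- **The relation of order three.** -/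
theorem t_FR3 (_h1 : FSY_Stmt) (_h2 : FEQ_Stmt) (_h3 : FCG_Stmt) (_h4 : FRO_Stmt)
    (_h5 : FFL_Stmt) : FR3_Stmt := by
  intro t e ht
  have c3 : cnt 3 t = some 3 := cnt_widen 1 _ _ _ ht
  have cf : cnt 3 (t ++ [(.cap, 1)]) = some 1 := by
    rw [cnt_app c3]
    rfl
  have c0 : cnt 2 [((.cup : Kind), 0), (.cup, 1)] = some 6 := rfl
  have c2t : cnt 6 (sh 2 t) = some 6 := by
    rw [show (6 : ℕ) = 4 + 2 from rfl, cnt_sh, cnt_widen 2 _ _ _ ht]
    rfl
  have c1t : cnt 4 (sh 1 t) = some 4 := by
    rw [show (4 : ℕ) = 3 + 1 from rfl, cnt_sh, c3]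
    rfl
  -- the slide
  have s1 := (Fr3.cA e).left ([((.cup : Kind), 0), (.cup, 1)] ++ sh 2 t ++ [(.cap, 3)])
    (N := 2) (by rw [List.append_assoc, cnt_app c0, cnt_app c2t]; rfl)
  -- the strand passes across the block
  have s2 := ((natx (!e) (t ++ [(.cap, 1)]) 3 1 cf).sh 2).ctx [(.cup, 0), (.cup, 1)] [(.cap, 1)]
    c0 (by
      rw [List.append_assoc, cnt_app c0, sh_append, sh_append, List.append_assoc,
        List.append_assoc, cnt_app c2t]
      simp [XX, cnt, Kind.ins, Kind.outs])
  -- the maximum on the left passes the block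
  have s3 := ((far_words [(.cap, 1)] (t ++ [(.cap, 1)]) 3 1 3 rfl
    (by rw [cf]; simp)).symm).left
      [(.cup, 0), (.cup, 1), (.crs (!e), 4), (.crs (!e), 3), (.crs (!e), 2)] (N := 2) rfl
  -- the explicit part
  have s4 := (Fr3.cD e).right (sh 1 t ++ [(.cap, 2)]) (by
    rw [cnt_app (M := 4) rfl, cnt_app c1t]
    simp [cnt, Kind.ins])
  have e1 : rotD (rotD t ++ [(.crs e, 0)]) =
      ([((.cup : Kind), 0), (.cup, 1)] ++ sh 2 t ++ [(.cap, 3)]) ++ [(.crs e, 1), (.cap, 2)] := by
    simp [rotD, sh_append, sh_sh]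
  have e2 : ((.crs (!e), 0) :: rotD ((.crs (!e), 0) :: t) : Diag) =
      [(.crs (!e), 0), (.cup, 0), (.crs (!e), 1)] ++ (sh 1 t ++ [(.cap, 2)]) := by
    simp [rotD]
  rw [e1, e2]
  simp only [XX, sh_append, sh_sh, sh_cons, sh_nil, List.append_assoc, List.cons_append,
    List.nil_append, Nat.reduceAdd] at s1 s2 s3 s4 ⊢
  exact ((s1.trans s2).trans s3).trans s4

end Pool.Agent.UA
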