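import Pool.Agent.UA.StF

/-!
FSY: the three symmetries of a diagram.
-/

namespace Pool.Agent.UA

open Pool.Agent.LibH11.Sliced Pool.Agent.TwoBr Pool.Agent.Mont

namespace Fsy

theorem hD_append : ∀ (u v : Diag) {a b : ℕ}, cnt a u = some b →
    hD a (u ++ v) = hD a u ++ hD b v := by
  intro u
  induction u with
  | nil =>
    intro v a b h
    simp only [cnt, Option.some.injEq] at h
    subst h
    rfl
  | cons p u ih =>
    obtain ⟨k, i⟩ := p
    intro v a b h
    obtain ⟨h1, h2⟩ := cnt_cons_some h
    rw [List.cons_append, hD, hD, ih v h2, List.cons_append]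

theorem pD_append : ∀ (u v : Diag) {a b : ℕ}, cnt a u = some b →
    pD a (u ++ v) = pD b v ++ pD a u := by
  intro u
  induction u with
  | nil =>
    intro v a b h
    simp only [cnt, Option.some.injEq] at h
    subst h
    rw [List.nil_append, pD, List.append_nil]
  | cons p u ih =>
    obtain ⟨k, i⟩ := p
    intro v a b h
    obtain ⟨h1, h2⟩ := cnt_cons_some h
    rw [List.cons_append, pD, pD, ih v h2, List.append_assoc]

theorem flipK_flipK (k : Kind) : flipK (flipK k) = k := by cases k <;> rfl

theorem flipD_flipD : ∀ t : Diag, flipD (flipD t) = t := by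
  intro t
  induction t with
  | nil => rfl
  | cons p t ih =>
    obtain ⟨k, i⟩ := p
    rw [flipD_cons, flipD_append, ih, flipD_cons, flipD_nil]
    simp only [flipK_flipK, List.nil_append, List.cons_append]

theorem hD_hD : ∀ (t : Diag) {a b : ℕ}, cnt a t = some b → hD a (hD a t) = t := by
  intro t
  induction t with
  | nil => intro a b _; rfl
  | cons p t ih =>
    obtain ⟨k, i⟩ := p
    intro a b h
    obtain ⟨h1, h2⟩ := cnt_cons_some h
    rw [hD, hD, ih h2]
    congr 2
    omega

theorem pD_pD : ∀ (t : Diag) {a b : ℕ}, cnt a t = some b → pD b (pD a t) = t := by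
  intro t
  induction t with
  | nil => intro a b _; rfl
  | cons p t ih =>
    obtain ⟨k, i⟩ := p
    intro a b h
    obtain ⟨h1, h2⟩ := cnt_cons_some h
    rw [pD, pD_append _ _ (cnt_pD t h2), ih h2, pD, pD, flipK_flipK, flipK_ins]
    simp only [List.nil_append, List.cons_append]
    congr 2
    omega

theorem hD_flipD : ∀ (t : Diag) {a b : ℕ}, cnt a t = some b → hD b (flipD t) = pD a t := by
  intro t
  induction t with
  | nil => intro a b _; rfl
  | cons p t ih =>
    obtain ⟨k, i⟩ := p
    intro a b h
    obtain ⟨h1, h2⟩ := cnt_cons_some h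
    rw [flipD_cons, hD_append _ _ (cnt_flip t h2), ih h2, pD, hD, hD]
    simp only [flipK_ins]
    congr 3
    omega

theorem hD_sh : ∀ (t : Diag) {a b : ℕ}, cnt a t = some b → hD (a + 2) (sh 1 t) = sh 1 (hD a t) := by
  intro t
  induction t with
  | nil => intro a b _; rfl
  | cons p t ih =>
    obtain ⟨k, i⟩ := p
    intro a b h
    obtain ⟨h1, h2⟩ := cnt_cons_some h
    rw [sh_cons, hD, hD, sh_cons, show a + 2 - k.ins + k.outs = a - k.ins + k.outs + 2 by omega,
      ih h2]
    congr 2
    show a + 2 - k.ins - (i + 1) = a - k.ins - i + 1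
    omega

theorem flipD_sh (n : ℕ) : ∀ t : Diag, flipD (sh n t) = sh n (flipD t) := by
  intro t
  induction t with
  | nil => rfl
  | cons p t ih =>
    obtain ⟨k, i⟩ := p
    rw [sh_cons, flipD_cons, ih, flipD_cons, sh_append]
    rfl

theorem hD_rep (e : Bool) : ∀ n : ℕ, hD 2 (List.replicate n (Kind.crs e, 0)) =
    List.replicate n (Kind.crs e, 0) := by
  intro n
  induction n with
  | zero => rfl
  | succ n ih =>
    rw [List.replicate_succ, hD]
    exact congrArg _ ih

end Fsy

open Fsy in
theorem t_FSY : FSY_Stmt := by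
  refine ⟨fun u v a b h => ⟨hD_append u v h, pD_append u v h⟩, ?_, ?_, ?_⟩
  · intro t a b h
    have h1 := hD_hD t h
    have h3 := flipD_flipD t
    have h4 : pD a (hD a t) = flipD t := pD_hD t (by rw [h]; simp)
    have h5 := hD_flipD t h
    have h6 : hD b (pD a t) = flipD t := by
      rw [← h5]
      exact hD_hD _ (cnt_flip t h)
    have h8 : flipD (hD a t) = pD a t := by
      have := pD_hD (hD a t) (a := a) (by rw [cnt_hD t h]; simp)
      rw [h1] at this
      exact this.symm
    have h9 : flipD (pD a t) = hD a t := by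
      rw [← h8, flipD_flipD]
    have h7 : pD b (flipD t) = hD a t := by
      have := pD_hD (pD a t) (a := b) (by rw [cnt_pD t h]; simp)
      rw [h6, h9] at this
      exact this
    exact ⟨h1, pD_pD t h, h3, h4, h5, h6, h7, h8, h9⟩
  · intro t h
    refine ⟨?_, ?_, ?_⟩
    · have c1 : cnt 4 (sh 1 t) = some 4 := by
        have h1 : cnt 3 (sh 1 t) = some 3 := by
          have := cnt_sh 1 t 2
          rw [h] at this
          exact this
        exact cnt_widen 1 (sh 1 t) 3 3 h1
      show (Kind.cup, 2) :: hD 4 (sh 1 t ++ [(.cap, 2)]) = _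
      rw [hD_append _ _ c1, hD_sh t h]
      rfl
    · rw [rotD, flipD_cons, flipD_append, flipD_sh]
      rfl
    · rw [cl, flipD_cons, flipD_append]
      rfl
  · intro e
    exact ⟨hD_rep _ _, flip_ht e⟩

end Pool.Agent.UA
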