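import Pool.Agent.UA.StF

/-!
# Every closure of a tree is a connected sum of closures of closed reduced trees
-/

namespace Pool.Agent.UA

open Pool.Agent.LibH11.Sliced Pool.Agent.TwoBr Pool.Agent.Mont

namespace Ftop

/-- The conclusion for one diagram. -/
def Good (w : Diag) : Prop :=
  ∃ Ts : List Tr, (∀ T' ∈ Ts, T'.CR ∧ IsLongKnot (cl T'.dg)) ∧ EqD 1 w (cls Ts)

lemma Good.congr {w w' : Diag} (h : EqD 1 w w') (hw : Good w') : Good w := by
  obtain ⟨Ts, h1, h2⟩ := hw
  exact ⟨Ts, h1, h.trans h2⟩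

lemma good_nil {w : Diag} (h : EqD 1 w []) : Good w :=
  ⟨[], fun T' hT' => absurd hT' (List.not_mem_nil), h⟩

lemma cls_append (Ts Ts' : List Tr) : cls (Ts ++ Ts') = cls Ts ++ cls Ts' := by
  unfold cls
  rw [List.map_append, List.flatten_append]

lemma good_self (T : Tr) (h : T.CR) (hk : IsLongKnot (cl T.dg)) : Good (cl T.dg) := by
  refine ⟨[T], ?_, ?_⟩
  · intro T' hT'
    rw [List.mem_singleton] at hT'
    subst hT'
    exact ⟨h, hk⟩
  · apply EqD.of_eq
    unfold cls
    simp

lemma good_append (h3 : FCG_Stmt) (X Y : Tr) (hX : Good (cl X.dg)) (hY : Good (cl Y.dg)) :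
    Good (cl X.dg ++ cl Y.dg) := by
  obtain ⟨Ts, h1, h2⟩ := hX
  obtain ⟨Ts', h1', h2'⟩ := hY
  refine ⟨Ts ++ Ts', ?_, ?_⟩
  · intro T' hT'
    rcases List.mem_append.mp hT' with h | h
    · exact h1 T' h
    · exact h1' T' h
  · rw [cls_append]
    exact h3.2.2.1 _ _ _ _ h2 h2' (h3.2.2.2.1 _ (h3.2.2.2.2.1 X)).2
      (h3.2.2.2.1 _ (h3.2.2.2.2.1 Y)).2

lemma cl_inf (h3 : FCG_Stmt) (h6 : FIT_Stmt) (e : ℤ) :
    EqD 1 (cl (Tr.cons (.pw 0) (.pw e)).dg) [] := by
  have h1 : EqD 2 (rotD [] ++ ht e) (rotD []) := h6.2.1 e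
  have hc : cnt 2 (rotD [] ++ ht e) = some 2 := h3.2.2.2.2.1 (Tr.cons (.pw 0) (.pw e))
  have h2 : EqD 1 (cl (rotD [] ++ ht e)) (cl (rotD [])) := (h3.1 _ _ h1 hc).2
  exact h2.trans h6.2.2.2.2.2

lemma kids_zero {T : Tr} (h : T.kids = 0) : ∃ e, T = .pw e := by
  cases T with
  | pw e => exact ⟨e, rfl⟩
  | cons a b =>
    have : Tr.kids b + 1 = 0 := h
    omega

lemma kids_one {T : Tr} (h : T.kids = 1) : ∃ a e, T = .cons a (.pw e) := by
  cases T with
  | pw e =>
    have : (0 : ℕ) = 1 := h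
    omega
  | cons a b =>
    have h1 : Tr.kids b + 1 = 1 := h
    obtain ⟨e, rfl⟩ := kids_zero (T := b) (by omega)
    exact ⟨a, e, rfl⟩

lemma kids_two {T : Tr} (h : T.kids = 2) : ∃ a b e, T = .cons a (.cons b (.pw e)) := by
  cases T with
  | pw e =>
    have : (0 : ℕ) = 2 := h
    omega
  | cons a b =>
    have h1 : Tr.kids b + 1 = 2 := h
    obtain ⟨b', e, rfl⟩ := kids_one (T := b) (by omega)
    exact ⟨a, b', e, rfl⟩

end Ftop

open Ftop in
theorem t_FTOP (h3 : FCG_Stmt) (h6 : FIT_Stmt) (h7 : RRT_Stmt) (h8 : SPC_Stmt) (h9 : LOC_Stmt)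
    (h10 : SPK_Stmt) : FTOP_Stmt := by
  have key : ∀ (n : ℕ) (T : Tr), T.size ≤ n → IsLongKnot (cl T.dg) → Good (cl T.dg) := by
    intro n
    induction n using Nat.strong_induction_on with
    | _ n ih =>
      intro T hn hk
      have hsmall : ∀ T' : Tr, T'.size < T.size → EqD 1 (cl T.dg) (cl T'.dg) →
          Good (cl T.dg) := fun T' h1 h2 =>
        Good.congr h2 (ih T'.size (by omega) T' le_rfl (h2.isLongKnot hk))
      have hsplit : ∀ T₀ : Tr, T₀.size ≤ T.size → Split T₀ → EqD 1 (cl T.dg) (cl T₀.dg) →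
          Good (cl T.dg) := by
        intro T₀ h0 h1 h2
        obtain ⟨X, Y, hX, hY, hkX, hkY, hE⟩ := h10 T₀ h1 (h2.isLongKnot hk)
        exact Good.congr (h2.trans hE) (good_append h3 X Y
          (ih X.size (by omega) X le_rfl hkX) (ih Y.size (by omega) Y le_rfl hkY))
      rcases h9 T with hRC | hinf | ⟨T', hT', hE⟩ | hS
      · by_cases hC : T.CR
        · exact good_self T hC hk
        · have hC' : ¬ (T.kids = 1 ∨ T.kids = 2 → 2 ≤ |T.ex|) := fun h => hC ⟨hRC, h⟩
          rw [Classical.not_imp] at hC'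
          obtain ⟨hkids, hex⟩ := hC'
          rcases hkids with h1 | h2
          · obtain ⟨a, e, rfl⟩ := kids_one h1
            have hex' : ¬ 2 ≤ |e| := hex
            rcases eq_or_ne e 0 with rfl | he
            · obtain ⟨a', ha', hE⟩ := h7.1 a
              cases a' with
              | pw e' => exact good_nil (hE.trans (cl_inf h3 h6 e'))
              | cons c d =>
                refine hsplit _ ?_ (h8.1 c d) hE
                change (0 : ℤ).natAbs + 2 + (Tr.cons c d).size ≤ a.size + 2 + (0 : ℤ).natAbs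
                simp only [Int.natAbs_zero]
                omega
            · have he1 : |e| = 1 := by
                have := abs_pos.mpr he
                omega
              obtain ⟨T', hT', hE⟩ := h7.2.1 a e he1
              exact hsmall T' hT' hE
          · obtain ⟨a, b, e, rfl⟩ := kids_two h2
            have hex' : ¬ 2 ≤ |e| := hex
            obtain ⟨T', hT', hE⟩ := h7.2.2 a b e (by omega)
            exact hsmall T' hT' hE
      · subst hinf
        exact good_nil (cl_inf h3 h6 0)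
      · exact hsmall T' hT' (h3.1 _ _ hE (h3.2.2.2.2.1 T)).2
      · exact hsplit T le_rfl hS (EqD.refl _)
  intro T hk
  exact key T.size T le_rfl hk

end Pool.Agent.UA
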