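import Pool.Agent.UA.StF

/-!
Theorem U (MP_31fd3b_gt), block F, module RRT: reductions of closures.
-/

namespace Pool.Agent.UA

open Pool.Agent.LibH11.Sliced Pool.Agent.TwoBr Pool.Agent.Mont

namespace Rrt

/-- the rotation about the vertical axis of a rotated tangle -/
theorem hrot (h1 : FSY_Stmt) (h4 : FRO_Stmt) {x : Diag} (hx : cnt 2 x = some 2) :
    EqD 2 (hD 2 (rotD x)) (rotD (flipD x)) := by
  have e1 := (h1.2.2.1 x hx).1
  have e2 := (h4 (hD 2 x) (cnt_hD x hx)).2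
  have e3 : pD 2 (hD 2 x) = flipD x := (h1.2.1 x 2 2 hx).2.2.2.1
  rw [e1]
  rw [e3] at e2
  exact e2

theorem rrflip (h1 : FSY_Stmt) (h4 : FRO_Stmt) {x : Diag} (hx : cnt 2 x = some 2) :
    EqD 2 (rotD (rotD (flipD x))) (hD 2 x) := by
  have e2 := (h4 (flipD x) (cnt_flip x hx)).1
  have e3 : pD 2 (flipD x) = hD 2 x := (h1.2.1 x 2 2 hx).2.2.2.2.2.2.1
  rw [e3] at e2
  exact e2

/-- half twists with exponent `±1` -/
theorem ht_unit {e : ℤ} (he : |e| = 1) :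
    ∃ c : Bool, ht e = [(.crs c, 0)] ∧ ht (-e) = [(.crs (!c), 0)] := by
  rcases (abs_eq (zero_le_one)).1 he with h | h
  · subst h
    exact ⟨true, rfl, rfl⟩
  · subst h
    exact ⟨false, rfl, rfl⟩

/-- FC0 for `s = rotD x` with a twist: `cl (rotD x ++ ht e)`, `|e| = 1`. -/
theorem two (h1 : FSY_Stmt) (h3 : FCG_Stmt) (h4 : FRO_Stmt) (h6 : FIT_Stmt) (h8 : FC0_Stmt)
    {x : Diag} (hx : cnt 2 x = some 2) {e : ℤ} (he : |e| = 1) :
    EqD 1 (cl (rotD x ++ ht e)) (cl (hD 2 x ++ ht (-e))) := by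
  have hr : cnt 2 (rotD x) = some 2 := (h3.2.2.2.1 x hx).1
  have hhx : cnt 2 (hD 2 x) = some 2 := cnt_hD x hx
  have ht' : cnt 2 (ht (-e)) = some 2 := cnt_ht _
  have he' : |(-e)| = 1 := by rw [abs_neg]; exact he
  have a1 : EqD 2 (ht e) (rotD (ht (-e))) := by
    have := (h6.2.2.1 (-e) he').1
    rw [neg_neg] at this
    exact this.symm
  have a2 : EqD 2 (rotD x ++ ht e) (rotD x ++ rotD (ht (-e))) :=
    h3.2.1 _ _ _ _ (EqD.refl _) a1 hr (cnt_ht _)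
  have c2 : cnt 2 (rotD x ++ ht e) = some 2 := by rw [cnt_app hr]; exact cnt_ht _
  have a3 := (h3.1 _ _ a2 c2).2
  have a4 := h8 (rotD x) (ht (-e)) hr ht'
  have f1 : flipD (ht (-e)) = ht (-e) := (h1.2.2.2 (-e)).2
  rw [f1] at a4
  have hhr : cnt 2 (hD 2 (rotD x)) = some 2 := cnt_hD _ hr
  have a5 : EqD 2 (rotD (hD 2 (rotD x))) (hD 2 x) :=
    ((h3.1 _ _ (hrot h1 h4 hx) hhr).1).trans (rrflip h1 h4 hx)
  have c5 : cnt 2 (rotD (hD 2 (rotD x))) = some 2 := (h3.2.2.2.1 _ hhr).1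
  have a6 : EqD 2 (rotD (hD 2 (rotD x)) ++ ht (-e)) (hD 2 x ++ ht (-e)) :=
    h3.2.1 _ _ _ _ a5 (EqD.refl _) c5 ht'
  have c6 : cnt 2 (rotD (hD 2 (rotD x)) ++ ht (-e)) = some 2 := by rw [cnt_app c5]; exact ht'
  exact a3.trans (a4.trans (h3.1 _ _ a6 c6).2)

/-- two rotated tangles -/
theorem three0 (h1 : FSY_Stmt) (h3 : FCG_Stmt) (h4 : FRO_Stmt) (h8 : FC0_Stmt)
    {x y : Diag} (hx : cnt 2 x = some 2) (hy : cnt 2 y = some 2) :
    EqD 1 (cl (rotD x ++ rotD y)) (cl (hD 2 x ++ flipD y)) := by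
  have hr : cnt 2 (rotD x) = some 2 := (h3.2.2.2.1 x hx).1
  have a4 := h8 (rotD x) y hr hy
  have hhr : cnt 2 (hD 2 (rotD x)) = some 2 := cnt_hD _ hr
  have a5 : EqD 2 (rotD (hD 2 (rotD x))) (hD 2 x) :=
    ((h3.1 _ _ (hrot h1 h4 hx) hhr).1).trans (rrflip h1 h4 hx)
  have c5 : cnt 2 (rotD (hD 2 (rotD x))) = some 2 := (h3.2.2.2.1 _ hhr).1
  have fy : cnt 2 (flipD y) = some 2 := cnt_flip y hy
  have a6 : EqD 2 (rotD (hD 2 (rotD x)) ++ flipD y) (hD 2 x ++ flipD y) :=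
    h3.2.1 _ _ _ _ a5 (EqD.refl _) c5 fy
  have c6 : cnt 2 (rotD (hD 2 (rotD x)) ++ flipD y) = some 2 := by rw [cnt_app c5]; exact fy
  exact a4.trans (h3.1 _ _ a6 c6).2

/-- two rotated tangles with a twist -/
theorem three1 (h1 : FSY_Stmt) (h3 : FCG_Stmt) (h4 : FRO_Stmt) (h5 : FFL_Stmt) (h7 : FR3_Stmt)
    (h8 : FC0_Stmt) {x y : Diag} (hx : cnt 2 x = some 2) (hy : cnt 2 y = some 2) {e : ℤ}
    (he : |e| = 1) :
    EqD 1 (cl (rotD x ++ (rotD y ++ ht e)))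
      (cl ((ht (-e) ++ rotD (ht (-e) ++ flipD x)) ++ y)) := by
  obtain ⟨c, hc, hc'⟩ := ht_unit he
  have hrx : cnt 2 (rotD x) = some 2 := (h3.2.2.2.1 x hx).1
  have hry : cnt 2 (rotD y) = some 2 := (h3.2.2.2.1 y hy).1
  have hte : cnt 2 (ht e) = some 2 := cnt_ht _
  have hte' : cnt 2 (ht (-e)) = some 2 := cnt_ht _
  have fx : cnt 2 (flipD x) = some 2 := cnt_flip x hx
  have fy : cnt 2 (flipD y) = some 2 := cnt_flip y hy
  have hrfy : cnt 2 (rotD (flipD y)) = some 2 := (h3.2.2.2.1 _ fy).1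
  have hhry : cnt 2 (hD 2 (rotD y)) = some 2 := cnt_hD _ hry
  -- the twist moves to the left of the second rotated tangle
  have b1 : EqD 2 (rotD y ++ ht e) (ht e ++ hD 2 (rotD y)) := by
    rw [hc]
    exact h5.1 (rotD y) c hry
  have b2 : EqD 2 (ht e ++ hD 2 (rotD y)) (ht e ++ rotD (flipD y)) :=
    h3.2.1 _ _ _ _ (EqD.refl _) (hrot h1 h4 hy) hte hhry
  have cye : cnt 2 (rotD y ++ ht e) = some 2 := by rw [cnt_app hry]; exact hte
  have b3 : EqD 2 (rotD x ++ (rotD y ++ ht e)) (rotD x ++ (ht e ++ rotD (flipD y))) :=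
    h3.2.1 _ _ _ _ (EqD.refl _) (b1.trans b2) hrx cye
  have c3 : cnt 2 (rotD x ++ (rotD y ++ ht e)) = some 2 := by rw [cnt_app hrx]; exact cye
  have b4 := (h3.1 _ _ b3 c3).2
  rw [← List.append_assoc (rotD x) (ht e)] at b4
  -- FC0
  have cxe : cnt 2 (rotD x ++ ht e) = some 2 := by rw [cnt_app hrx]; exact hte
  have b5 := h8 (rotD x ++ ht e) (flipD y) cxe fy
  have fl : flipD (flipD y) = y := (h1.2.1 y 2 2 hy).2.2.1
  have hl : hD 2 (rotD x ++ ht e) = hD 2 (rotD x) ++ ht e := by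
    rw [(h1.1 (rotD x) (ht e) 2 2 hrx).1, (h1.2.2.2 e).1]
  rw [fl, hl] at b5
  -- the relation of order three
  have hhrx : cnt 2 (hD 2 (rotD x)) = some 2 := cnt_hD _ hrx
  have hrfx : cnt 2 (rotD (flipD x)) = some 2 := (h3.2.2.2.1 _ fx).1
  have b6 : EqD 2 (hD 2 (rotD x) ++ ht e) (rotD (flipD x) ++ ht e) :=
    h3.2.1 _ _ _ _ (hrot h1 h4 hx) (EqD.refl _) hhrx hte
  have c6 : cnt 2 (hD 2 (rotD x) ++ ht e) = some 2 := by rw [cnt_app hhrx]; exact hte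
  have b7 : EqD 2 (rotD (rotD (flipD x) ++ ht e)) (ht (-e) ++ rotD (ht (-e) ++ flipD x)) := by
    rw [hc, hc']
    exact h7 (flipD x) c fx
  have b8 : EqD 2 (rotD (hD 2 (rotD x) ++ ht e)) (ht (-e) ++ rotD (ht (-e) ++ flipD x)) :=
    (h3.1 _ _ b6 c6).1.trans b7
  have c8 : cnt 2 (rotD (hD 2 (rotD x) ++ ht e)) = some 2 := (h3.2.2.2.1 _ c6).1
  have b9 : EqD 2 (rotD (hD 2 (rotD x) ++ ht e) ++ y)
      ((ht (-e) ++ rotD (ht (-e) ++ flipD x)) ++ y) :=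
    h3.2.1 _ _ _ _ b8 (EqD.refl _) c8 hy
  have c9 : cnt 2 (rotD (hD 2 (rotD x) ++ ht e) ++ y) = some 2 := by rw [cnt_app c8]; exact hy
  exact b4.trans (b5.trans (h3.1 _ _ b9 c9).2)

end Rrt

open Rrt in
/-- RRT -/
theorem t_RRT (h1 : FSY_Stmt) (_h2 : FEQ_Stmt) (h3 : FCG_Stmt) (h4 : FRO_Stmt) (h5 : FFL_Stmt)
    (h6 : FIT_Stmt) (h7 : FR3_Stmt) (h8 : FC0_Stmt) (h9 : FTA_Stmt) : RRT_Stmt := by
  obtain ⟨tH, tF, -, tC, tS, -⟩ := h9
  have cT : ∀ T : Tr, cnt 2 T.dg = some 2 := h3.2.2.2.2.1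
  refine ⟨?_, ?_, ?_⟩
  · intro a
    obtain ⟨a', ha', ea'⟩ := tF a
    refine ⟨a', ha', ?_⟩
    have c0 : cnt 2 (rotD []) = some 2 := (h3.2.2.2.1 [] rfl).1
    have k1 := h8 [] a.dg rfl (cT a)
    have k2 : EqD 2 (rotD [] ++ flipD a.dg) (rotD [] ++ a'.dg) :=
      h3.2.1 _ _ _ _ (EqD.refl _) ea' c0 (cnt_flip _ (cT a))
    have k3 : cnt 2 (rotD [] ++ flipD a.dg) = some 2 := by
      rw [cnt_app c0]; exact cnt_flip _ (cT a)
    have k4 := (h3.1 _ _ k2 k3).2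
    have e1 : (Tr.cons a (.pw 0)).dg = [] ++ rotD a.dg := by
      show rotD a.dg ++ ht 0 = _
      rw [ht_zero, List.append_nil, List.nil_append]
    have e2 : (Tr.cons (.pw 0) a').dg = rotD [] ++ a'.dg := rfl
    rw [e1, e2]
    exact k1.trans k4
  · intro a e he
    obtain ⟨T1, s1, E1⟩ := tH a
    have hS := tS T1 (-e)
    have ha := he
    refine ⟨T1.shift (-e), ?_, ?_⟩
    · have h := hS.1
      have hn' : e.natAbs = 1 := by
        have := Int.abs_eq_natAbs e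
        omega
      have hn : (-e).natAbs = 1 := by rw [Int.natAbs_neg]; exact hn'
      show _ < a.size + 2 + e.natAbs
      omega
    · have k1 := two h1 h3 h4 h6 h8 (cT a) he
      have chd : cnt 2 (hD 2 a.dg) = some 2 := cnt_hD _ (cT a)
      have k2 : EqD 2 (hD 2 a.dg ++ ht (-e)) (T1.dg ++ ht (-e)) :=
        h3.2.1 _ _ _ _ E1 (EqD.refl _) chd (cnt_ht _)
      have k3 : cnt 2 (hD 2 a.dg ++ ht (-e)) = some 2 := by rw [cnt_app chd]; exact cnt_ht _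
      exact k1.trans (h3.1 _ _ (k2.trans hS.2.1) k3).2
  · intro a b e he
    by_cases h0 : e = 0
    · subst h0
      obtain ⟨T1, s1, E1⟩ := tH a
      obtain ⟨T2, s2, E2⟩ := tF b
      obtain ⟨T3, s3, E3⟩ := tC T1 T2
      refine ⟨T3, ?_, ?_⟩
      · show _ < a.size + 2 + (b.size + 2 + (0 : ℤ).natAbs)
        omega
      · have k1 := three0 h1 h3 h4 h8 (cT a) (cT b)
        have chd : cnt 2 (hD 2 a.dg) = some 2 := cnt_hD _ (cT a)
        have cfl : cnt 2 (flipD b.dg) = some 2 := cnt_flip _ (cT b)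
        have k2 : EqD 2 (hD 2 a.dg ++ flipD b.dg) (T1.dg ++ T2.dg) :=
          h3.2.1 _ _ _ _ E1 E2 chd cfl
        have k3 : cnt 2 (hD 2 a.dg ++ flipD b.dg) = some 2 := by rw [cnt_app chd]; exact cfl
        have e1 : (Tr.cons a (.cons b (.pw 0))).dg = rotD a.dg ++ rotD b.dg := by
          show rotD a.dg ++ (rotD b.dg ++ ht 0) = _
          rw [ht_zero, List.append_nil]
        rw [e1]
        exact k1.trans (h3.1 _ _ (k2.trans E3) k3).2
    · have he1 : |e| = 1 := by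
        have := abs_pos.2 h0
        omega
      obtain ⟨T1, s1, E1⟩ := tF a
      obtain ⟨T2, s2, E2⟩ := (tS T1 (-e)).2.2
      obtain ⟨T3, s3, E3⟩ := (tS (.cons T2 b) (-e)).2.2
      have hn' : e.natAbs = 1 := by
        have := Int.abs_eq_natAbs e
        omega
      have hn : (-e).natAbs = 1 := by rw [Int.natAbs_neg]; exact hn'
      refine ⟨T3, ?_, ?_⟩
      · have s3' : T3.size ≤ (T2.size + 2 + b.size) + (-e).natAbs := s3
        show _ < a.size + 2 + (b.size + 2 + e.natAbs)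
        omega
      · have k1 := three1 h1 h3 h4 h5 h7 h8 (cT a) (cT b) he1
        have cfl : cnt 2 (flipD a.dg) = some 2 := cnt_flip _ (cT a)
        have cht : cnt 2 (ht (-e)) = some 2 := cnt_ht _
        have m1 : EqD 2 (ht (-e) ++ flipD a.dg) (ht (-e) ++ T1.dg) :=
          h3.2.1 _ _ _ _ (EqD.refl _) E1 cht cfl
        have d1 : cnt 2 (ht (-e) ++ flipD a.dg) = some 2 := by rw [cnt_app cht]; exact cfl
        have m2 : EqD 2 (rotD (ht (-e) ++ flipD a.dg)) (rotD T2.dg) :=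
          (h3.1 _ _ (m1.trans E2) d1).1
        have d2 : cnt 2 (rotD (ht (-e) ++ flipD a.dg)) = some 2 := (h3.2.2.2.1 _ d1).1
        have m3 : EqD 2 (rotD (ht (-e) ++ flipD a.dg) ++ b.dg) (rotD T2.dg ++ b.dg) :=
          h3.2.1 _ _ _ _ m2 (EqD.refl _) d2 (cT b)
        have d3 : cnt 2 (rotD (ht (-e) ++ flipD a.dg) ++ b.dg) = some 2 := by
          rw [cnt_app d2]; exact cT b
        have m4 : EqD 2 (ht (-e) ++ (rotD (ht (-e) ++ flipD a.dg) ++ b.dg))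
            (ht (-e) ++ (rotD T2.dg ++ b.dg)) :=
          h3.2.1 _ _ _ _ (EqD.refl _) m3 cht d3
        have d4 : cnt 2 (ht (-e) ++ (rotD (ht (-e) ++ flipD a.dg) ++ b.dg)) = some 2 := by
          rw [cnt_app cht]; exact d3
        have E3' : EqD 2 (ht (-e) ++ (rotD T2.dg ++ b.dg)) T3.dg := E3
        rw [List.append_assoc] at k1
        exact k1.trans (h3.1 _ _ (m4.trans E3') d4).2

end Pool.Agent.UA
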