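import Pool.Agent.UA.StF

/-!
Theorem U (MP_31fd3b_gt), block F, module SPC: trees which split.
-/

namespace Pool.Agent.UA

open Pool.Agent.LibH11.Sliced Pool.Agent.TwoBr Pool.Agent.Mont

namespace Spc

theorem dg_inf (T : Tr) : (Tr.cons (.pw 0) T).dg = rotD [] ++ T.dg := rfl

theorem dg_cons (a b : Tr) : (Tr.cons a b).dg = rotD a.dg ++ b.dg := rfl

theorem size_cons (a b : Tr) : (Tr.cons a b).size = a.size + 2 + b.size := rfl

theorem size_zero : (Tr.pw 0).size = 0 := rfl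

theorem ne_none {N M : ℕ} {w : Diag} (h : cnt N w = some M) : cnt N w ≠ none := by
  rw [h]
  simp

theorem cnt_inf (h3 : FCG_Stmt) : cnt 2 (rotD []) = some 2 := (h3.2.2.2.1 [] rfl).1

theorem cnt_rot (h3 : FCG_Stmt) (a : Tr) : cnt 2 (rotD a.dg) = some 2 :=
  (h3.2.2.2.1 _ (h3.2.2.2.2.1 a)).1

theorem cnt_two {s t : Diag} (hs : cnt 2 s = some 2) (ht : cnt 2 t = some 2) :
    cnt 2 (s ++ t) = some 2 := by
  rw [cnt_app hs, ht]

/-- the first claim -/
theorem first (h3 : FCG_Stmt) (h6 : FIT_Stmt) (h10 : SPG_Stmt) (c d : Tr) :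
    Split (.cons (.pw 0) (.cons c d)) := by
  obtain ⟨X, hX, hXe⟩ := h10.2.1 c
  have ht := cnt_rot h3 c
  have hd := h3.2.2.2.2.1 d
  obtain ⟨p1, p2, -, -⟩ := h10.1 _ ht
  have e1 := (p2.trans hXe).widen 1
  have e3 := e1.left (N := 0) [(Kind.cup, 0)] rfl
  have e4 : EqD 0 ((Kind.cup, 0) :: rotD c.dg) ((Kind.cup, 0) :: cl X.dg) := p1.trans e3
  refine ⟨[(.cap, 0), (.cup, 0)], d.dg, 0, 2, X, .cons (.pw 0) d, ?_, ?_, rfl, by norm_num, ?_, ?_⟩
  · simp only [size_cons, size_zero]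
    omega
  · simp only [size_cons, size_zero]
    omega
  · rw [sh_zero, dg_inf, dg_cons]
    have f1 := h6.2.2.2.1.right (rotD c.dg ++ d.dg)
      (ne_none (cnt_two (cnt_inf h3) (cnt_two ht hd)))
    refine f1.trans ?_
    have f2 := e4.ctx (N := 2) [(Kind.cap, 0)] d.dg rfl (by
      have h := ne_none ((f1.cnt_eq.symm.trans (cnt_two (cnt_inf h3) (cnt_two ht hd))))
      simpa using h)
    simpa using f2
  · rw [dg_inf]
    exact (h6.2.2.2.1.right d.dg (ne_none (cnt_two (cnt_inf h3) hd))).symm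

/-- the second claim -/
theorem second (h3 : FCG_Stmt) (h6 : FIT_Stmt) (h10 : SPG_Stmt) (a : Tr) :
    Split (.cons a (.cons (.pw 0) (.pw 0))) := by
  obtain ⟨X, hX, hXe⟩ := h10.2.2 a
  have ht := cnt_rot h3 a
  obtain ⟨-, -, p3, p4⟩ := h10.1 _ ht
  have e1 := (p4.trans hXe).widen 1
  have c1 : cnt 2 (rotD a.dg ++ [(Kind.cap, 0)]) = some 0 := by
    rw [cnt_app ht]
    rfl
  have c2 : cnt 2 (rotD a.dg ++ [(Kind.cap, 0), (Kind.cup, 0)]) = some 2 := by
    rw [cnt_app ht]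
    rfl
  have e2 := e1.right [(Kind.cap, 0)] (ne_none (p3.cnt_eq.symm.trans c1))
  have e3 : EqD 2 (rotD a.dg ++ [(Kind.cap, 0)]) (cl X.dg ++ [(Kind.cap, 0)]) := p3.trans e2
  refine ⟨[], [(.cap, 0), (.cup, 0)], 0, 2, X, .cons (.pw 0) (.pw 0), ?_, ?_, rfl, by norm_num,
    ?_, ?_⟩
  · simp only [size_cons, size_zero]
    omega
  · simp only [size_cons, size_zero]
    omega
  · rw [sh_zero, dg_cons, dg_inf]
    have f1 : EqD 2 (rotD [] ++ (Tr.pw 0).dg) [(Kind.cap, 0), (Kind.cup, 0)] := by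
      have h : rotD [] ++ (Tr.pw 0).dg = rotD [] := rfl
      rw [h]
      exact h6.2.2.2.1
    refine (f1.left (rotD a.dg) ht).trans ?_
    have f2 := e3.right [(Kind.cup, 0)] (by
      have h := ne_none c2
      simpa using h)
    simpa using f2
  · exact h6.2.2.2.1.symm

/-- the third claim -/
theorem third (h3 : FCG_Stmt) (a b : Tr) (h : Split a) : Split (.cons a b) := by
  obtain ⟨u, v, j, n, X, T', hX, hT', hu, hj, e1, e2⟩ := h
  have ha := h3.2.2.2.2.1 a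
  have hb := h3.2.2.2.2.1 b
  refine ⟨(.cup, 0) :: sh 1 u, sh 1 v ++ [(.cap, 2)] ++ b.dg, j + 1, n + 2, X, .cons T' b,
    ?_, ?_, ?_, by omega, ?_, ?_⟩
  · simp only [size_cons]
    omega
  · simp only [size_cons]
    omega
  · have h1 : cnt 2 ((Kind.cup, 0) :: sh 1 u) = cnt (3 + 1) (sh 1 u) := rfl
    rw [h1, cnt_sh, cnt_widen 1 u 2 n hu]
    rfl
  · have f1 := (h3.1 _ _ e1 ha).1.right b.dg (ne_none (cnt_two (cnt_rot h3 a) hb))
    rw [dg_cons]
    have h1 : rotD (u ++ sh j (cl X.dg) ++ v) ++ b.dg =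
        ((Kind.cup, 0) :: sh 1 u) ++ sh (j + 1) (cl X.dg) ++
          (sh 1 v ++ [(.cap, 2)] ++ b.dg) := by
      unfold rotD
      rw [sh_append, sh_append, sh_sh]
      simp only [List.cons_append, List.append_assoc]
    rw [← h1]
    exact f1
  · have f1 := (h3.1 _ _ e2.symm (h3.2.2.2.2.1 T')).1.right b.dg
      (ne_none (cnt_two (cnt_rot h3 T') hb))
    rw [dg_cons]
    have h1 : rotD (u ++ v) ++ b.dg =
        ((Kind.cup, 0) :: sh 1 u) ++ (sh 1 v ++ [(.cap, 2)] ++ b.dg) := by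
      unfold rotD
      rw [sh_append]
      simp only [List.cons_append, List.append_assoc]
    rw [← h1]
    exact f1.symm

/-- the fourth claim -/
theorem fourth (h3 : FCG_Stmt) (a b : Tr) (h : Split b) : Split (.cons a b) := by
  obtain ⟨u, v, j, n, X, T', hX, hT', hu, hj, e1, e2⟩ := h
  have hr := cnt_rot h3 a
  refine ⟨rotD a.dg ++ u, v, j, n, X, .cons a T', ?_, ?_, ?_, hj, ?_, ?_⟩
  · simp only [size_cons]
    omega
  · simp only [size_cons]
    omega
  · rw [cnt_app hr]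
    exact hu
  · rw [dg_cons]
    have f1 := e1.left (rotD a.dg) hr
    simpa only [List.append_assoc] using f1
  · rw [dg_cons]
    have f1 := e2.left (rotD a.dg) hr
    simpa only [List.append_assoc] using f1

end Spc

theorem t_SPC (h3 : FCG_Stmt) (h6 : FIT_Stmt) (_h9 : FTA_Stmt) (h10 : SPG_Stmt) : SPC_Stmt :=
  ⟨Spc.first h3 h6 h10, Spc.second h3 h6 h10, Spc.third h3, Spc.fourth h3⟩

end Pool.Agent.UA
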