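import Pool.Agent.UA.StF
import Pool.Agent.TwoBr.Cert

/-!
Theorem U (MP_31fd3b_gt), module SPG: a tangle next to a minimum or a maximum becomes a bead.
-/

namespace Pool.Agent.UA

open Pool.Agent.LibH11.Sliced Pool.Agent.TwoBr Pool.Agent.Mont

namespace Spg

/-- a local equivalence in a context -/
theorem lstep {N M P : ℕ} {x y : Diag} (u v : Diag) {w w' : Diag} (hw : w = u ++ x ++ v)
    (hw' : w' = u ++ y ++ v) (hu : cnt N u = some M) (h : EqD M x y)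
    (hx : cnt M x = some P) (hv : cnt P v ≠ none) : EqD N w w' := by
  subst hw hw'
  refine EqD.ctx u v hu h ?_
  rw [List.append_assoc, cnt_app hu, cnt_app hx]
  exact hv

theorem ne_of_some {N M : ℕ} {w : Diag} (h : cnt N w = some M) : cnt N w ≠ none := by
  rw [h]
  exact Option.some_ne_none M

theorem part_a {t : Diag} (ht : cnt 2 t = some 2) :
    EqD 0 ((.cup, 0) :: t) ((.cup, 0) :: (.cup, 0) :: (t ++ ([(.cap, 1)] : List (Kind × ℕ)))) := by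
  have t4 : cnt 4 t = some 4 := cnt_widen 2 t 2 2 ht
  -- `cup 0, cup 0 ~ cup 0, cup 2`
  have s1 : EqD 0 ((.cup, 0) :: (.cup, 2) :: (t ++ ([(.cap, 1)] : List (Kind × ℕ))))
      ((.cup, 0) :: (.cup, 0) :: (t ++ ([(.cap, 1)] : List (Kind × ℕ)))) := by
    refine lstep (P := 4) [] (t ++ ([(.cap, 1)] : List (Kind × ℕ))) (x := ([(.cup, 0), (.cup, 2)] : List (Kind × ℕ)))
      (y := ([(.cup, 0), (.cup, 0)] : List (Kind × ℕ))) (by simp) (by simp) rfl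
      (EqD.of_chk [(0, false, .far .cup .cup 0 0)] rfl) rfl ?_
    rw [cnt_app t4]
    simp [cnt, Kind.ins]
  have fw : EqD 2 (t ++ ([(.cup, 2)] : List (Kind × ℕ))) (([(.cup, 2)] : List (Kind × ℕ)) ++ t) :=
    far_words t ([(.cup, 0)] : List (Kind × ℕ)) 2 2 0 ht (by simp [cnt, Kind.ins])
  have s2 : EqD 0 (([(.cup, 0)] : List (Kind × ℕ)) ++ t ++ ([(.cup, 2), (.cap, 1)] : List (Kind × ℕ)))
      ((.cup, 0) :: (.cup, 2) :: (t ++ ([(.cap, 1)] : List (Kind × ℕ)))) := by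
    refine lstep (P := 4) ([(.cup, 0)] : List (Kind × ℕ)) ([(.cap, 1)] : List (Kind × ℕ)) (by simp) (by simp) (M := 2) rfl fw ?_ ?_
    · rw [cnt_app ht]
      rfl
    · simp [cnt, Kind.ins]
  have s3 : EqD 0 (([(.cup, 0)] : List (Kind × ℕ)) ++ t ++ ([(.cup, 2), (.cap, 1)] : List (Kind × ℕ))) ((.cup, 0) :: t) := by
    refine lstep (P := 2) (([(.cup, 0)] : List (Kind × ℕ)) ++ t) [] (x := ([(.cup, 2), (.cap, 1)] : List (Kind × ℕ))) (y := []) (by simp)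
      (by simp) (M := 2) ?_ (EqD.of_chk [(0, false, .zg 1)] rfl) rfl (by simp [cnt])
    rw [cnt_app (M := 2) rfl]
    exact ht
  exact (s3.symm.trans s2).trans s1

theorem part_b {t : Diag} (ht : cnt 2 t = some 2) :
    EqD 1 ((.cup, 0) :: (t ++ ([(.cap, 1)] : List (Kind × ℕ)))) (cl (rotD [] ++ t)) := by
  have t3 : cnt 3 t = some 3 := cnt_widen 1 t 2 2 ht
  refine (lstep (P := 3) [] (t ++ ([(.cap, 1)] : List (Kind × ℕ))) (x := ([(.cup, 1), (.cup, 0), (.cap, 2)] : List (Kind × ℕ)))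
    (y := ([(.cup, 0)] : List (Kind × ℕ))) (by simp [cl, rotD]) (by simp) rfl
    (EqD.of_chk [(0, true, .far .cup .cup 0 1), (1, false, .zg 2)] rfl) rfl ?_).symm
  rw [cnt_app t3]
  simp [cnt, Kind.ins]

theorem part_c {t : Diag} (ht : cnt 2 t = some 2) :
    EqD 2 (t ++ ([(.cap, 0)] : List (Kind × ℕ))) ((.cup, 1) :: (t ++ ([(.cap, 0)] : List (Kind × ℕ))) ++ ([(.cap, 0)] : List (Kind × ℕ))) := by
  have t4 : cnt 4 t = some 4 := cnt_widen 2 t 2 2 ht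
  have s1 : EqD 2 ((.cup, 1) :: (t ++ ([(.cap, 0)] : List (Kind × ℕ))) ++ ([(.cap, 0)] : List (Kind × ℕ)))
      (([(.cup, 1)] : List (Kind × ℕ)) ++ t ++ ([(.cap, 2), (.cap, 0)] : List (Kind × ℕ))) := by
    refine lstep (P := 0) (([(.cup, 1)] : List (Kind × ℕ)) ++ t) [] (x := ([(.cap, 0), (.cap, 0)] : List (Kind × ℕ)))
      (y := ([(.cap, 2), (.cap, 0)] : List (Kind × ℕ))) (by simp) (by simp) (M := 4) ?_
      (EqD.of_chk [(0, false, .far .cap .cap 0 0)] rfl) rfl (by simp [cnt])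
    rw [cnt_app (M := 4) rfl]
    exact t4
  have fw : EqD 4 (t ++ ([(.cap, 2)] : List (Kind × ℕ))) (([(.cap, 2)] : List (Kind × ℕ)) ++ t) :=
    far_words t ([(.cap, 0)] : List (Kind × ℕ)) 2 2 2 ht (by simp [cnt, Kind.ins])
  have s2 : EqD 2 (([(.cup, 1)] : List (Kind × ℕ)) ++ t ++ ([(.cap, 2), (.cap, 0)] : List (Kind × ℕ)))
      (([(.cup, 1), (.cap, 2)] : List (Kind × ℕ)) ++ t ++ ([(.cap, 0)] : List (Kind × ℕ))) := by
    refine lstep (P := 2) ([(.cup, 1)] : List (Kind × ℕ)) ([(.cap, 0)] : List (Kind × ℕ)) (by simp) (by simp) (M := 4) rfl fw ?_ ?_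
    · rw [cnt_app t4]
      rfl
    · simp [cnt, Kind.ins]
  have s3 : EqD 2 (([(.cup, 1), (.cap, 2)] : List (Kind × ℕ)) ++ t ++ ([(.cap, 0)] : List (Kind × ℕ))) (t ++ ([(.cap, 0)] : List (Kind × ℕ))) := by
    refine lstep (P := 2) [] (t ++ ([(.cap, 0)] : List (Kind × ℕ))) (x := ([(.cup, 1), (.cap, 2)] : List (Kind × ℕ))) (y := []) (by simp)
      (by simp) rfl (EqD.of_chk [(0, false, .zz 1)] rfl) rfl ?_
    rw [cnt_app ht]
    simp [cnt, Kind.ins]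
  exact ((s1.trans s2).trans s3).symm

theorem part_d {t : Diag} (ht : cnt 2 t = some 2) :
    EqD 1 ((.cup, 1) :: (t ++ ([(.cap, 0)] : List (Kind × ℕ)))) (cl (t ++ rotD [])) := by
  have t3 : cnt 3 t = some 3 := cnt_widen 1 t 2 2 ht
  refine (lstep (P := 1) (([(.cup, 1)] : List (Kind × ℕ)) ++ t) [] (x := ([(.cup, 0), (.cap, 2), (.cap, 1)] : List (Kind × ℕ)))
    (y := ([(.cap, 0)] : List (Kind × ℕ))) (by simp [cl, rotD]) (by simp) (M := 3) ?_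
    (EqD.of_chk [(0, false, .far .cup .cap 0 0), (1, false, .zz 0)] rfl) rfl (by simp [cnt])).symm
  rw [cnt_app (M := 3) rfl]
  exact t3

theorem hrot_nil : EqD 2 (hD 2 (rotD [])) (rotD []) :=
  EqD.of_chk [(0, true, .far .cap .cup 0 0), (0, true, .far .cup .cap 0 0)] rfl

end Spg

open Spg in
theorem t_SPG (h1 : FSY_Stmt) (h2 : FEQ_Stmt) (h3 : FCG_Stmt) (h4 : FRO_Stmt) (h5 : FFL_Stmt)
    (h6 : FIT_Stmt) (h8 : FC0_Stmt) (h9 : FTA_Stmt) : SPG_Stmt := by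
  refine ⟨fun t ht => ⟨part_a ht, part_b ht, part_c ht, part_d ht⟩, fun a => ?_, fun a => ?_⟩
  · have ca : cnt 2 a.dg = some 2 := h3.2.2.2.2.1 a
    have cn : cnt 2 ([] : Diag) = some 2 := rfl
    have cr : cnt 2 (rotD []) = some 2 := rfl
    obtain ⟨X, hX1, hX2⟩ := h9.2.1 a
    refine ⟨X, hX1, ?_⟩
    have s1 : EqD 1 (cl (rotD [] ++ rotD a.dg)) (cl (rotD (hD 2 (rotD [])) ++ flipD a.dg)) :=
      h8 (rotD []) a.dg cr ca
    have ch : cnt 2 (hD 2 (rotD [])) = some 2 := cnt_hD _ cr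
    have cf : cnt 2 (flipD a.dg) = some 2 := cnt_flip _ ca
    have s2 : EqD 2 (rotD (hD 2 (rotD []))) [] :=
      ((h3.1 _ _ hrot_nil ch).1).trans h6.2.2.2.2.1
    have s3 : EqD 2 (rotD (hD 2 (rotD [])) ++ flipD a.dg) ([] ++ X.dg) :=
      h3.2.1 _ _ _ _ s2 hX2 ((h3.2.2.2.1 _ ch).1) cf
    have c3 : cnt 2 (rotD (hD 2 (rotD [])) ++ flipD a.dg) = some 2 := by
      rw [cnt_app ((h3.2.2.2.1 _ ch).1)]
      exact cf
    exact s1.trans ((h3.1 _ _ s3 c3).2)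
  · have ca : cnt 2 a.dg = some 2 := h3.2.2.2.2.1 a
    have cn : cnt 2 ([] : Diag) = some 2 := rfl
    have cr : cnt 2 (rotD a.dg) = some 2 := (h3.2.2.2.1 _ ca).1
    obtain ⟨X, hX1, hX2⟩ := h9.1 a
    refine ⟨X, hX1, ?_⟩
    have s1 : EqD 1 (cl (rotD a.dg ++ rotD [])) (cl (rotD (hD 2 (rotD a.dg)) ++ flipD [])) :=
      h8 (rotD a.dg) [] cr cn
    have cha : cnt 2 (hD 2 a.dg) = some 2 := cnt_hD _ ca
    have cfa : cnt 2 (flipD a.dg) = some 2 := cnt_flip _ ca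
    have chr : cnt 2 (hD 2 (rotD a.dg)) = some 2 := cnt_hD _ cr
    -- `hD 2 (rotD a) ~ rotD (flipD a)`
    have s2 : EqD 2 (hD 2 (rotD a.dg)) (rotD (flipD a.dg)) := by
      have e := (h4 (hD 2 a.dg) cha).2
      rw [pD_hD a.dg (ne_of_some ca)] at e
      rw [(h1.2.2.1 a.dg ca).1]
      exact e
    have s3 : EqD 2 (rotD (rotD (flipD a.dg))) (hD 2 a.dg) := by
      have e := (h4 (flipD a.dg) cfa).1
      have e2 : pD 2 (flipD a.dg) = hD 2 a.dg := by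
        have := h1.2.1 a.dg 2 2 ca
        tauto
      rwa [e2] at e
    have s4 : EqD 2 (rotD (hD 2 (rotD a.dg))) X.dg :=
      (((h3.1 _ _ s2 chr).1).trans s3).trans hX2
    have c4 : cnt 2 (rotD (hD 2 (rotD a.dg))) = some 2 := (h3.2.2.2.1 _ chr).1
    have s5 : EqD 1 (cl (rotD (hD 2 (rotD a.dg)) ++ flipD [])) (cl X.dg) := by
      rw [flipD_nil, List.append_nil]
      exact (h3.1 _ _ s4 c4).2
    exact s1.trans s5

end Pool.Agent.UA
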