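import Pool.Agent.UA.StF

/-!
Theorem U (MP_31fd3b_gt), block F: SPK, the closure of a tree which splits is a connected sum.
-/

namespace Pool.Agent.UA

open Pool.Agent.LibH11.Sliced Pool.Agent.TwoBr Pool.Agent.Mont

namespace Spk

/-- a bead which is `f` or its rotation is the closure of a tree -/
theorem bead_tree (h1 : FSY_Stmt) (h3 : FCG_Stmt) (h5 : FFL_Stmt) (h9 : FTA_Stmt) (X : Tr)
    (f' : Diag) (hf : f' = cl X.dg ∨ f' = pD 1 (cl X.dg)) :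
    ∃ X' : Tr, X'.size ≤ X.size ∧ EqD 1 f' (cl X'.dg) := by
  rcases hf with rfl | rfl
  · exact ⟨X, le_rfl, EqD.refl _⟩
  · have hX : cnt 2 X.dg = some 2 := h3.2.2.2.2.1 X
    obtain ⟨X', hs, he⟩ := h9.2.1 X
    refine ⟨X', hs, ?_⟩
    have e1 : EqD 1 (pD 1 (cl X.dg)) (flipD (cl X.dg)) :=
      (h5.2.2 (cl X.dg) (h3.2.2.2.1 X.dg hX).2).2
    have e2 : flipD (cl X.dg) = cl (flipD X.dg) := (h1.2.2.1 X.dg hX).2.2
    rw [e2] at e1
    exact e1.trans (h3.1 _ _ he (cnt_flip _ hX)).2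

/-- the bead in front of or behind a long diagram -/
theorem parts (h10 : LKB_Stmt) {f w : Diag} (hf : cnt 1 f = some 1) (hw : cnt 1 w = some 1) :
    (IsLongKnot (f ++ w) → IsLongKnot f) ∧ (IsLongKnot (w ++ f) → IsLongKnot f) := by
  constructor
  · intro h
    refine (h10 [] w f 0 1 hf rfl (by omega) ?_).2
    rw [sh_zero]
    exact h
  · intro h
    refine (h10 w [] f 0 1 hf hw (by omega) ?_).2
    rw [sh_zero, List.append_nil]
    exact h

end Spk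

theorem t_SPK (h1 : FSY_Stmt) (_h2 : FEQ_Stmt) (h3 : FCG_Stmt) (h5 : FFL_Stmt) (h9 : FTA_Stmt)
    (h10 : LKB_Stmt) (h11 : BOUT_Stmt) : SPK_Stmt := by
  rintro T ⟨u, v, j, n, X, T', hX, hT', hu, hj, e1, e2⟩ hK
  have cT : cnt 2 T.dg = some 2 := h3.2.2.2.2.1 T
  have cT' : cnt 2 T'.dg = some 2 := h3.2.2.2.2.1 T'
  have cX : cnt 2 X.dg = some 2 := h3.2.2.2.2.1 X
  have cf : cnt 1 (cl X.dg) = some 1 := (h3.2.2.2.1 _ cX).2
  have cuv : cnt 2 (u ++ v) = some 2 := by rw [e2.cnt_eq]; exact cT'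
  have cw : cnt 1 (cl (u ++ v)) = some 1 := (h3.2.2.2.1 _ cuv).2
  -- the closure as a stack with a bead
  have cU : cnt 1 ((Kind.cup, 1) :: u) = some (n + 1) := by
    have := cnt_widen 1 u 2 n hu
    simpa [cnt, Kind.ins, Kind.outs] using this
  have E1 : EqD 1 (cl T.dg)
      (((Kind.cup, 1) :: u) ++ sh j (cl X.dg) ++ (v ++ [(Kind.cap, 1)])) := by
    have := (h3.1 _ _ e1 cT).2
    have e : cl (u ++ sh j (cl X.dg) ++ v) =
        ((Kind.cup, 1) :: u) ++ sh j (cl X.dg) ++ (v ++ [(Kind.cap, 1)]) := by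
      simp [cl]
    rw [e] at this
    exact this
  have E2 : ((Kind.cup, 1) :: u) ++ (v ++ [(Kind.cap, 1)]) = cl (u ++ v) := by simp [cl]
  have hK1 := E1.isLongKnot hK
  have hK2 := h10 _ _ _ j (n + 1) cf cU (by omega) hK1
  obtain ⟨f', hf', hb⟩ := h11 ((Kind.cup, 1) :: u) (v ++ [(Kind.cap, 1)]) (cl X.dg) j (n + 1) cf cU
    (by omega) hK2.1
  rw [E2] at hb hK2
  obtain ⟨X', hs, eX⟩ := Spk.bead_tree h1 h3 h5 h9 X f' hf'
  have cX' : cnt 1 (cl X'.dg) = some 1 := (h3.2.2.2.1 _ (h3.2.2.2.2.1 X')).2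
  have cf' : cnt 1 f' = some 1 := by rw [eX.cnt_eq]; exact cX'
  have eT : EqD 1 (cl (u ++ v)) (cl T'.dg) := (h3.1 _ _ e2 cuv).2
  have hlT : IsLongKnot (cl T'.dg) := eT.isLongKnot hK2.1
  rcases hb with hb | hb
  · have e3 := E1.trans hb
    have hl : IsLongKnot f' := (Spk.parts h10 cf' cw).1 (e3.isLongKnot hK)
    exact ⟨X', T', by omega, hT', eX.isLongKnot hl, hlT,
      e3.trans (h3.2.2.1 _ _ _ _ eX eT cf' cw)⟩
  · have e3 := E1.trans hb
    have hl : IsLongKnot f' := (Spk.parts h10 cf' cw).2 (e3.isLongKnot hK)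
    exact ⟨T', X', hT', by omega, hlT, eX.isLongKnot hl,
      e3.trans (h3.2.2.1 _ _ _ _ eT eX cw cf')⟩

end Pool.Agent.UA
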