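import Pool.Agent.UA.StF

/-!
Theorem U (MP_31fd3b_gt), block F: VRU, local reductions of trees.
-/

namespace Pool.Agent.UA

open Pool.Agent.LibH11.Sliced Pool.Agent.TwoBr Pool.Agent.Mont

namespace Vru

theorem dg_cons (a b : Tr) : (Tr.cons a b).dg = rotD a.dg ++ b.dg := rfl

theorem dg_pw (e : ℤ) : (Tr.pw e).dg = ht e := rfl

theorem ht_nil : ht 0 = [] := rfl

theorem cnt_two {s t : Diag} (hs : cnt 2 s = some 2) (ht : cnt 2 t = some 2) :
    cnt 2 (s ++ t) = some 2 := by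
  rw [cnt_app hs, ht]

/-- half twists with one crossing -/
theorem ht_abs {e : ℤ} (he : |e| = 1) : ∃ b : Bool, ht e = [(.crs b, 0)] ∧ ht (-e) = [(.crs (!b), 0)] := by
  rcases (abs_eq (by norm_num : (0 : ℤ) ≤ 1)).1 he with h | h
  · subst h
    exact ⟨true, rfl, rfl⟩
  · subst h
    exact ⟨false, rfl, rfl⟩

end Vru

open Vru in
theorem t_VRU (h3 : FCG_Stmt) (h4 : FRO_Stmt) (h5 : FIT_Stmt) (h6 : FR3_Stmt) (h7 : FTA_Stmt) :
    VRU_Stmt := by
  obtain ⟨g1, g2, -, g4, g5, -, -⟩ := h3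
  obtain ⟨-, f2, f3, -, -, -⟩ := h5
  obtain ⟨-, -, a3, a4, a5, -⟩ := h7
  have hcht : ∀ e : ℤ, cnt 2 (ht e) = some 2 := fun e => g5 (.pw e)
  refine ⟨?_, ?_, ?_, ?_⟩
  · intro e b he
    obtain ⟨T', hT, hE⟩ := a4 (.pw (-e)) b
    refine ⟨T', ?_, ?_⟩
    · have h1 : (Tr.pw (-e)).size = e.natAbs := by
        change (-e).natAbs = e.natAbs
        exact Int.natAbs_neg e
      have h2 : (Tr.cons (.pw e) b).size = e.natAbs + 2 + b.size := rfl
      omega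
    · rw [dg_cons, dg_pw]
      exact (g2 _ _ _ _ (f3 e he).1 (EqD.refl b.dg) (g4 _ (hcht e)).1 (g5 b)).trans hE
  · intro x b
    obtain ⟨X, hX, hXE⟩ := a3 x
    obtain ⟨T', hT, hE⟩ := a4 X b
    refine ⟨T', ?_, ?_⟩
    · have h2 : (Tr.cons (.cons x (.pw 0)) b).size = x.size + 2 + 0 + 2 + b.size := rfl
      omega
    · rw [dg_cons, dg_cons, dg_pw, ht_nil, List.append_nil]
      have hc := (g4 _ (g4 _ (g5 x)).1).1
      exact (g2 _ _ _ _ ((h4 _ (g5 x)).1.trans hXE) (EqD.refl b.dg) hc (g5 b)).trans hE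
  · intro e x b he
    obtain ⟨c, hc1, hc2⟩ := ht_abs he
    obtain ⟨-, -, Y, hY, hYE⟩ := a5 x (-e)
    obtain ⟨-, -, Z, hZ, hZE⟩ := a5 (.cons Y (.pw 0)) (-e)
    obtain ⟨T', hT, hE⟩ := a4 Z b
    have hn : (-e).natAbs = 1 := by
      rw [Int.natAbs_neg]
      have := Int.natCast_natAbs e
      omega
    refine ⟨T', ?_, ?_⟩
    · have h1 : (Tr.cons Y (.pw 0)).size = Y.size + 2 + 0 := rfl
      have h2 : (Tr.cons (.cons x (.pw e)) b).size = x.size + 2 + e.natAbs + 2 + b.size := rfl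
      have h3 : e.natAbs = 1 := by rw [← Int.natAbs_neg]; exact hn
      omega
    · have k1 : EqD 2 (rotD (rotD x.dg ++ ht e)) (ht (-e) ++ rotD (ht (-e) ++ x.dg)) := by
        rw [hc1, hc2]
        exact h6 x.dg c (g5 x)
      have k2 : EqD 2 (ht (-e) ++ rotD (ht (-e) ++ x.dg)) (ht (-e) ++ (Tr.cons Y (.pw 0)).dg) := by
        rw [dg_cons, dg_pw, ht_nil, List.append_nil]
        have hcx := cnt_two (hcht (-e)) (g5 x)
        exact g2 _ _ _ _ (EqD.refl _) (g1 _ _ hYE hcx).1 (hcht (-e)) (g4 _ hcx).1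
      rw [dg_cons, dg_cons, dg_pw]
      have hc := (g4 _ (cnt_two (g4 _ (g5 x)).1 (hcht e))).1
      exact (g2 _ _ _ _ ((k1.trans k2).trans hZE) (EqD.refl b.dg) hc (g5 b)).trans hE
  · intro e
    rw [dg_cons, dg_cons, dg_pw, dg_pw, ht_nil, List.append_nil]
    exact f2 e

end Pool.Agent.UA
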