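import Pool.Agent.UA.Asm
import Pool.Agent.UA.Fsy
import Pool.Agent.UA.Feq
import Pool.Agent.UA.Fcg
import Pool.Agent.UA.Fro
import Pool.Agent.UA.Ffl
import Pool.Agent.UA.Fit
import Pool.Agent.UA.Fr3
import Pool.Agent.UA.Fc0
import Pool.Agent.UA.Fta
import Pool.Agent.UA.Vru
import Pool.Agent.UA.Rrt
import Pool.Agent.UA.Bps
import Pool.Agent.UA.Lkb
import Pool.Agent.UA.Bout
import Pool.Agent.UA.Spg
import Pool.Agent.UA.Spc
import Pool.Agent.UA.Loc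
import Pool.Agent.UA.Spk
import Pool.Agent.UA.Ftop

/-!
Theorem U (MP_31fd3b_gt): assembly of the topological block F.
-/

namespace Pool.Agent.UA

theorem fta_all : FTA_Stmt := by
  have h1 := t_FSY
  have h2 := t_FEQ h1
  have h3 := t_FCG
  have h4 := t_FRO h1 h2 h3
  have h5 := t_FFL h1
  exact t_FTA h1 h2 h3 h4 h5

theorem ftop_all : FTOP_Stmt := by
  have h1 := t_FSY
  have h2 := t_FEQ h1
  have h3 := t_FCG
  have h4 := t_FRO h1 h2 h3
  have h5 := t_FFL h1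
  have h6 := t_FIT h3
  have h7 := t_FR3 h1 h2 h3 h4 h5
  have h8 := t_FC0 h1 h2 h3 h4 h5
  have h9 := t_FTA h1 h2 h3 h4 h5
  have h10 := t_VRU h3 h4 h6 h7 h9
  have h11 := t_RRT h1 h2 h3 h4 h5 h6 h7 h8 h9
  have h12 := t_BPS h1
  have h13 := t_LKB
  have h14 := t_BOUT h1 h12
  have h15 := t_SPG h1 h2 h3 h4 h5 h6 h8 h9
  have h16 := t_SPC h3 h6 h9 h15
  have h17 := t_LOC h3 h10 h16
  have h18 := t_SPK h1 h2 h3 h5 h9 h13 h14
  exact t_FTOP h3 h6 h11 h16 h17 h18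

end Pool.Agent.UA
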