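import Pool.Agent.UA.Asm
import Pool.Agent.UA.StE

/-!
Theorem U (MP_31fd3b_gt), block E: the conclusion.
-/

namespace Pool.Agent.UA

/-- JFIN from JON and WFI. -/
theorem t_JFIN (h1 : JON_Stmt) (h2 : WFI_Stmt) : JFIN_Stmt := fun Ts h h0 hv =>
  ⟨fun T hT => (h1 Ts h h0 hv T hT).1, fun T hT hc hok =>
    h2 T hc (h1 Ts h h0 hv T hT).1 hok (h1 Ts h h0 hv T hT).2⟩

end Pool.Agent.UA
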