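import Pool.Agent.UA.Jfin
import Pool.Agent.UA.Jon
import Pool.Agent.UA.Bvn
import Pool.Agent.UA.Jpv
import Pool.Agent.UA.Jdv
import Pool.Agent.UA.Sgn
import Pool.Agent.UA.Ratg
import Pool.Agent.UA.Ratj
import Pool.Agent.UA.Wad
import Pool.Agent.UA.Wle
import Pool.Agent.UA.Wst
import Pool.Agent.UA.Wfi
import Pool.Agent.UA.Kbg
import Pool.Agent.UA.Mulg
import Pool.Agent.UA.Jnat
import Pool.Agent.UA.Kbm
import Pool.Agent.UA.Jone
import Pool.Agent.UA.Jdiv
import Pool.Agent.UB.Act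
import Pool.Agent.UB.Prd

/-!
Theorem U (MP_31fd3b_gt), block E: the conclusion, unconditional.
-/

namespace Pool.Agent.UA

theorem jpv : JPV_Stmt := t_JPV
theorem jdv : JDV_Stmt := t_JDV jpv
theorem ratg : RATG_Stmt := t_RATG
theorem ratj : RATJ_Stmt := t_RATJ jpv ratg jdv
theorem wad : WAD_Stmt := t_WAD jpv jdv
theorem kbm : KBM_Stmt := t_KBM jpv

/-- The part of Theorem U which comes from the Jones polynomial. -/
theorem jfin_all : JFIN_Stmt := by
  have sgn : SGN_Stmt := t_SGN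
  have wle : WLE_Stmt := t_WLE jpv jdv sgn ratj wad
  have wst : WST_Stmt := t_WST sgn wle
  have wfi : WFI_Stmt := t_WFI jpv jdv sgn wle wst
  have jone : JONE_Stmt := t_JONE t_KBG t_JNAT
  have jdiv : JDIV_Stmt := t_JDIV Pool.Agent.UB.t_ACT Pool.Agent.UB.t_PRD t_MULG kbm
  exact t_JFIN (t_JON jone jdiv t_BVN) wfi

end Pool.Agent.UA
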