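import Pool.Agent.UA.StF

/-!
Theorem U (MP_31fd3b_gt), block F (topology): module LOC. Proof: PAPER_F.md in this folder.
-/

namespace Pool.Agent.UA

open Pool.Agent.LibH11.Sliced Pool.Agent.TwoBr Pool.Agent.Mont

namespace Loc

theorem dg_cons (a b : Tr) : (Tr.cons a b).dg = rotD a.dg ++ b.dg := rfl

theorem size_cons (a b : Tr) : (Tr.cons a b).size = a.size + 2 + b.size := rfl

/-- replacement of the two subtrees -/
theorem congr_cons (h1 : FCG_Stmt) {a a' b b' : Tr} (ha : EqD 2 a.dg a'.dg)
    (hb : EqD 2 b.dg b'.dg) : EqD 2 (Tr.cons a b).dg (Tr.cons a' b').dg := by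
  obtain ⟨h11, h12, -, h14, h15, -, -⟩ := h1
  rw [dg_cons, dg_cons]
  exact h12 _ _ _ _ (h11 _ _ ha (h15 a)).1 hb (h14 _ (h15 a)).1 (h15 b)

end Loc

open Loc in
theorem t_LOC (h1 : FCG_Stmt) (h2 : VRU_Stmt) (h3 : SPC_Stmt) : LOC_Stmt := by
  intro T
  induction T with
  | pw e => exact Or.inl trivial
  | cons a b iha ihb =>
    obtain ⟨v1, v2, v3, v4⟩ := h2
    obtain ⟨s1, s2, s3, s4⟩ := h3
    rcases iha with ha | ha | ⟨a', ha1, ha2⟩ | ha
    · rcases ihb with hb | hb | ⟨b', hb1, hb2⟩ | hb
      · by_cases hk : a.kids ≤ 1 → 2 ≤ |a.ex|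
        · exact Or.inl ⟨ha, hk, hb⟩
        · push Not at hk
          obtain ⟨hk1, hk2⟩ := hk
          cases a with
          | pw e =>
            have he : |e| < 2 := hk2
            by_cases h0 : e = 0
            · subst h0
              cases b with
              | pw e' =>
                by_cases h0' : e' = 0
                · subst h0'
                  exact Or.inr (Or.inl rfl)
                · refine Or.inr (Or.inr (Or.inl ⟨.cons (.pw 0) (.pw 0), ?_, v4 e'⟩))
                  have h5 : 0 < e'.natAbs := Int.natAbs_pos.2 h0'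
                  show (0 : ℤ).natAbs + 2 + (0 : ℤ).natAbs < (0 : ℤ).natAbs + 2 + e'.natAbs
                  simp only [Int.natAbs_zero]
                  omega
              | cons c d => exact Or.inr (Or.inr (Or.inr (s1 c d)))
            · have h5 : 1 ≤ |e| := Int.one_le_abs h0
              exact Or.inr (Or.inr (Or.inl (v1 e b (by omega))))
          | cons x y =>
            cases y with
            | pw e =>
              have he : |e| < 2 := hk2
              by_cases h0 : e = 0
              · subst h0
                exact Or.inr (Or.inr (Or.inl (v2 x b)))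
              · have h5 : 1 ≤ |e| := Int.one_le_abs h0
                exact Or.inr (Or.inr (Or.inl (v3 e x b (by omega))))
            | cons c d =>
              have h6 : d.kids + 1 + 1 ≤ 1 := hk1
              omega
      · subst hb
        exact Or.inr (Or.inr (Or.inr (s2 a)))
      · refine Or.inr (Or.inr (Or.inl ⟨.cons a b', ?_, congr_cons h1 (EqD.refl _) hb2⟩))
        rw [size_cons, size_cons]
        omega
      · exact Or.inr (Or.inr (Or.inr (s4 a b hb)))
    · subst ha
      exact Or.inr (Or.inr (Or.inl (v2 (.pw 0) b)))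
    · refine Or.inr (Or.inr (Or.inl ⟨.cons a' b, ?_, congr_cons h1 ha2 (EqD.refl _)⟩))
      rw [size_cons, size_cons]
      omega
    · exact Or.inr (Or.inr (Or.inr (s3 a b ha)))

end Pool.Agent.UA
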