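import Pool.Agent.UA.Defs
import Pool.Agent.T3.Stmts2

/-!
Theorem U (MP_31fd3b_gt), block E (Jones polynomial to second order), algebraic part: definitions
and statements. Proofs: PAPER_E.md in this folder.
-/

open scoped BigOperators

namespace Pool.Agent.UA

open Pool.Agent.LibH11.Sliced Pool.Agent.TwoBr Pool.Agent.Mont Pool.Agent.MTR

/-! ### 1. Vectors over a ring with a unit `s` -/

section Ring

variable {R : Type} [CommRing R] (s : Rˣ)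

/-- `β = s^2 - s^-2` -/
def be : R := ((s ^ 2 : Rˣ) : R) - ((s⁻¹ ^ 2 : Rˣ) : R)

/-- product of tangles -/
def mulv (v w : R × R) : R × R := (v.2 * w.1 + v.1 * w.2 + be s * v.1 * w.1, v.2 * w.2)

/-- rotation -/
def rotv (v : R × R) : R × R := (-v.2, v.1)

/-- the value of the closure -/
def clv (v : R × R) : R := v.1 - be s * v.2

/-- the vector of `e` half twists -/
def pv : ℤ → R × R
  | Int.ofNat e => (-((s ^ 2 : Rˣ) : R) * ∑ k ∈ Finset.range e, ((s ^ (4 * k) : Rˣ) : R),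
      ((s ^ (4 * e) : Rˣ) : R))
  | Int.negSucc e => (((s⁻¹ ^ 2 : Rˣ) : R) * ∑ k ∈ Finset.range (e + 1), ((s⁻¹ ^ (4 * k) : Rˣ) : R),
      ((s⁻¹ ^ (4 * (e + 1)) : Rˣ) : R))

/-- the vector of a tree -/
def bv : Tr → R × R
  | .pw e => pv s e
  | .cons a b => mulv s (rotv (bv a)) (bv b)

end Ring

/-- JPV: elementary properties of the vectors. -/
def JPV_Stmt : Prop :=
  ∀ (R : Type) [CommRing R] (s : Rˣ),
    (∀ u v w : R × R, mulv s u v = mulv s v u ∧ mulv s (mulv s u v) w = mulv s u (mulv s v w) ∧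
      mulv s (0, 1) v = v ∧ clv s (mulv s (rotv u) v) = clv s (mulv s u (rotv v)) ∧
      (mulv s u v).2 + be s * (mulv s u v).1 = (u.2 + be s * u.1) * (v.2 + be s * v.1) ∧
      clv s (rotv v) = -(v.2 + be s * v.1)) ∧
    (∀ a b : ℤ, mulv s (pv s a) (pv s b) = pv s (a + b)) ∧
    (∀ a : ℤ, (pv s a).2 = ((s ^ (4 * a) : Rˣ) : R) ∧ (pv s a).2 + be s * (pv s a).1 = 1) ∧
    (∀ (T : Tr) (c : ℤ), bv s (T.shift c) = mulv s (pv s c) (bv s T)) ∧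
    ∀ v : R × R, mulv s (pv s 1) (rotv (mulv s (pv s 1) (rotv (mulv s (pv s 1) (rotv v))))) =
      (((s ^ 6 : Rˣ) : R) * v.1, ((s ^ 6 : Rˣ) : R) * v.2)

/-! ### 2. Power series -/

/-- the ring of jets -/
abbrev JR : Type := PowerSeries ℂ

/-- `exp X` as a unit -/
noncomputable def sx : JRˣ where
  val := PowerSeries.exp ℂ
  inv := PowerSeries.evalNegHom (PowerSeries.exp ℂ)
  val_inv := PowerSeries.exp_mul_exp_neg_eq_one
  inv_val := by rw [mul_comm]; exact PowerSeries.exp_mul_exp_neg_eq_one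

/-- coefficients -/
noncomputable def cf (k : ℕ) (f : JR) : ℂ := PowerSeries.coeff k f

/-- a monomial: `c s^m`, `c ≠ 0` -/
def Mon (f : JR) : Prop := ∃ (c : ℂ) (m : ℤ), c ≠ 0 ∧ f = PowerSeries.C c * ((sx ^ m : JRˣ) : JR)

/-- the second logarithmic derivative -/
noncomputable def w2 (f : JR) : ℂ := 2 * cf 2 f / cf 0 f - (cf 1 f / cf 0 f) ^ 2

/-- the first order determinant -/
noncomputable def dv (v : JR × JR) : ℂ := cf 0 v.1 * cf 1 v.2 - cf 0 v.2 * cf 1 v.1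

/-- the deviation from the rational vectors -/
noncomputable def ev (v : JR × JR) : ℂ := dv v - 2 + 2 * ((cf 0 v.1) ^ 2 + (cf 0 v.2) ^ 2)

/-- the deviation of a tree -/
def eT : Tr → ℤ
  | .pw _ => 0
  | .cons a b => (vec b).2 ^ 2 * eT a + (vec a).1 ^ 2 * eT b -
      2 * ((vec a).1 ^ 2 - 1) * ((vec b).2 ^ 2 - 1)

/-- JDV: first order. -/
def JDV_Stmt : Prop :=
  (∀ v w : JR × JR, ev (mulv sx v w) = (cf 0 w.2) ^ 2 * ev v + (cf 0 v.2) ^ 2 * ev w -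
    2 * ((cf 0 v.2) ^ 2 - 1) * ((cf 0 w.2) ^ 2 - 1)) ∧
  (∀ v : JR × JR, ev (rotv v) = ev v) ∧
  (∀ T : Tr, cf 0 (bv sx T).1 = ((vec T).1 : ℂ) ∧ cf 0 (bv sx T).2 = ((vec T).2 : ℂ) ∧
    ev (bv sx T) = (eT T : ℂ)) ∧
  (∀ v w : JR × JR, cf 0 (mulv sx v w).1 = cf 0 v.2 * cf 0 w.1 + cf 0 v.1 * cf 0 w.2 ∧
    cf 0 (mulv sx v w).2 = cf 0 v.2 * cf 0 w.2 ∧ cf 0 (clv sx v) = cf 0 v.1) ∧
  ∀ f g : JR, (cf 0 f ≠ 0 → cf 0 g ≠ 0 → w2 (f * g) = w2 f + w2 g) ∧ w2 (-f) = w2 f ∧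
    (Mon f → w2 f = 0 ∧ cf 0 f ≠ 0)

/-- the determinant of the closure of the product -/
def dt (L V : ℤ × ℤ) : ℤ := (addv L V).1

/-- SGN: signs. -/
def SGN_Stmt : Prop :=
  (∀ (L : ℤ × ℤ) (T : Tr), |dt L (vec T)| = 1 →
    IsCoprime (vec T).1 (vec T).2 ∧ IsCoprime L.1 L.2 ∧ IsCoprime L.2 (vec T).2 ∧ eT T ≤ 0 ∧
      (T.Rat → eT T = 0) ∧ (T.RC → ¬ T.Rat → eT T < 0)) ∧
  (∀ (L : ℤ × ℤ) (a b : Tr), |dt L (vec (.cons a b))| = 1 →
    |dt (rv (addv L (vec b))) (vec a)| = 1 ∧ |dt (addv L (rv (vec a))) (vec b)| = 1 ∧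
      IsCoprime (vec a).1 (vec b).2 ∧ IsCoprime L.2 (vec a).1 ∧ IsCoprime L.2 (vec b).2) ∧
  ∀ T : Tr, T.RC → T.Rat → (T.kids ≤ 1 → 2 ≤ |T.ex|) →
    |(vec T).2| < |(vec T).1| ∧ 1 ≤ |(vec T).2|

/-! ### 3. Rational trees -/

/-- RATG: the tangle of a rational tree is determined by its vector up to sign (abstract form). -/
def RATG_Stmt : Prop :=
  ∀ (X : Type) (c c' r : X → X) (x0 : X) (rev : Tr → X),
    (∀ x, c (c' x) = x) → (∀ x, c' (c x) = x) → (∀ x, r (r x) = x) →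
    (∀ x, c (r (c (r (c (r x))))) = x) → r (c (r x0)) = x0 →
    rev (.pw 0) = x0 → (∀ T : Tr, T.Rat → rev (T.shift 1) = c (rev T)) →
    (∀ a : Tr, a.Rat → rev (.cons a (.pw 0)) = r (rev a)) →
    ∀ T T' : Tr, T.Rat → T'.Rat → (vec T = vec T' ∨ vec T = -vec T') → rev T = rev T'

/-- RATJ: rational vectors. -/
def RATJ_Stmt : Prop :=
  (∀ A p : ℤ, IsCoprime A p → ∃ R : Tr, R.Rat ∧ (vec R = (A, p) ∨ vec R = (-A, -p))) ∧
  (∀ S R : Tr, S.Rat → R.Rat → |dt (vec S) (vec R)| = 1 →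
    Mon (clv sx (mulv sx (bv sx S) (bv sx R)))) ∧
  ∀ S R Q : Tr, S.Rat → R.Rat → Q.Rat → |dt (vec S) (addv (vec R) (vec Q))| = 1 →
    (|(vec S).2| = 1 ∨ |(vec R).2| = 1 ∨ |(vec Q).2| = 1) →
    Mon (clv sx (mulv sx (bv sx S) (mulv sx (bv sx R) (bv sx Q))))

/-! ### 4. Second order -/

/-- WAD: additivity of the second logarithmic derivative. -/
def WAD_Stmt : Prop :=
  ∀ (l v S R : JR × JR) (a b : ℂ), (a = 1 ∨ a = -1) → (b = 1 ∨ b = -1) →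
    cf 0 S.1 = a * cf 0 l.1 → cf 0 S.2 = a * cf 0 l.2 → cf 0 R.1 = b * cf 0 v.1 →
    cf 0 R.2 = b * cf 0 v.2 → ev S = 0 → ev R = 0 →
    (cf 0 (clv sx (mulv sx l v)) = 1 ∨ cf 0 (clv sx (mulv sx l v)) = -1) →
    w2 (clv sx (mulv sx l v)) + w2 (clv sx (mulv sx S R)) =
      w2 (clv sx (mulv sx S v)) + w2 (clv sx (mulv sx l R)) - 2 * ev l * ev v

/-- `w2` of the closure of a rational tree and a tree -/
noncomputable def W (S T : Tr) : ℂ := w2 (clv sx (mulv sx (bv sx S) (bv sx T)))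

/-- WLE: the recursion and the general inequality. `S1` is a rational reference for the context of
`a`, `S2` for the context of `b`. -/
def WLE_Stmt : Prop :=
  (∀ S a b : Tr, S.Rat → |dt (vec S) (vec (.cons a b))| = 1 → OK (vec S) (.cons a b) →
    ∃ S1 S2 : Tr, S1.Rat ∧ S2.Rat ∧
      (vec S1 = rv (addv (vec S) (vec b)) ∨ vec S1 = -rv (addv (vec S) (vec b))) ∧
      (vec S2 = addv (vec S) (rv (vec a)) ∨ vec S2 = -addv (vec S) (rv (vec a))) ∧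
      W S (.cons a b) = W S1 a + W S2 b -
        2 * (((vec S).2 ^ 2 * eT b - 2 * ((vec S).2 ^ 2 - 1) * ((vec b).2 ^ 2 - 1) : ℤ) : ℂ) * eT a -
        2 * ((-2 * ((vec S).2 ^ 2 - 1) * ((vec a).1 ^ 2 - 1) : ℤ) : ℂ) * eT b) ∧
  ∀ S T : Tr, S.Rat → |dt (vec S) (vec T)| = 1 → OK (vec S) T → (W S T).re ≤ 0

/-- WST: strict inequality in a reduced context. -/
def WST_Stmt : Prop :=
  ∀ S T : Tr, S.Rat → |dt (vec S) (vec T)| = 1 → OK (vec S) T → 2 ≤ |(vec S).2| →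
    |(vec S).1| < |(vec S).2| → T.RC → (T.kids ≤ 1 → 2 ≤ |T.ex|) → (W S T).re < 0

/-- WFI: the final statement of the second order part. -/
def WFI_Stmt : Prop :=
  ∀ T : Tr, T.CR → |(vec T).1| = 1 → OK (0, 1) T → Mon (clv sx (bv sx T)) →
    ∃ e : ℤ, T = .pw e ∧ |e| = 1

end Pool.Agent.UA
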